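import Pool.Agent.X69.Ric.PatT

/-!
# Patterns in sets of integers at which the values of a system of polynomials have no small prime factors:
# statements for sets
-/

set_option autoImplicit false

namespace Pool.Agent.X69.Ric

open Filter Topology Finset Polynomial
open Pool.Agent.W123.RU.Poly (Sys V_bounds)
open Pool.Agent.X26.GP (Zf NF mem_Zf_mod Zf_card_le OK_Zf om PX PX_eq pat)
open Pool.Agent.Y843.HS (VV)

variable {g : ℕ}

/-- `f · d` -/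
def dt {m : ℕ} (f d : Fin m → ℕ) : ℕ := ∑ i, f i * d i

/-- the number of the residues `u` modulo `q` such that `R q (u + f · d)` for some `f ∈ P` -/
noncomputable def omR (R : ℕ → ℕ → Prop) {m : ℕ} (d : Fin m → ℕ) (P : Finset (Fin m → ℕ)) (q : ℕ) : ℕ :=
  {u : ℕ | 1 ≤ u ∧ u ≤ q ∧ ∃ f ∈ P, R q (u + dt f d)}.ncard

/-- the product over the primes up to `X` -/
noncomputable def prR (w : ℕ → ℕ) (X : ℕ) : ℝ := ∏ q ∈ (Finset.Icc 1 X).filter Nat.Prime, (1 - (w q : ℝ) / q)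

/-- the number of the `n ∈ S` with all `n + f · d`, `f ∈ P`, in `S` -/
noncomputable def cnR (S : Set ℕ) {m : ℕ} (d : Fin m → ℕ) (P : Finset (Fin m → ℕ)) : ℕ :=
  {n : ℕ | n ∈ S ∧ ∀ f ∈ P, n + dt f d ∈ S}.ncard

/-- all the `n + f · d`, `|f i| ≤ K`, are in `S` -/
def CenR (K : ℕ) (S : Set ℕ) {m : ℕ} (n : ℕ) (d : Fin m → ℕ) : Prop :=
  ∀ f : Fin m → ℤ, (∀ i, |f i| ≤ K) → ∃ s ∈ S, (s : ℤ) = n + ∑ i, f i * (d i : ℤ)

/-- the number of the `d ∈ {1, ..., D} ^ m` with `CenR` -/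
noncomputable def patR (K m D : ℕ) (S : Set ℕ) (n : ℕ) : ℕ :=
  {d : Fin m → ℕ | (∀ i, 1 ≤ d i ∧ d i ≤ D) ∧ CenR K S n d}.ncard

theorem mem_box {m D : ℕ} {d : Fin m → ℕ} :
    d ∈ Fintype.piFinset (fun _ : Fin m => Finset.Icc 1 D) ↔ ∀ i, 1 ≤ d i ∧ d i ≤ D := by
  rw [Fintype.mem_piFinset]
  simp only [Finset.mem_Icc]

/-- **Typical elements**, for sets of integers. -/
theorem sys_typS (F : Fin g → ℤ[X]) (hF : Sys F) (R : ℕ → ℕ → Prop)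
    (hR : ∀ q n : ℕ, 1 ≤ n → ((∃ i, (q : ℤ) ∣ (F i).eval (n : ℤ)) → R q n)) (m K : ℕ) (hK : 1 ≤ K) (κ ε : ℝ)
    (hκ : 0 < κ) (hκ1 : κ ≤ 1) (hε : 0 < ε) : ∃ c : ℝ, 0 < c ∧ ∃ B : ℕ, ∀ᶠ X : ℕ in atTop, ∀ A D : ℕ,
    Real.log X ^ B ≤ D → D ≤ X → ∀ S : Set ℕ, S ⊆ Set.Ioc A (A + X) →
    (∀ n ∈ S, ∀ q : ℕ, q.Prime → R q n → (X : ℝ) ^ κ < q) →
    ({n : ℕ | n ∈ S ∧ (patR K m D S n : ℝ) <
      c * ((D : ℝ) ^ m / Real.log X ^ (g * ((2 * K + 1) ^ m - 1)))}.ncard : ℝ) ≤ ε * X / Real.log X ^ g := by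
  classical
  obtain ⟨c, hc, B, h⟩ := sys_typ F hF m K hK κ ε hκ hκ1 hε
  refine ⟨c, hc, B, ?_⟩
  filter_upwards [h] with X hX A D hBD hDX S hS hSR
  have hfin : S.Finite := (Set.finite_Ioc A (A + X)).subset hS
  obtain ⟨T, hT⟩ : ∃ T : Finset ℕ, T = hfin.toFinset := ⟨_, rfl⟩
  have hmem : ∀ n, n ∈ T ↔ n ∈ S := fun n => by rw [hT, Set.Finite.mem_toFinset]
  have hcen : ∀ n (d : Fin m → ℕ), Cen K T n d ↔ CenR K S n d := by
    intro n d
    unfold Cen CenR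
    simp only [hmem]
  have hpat : ∀ n, patR K m D S n =
      ((Fintype.piFinset (fun _ : Fin m => Finset.Icc 1 D)).filter (fun d => Cen K T n d)).card := by
    intro n
    unfold patR
    rw [← Set.ncard_coe_finset]
    congr 1
    ext d
    rw [Set.mem_ofPred_eq, Finset.mem_coe, Finset.mem_filter, mem_box, hcen]
  have h1 := hX A D hBD hDX T (fun n hn => by
    have := hS ((hmem n).1 hn)
    rw [Finset.mem_Ioc]
    exact this) (fun n hn i q hq hqX hd => by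
      have h2 := hS ((hmem n).1 hn)
      have h3 := hSR n ((hmem n).1 hn) q hq (hR q n (by have := h2.1; omega) ⟨i, hd⟩)
      linarith)
  refine le_trans (le_of_eq ?_) h1
  rw [← Set.ncard_coe_finset]
  congr 2
  ext n
  rw [Set.mem_ofPred_eq, Finset.mem_coe, Finset.mem_filter, hmem, hpat]

theorem om_omR (F : Fin g → ℤ[X]) (R : ℕ → ℕ → Prop)
    (hR : ∀ q n : ℕ, 1 ≤ n → (R q n ↔ ∃ i, (q : ℤ) ∣ (F i).eval (n : ℤ))) {m : ℕ} (d : Fin m → ℕ)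
    (P : Finset (Fin m → ℕ)) {q : ℕ} (hq : q.Prime) : om (∏ i, F i) d P q = omR R d P q := by
  classical
  unfold om omR
  have hper : Function.Periodic (fun u : ℕ => ∃ f ∈ P, (q : ℤ) ∣ (∏ i, F i).eval ((u : ℤ) + ∑ i, (f i : ℤ) * (d i : ℤ))) q := by
    intro u
    simp only [eq_iff_iff]
    apply exists_congr
    intro f
    apply and_congr_right
    intro _
    apply Pool.Agent.X26.GP.dvd_eval_iff
    push_cast
    exact ⟨1, by ring⟩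
  rw [← Nat.count_eq_card_filter_range, ← Nat.filter_Ico_card_eq_of_periodic 1 q _ hper, ← Set.ncard_coe_finset]
  congr 1
  ext u
  rw [Finset.mem_coe, Finset.mem_filter, Finset.mem_Ico, Set.mem_ofPred_eq]
  have e : ∀ u : ℕ, 1 ≤ u → ((∃ f ∈ P, (q : ℤ) ∣ (∏ i, F i).eval ((u : ℤ) + ∑ i, (f i : ℤ) * (d i : ℤ))) ↔
      ∃ f ∈ P, R q (u + dt f d)) := by
    intro u hu
    apply exists_congr
    intro f
    apply and_congr_right
    intro _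
    rw [hR q (u + dt f d) (by omega), Polynomial.eval_prod, (Nat.prime_iff_prime_int.1 hq).dvd_finsetProd_iff]
    unfold dt
    push_cast
    simp
  constructor
  · rintro ⟨⟨h1, h2⟩, h3⟩
    exact ⟨h1, by omega, (e u h1).1 h3⟩
  · rintro ⟨h1, h2, h3⟩
    exact ⟨⟨h1, by omega⟩, (e u h1).2 h3⟩

theorem PX_prR (w w' : ℕ → ℕ) (h : ∀ q : ℕ, q.Prime → w q = w' q) (X : ℕ) : PX w X = prR w' X := by
  unfold PX prR
  apply prod_congr rfl
  intro q hq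
  rw [h q (mem_filter.1 hq).2]

/-- the common difference vectors -/
def GoodR {M m : ℕ} (R : Fin M → ℕ → ℕ → Prop) (c : ℝ) (k X : ℕ) (S : Fin M → Set ℕ) (d : Fin m → ℕ) : Prop :=
  ∀ P : Finset (Fin m → ℕ), (∀ f ∈ P, ∀ i, f i < k) → (fun _ => 0) ∈ P →
    Set.InjOn (fun f => dt f d) (P : Set (Fin m → ℕ)) ∧ ∀ j, (∀ q : ℕ, q.Prime → omR (R j) d P q < q) ∧
      c * (X * prR (omR (R j) d P) X) ≤ (cnR (S j) d P : ℝ)

/-- **Common patterns.** -/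
theorem sys_common {M : ℕ} (F : Fin M → Fin g → ℤ[X]) (hF : ∀ j, Sys (F j)) (R : Fin M → ℕ → ℕ → Prop)
    (hR : ∀ j, ∀ q n : ℕ, 1 ≤ n → (R j q n ↔ ∃ i, (q : ℤ) ∣ (F j i).eval (n : ℤ))) (m k : ℕ) (κ δ : ℝ)
    (hκ : 0 < κ) (hκ1 : κ ≤ 1) (hδ : 0 < δ) : ∃ c : ℝ, 0 < c ∧ ∃ B : ℕ, ∀ᶠ X : ℕ in atTop, ∀ D : ℕ,
    Real.log X ^ B ≤ D → D ≤ X → ∀ (A : Fin M → ℕ) (S : Fin M → Set ℕ), (∀ j, S j ⊆ Set.Ioc (A j) (A j + X)) →
    (∀ j, ∀ n ∈ S j, ∀ q : ℕ, q.Prime → R j q n → (X : ℝ) ^ κ < q) →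
    (∀ j, δ * X / Real.log X ^ g ≤ ((S j).ncard : ℝ)) →
    c * (D : ℝ) ^ m ≤ ({d : Fin m → ℕ | (∀ i, 1 ≤ d i ∧ d i ≤ D) ∧ GoodR R c k X S d}.ncard : ℝ) := by
  classical
  choose v Cv hv hCv hV using fun j => V_bounds (F j) (hF j)
  obtain ⟨C, hC⟩ : ∃ C : ℝ, C = 1 + ∑ j, Cv j := ⟨_, rfl⟩
  have hCj : ∀ j, Cv j ≤ C := by
    intro j
    have := single_le_sum (fun i _ => (hCv i).le) (mem_univ j)
    rw [hC]
    linarith
  have hC0 : 0 < C := by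
    rw [hC]
    have := sum_nonneg (fun i (_ : i ∈ (univ : Finset (Fin M))) => (hCv i).le)
    linarith
  obtain ⟨c, hc, B, X₁, h1⟩ := Pool.Agent.X26.MC.polyM M m k (∑ j, (∏ i, F j i).natDegree) hκ hκ1
    (δ := δ / C) (by positivity)
  refine ⟨c, hc, B, ?_⟩
  filter_upwards [eventually_ge_atTop X₁, eventually_ge_atTop 3] with X hX1 hX3
  intro D hBD hDX A S hS hSR hSc
  have hlX : 0 < Real.log X := Real.log_pos (by exact_mod_cast (by omega : 1 < X))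
  have hfin : ∀ j, (S j).Finite := fun j => (Set.finite_Ioc (A j) (A j + X)).subset (hS j)
  obtain ⟨T, hT⟩ : ∃ T : Fin M → Finset ℕ, T = fun j => (hfin j).toFinset := ⟨_, rfl⟩
  have hmem : ∀ j n, n ∈ T j ↔ n ∈ S j := fun j n => by rw [hT]; exact Set.Finite.mem_toFinset _
  have hcard : ∀ j, (T j).card = (S j).ncard := by
    intro j
    rw [← Set.ncard_coe_finset]
    congr 1
    ext n
    exact hmem j n
  obtain ⟨G, g1, g2, g3⟩ := h1 X D hX1 hBD hDX A (fun j => ∏ i, F j i) (fun j => by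
      exact single_le_sum (f := fun j => (∏ i, F j i).natDegree) (fun _ _ => Nat.zero_le _) (mem_univ j))
    (fun j => NF_sys (F j) (hF j)) T (fun j n hn => by
      have := hS j ((hmem j n).1 hn)
      rw [Finset.mem_Ioc]
      exact this) (fun j n hn q hq hqX hd => by
      have h2 := hS j ((hmem j n).1 hn)
      rw [Polynomial.eval_prod, (Nat.prime_iff_prime_int.1 hq).dvd_finsetProd_iff] at hd
      obtain ⟨i, _, hi⟩ := hd
      have h3 := hSR j n ((hmem j n).1 hn) q hq ((hR j q n (by have := h2.1; omega)).2 ⟨i, hi⟩)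
      linarith) (fun j => by
      rw [hcard]
      refine le_trans ?_ (hSc j)
      have h2 := (hV j X hX3).2
      rw [← VV_eq_Vq, PX_eq (Zf (∏ i, F j i)) (fun q => (Zf (∏ i, F j i) q).card) (fun _ _ => rfl) X,
        Fintype.card_fin] at h2
      calc δ / C * (X * PX (fun q => (Zf (∏ i, F j i) q).card) X)
          ≤ δ / C * (X * (Cv j / Real.log X ^ g)) := by
            apply mul_le_mul_of_nonneg_left _ (by positivity)
            exact mul_le_mul_of_nonneg_left h2 (by positivity)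
        _ ≤ δ / C * (X * (C / Real.log X ^ g)) := by
            apply mul_le_mul_of_nonneg_left _ (by positivity)
            apply mul_le_mul_of_nonneg_left _ (by positivity)
            exact div_le_div_of_nonneg_right (hCj j) (by positivity)
        _ = δ * X / Real.log X ^ g := by field_simp)
  refine g2.trans ?_
  have hboxfin : {d : Fin m → ℕ | (∀ i, 1 ≤ d i ∧ d i ≤ D) ∧ GoodR R c k X S d}.Finite := by
    refine ((Fintype.piFinset (fun _ : Fin m => Finset.Icc 1 D)).finite_toSet).subset ?_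
    rintro d ⟨hd, _⟩
    exact Finset.mem_coe.2 (mem_box.2 hd)
  rw [← Set.ncard_coe_finset]
  apply Nat.cast_le.2
  apply Set.ncard_le_ncard _ hboxfin
  intro d hd
  have hd' := Finset.mem_coe.1 hd
  refine ⟨mem_box.1 (g1 hd'), fun P hP h0 => ?_⟩
  obtain ⟨k1, k2⟩ := g3 d hd' P hP h0
  refine ⟨?_, fun j => ?_⟩
  · unfold pat at k1
    exact Finset.card_image_iff.1 k1
  · obtain ⟨k3, k4⟩ := k2 j
    have hom := fun (q : ℕ) (hq : q.Prime) => om_omR (F j) (R j) (hR j) d P hq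
    refine ⟨fun q hq => ?_, ?_⟩
    · rw [← hom q hq]
      exact k3 q hq
    · rw [PX_prR _ _ hom] at k4
      refine k4.trans (le_of_eq ?_)
      unfold cnR
      rw [← Set.ncard_coe_finset]
      congr 2
      ext n
      rw [Finset.mem_coe, Finset.mem_filter, Set.mem_ofPred_eq, hmem]
      unfold dt
      simp only [hmem]

variable {F : Fin g → ℤ[X]} {v : ℕ → Fin g → ℕ}

theorem PSys.divs (H : PSys F v) {q n : ℕ} (hn : 1 ≤ n) :
    (q ∣ n ∨ ∃ i, q ∣ v n i) ↔ ∃ i, (q : ℤ) ∣ (cX F i).eval (n : ℤ) := by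
  constructor
  · rintro (h | ⟨i, h⟩)
    · refine ⟨0, ?_⟩
      show (q : ℤ) ∣ (X : ℤ[X]).eval (n : ℤ)
      rw [eval_X]
      exact Int.natCast_dvd_natCast.2 h
    · refine ⟨i.succ, ?_⟩
      show (q : ℤ) ∣ (F i).eval (n : ℤ)
      rw [H.val n hn i]
      exact Int.natCast_dvd_natCast.2 h
  · rintro ⟨i, hi⟩
    revert hi
    refine Fin.cases ?_ (fun i => ?_) i
    · intro hi
      have h1 : (q : ℤ) ∣ (X : ℤ[X]).eval (n : ℤ) := hi
      rw [eval_X] at h1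
      exact Or.inl (Int.natCast_dvd_natCast.1 h1)
    · intro hi
      have h1 : (q : ℤ) ∣ (F i).eval (n : ℤ) := hi
      rw [H.val n hn i] at h1
      exact Or.inr ⟨i, Int.natCast_dvd_natCast.1 h1⟩

/-- typical elements, prime arguments -/
theorem PSys.typ (H : PSys F v) (R : ℕ → ℕ → Prop) (hR : ∀ q n : ℕ, 1 ≤ n → (R q n ↔ (q ∣ n ∨ ∃ i, q ∣ v n i)))
    (m K : ℕ) (hK : 1 ≤ K) (κ ε : ℝ) (hκ : 0 < κ) (hκ1 : κ ≤ 1) (hε : 0 < ε) :
    ∃ c : ℝ, 0 < c ∧ ∃ B : ℕ, ∀ᶠ X : ℕ in atTop, ∀ A D : ℕ,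
    Real.log X ^ B ≤ D → D ≤ X → ∀ S : Set ℕ, S ⊆ Set.Ioc A (A + X) →
    (∀ n ∈ S, ∀ q : ℕ, q.Prime → R q n → (X : ℝ) ^ κ < q) →
    ({n : ℕ | n ∈ S ∧ (patR K m D S n : ℝ) <
      c * ((D : ℝ) ^ m / Real.log X ^ ((g + 1) * ((2 * K + 1) ^ m - 1)))}.ncard : ℝ) ≤
      ε * X / Real.log X ^ (g + 1) :=
  sys_typS (cX F) H.sys R (fun q n hn h => (hR q n hn).2 ((H.divs hn).2 h)) m K hK κ ε hκ hκ1 hε

/-- common patterns, prime arguments -/
theorem PSys.common {M : ℕ} {F : Fin M → Fin g → ℤ[X]} {v : Fin M → ℕ → Fin g → ℕ} (H : ∀ j, PSys (F j) (v j))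
    (R : Fin M → ℕ → ℕ → Prop) (hR : ∀ j, ∀ q n : ℕ, 1 ≤ n → (R j q n ↔ (q ∣ n ∨ ∃ i, q ∣ v j n i)))
    (m k : ℕ) (κ δ : ℝ) (hκ : 0 < κ) (hκ1 : κ ≤ 1) (hδ : 0 < δ) : ∃ c : ℝ, 0 < c ∧ ∃ B : ℕ,
    ∀ᶠ X : ℕ in atTop, ∀ D : ℕ, Real.log X ^ B ≤ D → D ≤ X →
    ∀ (A : Fin M → ℕ) (S : Fin M → Set ℕ), (∀ j, S j ⊆ Set.Ioc (A j) (A j + X)) →
    (∀ j, ∀ n ∈ S j, ∀ q : ℕ, q.Prime → R j q n → (X : ℝ) ^ κ < q) →
    (∀ j, δ * X / Real.log X ^ (g + 1) ≤ ((S j).ncard : ℝ)) →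
    c * (D : ℝ) ^ m ≤ ({d : Fin m → ℕ | (∀ i, 1 ≤ d i ∧ d i ≤ D) ∧ GoodR R c k X S d}.ncard : ℝ) :=
  sys_common (fun j => cX (F j)) (fun j => (H j).sys) R (fun j q n hn => (hR j q n hn).trans ((H j).divs hn))
    m k κ δ hκ hκ1 hδ

/-- the unconditional example: primes with almost prime values -/
theorem PSys.dyadic (H : PSys F v) : ∃ r₀ : ℕ, 2 ≤ r₀ ∧ ∀ r : ℕ, r₀ ≤ r → ∃ c : ℝ, 0 < c ∧ ∀ᶠ X : ℕ in atTop,
    c * X / Real.log X ^ (g + 1) ≤ ((AVp v r ∩ Set.Ioc X (X + X)).ncard : ℝ) := by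
  classical
  obtain ⟨r₀, hr₀, h⟩ := Pool.Agent.TH977.PW.final_prime F H.irr H.deg H.lead H.inj H.neX H.adm
    (fun r => {n | Pool.Agent.TH977.PW.RoughX F r n}) (fun r => AP F r) (g + 1) (by simp)
    (fun r n _ h => h) (fun r n _ hp h1 h2 => ⟨hp, fun i => ⟨by
      rw [ArithmeticFunction.cardFactors_apply]
      exact h2 i, fun p hp hdvd => h1 i p hp hdvd⟩⟩) 1 one_pos le_rfl
  refine ⟨r₀, hr₀, fun r hr => ?_⟩
  obtain ⟨c, hc, h1⟩ := (h r hr).1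
  refine ⟨c, hc, ?_⟩
  filter_upwards [h1] with X hX1
  refine hX1.trans (Nat.cast_le.2 ?_)
  unfold Pool.Agent.TH977.PW.N
  rw [← Set.ncard_coe_finset]
  apply Set.ncard_le_ncard _ ((Set.finite_Ioc X (X + X)).subset Set.inter_subset_right)
  intro n h
  have h3 := (mem_filt _ _ _ _).1 (Finset.mem_coe.1 h)
  have h4 := Finset.mem_Ioc.1 h3.1
  refine ⟨?_, h4.1, by omega⟩
  have h5 : n ∈ AP F r := h3.2
  exact ⟨h5.1, (AA_iff F v H.val r n (by omega)).1 h5.2⟩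

theorem AVp_gt (r : ℕ) (hr : 2 ≤ r) {X n : ℕ} (hn : n ∈ AVp v r) (hXn : X < n) :
    ∀ q : ℕ, q.Prime → (q ∣ n ∨ ∃ i, q ∣ v n i) → (X : ℝ) ^ (1 / (r : ℝ)) < q := by
  have hr0 : (0 : ℝ) < r := by exact_mod_cast (by omega : 0 < r)
  have hr1 : (0 : ℝ) < 1 / r := by positivity
  intro q hq h
  have h1 := AVp_rough r hr n hn q hq h
  refine lt_of_lt_of_le ?_ h1
  exact Real.rpow_lt_rpow (Nat.cast_nonneg _) (by exact_mod_cast hXn) hr1

end Pool.Agent.X69.Ric
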