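import Pool.Agent.X69.Ric.PackP

/-!
# The pairs `(p, p + 2 d)` and the triples `(p, p + 2, p + 6)` at prime arguments
-/

set_option autoImplicit false

namespace Pool.Agent.X69.Ric.InsL

open Polynomial
open Pool.Agent.X69.Ric

/-- the values -/
def vL {g : ℕ} (b : Fin g → ℕ) : ℕ → Fin g → ℕ := fun n i => n + b i

/-- the polynomials -/
noncomputable def FL {g : ℕ} (b : Fin g → ℕ) : Fin g → ℤ[X] := fun i => X + C (b i : ℤ)

theorem FL_eval {g : ℕ} (b : Fin g → ℕ) (x : ℤ) (i : Fin g) : (FL b i).eval x = x + b i := by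
  unfold FL
  simp

theorem psys {g : ℕ} (b : Fin g → ℕ) (hb : Function.Injective b) (hb0 : ∀ i, b i ≠ 0)
    (hadm : ∀ p : ℕ, p.Prime → ∃ m : ℕ, ¬ p ∣ m ∧ ∀ i, ¬ p ∣ m + b i) : PSys (FL b) (vL b) := by
  refine ⟨?_, ?_, ?_, ?_, ?_, ?_, ?_⟩
  · intro i
    unfold FL
    have h := irreducible_X_sub_C (-(b i : ℤ))
    rwa [C_neg, sub_neg_eq_add] at h
  · intro i
    unfold FL
    rw [natDegree_X_add_C]
    norm_num
  · intro i
    unfold FL
    rw [leadingCoeff_X_add_C]
    norm_num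
  · intro i j h
    have h1 := congrArg (eval 0) h
    rw [FL_eval, FL_eval] at h1
    exact hb (by exact_mod_cast (by simpa using h1 : (b i : ℤ) = b j))
  · intro i h
    have h1 := congrArg (eval 0) h
    rw [FL_eval, eval_X] at h1
    exact hb0 i (by exact_mod_cast (by simpa using h1 : (b i : ℤ) = 0))
  · intro p hp
    obtain ⟨m, h1, h2⟩ := hadm p hp
    refine ⟨m, h1, fun i h => h2 i ?_⟩
    rw [FL_eval] at h
    exact_mod_cast h
  · intro n _ i
    rw [FL_eval]
    unfold vL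
    push_cast
    ring

/-- the triples `(n, n + 2, n + 6)` -/
theorem triple : PSys (FL ![2, 6]) (vL ![2, 6]) := by
  refine psys _ ?_ ?_ ?_
  · intro i j
    fin_cases i <;> fin_cases j <;> simp
  · intro i
    fin_cases i <;> simp
  · intro p hp
    by_cases h37 : p = 3 ∨ p = 7
    · refine ⟨2, ?_, ?_⟩
      · rcases h37 with rfl | rfl <;> norm_num
      · intro i
        rcases h37 with rfl | rfl <;> fin_cases i <;> norm_num
    · push Not at h37
      refine ⟨1, fun h => hp.one_lt.ne' (Nat.dvd_one.1 h), ?_⟩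
      intro i
      fin_cases i
      · intro h
        have h1 : p ∣ 3 := by simpa using h
        exact h37.1 ((Nat.prime_dvd_prime_iff_eq hp Nat.prime_three).1 h1)
      · intro h
        have h1 : p ∣ 7 := by simpa using h
        exact h37.2 ((Nat.prime_dvd_prime_iff_eq hp (by norm_num)).1 h1)

/-- the pairs `(n, n + 2 d)` -/
theorem pair (d : ℕ) (hd : 1 ≤ d) : PSys (FL (fun _ : Fin 1 => 2 * d)) (vL (fun _ : Fin 1 => 2 * d)) := by
  refine psys _ (fun _ _ _ => Subsingleton.elim _ _) (fun _ => by omega) ?_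
  intro p hp
  by_cases h : p ∣ 1 + 2 * d
  · refine ⟨2, ?_, fun _ h2 => ?_⟩
    · intro h2
      have h3 : p = 2 := (Nat.prime_dvd_prime_iff_eq hp Nat.prime_two).1 h2
      rw [h3] at h
      omega
    · have h3 : p ∣ 2 + 2 * d - (1 + 2 * d) := Nat.dvd_sub h2 h
      have h4 : 2 + 2 * d - (1 + 2 * d) = 1 := by omega
      rw [h4] at h3
      exact hp.one_lt.ne' (Nat.dvd_one.1 h3)
  · exact ⟨1, fun h => hp.one_lt.ne' (Nat.dvd_one.1 h), fun _ => h⟩

end Pool.Agent.X69.Ric.InsL
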