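import Pool.Agent.X26.GP.Poly
import Pool.Agent.Cov.Res

/-!
# The average of the singular products over short intervals
-/

set_option autoImplicit false

namespace Pool.Agent.X69.Ric

open Filter Topology Finset
open Pool.Agent.Y843.HS (Pr)
open Pool.Agent.X26.GP (Zf mem_Zf_mod Zf_lt)

theorem cnt_uv (T : Finset ℕ) (hT : ∀ p ∈ T, p.Prime) (E : ℕ → Finset ℕ) (hE : ∀ p ∈ T, E p ⊆ range p)
    (u v : ℕ) (huv : u ≤ v) :
    (((Ioc u v).filter (fun l => ∀ p ∈ T, l % p ∈ E p)).card : ℝ) ≤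
      ((v : ℝ) - u) * ∏ p ∈ T, ((E p).card : ℝ) / p + 2 * ∏ p ∈ T, ((E p).card : ℝ) := by
  have h1 := abs_le.1 (Pool.Agent.Cov.count_residues T hT E hE u)
  have h2 := abs_le.1 (Pool.Agent.Cov.count_residues T hT E hE v)
  have h3 : ((Ioc u v).filter (fun l => ∀ p ∈ T, l % p ∈ E p)).card +
      ((Icc 1 u).filter (fun l => ∀ p ∈ T, l % p ∈ E p)).card =
      ((Icc 1 v).filter (fun l => ∀ p ∈ T, l % p ∈ E p)).card := by
    rw [← card_union_of_disjoint, ← filter_union]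
    · congr 2
      ext x
      rw [mem_union, mem_Ioc, mem_Icc, mem_Icc]
      omega
    · rw [disjoint_left]
      intro x hx hx'
      rw [mem_filter, mem_Ioc] at hx
      rw [mem_filter, mem_Icc] at hx'
      omega
  have h4 : (((Ioc u v).filter (fun l => ∀ p ∈ T, l % p ∈ E p)).card : ℝ) +
      ((Icc 1 u).filter (fun l => ∀ p ∈ T, l % p ∈ E p)).card =
      ((Icc 1 v).filter (fun l => ∀ p ∈ T, l % p ∈ E p)).card := by exact_mod_cast h3
  have h5 : ((v : ℝ) - u) * ∏ p ∈ T, ((E p).card : ℝ) / p =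
      v * ∏ p ∈ T, ((E p).card : ℝ) / p - u * ∏ p ∈ T, ((E p).card : ℝ) / p := by ring
  rw [h5]
  linarith [h1.1, h2.2]

theorem prod_lin (c W : ℕ) : ∏ n ∈ Icc 1 W, (1 + (c : ℝ) / n) ≤ ((W : ℝ) + 1) ^ c := by
  induction W with
  | zero => simp
  | succ W ih =>
    rw [Finset.prod_Icc_succ_top (by omega)]
    have hW : (0 : ℝ) ≤ W := Nat.cast_nonneg _
    have h1 : 1 + (c : ℝ) / ((W + 1 : ℕ) : ℝ) ≤ (1 + 1 / ((W + 1 : ℕ) : ℝ)) ^ c := by
      have h2 := one_add_mul_le_pow (a := 1 / ((W + 1 : ℕ) : ℝ)) (by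
        have : (0 : ℝ) ≤ 1 / ((W + 1 : ℕ) : ℝ) := by positivity
        linarith) c
      refine le_trans (le_of_eq ?_) h2
      ring
    calc (∏ n ∈ Icc 1 W, (1 + (c : ℝ) / n)) * (1 + (c : ℝ) / ((W + 1 : ℕ) : ℝ)) ≤
        ((W : ℝ) + 1) ^ c * (1 + 1 / ((W + 1 : ℕ) : ℝ)) ^ c := by gcongr
      _ = (((W : ℝ) + 1) * (1 + 1 / ((W + 1 : ℕ) : ℝ))) ^ c := by rw [mul_pow]
      _ = _ := by
          congr 1
          push_cast
          field_simp

theorem prod_sq (c s W : ℕ) (hs : 1 ≤ s) : ∏ n ∈ Ioc s W, (1 + (c : ℝ) / n ^ 2) ≤ Real.exp c := by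
  rcases le_or_gt s W with h | h
  · have h1 : ∏ n ∈ Ioc s W, (1 + (c : ℝ) / n ^ 2) ≤ ∏ n ∈ Ioc s W, Real.exp ((c : ℝ) * ((n : ℝ) ^ 2)⁻¹) := by
      apply Finset.prod_le_prod
      · intro n _
        positivity
      · intro n _
        have := Real.add_one_le_exp ((c : ℝ) * ((n : ℝ) ^ 2)⁻¹)
        rw [div_eq_mul_inv]
        linarith
    refine h1.trans ?_
    rw [← Real.exp_sum, ← Finset.mul_sum]
    apply Real.exp_le_exp.2
    have h2 : ∑ i ∈ Ioc s W, (((i : ℝ)) ^ 2)⁻¹ ≤ (s : ℝ)⁻¹ - (W : ℝ)⁻¹ := sum_Ioc_inv_sq_le_sub (by omega) h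
    have h3 : (s : ℝ)⁻¹ ≤ 1 := by
      apply inv_le_one_of_one_le₀
      exact_mod_cast hs
    have h4 : (0 : ℝ) ≤ (W : ℝ)⁻¹ := by positivity
    have hc : (0 : ℝ) ≤ c := Nat.cast_nonneg _
    nlinarith
  · rw [Ioc_eq_empty (by omega), prod_empty]
    exact Real.one_le_exp (Nat.cast_nonneg _)

theorem avg_small (Z : ℕ → Finset ℕ) (D s W : ℕ) (hs : 1 ≤ s)
    (hZ : ∀ p ∈ Pr s W, (Z p).card ≤ D ∧ Z p ⊆ range p) (K u v : ℕ) (huv : u ≤ v) :
    ∑ h ∈ Ioc u v, ∏ p ∈ (Pr s W).filter (fun p => h % p ∈ Z p), (1 + (K : ℝ) / p) ≤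
      ((v : ℝ) - u) * Real.exp (K * D : ℕ) + 2 * ((W : ℝ) + 1) ^ (K * D) := by
  classical
  have hprime : ∀ p ∈ Pr s W, p.Prime := fun p hp => (mem_filter.1 hp).2
  have h1 : ∀ h : ℕ, ∏ p ∈ (Pr s W).filter (fun p => h % p ∈ Z p), (1 + (K : ℝ) / p) =
      ∑ T ∈ (Pr s W).powerset, (if ∀ p ∈ T, h % p ∈ Z p then ∏ p ∈ T, ((K : ℝ) / p) else 0) := by
    intro h
    rw [prod_filter]
    have h2 : ∀ p ∈ Pr s W, (if h % p ∈ Z p then (1 + (K : ℝ) / p) else 1) =
        1 + (if h % p ∈ Z p then (K : ℝ) / p else 0) := by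
      intro p _
      split_ifs <;> simp
    rw [Finset.prod_congr rfl h2, Finset.prod_one_add]
    apply Finset.sum_congr rfl
    intro T _
    split_ifs with h3
    · exact Finset.prod_congr rfl (fun p hp => if_pos (h3 p hp))
    · push Not at h3
      obtain ⟨p, hp, hp2⟩ := h3
      exact Finset.prod_eq_zero hp (if_neg hp2)
  rw [Finset.sum_congr rfl (fun h _ => h1 h), Finset.sum_comm]
  have h2 : ∀ T ∈ (Pr s W).powerset, ∑ h ∈ Ioc u v, (if ∀ p ∈ T, h % p ∈ Z p then ∏ p ∈ T, ((K : ℝ) / p) else 0) ≤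
      ((v : ℝ) - u) * ∏ p ∈ T, (((K * D : ℕ) : ℝ) / (p : ℝ) ^ 2) + 2 * ∏ p ∈ T, (((K * D : ℕ) : ℝ) / p) := by
    intro T hT
    rw [mem_powerset] at hT
    rw [← Finset.sum_filter, sum_const, nsmul_eq_mul]
    have h3 := cnt_uv T (fun p hp => hprime p (hT hp)) Z (fun p hp => (hZ p (hT hp)).2) u v huv
    have hK0 : 0 ≤ ∏ p ∈ T, ((K : ℝ) / p) := Finset.prod_nonneg (fun p _ => by positivity)
    have hvu : (0 : ℝ) ≤ (v : ℝ) - u := by
      have : (u : ℝ) ≤ v := by exact_mod_cast huv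
      linarith
    refine (mul_le_mul_of_nonneg_right h3 hK0).trans ?_
    rw [add_mul]
    apply add_le_add
    · rw [mul_assoc, ← Finset.prod_mul_distrib]
      apply mul_le_mul_of_nonneg_left _ hvu
      apply Finset.prod_le_prod
      · intro p _
        positivity
      · intro p hp
        have hp0 : (0 : ℝ) < p := by exact_mod_cast (hprime p (hT hp)).pos
        have h4 : ((Z p).card : ℝ) ≤ D := by exact_mod_cast (hZ p (hT hp)).1
        rw [div_mul_div_comm, ← pow_two]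
        push_cast
        rw [mul_comm (K : ℝ) (D : ℝ)]
        gcongr
    · rw [mul_assoc, ← Finset.prod_mul_distrib]
      apply mul_le_mul_of_nonneg_left _ (by norm_num)
      apply Finset.prod_le_prod
      · intro p _
        positivity
      · intro p hp
        have h4 : ((Z p).card : ℝ) ≤ D := by exact_mod_cast (hZ p (hT hp)).1
        rw [← mul_div_assoc]
        push_cast
        rw [mul_comm (K : ℝ) (D : ℝ)]
        gcongr
  refine (Finset.sum_le_sum h2).trans ?_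
  rw [Finset.sum_add_distrib, ← Finset.mul_sum, ← Finset.mul_sum, ← Finset.prod_one_add, ← Finset.prod_one_add]
  have hvu : (0 : ℝ) ≤ (v : ℝ) - u := by
    have : (u : ℝ) ≤ v := by exact_mod_cast huv
    linarith
  apply add_le_add
  · apply mul_le_mul_of_nonneg_left _ hvu
    refine le_trans ?_ (prod_sq (K * D) s W hs)
    apply Finset.prod_le_prod_of_subset_of_one_le (filter_subset _ _)
    · intro p _
      positivity
    · intro p _ _
      have : 0 ≤ ((K * D : ℕ) : ℝ) / (p : ℝ) ^ 2 := by positivity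
      linarith
  · apply mul_le_mul_of_nonneg_left _ (by norm_num)
    refine le_trans ?_ (prod_lin (K * D) W)
    apply Finset.prod_le_prod_of_subset_of_one_le
    · intro p hp
      have := mem_Ioc.1 (mem_filter.1 hp).1
      rw [mem_Icc]
      omega
    · intro p _
      positivity
    · intro p _ _
      have : 0 ≤ ((K * D : ℕ) : ℝ) / (p : ℝ) := by positivity
      linarith

theorem large_part (N K W z : ℕ) (hN : N ≠ 0) (hW : 1 ≤ W) (B : ℝ) (hB : (N : ℝ) ≤ B) :
    ∏ p ∈ (Pr W z).filter (fun p => p ∣ N), (1 + (K : ℝ) / p) ≤ Real.exp (K * (Real.log B / Real.log 2 / W)) := by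
  set S := (Pr W z).filter (fun p => p ∣ N) with hS
  have hSp : ∀ p ∈ S, p.Prime ∧ W < p ∧ p ∣ N := by
    intro p hp
    rw [hS, mem_filter] at hp
    have h1 := mem_filter.1 hp.1
    exact ⟨h1.2, (mem_Ioc.1 h1.1).1, hp.2⟩
  have hWr : (1 : ℝ) ≤ W := by exact_mod_cast hW
  have h1 : ∏ p ∈ S, (1 + (K : ℝ) / p) ≤ ∏ p ∈ S, Real.exp ((K : ℝ) / W) := by
    apply Finset.prod_le_prod
    · intro p _
      positivity
    · intro p hp
      have h2 : (W : ℝ) ≤ p := by exact_mod_cast (hSp p hp).2.1.le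
      have h3 : (K : ℝ) / p ≤ K / W := by gcongr
      have := Real.add_one_le_exp ((K : ℝ) / W)
      linarith
  refine h1.trans ?_
  rw [prod_const, ← Real.exp_nat_mul]
  apply Real.exp_le_exp.2
  have h2 : (2 : ℕ) ^ S.card ≤ N := by
    have h3 : ∏ p ∈ S, p ∣ N := Finset.prod_primes_dvd N (fun p hp => (hSp p hp).1.prime) (fun p hp => (hSp p hp).2.2)
    have h4 : ∏ p ∈ S, p ≤ N := Nat.le_of_dvd (Nat.pos_of_ne_zero hN) h3
    refine le_trans ?_ h4
    rw [← prod_const]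
    exact Finset.prod_le_prod' (fun p hp => (hSp p hp).1.two_le)
  have h5 : (S.card : ℝ) * Real.log 2 ≤ Real.log B := by
    have h6 : ((2 : ℝ)) ^ S.card ≤ B := le_trans (by exact_mod_cast h2) hB
    have := Real.log_le_log (by positivity) h6
    rwa [Real.log_pow] at this
  have hl2 : 0 < Real.log 2 := Real.log_pos (by norm_num)
  have h7 : (S.card : ℝ) ≤ Real.log B / Real.log 2 := by rwa [le_div_iff₀ hl2]
  calc (S.card : ℝ) * ((K : ℝ) / W) = K * (S.card / W) := by ring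
    _ ≤ K * (Real.log B / Real.log 2 / W) := by gcongr

/-- the product over the primes dividing `M h` -/
noncomputable def SS (M : Polynomial ℤ) (K s z h : ℕ) : ℝ :=
  ∏ p ∈ (Pr s z).filter (fun p : ℕ => (p : ℤ) ∣ M.eval (h : ℤ)), (1 + (K : ℝ) / p)

theorem one_le_prodR (S : Finset ℕ) (f : ℕ → ℝ) (h : ∀ p, 1 ≤ f p) : 1 ≤ ∏ p ∈ S, f p := by
  classical
  induction S using Finset.induction_on with
  | empty => simp
  | insert a S ha ih =>
    rw [Finset.prod_insert ha]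
    have := h a
    nlinarith

theorem SS_one_le (M : Polynomial ℤ) (K s z h : ℕ) : 1 ≤ SS M K s z h := by
  unfold SS
  apply one_le_prodR
  intro p
  have : 0 ≤ (K : ℝ) / p := by positivity
  linarith

theorem Zf_card_le' (f : Polynomial ℤ) (q : ℕ) (hq : q.Prime) (h : ¬ (q : ℤ) ∣ f.leadingCoeff) :
    (Zf f q).card ≤ f.natDegree := by
  classical
  have : Fact q.Prime := ⟨hq⟩
  obtain ⟨g, hg⟩ : ∃ g : Polynomial (ZMod q), g = f.map (Int.castRingHom (ZMod q)) := ⟨_, rfl⟩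
  have hev : ∀ a : ℤ, g.eval ((a : ℤ) : ZMod q) = ((f.eval a : ℤ) : ZMod q) := by
    intro a
    rw [hg, Polynomial.eval_intCast_map]
    simp
  have hg0 : g ≠ 0 := by
    intro h0
    apply h
    have h1 : g.coeff f.natDegree = 0 := by rw [h0]; simp
    rw [hg, Polynomial.coeff_map] at h1
    exact (ZMod.intCast_zmod_eq_zero_iff_dvd _ q).1 h1
  have h1 : (Zf f q).card ≤ g.roots.toFinset.card := by
    apply Finset.card_le_card_of_injOn (fun c => ((c : ℕ) : ZMod q))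
    · intro c hc
      rw [mem_coe] at hc
      have h2 := (mem_filter.1 hc).2
      rw [mem_coe, Multiset.mem_toFinset, Polynomial.mem_roots hg0, Polynomial.IsRoot]
      have h3 := hev (c : ℤ)
      rw [(ZMod.intCast_zmod_eq_zero_iff_dvd _ q).2 h2] at h3
      simpa using h3
    · intro c hc c' hc' hcc
      have h2 := Zf_lt f q c hc
      have h3 := Zf_lt f q c' hc'
      have h4 := (ZMod.natCast_eq_natCast_iff c c' q).1 hcc
      have h5 : c % q = c' % q := h4
      rwa [Nat.mod_eq_of_lt h2, Nat.mod_eq_of_lt h3] at h5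
  refine h1.trans ((Multiset.toFinset_card_le _).trans ((Polynomial.card_roots' g).trans ?_))
  rw [hg]
  exact Polynomial.natDegree_map_le

/-- a polynomial is bounded by a power -/
theorem eval_bd (M : Polynomial ℤ) : ∃ c : ℝ, 1 ≤ c ∧ ∀ h : ℕ, 1 ≤ h → |((M.eval (h : ℤ) : ℤ) : ℝ)| ≤ c * (h : ℝ) ^ M.natDegree := by
  refine ⟨1 + ∑ i ∈ range (M.natDegree + 1), |((M.coeff i : ℤ) : ℝ)|, ?_, fun h hh => ?_⟩
  · have : 0 ≤ ∑ i ∈ range (M.natDegree + 1), |((M.coeff i : ℤ) : ℝ)| := Finset.sum_nonneg (fun i _ => abs_nonneg _)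
    linarith
  · rw [Polynomial.eval_eq_sum_range]
    push_cast
    refine (Finset.abs_sum_le_sum_abs _ _).trans ?_
    have hh1 : (1 : ℝ) ≤ h := by exact_mod_cast hh
    have h1 : ∀ i ∈ range (M.natDegree + 1), |((M.coeff i : ℤ) : ℝ) * (h : ℝ) ^ i| ≤
        |((M.coeff i : ℤ) : ℝ)| * (h : ℝ) ^ M.natDegree := by
      intro i hi
      rw [mem_range] at hi
      rw [abs_mul, abs_of_nonneg (show (0 : ℝ) ≤ (h : ℝ) ^ i by positivity)]
      have : (h : ℝ) ^ i ≤ (h : ℝ) ^ M.natDegree := pow_le_pow_right₀ hh1 (by omega)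
      gcongr
    refine (Finset.sum_le_sum h1).trans ?_
    rw [← Finset.sum_mul]
    have h2 : (0 : ℝ) ≤ (h : ℝ) ^ M.natDegree := by positivity
    nlinarith

theorem avg (M : Polynomial ℤ) (hM : M ≠ 0) (K e g : ℕ) (he : ∀ h : ℕ, e < h → M.eval (h : ℤ) ≠ 0) :
    ∃ s₁ : ℕ, ∃ C : ℝ, ∃ B : ℕ, 0 < C ∧ ∀ s : ℕ, s₁ ≤ s → ∀ᶠ T : ℕ in atTop, ∀ z u v : ℕ, e ≤ u → u ≤ v →
      (v : ℝ) ≤ Real.log T ^ (g + 1) →
      ∑ h ∈ Ioc u v, SS M K s z h ≤ C * (((v : ℝ) - u) + Real.log (Real.log T) ^ B) := by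
  classical
  obtain ⟨c, hc1, hc⟩ := eval_bd M
  set D := M.natDegree with hD
  set A : ℝ := Real.log c + D * (g + 1) with hA
  have hA0 : 0 ≤ A := by
    have : 0 ≤ Real.log c := Real.log_nonneg hc1
    positivity
  have hl2 : 0 < Real.log 2 := Real.log_pos (by norm_num)
  refine ⟨M.leadingCoeff.natAbs + 1, Real.exp (K * (A / Real.log 2)) * (Real.exp (K * D : ℕ) + 2 * 3 ^ (K * D)),
    K * D, by positivity, ?_⟩
  intro s hs
  have hll : Tendsto (fun T : ℕ => Real.log (Real.log T)) atTop atTop :=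
    Real.tendsto_log_atTop.comp (Real.tendsto_log_atTop.comp tendsto_natCast_atTop_atTop)
  filter_upwards [hll.eventually_ge_atTop 1, eventually_ge_atTop 3] with T hT1 hT3 z u v heu huv hv
  have hTr : (3 : ℝ) ≤ T := by exact_mod_cast hT3
  have hlT : 0 < Real.log T := Real.log_pos (by linarith)
  set ll := Real.log (Real.log T) with hlldef
  set W : ℕ := ⌈ll⌉₊ with hW
  have hW1 : ll ≤ W := Nat.le_ceil _
  have hW2 : (W : ℝ) < ll + 1 := Nat.ceil_lt_add_one (by linarith)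
  have hWpos : 1 ≤ W := by
    have : (0 : ℝ) < W := by linarith
    exact_mod_cast this
  have hWr : (0 : ℝ) < W := by linarith
  have hs1 : 1 ≤ s := by omega
  have hroot : ∀ p ∈ Pr s W, (Zf M p).card ≤ D ∧ Zf M p ⊆ range p := by
    intro p hp
    have h1 := mem_filter.1 hp
    refine ⟨Zf_card_le' M p h1.2 ?_, filter_subset _ _⟩
    intro h2
    have h3 : p ∣ M.leadingCoeff.natAbs := Int.natCast_dvd.1 h2
    have h4 : M.leadingCoeff.natAbs ≠ 0 := Int.natAbs_ne_zero.2 (Polynomial.leadingCoeff_ne_zero.2 hM)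
    have h5 := Nat.le_of_dvd (Nat.pos_of_ne_zero h4) h3
    have h6 := (mem_Ioc.1 h1.1).1
    omega
  have hpt : ∀ h ∈ Ioc u v, SS M K s z h ≤ Real.exp (K * (A / Real.log 2)) *
      ∏ p ∈ (Pr s W).filter (fun p => h % p ∈ Zf M p), (1 + (K : ℝ) / p) := by
    intro h hh
    rw [mem_Ioc] at hh
    have hh0 : M.eval (h : ℤ) ≠ 0 := he h (by omega)
    have hN0 : (M.eval (h : ℤ)).natAbs ≠ 0 := Int.natAbs_ne_zero.2 hh0
    have hhr : (1 : ℝ) ≤ h := by
      have : 1 ≤ h := by omega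
      exact_mod_cast this
    have hhv : (h : ℝ) ≤ Real.log T ^ (g + 1) := by
      have : (h : ℝ) ≤ v := by exact_mod_cast hh.2
      linarith
    have h1 : SS M K s z h ≤ (∏ p ∈ (Pr s W).filter (fun p => h % p ∈ Zf M p), (1 + (K : ℝ) / p)) *
        ∏ p ∈ (Pr W z).filter (fun p => p ∣ (M.eval (h : ℤ)).natAbs), (1 + (K : ℝ) / p) := by
      unfold SS
      have h2 : (Pr s z).filter (fun p : ℕ => (p : ℤ) ∣ M.eval (h : ℤ)) ⊆
          (Pr s W).filter (fun p => h % p ∈ Zf M p) ∪ (Pr W z).filter (fun p => p ∣ (M.eval (h : ℤ)).natAbs) := by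
        intro p hp
        rw [mem_filter] at hp
        have h3 := mem_filter.1 hp.1
        have h4 := mem_Ioc.1 h3.1
        rw [mem_union, mem_filter, mem_filter]
        rcases le_or_gt p W with h5 | h5
        · left
          refine ⟨mem_filter.2 ⟨mem_Ioc.2 ⟨h4.1, h5⟩, h3.2⟩, ?_⟩
          rw [mem_Zf_mod h3.2.pos]
          exact hp.2
        · right
          exact ⟨mem_filter.2 ⟨mem_Ioc.2 ⟨h5, h4.2⟩, h3.2⟩, Int.natCast_dvd.1 hp.2⟩
      have hone : ∀ p : ℕ, 1 ≤ 1 + (K : ℝ) / p := by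
        intro p
        have : 0 ≤ (K : ℝ) / p := by positivity
        linarith
      refine (Finset.prod_le_prod_of_subset_of_one_le h2 (fun p _ => by linarith [hone p]) (fun p _ _ => hone p)).trans ?_
      rw [← Finset.prod_union_inter]
      apply le_mul_of_one_le_right
      · exact Finset.prod_nonneg (fun p _ => by linarith [hone p])
      · exact one_le_prodR _ _ hone
    refine h1.trans ?_
    rw [mul_comm]
    apply mul_le_mul_of_nonneg_right _ (Finset.prod_nonneg (fun p _ => by positivity))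
    have h3 : (((M.eval (h : ℤ)).natAbs : ℕ) : ℝ) ≤ c * (Real.log T ^ (g + 1)) ^ D := by
      have h4 := hc h (by exact_mod_cast hhr)
      rw [Nat.cast_natAbs, Int.cast_abs]
      refine h4.trans ?_
      gcongr
    refine (large_part _ K W z hN0 hWpos _ h3).trans ?_
    apply Real.exp_le_exp.2
    have h5 : Real.log (c * (Real.log T ^ (g + 1)) ^ D) = Real.log c + D * ((g + 1) * ll) := by
      rw [Real.log_mul (by positivity) (by positivity), Real.log_pow, Real.log_pow]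
      push_cast
      ring
    rw [h5]
    have h6 : (Real.log c + D * ((g + 1) * ll)) ≤ A * W := by
      rw [hA]
      have h7 : 0 ≤ Real.log c := Real.log_nonneg hc1
      have h8 : (1 : ℝ) ≤ W := by linarith
      have h9 : (0 : ℝ) ≤ D * (g + 1) := by positivity
      nlinarith
    have h7 : (Real.log c + D * ((g + 1) * ll)) / Real.log 2 / W ≤ A / Real.log 2 := by
      rw [div_div, div_le_div_iff₀ (by positivity) hl2]
      nlinarith
    gcongr
  refine (Finset.sum_le_sum hpt).trans ?_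
  rw [← Finset.mul_sum]
  have h1 := avg_small (Zf M) D s W hs1 hroot K u v huv
  rw [mul_assoc]
  apply mul_le_mul_of_nonneg_left _ (by positivity)
  refine h1.trans ?_
  have h2 : ((W : ℝ) + 1) ^ (K * D) ≤ 3 ^ (K * D) * ll ^ (K * D) := by
    rw [← mul_pow]
    gcongr
    linarith
  have h3 : (0 : ℝ) ≤ (v : ℝ) - u := by
    have : (u : ℝ) ≤ v := by exact_mod_cast huv
    linarith
  have h4 : (0 : ℝ) ≤ ll ^ (K * D) := by positivity
  have h5 : (0 : ℝ) ≤ Real.exp (K * D : ℕ) := (Real.exp_pos _).le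
  have h6 : (0 : ℝ) ≤ 2 * 3 ^ (K * D) := by positivity
  nlinarith [mul_nonneg h6 h3, mul_nonneg h5 h4]

end Pool.Agent.X69.Ric
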