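import Pool.Agent.H474R2.PG.NoColl

/-!
# The resultant of an irreducible polynomial and its translates
-/

set_option autoImplicit false

namespace Pool.Agent.X69.Ric

open Polynomial

theorem coll_poly (f : ℤ[X]) (hf : Irreducible f) (hd : 0 < f.natDegree) :
    ∃ R : ℤ[X], (∀ t : ℤ, t ≠ 0 → R.eval t ≠ 0) ∧
      ∀ p x t : ℤ, p ∣ f.eval x → p ∣ f.eval (x + t) → p ∣ R.eval t := by
  classical
  set d := f.natDegree with hdd
  set F : ℤ[X][X] := f.map C with hF
  set G : ℤ[X][X] := F.comp (X + C X) with hG
  have hFd : F.natDegree ≤ d := natDegree_map_le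
  have hGd : G.natDegree ≤ d := by
    have h1 : (X + C X : ℤ[X][X]).natDegree = 1 := natDegree_X_add_C _
    calc G.natDegree ≤ F.natDegree * (X + C X : ℤ[X][X]).natDegree := natDegree_comp_le
      _ ≤ d := by rw [h1, mul_one]; exact hFd
  obtain ⟨P, Q, -, -, hPQ⟩ := exists_mul_add_mul_eq_C_resultant F G hFd hGd (Or.inl hd.ne')
  set R : ℤ[X] := F.resultant G d d with hR
  have key1 : ∀ x t : ℤ, ∃ u v : ℤ, f.eval x * u + f.eval (x + t) * v = R.eval t := by
    intro x t
    refine ⟨((P.eval (C x)).eval t), ((Q.eval (C x)).eval t), ?_⟩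
    have h := congrArg (fun q : ℤ[X][X] => (q.eval (C x)).eval t) hPQ
    simp only [eval_add, eval_mul, eval_C] at h
    have hFx : (F.eval (C x)).eval t = f.eval x := by
      rw [hF, eval_map, eval₂_at_apply, eval_C]
    have hGx : (G.eval (C x)).eval t = f.eval (x + t) := by
      rw [hG, eval_comp, hF, eval_map]
      simp only [eval_add, eval_X, eval_C]
      have := Polynomial.hom_eval₂ f C (evalRingHom t) (C x + X)
      simp only [coe_evalRingHom] at this
      rw [this]
      have hid : (evalRingHom t).comp C = RingHom.id ℤ := by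
        ext; simp
      rw [hid]
      simp [eval₂_id]
    rw [hFx, hGx] at h
    exact h
  have key2 : ∀ t : ℤ, t ≠ 0 → R.eval t ≠ 0 := by
    intro t ht h0
    apply Pool.Agent.H474R2.PG.ncol_res f hf hd t ht
    have h1 := resultant_map_map F G d d (evalRingHom t)
    have hFm : F.map (evalRingHom t) = f := by
      rw [hF, Polynomial.map_map]
      have hid : (evalRingHom t).comp C = RingHom.id ℤ := by
        ext; simp
      rw [hid, Polynomial.map_id]
    have hGm : G.map (evalRingHom t) = f.comp (X + C t) := by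
      rw [hG, Polynomial.map_comp, hFm]
      simp
    rw [hFm, hGm] at h1
    rw [← hdd, h1, ← hR]
    simpa using h0
  refine ⟨R, key2, ?_⟩
  intro p x t h1 h2
  obtain ⟨u, v, huv⟩ := key1 x t
  rw [← huv]
  exact dvd_add (h1.mul_right _) (h2.mul_right _)

end Pool.Agent.X69.Ric
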