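import Pool.Agent.X69.Ric.Pair

/-!
# Correlations of rough values, on the average over boxes
-/

set_option autoImplicit false

namespace Pool.Agent.X69.Ric

open Filter Topology Finset MeasureTheory
open Pool.Agent.Y843.HS
open Pool.Agent.X26.GP (Zf mem_Zf_mod Zf_lt Zf_card_le Zf_card_lt NF PX PX_eq)

/-- the pairs of indices -/
def PP (m : ℕ) : Finset (ℕ × ℕ) := ((range (m + 1)) ×ˢ (range (m + 1))).filter (fun q => q.1 < q.2)

theorem pow_bd (K N p : ℕ) (hp : 1 ≤ p) : (1 + (K : ℝ) / p) ^ N ≤ 1 + (((1 + K) ^ N : ℕ) : ℝ) / p := by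
  have hp0 : (0 : ℝ) < p := by exact_mod_cast hp
  have hp1 : (1 : ℝ) ≤ p := by exact_mod_cast hp
  obtain ⟨x, hx⟩ : ∃ x : ℝ, x = 1 / p := ⟨_, rfl⟩
  have hx0 : 0 < x := by rw [hx]; positivity
  have hx1 : x ≤ 1 := by rw [hx, div_le_one hp0]; exact hp1
  have h1 : (1 + (K : ℝ) * x) ^ N ≤ 1 + ((1 + (K : ℝ)) ^ N - 1) * x := by
    induction N with
    | zero => simp
    | succ N ih =>
      have hK : (0 : ℝ) ≤ K := Nat.cast_nonneg _
      have ha : (1 : ℝ) ≤ (1 + (K : ℝ)) ^ N := one_le_pow₀ (by linarith)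
      rw [pow_succ, pow_succ]
      have h2 : (1 + (K : ℝ) * x) ^ N * (1 + K * x) ≤ (1 + ((1 + (K : ℝ)) ^ N - 1) * x) * (1 + K * x) := by
        gcongr
      refine h2.trans ?_
      have h3 : ((1 + (K : ℝ)) ^ N - 1) * K * (x * x) ≤ ((1 + (K : ℝ)) ^ N - 1) * K * x := by
        apply mul_le_mul_of_nonneg_left _ (mul_nonneg (by linarith) hK)
        nlinarith
      nlinarith
  have h2 : (K : ℝ) / p = K * x := by rw [hx]; ring
  have h3 : (((1 + K) ^ N : ℕ) : ℝ) / p = (1 + (K : ℝ)) ^ N * x := by rw [hx]; push_cast; ring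
  rw [h2, h3]
  linarith

theorem SS_pow (M : Polynomial ℤ) (K s z h N : ℕ) : SS M K s z h ^ N ≤ SS M ((1 + K) ^ N) s z h := by
  unfold SS
  rw [← Finset.prod_pow]
  apply Finset.prod_le_prod
  · intro p _
    positivity
  · intro p hp
    exact pow_bd K N p (mem_filter.1 (mem_filter.1 hp).1).2.one_lt.le

theorem prod_biUnion_leR {ι : Type} [DecidableEq ι] (S : Finset ι) (t : ι → Finset ℕ) (f : ℕ → ℝ) (hf : ∀ p, 1 ≤ f p) :
    ∏ p ∈ S.biUnion t, f p ≤ ∏ q ∈ S, ∏ p ∈ t q, f p := by
  induction S using Finset.induction_on with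
  | empty => simp
  | insert a S ha ih =>
    rw [Finset.biUnion_insert, Finset.prod_insert ha]
    have h1 : ∏ p ∈ t a ∪ S.biUnion t, f p ≤ (∏ p ∈ t a, f p) * ∏ p ∈ S.biUnion t, f p := by
      rw [← Finset.prod_union_inter]
      apply le_mul_of_one_le_right
      · exact Finset.prod_nonneg (fun p _ => by linarith [hf p])
      · exact one_le_prodR _ _ hf
    refine h1.trans ?_
    apply mul_le_mul_of_nonneg_left ih
    exact Finset.prod_nonneg (fun p _ => by linarith [hf p])

theorem prod_le_sum_pow {ι : Type} (S : Finset ι) (hS : S.Nonempty) (x : ι → ℝ) (hx : ∀ i ∈ S, 0 ≤ x i) :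
    ∏ i ∈ S, x i ≤ ∑ i ∈ S, x i ^ S.card := by
  obtain ⟨j, hj, hmax⟩ := Finset.exists_max_image S x hS
  have h1 : ∏ i ∈ S, x i ≤ x j ^ S.card := by
    rw [← Finset.prod_const]
    exact Finset.prod_le_prod hx hmax
  exact h1.trans (Finset.single_le_sum (f := fun i => x i ^ S.card) (fun i hi => pow_nonneg (hx i hi) _) hj)

theorem parts_mono {m : ℕ} (h : Fin m → ℕ) {i j : ℕ} (hij : i ≤ j) : parts h i ≤ parts h j := by
  unfold parts
  apply Finset.sum_le_sum_of_subset
  exact Finset.range_mono hij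

theorem coll_le (F M : Polynomial ℤ)
    (hM : ∀ p : ℕ, p.Prime → ∀ x h : ℤ, (p : ℤ) ∣ F.eval x → (p : ℤ) ∣ F.eval (x + h) → (p : ℤ) ∣ M.eval h)
    (m : ℕ) (hm : 1 ≤ m) (K s z : ℕ) (h : Fin m → ℕ) :
    Coll K (Zf F) s z (fun j : Fin (m + 1) => parts h j) ≤
      ∑ q ∈ PP m, SS M ((1 + K) ^ (PP m).card) s z (parts h q.2 - parts h q.1) := by
  classical
  have hne : (PP m).Nonempty := ⟨(0, 1), by
    unfold PP
    rw [mem_filter, mem_product, mem_range, mem_range]
    refine ⟨⟨by omega, by omega⟩, by norm_num⟩⟩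
  have hone : ∀ p : ℕ, 1 ≤ 1 + (K : ℝ) / p := by
    intro p
    have : 0 ≤ (K : ℝ) / p := by positivity
    linarith
  have h1 : Coll K (Zf F) s z (fun j : Fin (m + 1) => parts h j) ≤
      ∏ q ∈ PP m, SS M K s z (parts h q.2 - parts h q.1) := by
    unfold Coll SS
    refine le_trans ?_ (prod_biUnion_leR (PP m)
      (fun q => (Pr s z).filter (fun p : ℕ => (p : ℤ) ∣ M.eval ((parts h q.2 - parts h q.1 : ℕ) : ℤ))) _ hone)
    apply Finset.prod_le_prod_of_subset_of_one_le
    · intro p hp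
      rw [mem_filter] at hp
      obtain ⟨hp1, i, j, hij, c, hci, hcj⟩ := hp
      have hpp := (mem_filter.1 hp1).2
      rw [mem_Zf_mod hpp.pos] at hci hcj
      rw [mem_biUnion]
      have key : ∀ i j : Fin (m + 1), (i : ℕ) < j → (p : ℤ) ∣ F.eval (((c + parts h i : ℕ)) : ℤ) →
          (p : ℤ) ∣ F.eval (((c + parts h j : ℕ)) : ℤ) → ∃ q ∈ PP m,
          p ∈ (Pr s z).filter (fun p : ℕ => (p : ℤ) ∣ M.eval ((parts h q.2 - parts h q.1 : ℕ) : ℤ)) := by
        intro i j hlt hi hj
        refine ⟨(i, j), ?_, ?_⟩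
        · unfold PP
          rw [mem_filter, mem_product, mem_range, mem_range]
          exact ⟨⟨i.2, j.2⟩, hlt⟩
        · rw [mem_filter]
          refine ⟨hp1, ?_⟩
          have hle : parts h i ≤ parts h j := parts_mono h hlt.le
          apply hM p hpp _ _ hi
          have e : (((c + parts h i : ℕ)) : ℤ) + ((parts h j - parts h i : ℕ) : ℤ) = (((c + parts h j : ℕ)) : ℤ) := by
            rw [Nat.cast_sub hle]
            push_cast
            ring
          show (p : ℤ) ∣ F.eval ((((c + parts h i : ℕ)) : ℤ) + ((parts h j - parts h i : ℕ) : ℤ))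
          rw [e]
          exact hj
      rcases lt_or_gt_of_ne (fun h => hij (Fin.ext h) : (i : ℕ) ≠ j) with hlt | hlt
      · exact key i j hlt hci hcj
      · exact key j i hlt hcj hci
    · intro p _
      linarith [hone p]
    · intro p _ _
      exact hone p
  refine h1.trans ((prod_le_sum_pow (PP m) hne _ (fun q _ => by linarith [SS_one_le M K s z (parts h q.2 - parts h q.1)])).trans ?_)
  apply Finset.sum_le_sum
  intro q _
  exact SS_pow M K s z _ _

theorem box_sum {m : ℕ} (I : Fin m → Finset ℕ) (f : (Fin m → ℕ) → ℝ) (t : Fin m) (B : ℝ)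
    (hI : (I t).Nonempty)
    (h : ∀ h ∈ Fintype.piFinset I, ∑ x ∈ I t, f (Function.update h t x) ≤ B * (I t).card) :
    ∑ h ∈ Fintype.piFinset I, f h ≤ B * (Fintype.piFinset I).card := by
  classical
  have h1 : ∑ q ∈ Fintype.piFinset I ×ˢ I t, f (Function.update q.1 t q.2) =
      ∑ q ∈ Fintype.piFinset I ×ˢ I t, f q.1 := by
    apply Finset.sum_nbij' (fun q => (Function.update q.1 t q.2, q.1 t)) (fun q => (Function.update q.1 t q.2, q.1 t))
    · intro q hq
      rw [mem_product, Fintype.mem_piFinset] at hq ⊢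
      refine ⟨?_, hq.1 t⟩
      intro i
      by_cases hi : i = t
      · subst hi
        simpa using hq.2
      · simpa [Function.update_of_ne hi] using hq.1 i
    · intro q hq
      rw [mem_product, Fintype.mem_piFinset] at hq ⊢
      refine ⟨?_, hq.1 t⟩
      intro i
      by_cases hi : i = t
      · subst hi
        simpa using hq.2
      · simpa [Function.update_of_ne hi] using hq.1 i
    · intro q _
      simp
    · intro q _
      simp
    · intro q _
      rfl
  rw [Finset.sum_product, Finset.sum_product] at h1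
  simp only [sum_const, nsmul_eq_mul] at h1
  have h2 : ∑ h ∈ Fintype.piFinset I, ((I t).card : ℝ) * f h ≤
      ∑ h ∈ Fintype.piFinset I, B * (I t).card := by
    rw [← h1]
    exact Finset.sum_le_sum h
  rw [← Finset.mul_sum, sum_const, nsmul_eq_mul] at h2
  have h3 : (0 : ℝ) < (I t).card := by exact_mod_cast hI.card_pos
  have h4 : ((I t).card : ℝ) * ∑ h ∈ Fintype.piFinset I, f h ≤ ((I t).card : ℝ) * (B * (Fintype.piFinset I).card) := by
    linarith
  exact le_of_mul_le_mul_left h4 h3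

theorem parts_update {m : ℕ} (h : Fin m → ℕ) (t : Fin m) (x i : ℕ) (hi : i ≤ t) :
    parts (Function.update h t x) i = parts h i := by
  unfold parts
  apply Finset.sum_congr rfl
  intro k hk
  rw [mem_range] at hk
  by_cases hkm : k < m
  · rw [dif_pos hkm, dif_pos hkm, Function.update_of_ne]
    intro hcon
    have := congrArg Fin.val hcon
    simp at this
    omega
  · rw [dif_neg hkm, dif_neg hkm]

theorem parts_le {m : ℕ} (h : Fin m → ℕ) (L : ℝ) (hL : ∀ i, (h i : ℝ) ≤ L) (j : ℕ) (hj : j ≤ m) : (parts h j : ℝ) ≤ j * L := by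
  induction j with
  | zero => rw [parts_zero]; simp
  | succ j ih =>
    rw [parts_succ h j (by omega)]
    push_cast
    have := ih (by omega)
    have := hL ⟨j, by omega⟩
    linarith

/-- the average over a box -/
theorem box_avg (M : Polynomial ℤ) (hM0 : M ≠ 0) (K e g : ℕ) (hg : 1 ≤ g) (he : ∀ h : ℕ, e < h → M.eval (h : ℤ) ≠ 0) :
    ∃ s₁ : ℕ, ∃ C : ℝ, 0 < C ∧ ∀ s : ℕ, s₁ ≤ s → ∀ m : ℕ, ∀ l w : Fin m → ℝ, (∀ i, 0 ≤ l i ∧ 0 < w i) →
      ∀ᶠ T : ℕ in atTop, ((bx e l w (LL g T)).card : ℝ) ≤ 2 ^ m * (∏ i, w i) * LL g T ^ m ∧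
      ∀ z : ℕ, ∀ q ∈ PP m,
      ∑ h ∈ bx e l w (LL g T), SS M K s z (parts h q.2 - parts h q.1) ≤ C * (bx e l w (LL g T)).card := by
  classical
  obtain ⟨s₁, C, B, hC, havg⟩ := avg M hM0 K e g he
  refine ⟨s₁, 2 * C, by positivity, ?_⟩
  intro s hs m l w hlw
  have hLt := LL_tendsto g hg
  set Λ : ℝ := ∑ i, (l i + w i) with hΛ
  have hΛi : ∀ i, l i + w i ≤ Λ := fun i => Finset.single_le_sum (f := fun i => l i + w i)
    (fun i _ => by linarith [(hlw i).1, (hlw i).2]) (mem_univ i)
  have hΛ0 : 0 ≤ Λ := Finset.sum_nonneg (fun i _ => by linarith [(hlw i).1, (hlw i).2])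
  have ev1 : ∀ᶠ T : ℕ in atTop, ∀ i : Fin m, 2 * (e + 2) / w i ≤ LL g T :=
    Filter.eventually_all.2 (fun i => hLt.eventually_ge_atTop _)
  have hlT : Tendsto (fun T : ℕ => Real.log (T : ℝ)) atTop atTop := Real.tendsto_log_atTop.comp tendsto_natCast_atTop_atTop
  have ev2 : ∀ᶠ T : ℕ in atTop, (m + 1) * Λ * 2 ^ g ≤ Real.log T := hlT.eventually_ge_atTop _
  have ev3 : ∀ᶠ T : ℕ in atTop, ∀ i : Fin m, Real.log (Real.log T) ^ B ≤ w i / 2 * LL g T := by
    rw [Filter.eventually_all]
    intro i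
    have h1 : (fun x : ℝ => Real.log x ^ B) =o[atTop] fun x => x ^ (1 : ℝ) := by
      have := isLittleO_log_rpow_rpow_atTop (s := 1) (B : ℝ) (by norm_num)
      simpa using this
    have h2 := (h1.comp_tendsto hlT).bound (c := w i / 2) (by have := (hlw i).2; linarith)
    filter_upwards [h2, hlT.eventually_ge_atTop 1] with T h3 h4
    simp only [Function.comp_apply, Real.norm_eq_abs, Real.rpow_one] at h3
    rw [abs_of_nonneg (pow_nonneg (Real.log_nonneg h4) _), abs_of_nonneg (by linarith)] at h3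
    refine h3.trans ?_
    have h5 : Real.log T ≤ LL g T := by
      unfold LL
      rw [Real.log_pow]
      push_cast
      calc Real.log T ≤ 2 * Real.log T := by linarith
        _ ≤ (2 * Real.log T) ^ g := le_self_pow₀ (by linarith) (by omega)
    have := (hlw i).2
    gcongr
  filter_upwards [ev1, ev2, ev3, havg s hs, hLt.eventually_ge_atTop 1, eventually_ge_atTop 3,
    hlT.eventually_ge_atTop 1] with T h1 h2 h3 h4 h5 h6 h7
  set L := LL g T with hL
  have hLlog : L = 2 ^ g * Real.log T ^ g := by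
    rw [hL]
    unfold LL
    rw [Real.log_pow]
    push_cast
    rw [mul_pow]
  set a : Fin m → ℕ := fun i => max e (⌈l i * L⌉₊ - 1) with ha
  set b : Fin m → ℕ := fun i => ⌊(l i + w i) * L⌋₊ with hb
  have hw2 : ∀ i, 2 * (e + 2) ≤ w i * L := by
    intro i
    have := h1 i
    rw [div_le_iff₀ (hlw i).2] at this
    linarith
  have hb1 : ∀ i, (l i + w i) * L - 1 ≤ b i := by
    intro i
    have := Nat.lt_floor_add_one ((l i + w i) * L)
    simp only [hb]
    linarith
  have hb2 : ∀ i, (b i : ℝ) ≤ (l i + w i) * L := fun i =>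
    Nat.floor_le (mul_nonneg (by linarith [(hlw i).1, (hlw i).2]) (by linarith))
  have ha1 : ∀ i, (a i : ℝ) ≤ e + l i * L := by
    intro i
    have h8 : a i ≤ e + (⌈l i * L⌉₊ - 1) := by
      simp only [ha]
      omega
    have h9 : ((⌈l i * L⌉₊ - 1 : ℕ) : ℝ) ≤ l i * L := by
      have h10 := Nat.ceil_lt_add_one (mul_nonneg (hlw i).1 (by linarith : (0 : ℝ) ≤ L))
      rcases Nat.eq_zero_or_pos ⌈l i * L⌉₊ with h11 | h11
      · rw [h11]
        simp
        exact mul_nonneg (hlw i).1 (by linarith)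
      · rw [Nat.cast_sub h11]
        push_cast
        linarith
    have h10 : (a i : ℝ) ≤ e + ((⌈l i * L⌉₊ - 1 : ℕ) : ℝ) := by exact_mod_cast h8
    linarith
  have ha2 : ∀ i, l i * L - 1 ≤ a i := by
    intro i
    have h8 : ⌈l i * L⌉₊ ≤ a i + 1 := by
      simp only [ha]
      omega
    have h9 : (⌈l i * L⌉₊ : ℝ) ≤ a i + 1 := by exact_mod_cast h8
    have := Nat.le_ceil (l i * L)
    linarith
  have hab : ∀ i, w i / 2 * L ≤ (b i : ℝ) - a i := by
    intro i
    have := hw2 i
    have := hb1 i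
    have := ha1 i
    nlinarith
  have hab' : ∀ i, a i < b i := by
    intro i
    have h8 := hab i
    have h9 : 0 < w i / 2 * L := by have := (hlw i).2; positivity
    have : (a i : ℝ) < b i := by linarith
    exact_mod_cast this
  have hcard : ∀ i, ((Ioc (a i) (b i)).card : ℝ) = (b i : ℝ) - a i := by
    intro i
    rw [Nat.card_Ioc, Nat.cast_sub (hab' i).le]
  have hbx : bx e l w L = Fintype.piFinset (fun i => Ioc (a i) (b i)) := rfl
  refine ⟨?_, ?_⟩
  · rw [hbx, Fintype.card_piFinset]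
    push_cast
    have h8 : ∀ i, ((Ioc (a i) (b i)).card : ℝ) ≤ 2 * w i * L := by
      intro i
      rw [hcard i]
      have := hb2 i
      have := ha2 i
      have := hw2 i
      have he0 : (0 : ℝ) ≤ e := Nat.cast_nonneg _
      nlinarith
    refine (Finset.prod_le_prod (fun i _ => Nat.cast_nonneg _) (fun i _ => h8 i)).trans ?_
    rw [Finset.prod_mul_distrib, Finset.prod_mul_distrib, prod_const, prod_const, card_univ, Fintype.card_fin]
  · intro z q hq
    unfold PP at hq
    rw [mem_filter, mem_product, mem_range, mem_range] at hq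
    obtain ⟨⟨hq1, hq2⟩, hq3⟩ := hq
    have ht : q.2 - 1 < m := by omega
    set t : Fin m := ⟨q.2 - 1, ht⟩ with ht'
    rw [hbx]
    apply box_sum (fun i => Ioc (a i) (b i)) _ t (2 * C)
    · exact Finset.nonempty_Ioc.2 (hab' t)
    · intro h hh
      rw [Fintype.mem_piFinset] at hh
      have h8 : ∀ x, parts (Function.update h t x) q.2 - parts (Function.update h t x) q.1 =
          (parts h (q.2 - 1) - parts h q.1) + x := by
        intro x
        have e1 : q.2 = (q.2 - 1) + 1 := by omega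
        have e2 : parts (Function.update h t x) q.2 = parts h (q.2 - 1) + x := by
          conv_lhs => rw [e1]
          rw [parts_succ _ (q.2 - 1) ht, parts_update h t x (q.2 - 1) (by simp [ht'])]
          congr 1
          exact Function.update_self t x h
        rw [e2, parts_update h t x q.1 (by simp [ht']; omega)]
        have e3 : parts h q.1 ≤ parts h (q.2 - 1) := parts_mono h (by omega)
        omega
      rw [Finset.sum_congr rfl (fun x _ => by rw [h8 x])]
      set Q := parts h (q.2 - 1) - parts h q.1 with hQ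
      have h9 : ∑ x ∈ Ioc (a t) (b t), SS M K s z (Q + x) = ∑ y ∈ Ioc (Q + a t) (Q + b t), SS M K s z y := by
        rw [← Finset.image_add_left_Ioc, Finset.sum_image (fun x _ y _ hxy => by omega)]
      rw [h9]
      have h10 : (((Q + b t : ℕ)) : ℝ) ≤ Real.log T ^ (g + 1) := by
        have h11 : (Q : ℝ) ≤ m * (Λ * L) := by
          have h12 : (Q : ℝ) ≤ parts h (q.2 - 1) := by exact_mod_cast Nat.sub_le _ _
          have h13 := parts_le h (Λ * L) (fun i => by
            have h14 := (mem_Ioc.1 (hh i)).2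
            have h15 : (h i : ℝ) ≤ b i := by exact_mod_cast h14
            have h16 := hb2 i
            have h17 := hΛi i
            nlinarith) (q.2 - 1) (by omega)
          refine h12.trans (h13.trans ?_)
          have h18 : ((q.2 - 1 : ℕ) : ℝ) ≤ m := by exact_mod_cast ht.le
          have h19 : 0 ≤ Λ * L := mul_nonneg hΛ0 (by linarith)
          gcongr
        have h12 : (b t : ℝ) ≤ Λ * L := by
          have h16 := hb2 t
          have h17 := hΛi t
          nlinarith
        push_cast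
        calc (Q : ℝ) + b t ≤ m * (Λ * L) + Λ * L := by linarith
          _ = ((m + 1) * Λ * 2 ^ g) * Real.log T ^ g := by rw [hLlog]; ring
          _ ≤ Real.log T * Real.log T ^ g := by gcongr
          _ = Real.log T ^ (g + 1) := by ring
      have h11 := h4 z (Q + a t) (Q + b t) (by
        have : e ≤ a t := le_max_left _ _
        omega) (by have := hab' t; omega) h10
      refine h11.trans ?_
      have h12 : ((Q + b t : ℕ) : ℝ) - ((Q + a t : ℕ) : ℝ) = ((Ioc (a t) (b t)).card : ℝ) := by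
        rw [hcard t]
        push_cast
        ring
      rw [h12]
      have h13 : Real.log (Real.log T) ^ B ≤ ((Ioc (a t) (b t)).card : ℝ) := by
        rw [hcard t]
        exact (h3 t).trans (hab t)
      show C * _ ≤ 2 * C * ((Ioc (a t) (b t)).card : ℝ)
      nlinarith

theorem corr_bd (F : Polynomial ℤ) (hF : NF F) (g : ℕ) (hg : 1 ≤ g) (C₀ : ℝ) (hC₀ : 0 < C₀)
    (hV : ∀ z : ℕ, 3 ≤ z → PX (fun q => (Zf F q).card) z ≤ C₀ / Real.log z ^ g)
    (δ : ℝ) (hδ : 0 < δ) (M : Polynomial ℤ) (hM0 : M ≠ 0)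
    (hM : ∀ p : ℕ, p.Prime → ∀ x h : ℤ, (p : ℤ) ∣ F.eval x → (p : ℤ) ∣ F.eval (x + h) → (p : ℤ) ∣ M.eval h)
    (e : ℕ) (he : ∀ h : ℕ, e < h → M.eval (h : ℤ) ≠ 0) (m : ℕ) (hm : 1 ≤ m) :
    ∃ C : ℝ, 0 < C ∧ ∀ A : Set ℕ, RV F δ A → CorrBd A g m e C := by
  classical
  obtain ⟨K, s₂, hpair⟩ := pair_bd F hF g C₀ hC₀ hV δ hδ m
  obtain ⟨s₁, C, hC, hbox⟩ := box_avg M hM0 ((1 + K) ^ (PP m).card) e g hg he
  obtain ⟨C₁, hC₁, hev⟩ := hpair (max s₁ s₂) (le_max_right _ _)
  refine ⟨C₁ * (PP m).card * C * 2 ^ m + 1, by positivity, ?_⟩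
  intro A hA l w hlw
  have hwp : 0 < ∏ i, w i := Finset.prod_pos (fun i _ => (hlw i).2)
  filter_upwards [hev, hbox (max s₁ s₂) (le_max_left _ _) m l w hlw, (LL_tendsto g hg).eventually_ge_atTop 1,
    pow_small (g * (m + 1)) 1 (by norm_num) (1 / 2 ^ m) (by positivity)] with T h1 h2 h3 h4
  obtain ⟨z, hz⟩ := h1
  obtain ⟨h5, h6⟩ := h2
  rw [Real.rpow_one] at h4
  set L := LL g T with hL
  have hLL : LL (g * (m + 1)) T = L ^ (m + 1) := by
    rw [hL]
    unfold LL
    rw [pow_mul]
  rw [hLL] at h4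
  have h7 : ∀ h ∈ bx e l w L, (((Icc T (T ^ 2)).filter (fun n => ∀ j ≤ m, n + parts h j ∈ A)).card : ℝ) ≤
      C₁ * ((T : ℝ) ^ 2 / L ^ (m + 1)) * (∑ q ∈ PP m, SS M ((1 + K) ^ (PP m).card) (max s₁ s₂) z (parts h q.2 - parts h q.1)) + T := by
    intro h _
    have h8 := hz A hA (fun j : Fin (m + 1) => parts h j)
    have h9 : (Icc T (T ^ 2)).filter (fun n => ∀ j ≤ m, n + parts h j ∈ A) =
        (Icc T (T ^ 2)).filter (fun n => ∀ j : Fin (m + 1), n + parts h j ∈ A) := by
      apply filter_congr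
      intro n _
      constructor
      · intro h10 j
        exact h10 j (by have := j.2; omega)
      · intro h10 j hj
        exact h10 ⟨j, by omega⟩
    rw [h9]
    refine h8.trans (add_le_add ?_ le_rfl)
    apply mul_le_mul_of_nonneg_left (coll_le F M hM m hm K _ z h)
    positivity
  refine (Finset.sum_le_sum h7).trans ?_
  rw [Finset.sum_add_distrib, ← Finset.mul_sum, Finset.sum_comm, sum_const, nsmul_eq_mul]
  have h8 : ∑ q ∈ PP m, ∑ h ∈ bx e l w L, SS M ((1 + K) ^ (PP m).card) (max s₁ s₂) z (parts h q.2 - parts h q.1) ≤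
      (PP m).card * (C * (bx e l w L).card) := by
    refine (Finset.sum_le_sum (fun q hq => h6 z q hq)).trans ?_
    rw [sum_const, nsmul_eq_mul]
  have hLpos : 0 < L := by linarith
  calc C₁ * ((T : ℝ) ^ 2 / L ^ (m + 1)) * (∑ q ∈ PP m, ∑ h ∈ bx e l w L, SS M ((1 + K) ^ (PP m).card) (max s₁ s₂) z (parts h q.2 - parts h q.1)) + (bx e l w L).card * T
      ≤ C₁ * ((T : ℝ) ^ 2 / L ^ (m + 1)) * ((PP m).card * (C * (2 ^ m * (∏ i, w i) * L ^ m))) +
        (2 ^ m * (∏ i, w i) * L ^ m) * (1 / 2 ^ m * ((T : ℝ) ^ 2 / L ^ (m + 1))) := by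
        apply add_le_add
        · apply mul_le_mul_of_nonneg_left _ (by positivity)
          exact h8.trans (by gcongr)
        · gcongr
    _ = (C₁ * (PP m).card * C * 2 ^ m + 1) * (∏ i, w i) * ((T : ℝ) ^ 2 / L) := by
        rw [pow_succ]
        field_simp
        ring

end Pool.Agent.X69.Ric
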