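import Pool.Agent.X69.Ric.Pair

/-!
# Upper bounds for the densities
-/

set_option autoImplicit false

namespace Pool.Agent.X69.Ric

open Filter Topology Finset Polynomial
open Pool.Agent.Y843.HS
open Pool.Agent.X26.GP (Zf mem_Zf_mod Zf_lt Zf_card_le Zf_card_lt NF PX PX_eq)

theorem Zf_card_le_self (f : ℤ[X]) (q : ℕ) : (Zf f q).card ≤ q := by
  have := card_le_card (show Zf f q ⊆ range q from fun u hu => mem_range.2 (Zf_lt f q u hu))
  rwa [card_range] at this

theorem dens_nonneg (f : ℤ[X]) (q : ℕ) (hq : q.Prime) : 0 ≤ 1 - ((Zf f q).card : ℝ) / q := by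
  have hq0 : (0 : ℝ) < q := by exact_mod_cast hq.pos
  have h3 : ((Zf f q).card : ℝ) ≤ q := by exact_mod_cast Zf_card_le_self f q
  have : ((Zf f q).card : ℝ) / q ≤ 1 := by rwa [div_le_one hq0]
  linarith

theorem dens_pos (f : ℤ[X]) (hf : NF f) (q : ℕ) (hq : q.Prime) : 0 < 1 - ((Zf f q).card : ℝ) / q := by
  have hq0 : (0 : ℝ) < q := by exact_mod_cast hq.pos
  have h3 : ((Zf f q).card : ℝ) < q := by exact_mod_cast Zf_card_lt hf hq
  have : ((Zf f q).card : ℝ) / q < 1 := by rwa [div_lt_one hq0]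
  linarith

theorem PX_nonneg (f : ℤ[X]) (z : ℕ) : 0 ≤ PX (fun q => (Zf f q).card) z := by
  unfold PX
  exact Finset.prod_nonneg (fun q hq => dens_nonneg f q (mem_filter.1 hq).2)

theorem PX_irr (f : ℤ[X]) (hf : Irreducible f) (hd : 0 < f.natDegree) :
    ∃ C : ℝ, 0 < C ∧ ∀ Y : ℕ, 3 ≤ Y → PX (fun q => (Zf f q).card) Y ≤ C / Real.log Y := by
  obtain ⟨C, hC⟩ := Pool.Agent.H474R2.PG.mertens_lower f hf hd
  refine ⟨Real.exp C, Real.exp_pos _, fun Y hY => ?_⟩
  have hY3 : (3 : ℝ) ≤ Y := by exact_mod_cast hY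
  have hlog : 0 < Real.log Y := Real.log_pos (by linarith)
  have h1 := hC Y hY3
  have h2 : PX (fun q => (Zf f q).card) Y ≤ Real.exp (-(Pool.Agent.H474R2.PG.Sg (Pool.Agent.H474R2.PG.rho f) Y)) := by
    unfold PX Pool.Agent.H474R2.PG.Sg Pool.Agent.H474R2.PG.PR
    rw [Nat.floor_natCast, ← Finset.sum_neg_distrib, Real.exp_sum]
    apply Finset.prod_le_prod
    · intro q hq
      exact dens_nonneg f q (mem_filter.1 hq).2
    · intro q hq
      have h3 : Pool.Agent.H474R2.PG.rho f q = (Zf f q).card := by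
        unfold Pool.Agent.H474R2.PG.rho Zf
        rfl
      rw [h3]
      have := Real.add_one_le_exp (-(((Zf f q).card : ℝ) / q))
      linarith
  refine h2.trans ?_
  have h3 : Real.exp (-(Pool.Agent.H474R2.PG.Sg (Pool.Agent.H474R2.PG.rho f) Y)) ≤
      Real.exp (C - Real.log (Real.log Y)) := Real.exp_le_exp.2 (by linarith)
  refine h3.trans (le_of_eq ?_)
  rw [Real.exp_sub, Real.exp_log hlog]

theorem PX_prod (g : ℕ) (f : Fin g → ℤ[X]) (hf : ∀ i, Irreducible (f i)) (hd : ∀ i, 0 < (f i).natDegree)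
    (hN : ∀ i, NF (f i)) (F : ℤ[X]) (p₀ : ℕ)
    (hp : ∀ p : ℕ, p₀ ≤ p → p.Prime → ∑ i, (Zf (f i) p).card ≤ (Zf F p).card) :
    ∃ C₀ : ℝ, 0 < C₀ ∧ ∀ z : ℕ, 3 ≤ z → PX (fun q => (Zf F q).card) z ≤ C₀ / Real.log z ^ g := by
  classical
  choose C hC0 hC using fun i => PX_irr (f i) (hf i) (hd i)
  set κ : ℕ → ℝ := fun q => if q.Prime ∧ q < p₀ then (∏ i, (1 - ((Zf (f i) q).card : ℝ) / q))⁻¹ else 1 with hκ
  have hprodpos : ∀ q : ℕ, q.Prime → 0 < ∏ i, (1 - ((Zf (f i) q).card : ℝ) / q) := fun q hq =>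
    Finset.prod_pos (fun i _ => dens_pos (f i) (hN i) q hq)
  have hprodle : ∀ q : ℕ, q.Prime → ∏ i, (1 - ((Zf (f i) q).card : ℝ) / q) ≤ 1 := by
    intro q hq
    apply Finset.prod_le_one
    · intro i _
      exact dens_nonneg _ q hq
    · intro i _
      have : 0 ≤ ((Zf (f i) q).card : ℝ) / q := by positivity
      linarith
  have hκ1 : ∀ q, 1 ≤ κ q := by
    intro q
    simp only [hκ]
    split_ifs with h
    · exact (one_le_inv₀ (hprodpos q h.1)).2 (hprodle q h.1)
    · exact le_rfl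
  have hkey : ∀ q : ℕ, q.Prime → 1 - ((Zf F q).card : ℝ) / q ≤ κ q * ∏ i, (1 - ((Zf (f i) q).card : ℝ) / q) := by
    intro q hq
    have hq0 : (0 : ℝ) < q := by exact_mod_cast hq.pos
    by_cases h : q < p₀
    · have h1 : κ q = (∏ i, (1 - ((Zf (f i) q).card : ℝ) / q))⁻¹ := by
        simp only [hκ]
        rw [if_pos ⟨hq, h⟩]
      have h2 : (∏ i, (1 - ((Zf (f i) q).card : ℝ) / q))⁻¹ * ∏ i, (1 - ((Zf (f i) q).card : ℝ) / q) = 1 :=
        inv_mul_cancel₀ (ne_of_gt (hprodpos q hq))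
      rw [h1, h2]
      exact sub_le_self _ (div_nonneg (Nat.cast_nonneg _) hq0.le)
    · have h1 : κ q = 1 := by
        simp only [hκ]
        rw [if_neg (fun h' => h h'.2)]
      rw [h1, one_mul]
      push Not at h
      have h2 := hp q h hq
      have h3 := Pool.Agent.Y79.HS.one_sub_sum_le (univ : Finset (Fin g)) (fun i => ((Zf (f i) q).card : ℝ) / q)
        (fun i _ => by positivity) (fun i _ => by have := dens_nonneg (f i) q hq; linarith)
      refine le_trans ?_ h3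
      have h4 : ∑ i, ((Zf (f i) q).card : ℝ) / q ≤ ((Zf F q).card : ℝ) / q := by
        rw [← Finset.sum_div]
        apply div_le_div_of_nonneg_right _ hq0.le
        exact_mod_cast h2
      linarith
  set D : ℝ := ∏ q ∈ range p₀, κ q with hD
  have hDpos : 0 < D := Finset.prod_pos (fun q _ => lt_of_lt_of_le one_pos (hκ1 q))
  refine ⟨D * ∏ i, C i, mul_pos hDpos (Finset.prod_pos (fun i _ => hC0 i)), ?_⟩
  intro z hz
  have hz3 : (3 : ℝ) ≤ z := by exact_mod_cast hz
  have hlog : 0 < Real.log z := Real.log_pos (by linarith)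
  have h1 : PX (fun q => (Zf F q).card) z ≤ (∏ q ∈ (Icc 1 z).filter Nat.Prime, κ q) *
      ∏ i, PX (fun q => (Zf (f i) q).card) z := by
    unfold PX
    rw [Finset.prod_comm, ← Finset.prod_mul_distrib]
    apply Finset.prod_le_prod
    · intro q hq
      exact dens_nonneg F q (mem_filter.1 hq).2
    · intro q hq
      exact hkey q (mem_filter.1 hq).2
  have h2 : ∏ q ∈ (Icc 1 z).filter Nat.Prime, κ q ≤ D := by
    have h3 : ∏ q ∈ (Icc 1 z).filter Nat.Prime, κ q = ∏ q ∈ ((Icc 1 z).filter Nat.Prime).filter (fun q => q < p₀), κ q := by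
      rw [Finset.prod_filter (fun q => q < p₀)]
      apply Finset.prod_congr rfl
      intro q _
      by_cases h : q < p₀
      · rw [if_pos h]
      · rw [if_neg h]
        simp only [hκ]
        rw [if_neg (fun h' => h h'.2)]
    rw [h3, hD]
    apply Finset.prod_le_prod_of_subset_of_one_le
    · intro q hq
      exact mem_range.2 (mem_filter.1 hq).2
    · intro q _
      exact le_trans zero_le_one (hκ1 q)
    · intro q _ _
      exact hκ1 q
  have h3 : ∏ i, PX (fun q => (Zf (f i) q).card) z ≤ ∏ i, (C i / Real.log z) :=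
    Finset.prod_le_prod (fun i _ => PX_nonneg _ _) (fun i _ => hC i z hz)
  have h4 : ∏ i, (C i / Real.log z) = (∏ i, C i) / Real.log z ^ g := by
    rw [Finset.prod_div_distrib, prod_const, card_univ, Fintype.card_fin]
  calc PX (fun q => (Zf F q).card) z ≤ _ := h1
    _ ≤ D * ((∏ i, C i) / Real.log z ^ g) := by
        rw [← h4]
        apply mul_le_mul h2 h3 (Finset.prod_nonneg (fun i _ => PX_nonneg _ _)) hDpos.le
    _ = _ := by ring

end Pool.Agent.X69.Ric
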