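import Pool.Agent.X69.Ric.Lin

/-!
# The additive energy of a set with rough values
-/

set_option autoImplicit false

namespace Pool.Agent.X69.Ric

open Filter Topology Finset MeasureTheory
open Pool.Agent.Y843.HS
open Pool.Agent.X26.GP (Zf mem_Zf_mod Zf_lt Zf_card_le Zf_card_lt NF PX PX_eq)

theorem avg_long (M : Polynomial ℤ) (hM : M ≠ 0) (K e : ℕ) (he : ∀ h : ℕ, e < h → M.eval (h : ℤ) ≠ 0) :
    ∃ s₁ : ℕ, ∃ C : ℝ, ∃ B : ℕ, 0 < C ∧ ∀ s : ℕ, s₁ ≤ s → ∀ᶠ T : ℕ in atTop, ∀ z u v : ℕ, e ≤ u → u ≤ v →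
      v ≤ T ^ 2 →
      ∑ h ∈ Ioc u v, SS M K s z h ≤ C * (((v : ℝ) - u) + Real.log T ^ B) := by
  classical
  obtain ⟨c, hc1, hc⟩ := eval_bd M
  set D := M.natDegree with hD
  set A : ℝ := Real.log c + 2 * D with hA
  have hA0 : 0 ≤ A := by
    have : 0 ≤ Real.log c := Real.log_nonneg hc1
    positivity
  have hl2 : 0 < Real.log 2 := Real.log_pos (by norm_num)
  refine ⟨M.leadingCoeff.natAbs + 1, Real.exp (K * (A / Real.log 2)) * (Real.exp (K * D : ℕ) + 2 * 3 ^ (K * D)),
    K * D, by positivity, ?_⟩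
  intro s hs
  have hll : Tendsto (fun T : ℕ => Real.log (T : ℝ)) atTop atTop :=
    Real.tendsto_log_atTop.comp tendsto_natCast_atTop_atTop
  filter_upwards [hll.eventually_ge_atTop 1, eventually_ge_atTop 3] with T hT1 hT3 z u v heu huv hv
  have hTr : (3 : ℝ) ≤ T := by exact_mod_cast hT3
  set ll := Real.log (T : ℝ) with hlldef
  set W : ℕ := ⌈ll⌉₊ with hW
  have hW1 : ll ≤ W := Nat.le_ceil _
  have hW2 : (W : ℝ) < ll + 1 := Nat.ceil_lt_add_one (by linarith)
  have hWpos : 1 ≤ W := by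
    have : (0 : ℝ) < W := by linarith
    exact_mod_cast this
  have hWr : (0 : ℝ) < W := by linarith
  have hs1 : 1 ≤ s := by omega
  have hroot : ∀ p ∈ Pr s W, (Zf M p).card ≤ D ∧ Zf M p ⊆ range p := by
    intro p hp
    have h1 := mem_filter.1 hp
    refine ⟨Zf_card_le' M p h1.2 ?_, filter_subset _ _⟩
    intro h2
    have h3 : p ∣ M.leadingCoeff.natAbs := Int.natCast_dvd.1 h2
    have h4 : M.leadingCoeff.natAbs ≠ 0 := Int.natAbs_ne_zero.2 (Polynomial.leadingCoeff_ne_zero.2 hM)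
    have h5 := Nat.le_of_dvd (Nat.pos_of_ne_zero h4) h3
    have h6 := (mem_Ioc.1 h1.1).1
    omega
  have hpt : ∀ h ∈ Ioc u v, SS M K s z h ≤ Real.exp (K * (A / Real.log 2)) *
      ∏ p ∈ (Pr s W).filter (fun p => h % p ∈ Zf M p), (1 + (K : ℝ) / p) := by
    intro h hh
    rw [mem_Ioc] at hh
    have hh0 : M.eval (h : ℤ) ≠ 0 := he h (by omega)
    have hN0 : (M.eval (h : ℤ)).natAbs ≠ 0 := Int.natAbs_ne_zero.2 hh0
    have hhr : (1 : ℝ) ≤ h := by
      have : 1 ≤ h := by omega
      exact_mod_cast this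
    have hhv : (h : ℝ) ≤ (T : ℝ) ^ 2 := by
      have : h ≤ T ^ 2 := by omega
      exact_mod_cast this
    have h1 : SS M K s z h ≤ (∏ p ∈ (Pr s W).filter (fun p => h % p ∈ Zf M p), (1 + (K : ℝ) / p)) *
        ∏ p ∈ (Pr W z).filter (fun p => p ∣ (M.eval (h : ℤ)).natAbs), (1 + (K : ℝ) / p) := by
      unfold SS
      have h2 : (Pr s z).filter (fun p : ℕ => (p : ℤ) ∣ M.eval (h : ℤ)) ⊆
          (Pr s W).filter (fun p => h % p ∈ Zf M p) ∪ (Pr W z).filter (fun p => p ∣ (M.eval (h : ℤ)).natAbs) := by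
        intro p hp
        rw [mem_filter] at hp
        have h3 := mem_filter.1 hp.1
        have h4 := mem_Ioc.1 h3.1
        rw [mem_union, mem_filter, mem_filter]
        rcases le_or_gt p W with h5 | h5
        · left
          refine ⟨mem_filter.2 ⟨mem_Ioc.2 ⟨h4.1, h5⟩, h3.2⟩, ?_⟩
          rw [mem_Zf_mod h3.2.pos]
          exact hp.2
        · right
          exact ⟨mem_filter.2 ⟨mem_Ioc.2 ⟨h5, h4.2⟩, h3.2⟩, Int.natCast_dvd.1 hp.2⟩
      have hone : ∀ p : ℕ, 1 ≤ 1 + (K : ℝ) / p := by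
        intro p
        have : 0 ≤ (K : ℝ) / p := by positivity
        linarith
      refine (Finset.prod_le_prod_of_subset_of_one_le h2 (fun p _ => by linarith [hone p]) (fun p _ _ => hone p)).trans ?_
      rw [← Finset.prod_union_inter]
      apply le_mul_of_one_le_right
      · exact Finset.prod_nonneg (fun p _ => by linarith [hone p])
      · exact one_le_prodR _ _ hone
    refine h1.trans ?_
    rw [mul_comm]
    apply mul_le_mul_of_nonneg_right _ (Finset.prod_nonneg (fun p _ => by positivity))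
    have h3 : (((M.eval (h : ℤ)).natAbs : ℕ) : ℝ) ≤ c * ((T : ℝ) ^ 2) ^ D := by
      have h4 := hc h (by exact_mod_cast hhr)
      rw [Nat.cast_natAbs, Int.cast_abs]
      refine h4.trans ?_
      gcongr
    refine (large_part _ K W z hN0 hWpos _ h3).trans ?_
    apply Real.exp_le_exp.2
    have h5 : Real.log (c * ((T : ℝ) ^ 2) ^ D) = Real.log c + D * (2 * ll) := by
      rw [Real.log_mul (by positivity) (by positivity), Real.log_pow, Real.log_pow]
      push_cast
      ring
    rw [h5]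
    have h6 : (Real.log c + D * (2 * ll)) ≤ A * W := by
      rw [hA]
      have h7 : 0 ≤ Real.log c := Real.log_nonneg hc1
      have h8 : (1 : ℝ) ≤ W := by linarith
      have h9 : (0 : ℝ) ≤ 2 * D := by positivity
      nlinarith
    have h7 : (Real.log c + D * (2 * ll)) / Real.log 2 / W ≤ A / Real.log 2 := by
      rw [div_div, div_le_div_iff₀ (by positivity) hl2]
      nlinarith
    gcongr
  refine (Finset.sum_le_sum hpt).trans ?_
  rw [← Finset.mul_sum]
  have h1 := avg_small (Zf M) D s W hs1 hroot K u v huv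
  rw [mul_assoc]
  apply mul_le_mul_of_nonneg_left _ (by positivity)
  refine h1.trans ?_
  have h2 : ((W : ℝ) + 1) ^ (K * D) ≤ 3 ^ (K * D) * ll ^ (K * D) := by
    rw [← mul_pow]
    gcongr
    linarith
  have h3 : (0 : ℝ) ≤ (v : ℝ) - u := by
    have : (u : ℝ) ≤ v := by exact_mod_cast huv
    linarith
  have h4 : (0 : ℝ) ≤ ll ^ (K * D) := by positivity
  have h5 : (0 : ℝ) ≤ Real.exp (K * D : ℕ) := (Real.exp_pos _).le
  have h6 : (0 : ℝ) ≤ 2 * 3 ^ (K * D) := by positivity
  nlinarith [mul_nonneg h6 h3, mul_nonneg h5 h4]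

open Classical in
/-- the number of representations -/
noncomputable def Rp (A : Set ℕ) (X h : ℕ) : ℕ := ((Icc 0 X).filter (fun n => n ∈ A ∧ n + h ∈ A)).card

/-- the energy and the representations -/
theorem energy_le (a : ℕ → ℕ) (ha : StrictMono a) (A : Set ℕ) (hA : ∀ k, a k ∈ A) (N X : ℕ) (hX : ∀ k < N, a k ≤ X) :
    ((((range N ×ˢ range N) ×ˢ (range N ×ˢ range N)).filter
        (fun p => ((a p.1.1 : ℕ) : ℤ) + (a p.1.2 : ℕ) = (a p.2.1 : ℕ) + (a p.2.2 : ℕ))).card) ≤
      2 * ∑ h ∈ Icc 0 X, Rp A X h ^ 2 := by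
  classical
  set P := range N ×ˢ range N with hP
  set f : ℕ × ℕ → ℤ := fun q => ((a q.1 : ℕ) : ℤ) - (a q.2 : ℕ) with hf
  set r : ℤ → ℕ := fun d => (P.filter (fun q => f q = d)).card with hr
  have h1 : (((P ×ˢ P).filter (fun p => ((a p.1.1 : ℕ) : ℤ) + (a p.1.2 : ℕ) = (a p.2.1 : ℕ) + (a p.2.2 : ℕ))).card) ≤
      ((P ×ˢ P).filter (fun p => f p.1 = f p.2)).card := by
    apply card_le_card_of_injOn (fun p => ((p.1.1, p.2.1), (p.2.2, p.1.2)))
    · intro p hp
      rw [mem_coe, mem_filter, mem_product, hP, mem_product, mem_product] at hp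
      rw [mem_coe, mem_filter, mem_product, hP, mem_product, mem_product]
      refine ⟨⟨⟨hp.1.1.1, hp.1.2.1⟩, ⟨hp.1.2.2, hp.1.1.2⟩⟩, ?_⟩
      simp only [hf]
      linarith [hp.2]
    · intro p _ q _ hpq
      simp only [Prod.mk.injEq] at hpq
      exact Prod.ext (Prod.ext hpq.1.1 hpq.2.2) (Prod.ext hpq.1.2 hpq.2.1)
  have hfr : ∀ q ∈ P, f q ∈ Icc (-(X : ℤ)) X := by
    intro q hq
    rw [hP, mem_product, mem_range, mem_range] at hq
    have h2 := hX _ hq.1
    have h3 := hX _ hq.2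
    simp only [hf, mem_Icc]
    omega
  have h2 : ((P ×ˢ P).filter (fun p => f p.1 = f p.2)).card ≤ ∑ d ∈ Icc (-(X : ℤ)) X, r d ^ 2 := by
    have h3 : (P ×ˢ P).filter (fun p => f p.1 = f p.2) ⊆
        (Icc (-(X : ℤ)) X).biUnion (fun d => (P.filter (fun q => f q = d)) ×ˢ (P.filter (fun q => f q = d))) := by
      intro p hp
      rw [mem_filter, mem_product] at hp
      rw [mem_biUnion]
      refine ⟨f p.1, hfr _ hp.1.1, ?_⟩
      rw [mem_product, mem_filter, mem_filter]
      exact ⟨⟨hp.1.1, rfl⟩, hp.1.2, hp.2.symm⟩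
    refine (card_le_card h3).trans (card_biUnion_le.trans ?_)
    apply Finset.sum_le_sum
    intro d _
    rw [card_product, ← pow_two]
  have h3 : ∀ d : ℤ, r d ≤ Rp A X d.natAbs := by
    intro d
    simp only [hr]
    unfold Rp
    rcases le_or_gt 0 d with hd | hd
    · apply card_le_card_of_injOn (fun q => a q.2)
      · intro q hq
        rw [mem_coe, mem_filter, hP, mem_product, mem_range, mem_range] at hq
        rw [mem_coe, mem_filter, mem_Icc]
        have h4 : f q = d := hq.2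
        simp only [hf] at h4
        refine ⟨⟨Nat.zero_le _, hX _ hq.1.2⟩, hA _, ?_⟩
        have h5 : a q.2 + d.natAbs = a q.1 := by omega
        rw [h5]
        exact hA _
      · intro q hq q' hq' hqq
        rw [mem_coe, mem_filter] at hq hq'
        have h4 : f q = d := hq.2
        have h5 : f q' = d := hq'.2
        simp only [hf] at h4 h5
        have h6 : a q.2 = a q'.2 := hqq
        have h7 : a q.1 = a q'.1 := by omega
        exact Prod.ext (ha.injective h7) (ha.injective h6)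
    · apply card_le_card_of_injOn (fun q => a q.1)
      · intro q hq
        rw [mem_coe, mem_filter, hP, mem_product, mem_range, mem_range] at hq
        rw [mem_coe, mem_filter, mem_Icc]
        have h4 : f q = d := hq.2
        simp only [hf] at h4
        refine ⟨⟨Nat.zero_le _, hX _ hq.1.1⟩, hA _, ?_⟩
        have h5 : a q.1 + d.natAbs = a q.2 := by omega
        rw [h5]
        exact hA _
      · intro q hq q' hq' hqq
        rw [mem_coe, mem_filter] at hq hq'
        have h4 : f q = d := hq.2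
        have h5 : f q' = d := hq'.2
        simp only [hf] at h4 h5
        have h6 : a q.1 = a q'.1 := hqq
        have h7 : a q.2 = a q'.2 := by omega
        exact Prod.ext (ha.injective h6) (ha.injective h7)
  have h4 : ∑ d ∈ Icc (-(X : ℤ)) X, r d ^ 2 ≤ ∑ d ∈ Icc (-(X : ℤ)) X, Rp A X d.natAbs ^ 2 :=
    Finset.sum_le_sum (fun d _ => Nat.pow_le_pow_left (h3 d) 2)
  have h5 : ∑ d ∈ Icc (-(X : ℤ)) X, Rp A X d.natAbs ^ 2 ≤ 2 * ∑ h ∈ Icc 0 X, Rp A X h ^ 2 := by
    have h6 : ∀ d ∈ Icc (-(X : ℤ)) X, d.natAbs ∈ Icc 0 X := by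
      intro d hd
      rw [mem_Icc] at hd ⊢
      omega
    rw [← Finset.sum_fiberwise_of_maps_to h6, Finset.mul_sum]
    apply Finset.sum_le_sum
    intro h _
    have h7 : ∑ d ∈ (Icc (-(X : ℤ)) X).filter (fun d => d.natAbs = h), Rp A X d.natAbs ^ 2 =
        ((Icc (-(X : ℤ)) X).filter (fun d => d.natAbs = h)).card * Rp A X h ^ 2 := by
      rw [Finset.sum_congr rfl (fun d hd => by rw [(mem_filter.1 hd).2]), sum_const, smul_eq_mul]
    rw [h7]
    apply Nat.mul_le_mul_right
    have h8 : (Icc (-(X : ℤ)) X).filter (fun d => d.natAbs = h) ⊆ {(h : ℤ), -(h : ℤ)} := by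
      intro d hd
      rw [mem_filter] at hd
      rw [mem_insert, mem_singleton]
      omega
    exact (card_le_card h8).trans Finset.card_le_two
  exact h1.trans (h2.trans (h4.trans h5))

end Pool.Agent.X69.Ric
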