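import Pool.Agent.X69.Ric.Nth

/-!
# The vectors of consecutive gaps of a finite set
-/

set_option autoImplicit false

namespace Pool.Agent.X69.Ric

open Filter Topology Finset

/-- the elements of `A` between `n` and `n + parts h m` are the `n + parts h j`, `j ≤ m` -/
def GapAt (A : Set ℕ) {m : ℕ} (h : Fin m → ℕ) (n : ℕ) : Prop :=
  ∀ x, (x ∈ A ∧ n ≤ x ∧ x ≤ n + parts h m) ↔ ∃ j ≤ m, x = n + parts h j

open Classical in
/-- most elements of a set have small gaps -/
theorem first_mom (A : Set ℕ) (Y H m e : ℕ) (D : ℝ) (hD : 0 < D) (hA : ∀ n ∈ A, Y < n ∧ n ≤ Y + H) :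
    (((Ioc Y (Y + H)).filter (· ∈ A)).card : ℝ) ≤
      (((Ioc Y (Y + H)).filter (fun n => n ∈ A ∧ ∃ h : Fin m → ℕ, (∀ i, e < h i ∧ (h i : ℝ) ≤ D) ∧ GapAt A h n)).card : ℝ) +
        m + m * (H / D) + m * (((Ioc Y (Y + H)).filter (fun n => n ∈ A ∧ ∃ d ∈ Icc 1 e, n + d ∈ A)).card : ℝ) := by
  set A' : Set ℕ := {n | n ∈ A ∨ Y + H < n} with hA'
  have hinf : (setOf (· ∈ A')).Infinite := by
    apply Set.infinite_of_not_bddAbove
    rintro ⟨B, hB⟩
    have := hB (show B + Y + H + 1 ∈ A' from Or.inr (by omega))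
    omega
  set a : ℕ → ℕ := Nat.nth (· ∈ A') with ha
  have hmono : StrictMono a := Nat.nth_strictMono hinf
  have hmem : ∀ k, a k ∈ A' := fun k => Nat.nth_mem_of_infinite hinf k
  have hYa : ∀ k, Y < a k := by
    intro k
    rcases hmem k with h | h
    · exact (hA _ h).1
    · omega
  have hAA : ∀ k, a k ≤ Y + H → a k ∈ A := by
    intro k hk
    rcases hmem k with h | h
    · exact h
    · omega
  have hmono' : StrictMono (fun k => a k - Y) := by
    intro i j hij
    have h1 := hmono hij
    have h2 := hYa i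
    show a i - Y < a j - Y
    omega
  -- the indices
  set N := ((Ioc Y (Y + H)).filter (· ∈ A)).card with hN
  have hsurj : ∀ n ∈ A, ∃ k, a k = n := fun n hn => ⟨Nat.count (· ∈ A') n, Nat.nth_count (Or.inl hn)⟩
  set I : Finset ℕ := (range (Y + H + 1)).filter (fun k => a k ≤ Y + H) with hI
  have hIc : I.card = N := by
    have h1 : I.image a = (Ioc Y (Y + H)).filter (· ∈ A) := by
      ext n
      rw [mem_image, mem_filter, mem_Ioc]
      constructor
      · rintro ⟨k, hk, rfl⟩
        rw [hI, mem_filter] at hk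
        exact ⟨⟨hYa k, hk.2⟩, hAA k hk.2⟩
      · rintro ⟨⟨h1, h2⟩, h3⟩
        obtain ⟨k, rfl⟩ := hsurj n h3
        refine ⟨k, ?_, rfl⟩
        rw [hI, mem_filter, mem_range]
        have := hmono.id_le k
        simp only [id] at this
        exact ⟨by omega, h2⟩
    rw [hN, ← h1, card_image_of_injective _ hmono.injective]
  -- the good indices
  set Gd : Finset ℕ := (Ioc Y (Y + H)).filter (fun n => n ∈ A ∧ ∃ h : Fin m → ℕ, (∀ i, e < h i ∧ (h i : ℝ) ≤ D) ∧ GapAt A h n) with hGd
  set SG : Finset ℕ := (Ioc Y (Y + H)).filter (fun n => n ∈ A ∧ ∃ d ∈ Icc 1 e, n + d ∈ A) with hSG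
  have hcover : I ⊆ ((I.filter (fun k => a k ∈ Gd)) ∪ (I.filter (fun k => Y + H < a (k + m)))) ∪
      ((univ : Finset (Fin m)).biUnion (fun i => I.filter (fun k => a (k + i + 1) ≤ Y + H ∧ D < (a (k + i + 1) : ℝ) - a (k + i))) ∪
      (univ : Finset (Fin m)).biUnion (fun i => I.filter (fun k => a (k + i) ∈ SG))) := by
    intro k hk
    have hk' := hk
    rw [hI, mem_filter] at hk'
    rw [mem_union, mem_union, mem_union]
    by_cases h1 : Y + H < a (k + m)
    · exact Or.inl (Or.inr (mem_filter.2 ⟨hk, h1⟩))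
    push Not at h1
    have hle : ∀ j, j ≤ m → a (k + j) ≤ Y + H := fun j hj => (hmono.monotone (by omega)).trans h1
    by_cases h2 : ∃ i : Fin m, D < (a (k + i + 1) : ℝ) - a (k + i)
    · obtain ⟨i, hi⟩ := h2
      refine Or.inr (Or.inl ?_)
      rw [mem_biUnion]
      exact ⟨i, mem_univ _, mem_filter.2 ⟨hk, hle (i + 1) (by have := i.2; omega), hi⟩⟩
    push Not at h2
    by_cases h3 : ∃ i : Fin m, a (k + i) ∈ SG
    · obtain ⟨i, hi⟩ := h3
      refine Or.inr (Or.inr ?_)
      rw [mem_biUnion]
      exact ⟨i, mem_univ _, mem_filter.2 ⟨hk, hi⟩⟩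
    push Not at h3
    refine Or.inl (Or.inl (mem_filter.2 ⟨hk, ?_⟩))
    rw [hGd, mem_filter, mem_Ioc]
    have hakA : a k ∈ A := hAA k hk'.2
    refine ⟨⟨hYa k, hk'.2⟩, hakA, fun i : Fin m => a (k + i + 1) - a (k + i), ?_, ?_⟩
    · intro i
      have hi := i.2
      have hlt : a (k + i) < a (k + i + 1) := hmono (Nat.lt_succ_self _)
      constructor
      · by_contra hcon
        push Not at hcon
        apply h3 i
        rw [hSG, mem_filter, mem_Ioc]
        refine ⟨⟨hYa _, hle i (by omega)⟩, hAA _ (hle i (by omega)), a (k + i + 1) - a (k + i), ?_, ?_⟩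
        · rw [mem_Icc]
          omega
        · rw [Nat.add_sub_cancel' hlt.le]
          exact hAA _ (hle (i + 1) (by omega))
      · rw [Nat.cast_sub hlt.le]
        exact h2 i
    · intro x
      have hp := fun j (hj : j ≤ m) => parts_nth a hmono m k j hj
      rw [hp m le_rfl]
      constructor
      · rintro ⟨hx, h4, h5⟩
        obtain ⟨l, rfl⟩ := hsurj x hx
        have h6 : k ≤ l := hmono.le_iff_le.1 h4
        have h7 : l ≤ k + m := hmono.le_iff_le.1 h5
        refine ⟨l - k, by omega, ?_⟩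
        rw [hp (l - k) (by omega)]
        congr 1
        omega
      · rintro ⟨j, hj, rfl⟩
        rw [hp j hj]
        exact ⟨hAA _ (hle j hj), hmono.monotone (by omega), hmono.monotone (by omega)⟩
  have h1 : (I.filter (fun k => a k ∈ Gd)).card ≤ Gd.card := by
    apply card_le_card_of_injOn a
    · intro k hk
      rw [mem_coe, mem_filter] at hk
      exact hk.2
    · intro x _ y _ hxy
      exact hmono.injective hxy
  have h2 : (I.filter (fun k => Y + H < a (k + m))).card ≤ m := by
    rcases (I.filter (fun k => Y + H < a (k + m))).eq_empty_or_nonempty with h | h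
    · rw [h]
      simp
    · set k0 := (I.filter (fun k => Y + H < a (k + m))).min' h with hk0
      have h3 := (I.filter (fun k => Y + H < a (k + m))).min'_mem h
      rw [← hk0, mem_filter] at h3
      have h4 : I.filter (fun k => Y + H < a (k + m)) ⊆ Ico k0 (k0 + m) := by
        intro k hk
        rw [mem_Ico]
        refine ⟨(I.filter (fun k => Y + H < a (k + m))).min'_le k hk, ?_⟩
        by_contra hcon
        push Not at hcon
        have h5 := (mem_filter.1 (mem_filter.1 hk).1).2
        have h6 := hmono.monotone hcon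
        omega
      have h5 := card_le_card h4
      rw [Nat.card_Ico] at h5
      omega
  have h3 : ∀ i : Fin m, ((I.filter (fun k => a (k + i + 1) ≤ Y + H ∧ D < (a (k + i + 1) : ℝ) - a (k + i))).card : ℝ) ≤ H / D := by
    intro i
    set S := I.filter (fun k => a (k + i + 1) ≤ Y + H ∧ D < (a (k + i + 1) : ℝ) - a (k + i)) with hS
    rw [le_div_iff₀ hD]
    have h4 := sum_gaps (fun k => a k - Y) hmono' (S.image (fun k => k + (i : ℕ))) H (by
      intro k' hk'
      rw [mem_image] at hk'
      obtain ⟨k, hk, rfl⟩ := hk'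
      rw [hS, mem_filter] at hk
      show a (k + i + 1) - Y ≤ H
      omega)
    rw [sum_image (fun x _ y _ h => by omega)] at h4
    refine le_trans ?_ h4
    rw [← nsmul_eq_mul, ← Finset.sum_const]
    apply Finset.sum_le_sum
    intro k hk
    rw [hS, mem_filter] at hk
    have h5 := hYa (k + i + 1)
    have h6 := hYa (k + i)
    show D ≤ ((a (k + i + 1) - Y : ℕ) : ℝ) - ((a (k + i) - Y : ℕ) : ℝ)
    rw [Nat.cast_sub h5.le, Nat.cast_sub h6.le]
    linarith [hk.2.2]
  have h4 : ∀ i : Fin m, (I.filter (fun k => a (k + i) ∈ SG)).card ≤ SG.card := by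
    intro i
    apply card_le_card_of_injOn (fun k => a (k + i))
    · intro k hk
      rw [mem_coe, mem_filter] at hk
      exact hk.2
    · intro x _ y _ hxy
      have := hmono.injective hxy
      omega
  have h5 := (card_le_card hcover).trans (card_union_le _ _)
  have h6 := card_union_le (I.filter (fun k => a k ∈ Gd)) (I.filter (fun k => Y + H < a (k + m)))
  have h7 := card_union_le ((univ : Finset (Fin m)).biUnion (fun i => I.filter (fun k => a (k + i + 1) ≤ Y + H ∧ D < (a (k + i + 1) : ℝ) - a (k + i))))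
    ((univ : Finset (Fin m)).biUnion (fun i => I.filter (fun k => a (k + i) ∈ SG)))
  have h8 : (((univ : Finset (Fin m)).biUnion (fun i => I.filter (fun k => a (k + i + 1) ≤ Y + H ∧ D < (a (k + i + 1) : ℝ) - a (k + i)))).card : ℝ) ≤ m * (H / D) := by
    have h9 : (((univ : Finset (Fin m)).biUnion (fun i => I.filter (fun k => a (k + i + 1) ≤ Y + H ∧ D < (a (k + i + 1) : ℝ) - a (k + i)))).card : ℝ) ≤
        ∑ i : Fin m, ((I.filter (fun k => a (k + i + 1) ≤ Y + H ∧ D < (a (k + i + 1) : ℝ) - a (k + i))).card : ℝ) := by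
      exact_mod_cast card_biUnion_le
    refine h9.trans ((Finset.sum_le_sum (fun i _ => h3 i)).trans ?_)
    rw [sum_const, card_univ, Fintype.card_fin, nsmul_eq_mul]
  have h9 : ((univ : Finset (Fin m)).biUnion (fun i => I.filter (fun k => a (k + i) ∈ SG))).card ≤ m * SG.card := by
    refine card_biUnion_le.trans ((Finset.sum_le_sum (fun i _ => h4 i)).trans ?_)
    rw [sum_const, card_univ, Fintype.card_fin, smul_eq_mul]
  rw [hIc] at h5
  have h10 : (N : ℝ) ≤ (Gd.card : ℝ) + m + (((univ : Finset (Fin m)).biUnion (fun i => I.filter (fun k => a (k + i + 1) ≤ Y + H ∧ D < (a (k + i + 1) : ℝ) - a (k + i)))).card : ℝ) + m * SG.card := by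
    have : N ≤ Gd.card + m + ((univ : Finset (Fin m)).biUnion (fun i => I.filter (fun k => a (k + i + 1) ≤ Y + H ∧ D < (a (k + i + 1) : ℝ) - a (k + i)))).card + m * SG.card := by
      omega
    exact_mod_cast this
  linarith

end Pool.Agent.X69.Ric
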