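import Pool.Agent.X69.Ric.PackP

/-!
# The polynomials `((x + 1) ^ p - 1) / x`, `p` prime, at prime arguments
-/

set_option autoImplicit false

namespace Pool.Agent.X69.Ric.InsC

open Polynomial
open Pool.Agent.X69.Ric

/-- the values -/
def vC (p : ℕ) : ℕ → Fin 1 → ℕ := fun n _ => ((n + 1) ^ p - 1) / n

/-- the polynomial -/
noncomputable def FC (p : ℕ) : Fin 1 → ℤ[X] := fun _ => (cyclotomic p ℤ).comp (X + C 1)

theorem FC_eval (p : ℕ) (x : ℤ) (i : Fin 1) : (FC p i).eval x = (cyclotomic p ℤ).eval (x + 1) := by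
  unfold FC
  simp

theorem cyc0 {p : ℕ} (hp : p.Prime) : (cyclotomic p ℤ).eval 0 = 1 := by
  have h1 := cyclotomic_coeff_zero ℤ hp.one_lt
  rw [coeff_zero_eq_eval_zero] at h1
  exact h1

theorem psys (p : ℕ) (hp : p.Prime) : PSys (FC p) (vC p) := by
  have hpf : Fact p.Prime := ⟨hp⟩
  refine ⟨?_, ?_, ?_, fun _ _ _ => Subsingleton.elim _ _, ?_, ?_, ?_⟩
  · intro _
    exact Pool.Agent.W149.CS.comp_irred _ (cyclotomic.irreducible hp.pos) 1
  · intro _
    unfold FC
    rw [natDegree_comp, natDegree_cyclotomic, natDegree_X_add_C, mul_one]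
    exact Nat.totient_pos.2 hp.pos
  · intro _
    have h1 : ((cyclotomic p ℤ).comp (X + C 1)).Monic := (cyclotomic.monic p ℤ).comp_X_add_C 1
    unfold FC
    rw [h1.leadingCoeff]
    norm_num
  · intro i h
    have h1 : (FC p i).eval (-1 : ℤ) = 1 := by
      rw [FC_eval, neg_add_cancel, cyc0 hp]
    rw [h, eval_X] at h1
    norm_num at h1
  · intro q hq
    refine ⟨q - 1, ?_, ?_⟩
    · intro h
      have h2 := hq.two_le
      have := Nat.le_of_dvd (by omega) h
      omega
    · intro i h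
      have h2 := hq.two_le
      rw [FC_eval] at h
      have h3 : (((q - 1 : ℕ) : ℤ) + 1) = q := by
        push_cast [Nat.cast_sub (by omega : 1 ≤ q)]
        ring
      rw [h3] at h
      have h4 : (q : ℤ) ∣ (cyclotomic p ℤ).eval (q : ℤ) - (cyclotomic p ℤ).eval 0 := by
        have := sub_dvd_eval_sub (q : ℤ) 0 (cyclotomic p ℤ)
        rwa [sub_zero] at this
      rw [cyc0 hp] at h4
      have h5 : (q : ℤ) ∣ 1 := by
        have := dvd_sub h h4
        simpa using this
      exact hq.one_lt.ne' (Nat.dvd_one.1 (by exact_mod_cast h5))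
  · intro n hn i
    rw [FC_eval]
    unfold vC
    have h1 := congrArg (eval ((n : ℤ) + 1)) (cyclotomic_prime_mul_X_sub_one ℤ p)
    simp only [eval_mul, eval_sub, eval_pow, eval_X, eval_one] at h1
    have h2 : ((n : ℤ) + 1 - 1) = n := by ring
    rw [h2] at h1
    have hn0 : (n : ℤ) ≠ 0 := by exact_mod_cast (by omega : n ≠ 0)
    have h3 : 1 ≤ (n + 1) ^ p := Nat.one_le_pow _ _ (by omega)
    have h4 : (((n + 1) ^ p - 1 : ℕ) : ℤ) = ((n : ℤ) + 1) ^ p - 1 := by
      push_cast [Nat.cast_sub h3]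
      ring
    rw [Int.natCast_div, h4, ← h1, Int.mul_ediv_cancel _ hn0]

end Pool.Agent.X69.Ric.InsC
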