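import Pool.Agent.X69.Ric.PackP

/-!
# The polynomials `(u x) ^ 2 + 1` (`u` even) and `(u x) ^ 2 + 4` (`u` odd) at prime arguments
-/

set_option autoImplicit false

namespace Pool.Agent.X69.Ric.InsQ

open Polynomial
open Pool.Agent.X69.Ric

/-- the constant term -/
def cc (u : ℕ) : ℕ := if u % 2 = 0 then 1 else 4

/-- the values -/
def vQ (u : ℕ) : ℕ → Fin 1 → ℕ := fun n _ => (u * n) ^ 2 + cc u

/-- the polynomial -/
noncomputable def FQ (u : ℕ) : Fin 1 → ℤ[X] := fun _ => Pool.Agent.TH464.PW.quad ((u : ℤ) ^ 2) 0 (cc u : ℤ)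

theorem cc_cases (u : ℕ) : (u % 2 = 0 ∧ cc u = 1) ∨ (u % 2 = 1 ∧ cc u = 4) := by
  unfold cc
  split_ifs with h
  · exact Or.inl ⟨h, rfl⟩
  · exact Or.inr ⟨by omega, rfl⟩

theorem psys (u : ℕ) (hu : 1 ≤ u) : PSys (FQ u) (vQ u) := by
  have hu0 : ((u : ℤ) ^ 2) ≠ 0 := by positivity
  have hc1 : 1 ≤ cc u := by rcases cc_cases u with h | h <;> omega
  refine ⟨?_, ?_, ?_, fun _ _ _ => Subsingleton.elim _ _, ?_, ?_, ?_⟩
  · intro _
    refine Pool.Agent.TH464.PW.quad_irr _ _ _ hu0 ?_ ?_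
    · rintro p hp ⟨h1, -, h3⟩
      have h4 : p ∣ u := by
        have : (p : ℤ) ∣ (u : ℤ) := Int.Prime.dvd_pow' hp h1
        exact_mod_cast this
      have h5 : p ∣ cc u := by exact_mod_cast h3
      rcases cc_cases u with ⟨h6, h7⟩ | ⟨h6, h7⟩
      · rw [h7] at h5
        exact hp.one_lt.ne' (Nat.dvd_one.1 h5)
      · rw [h7] at h5
        have h8 : p ∣ 2 := hp.dvd_of_dvd_pow (show p ∣ 2 ^ 2 by simpa using h5)
        have h9 : p = 2 := (Nat.prime_dvd_prime_iff_eq hp Nat.prime_two).1 h8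
        rw [h9] at h4
        omega
    · rintro ⟨r, hr⟩
      have h1 : 0 < (u : ℤ) ^ 2 := by positivity
      have h2 : (1 : ℤ) ≤ (cc u : ℤ) := by exact_mod_cast hc1
      nlinarith [mul_self_nonneg r]
  · intro _
    unfold FQ
    rw [Pool.Agent.TH464.PW.quad_deg _ _ _ hu0]
    norm_num
  · intro _
    unfold FQ
    rw [Pool.Agent.TH464.PW.quad_lead _ _ _ hu0]
    positivity
  · intro _ h
    have h1 := Pool.Agent.TH464.PW.quad_deg ((u : ℤ) ^ 2) 0 (cc u : ℤ) hu0
    unfold FQ at h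
    rw [h, natDegree_X] at h1
    omega
  · intro p hp
    have hval : ∀ m : ℕ, (Pool.Agent.TH464.PW.quad ((u : ℤ) ^ 2) 0 (cc u : ℤ)).eval (m : ℤ) = (((u * m) ^ 2 + cc u : ℕ) : ℤ) := by
      intro m
      rw [Pool.Agent.TH464.PW.quad_eval]
      push_cast
      ring
    by_cases h1 : p ∣ (u * 1) ^ 2 + cc u
    · refine ⟨2, ?_, fun _ => ?_⟩
      · intro h2
        have h3 : p = 2 := (Nat.prime_dvd_prime_iff_eq hp Nat.prime_two).1 h2
        rw [h3] at h1
        rcases cc_cases u with ⟨h6, h7⟩ | ⟨h6, h7⟩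
        · rw [h7] at h1
          obtain ⟨k, hk⟩ := Nat.dvd_of_mod_eq_zero h6
          rw [hk] at h1
          have : (2 * k * 1) ^ 2 + 1 = 2 * (2 * k ^ 2) + 1 := by ring
          omega
        · rw [h7] at h1
          obtain ⟨k, hk⟩ : ∃ k, u = 2 * k + 1 := ⟨u / 2, by omega⟩
          rw [hk] at h1
          have : ((2 * k + 1) * 1) ^ 2 + 4 = 2 * (2 * k ^ 2 + 2 * k + 2) + 1 := by ring
          omega
      · unfold FQ
        rw [hval, Int.natCast_dvd_natCast]
        intro h2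
        have h3 : p ∣ 3 * u ^ 2 := by
          have h4 := (Nat.dvd_sub h2 h1)
          have h5 : (u * 2) ^ 2 + cc u - ((u * 1) ^ 2 + cc u) = 3 * u ^ 2 := by
            have : (u * 2) ^ 2 + cc u = 3 * u ^ 2 + ((u * 1) ^ 2 + cc u) := by ring
            omega
          rwa [h5] at h4
        rcases (Nat.Prime.dvd_mul hp).1 h3 with h4 | h4
        · have h5 : p = 3 := (Nat.prime_dvd_prime_iff_eq hp Nat.prime_three).1 h4
          rw [h5] at h1
          rcases cc_cases u with ⟨h6, h7⟩ | ⟨h6, h7⟩ <;>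
          · rw [h7] at h1
            have h8 : u % 3 = 0 ∨ u % 3 = 1 ∨ u % 3 = 2 := by omega
            have h9 : (u * 1) ^ 2 % 3 = 0 ∨ (u * 1) ^ 2 % 3 = 1 := by
              rw [mul_one, Nat.pow_mod]
              rcases h8 with h | h | h <;> rw [h] <;> norm_num
            omega
        · have h5 : p ∣ u := hp.dvd_of_dvd_pow h4
          have h6 : p ∣ cc u := by
            have h7 : p ∣ (u * 1) ^ 2 := dvd_pow (dvd_mul_of_dvd_left h5 1) two_ne_zero
            exact (Nat.dvd_add_right h7).1 h1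
          rcases cc_cases u with ⟨h8, h7⟩ | ⟨h8, h7⟩
          · rw [h7] at h6
            exact hp.one_lt.ne' (Nat.dvd_one.1 h6)
          · rw [h7] at h6
            have h8' : p ∣ 2 := hp.dvd_of_dvd_pow (show p ∣ 2 ^ 2 by simpa using h6)
            have h9 : p = 2 := (Nat.prime_dvd_prime_iff_eq hp Nat.prime_two).1 h8'
            rw [h9] at h5
            omega
    · refine ⟨1, fun h => hp.one_lt.ne' (Nat.dvd_one.1 h), fun _ => ?_⟩
      unfold FQ
      rw [hval, Int.natCast_dvd_natCast]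
      exact h1
  · intro n _ _
    unfold FQ vQ
    rw [Pool.Agent.TH464.PW.quad_eval]
    push_cast
    ring

end Pool.Agent.X69.Ric.InsQ
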