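import Pool.Agent.X69.Ric.Energy
import Pool.Agent.Results.MP_ab562c_nt.MetricPoissonian

/-!
# Poissonian pair correlations
-/

set_option autoImplicit false

namespace Pool.Agent.X69.Ric

open Filter Topology Finset MeasureTheory
open Pool.Agent.Y843.HS
open Pool.Agent.X26.GP (Zf mem_Zf_mod Zf_lt Zf_card_le Zf_card_lt NF PX PX_eq)

theorem log_pow_small (B : ℕ) (ε : ℝ) (hε : 0 < ε) : ∀ᶠ T : ℕ in atTop, Real.log T ^ B ≤ ε * T := by
  have h1 : (fun x : ℝ => Real.log x ^ B) =o[atTop] fun x => x ^ (1 : ℝ) := by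
    have := isLittleO_log_rpow_rpow_atTop (s := 1) (B : ℝ) (by norm_num)
    simpa using this
  have h2 := (h1.comp_tendsto tendsto_natCast_atTop_atTop).bound (c := ε) hε
  filter_upwards [h2, eventually_ge_atTop 3] with T hT hT3
  have hTr : (3 : ℝ) ≤ T := by exact_mod_cast hT3
  have hl : 0 < Real.log T := Real.log_pos (by linarith)
  simp only [Function.comp_apply, Real.norm_eq_abs, Real.rpow_one] at hT
  rwa [abs_of_nonneg (by positivity), abs_of_nonneg (by positivity)] at hT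

open Classical in
theorem rp_bd (F : Polynomial ℤ) (hF : NF F) (g : ℕ) (hg : 1 ≤ g) (C₀ : ℝ) (hC₀ : 0 < C₀)
    (hV : ∀ z : ℕ, 3 ≤ z → PX (fun q => (Zf F q).card) z ≤ C₀ / Real.log z ^ g)
    (δ : ℝ) (hδ : 0 < δ) (M : Polynomial ℤ) (hM0 : M ≠ 0)
    (hM : ∀ p : ℕ, p.Prime → ∀ x h : ℤ, (p : ℤ) ∣ F.eval x → (p : ℤ) ∣ F.eval (x + h) → (p : ℤ) ∣ M.eval h)
    (e : ℕ) (he : ∀ h : ℕ, e < h → M.eval (h : ℤ) ≠ 0) :
    ∃ C : ℝ, 0 < C ∧ ∀ᶠ X : ℕ in atTop, ∀ A : Set ℕ, RV F δ A →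
      ∑ h ∈ Ioc e X, (Rp A X h : ℝ) ^ 2 ≤ C * ((X : ℝ) ^ 3 / Real.log X ^ (4 * g)) := by
  obtain ⟨K, s₂, hpair⟩ := pair_bd F hF g C₀ hC₀ hV δ hδ 1
  set K' := (1 + K) ^ (PP 1).card with hK'
  obtain ⟨s₁, C, B, hC, havg⟩ := avg_long M hM0 ((1 + K') ^ 2) e he
  obtain ⟨C₁, hC₁, hev⟩ := hpair (max s₁ s₂) (le_max_right _ _)
  set s := max s₁ s₂ with hs
  set C₂ : ℝ := C₁ * (PP 1).card + 1 with hC₂
  have hC₂0 : 0 < C₂ := by positivity
  refine ⟨C₂ ^ 2 * (C * 2) * 64, by positivity, ?_⟩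
  have hT : Tendsto (fun X : ℕ => Nat.sqrt X + 1) atTop atTop := by
    apply tendsto_atTop_mono (f := fun X : ℕ => Nat.sqrt X) (fun X => by omega)
    rw [tendsto_atTop]
    intro b
    filter_upwards [eventually_ge_atTop (b * b)] with X hX
    exact Nat.le_sqrt.2 hX
  have evs := (hev.and ((havg s (le_max_left _ _)).and ((pow_small (g * 2) 1 (by norm_num) (1 / 2) (by norm_num)).and
    ((log_pow_small B 1 one_pos).and (((LL_tendsto g hg).eventually_ge_atTop 1).and (eventually_ge_atTop 3))))))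
  filter_upwards [hT.eventually evs, eventually_ge_atTop (max 3 e)] with X hX hX3 A hA
  set T := Nat.sqrt X + 1 with hTdef
  obtain ⟨⟨z, hz⟩, hav, hsm, hlB, hL1, hT3⟩ := hX
  have hX3' : 3 ≤ X := (le_max_left _ _).trans hX3
  have hXe : e ≤ X := (le_max_right _ _).trans hX3
  have hXr : (3 : ℝ) ≤ X := by exact_mod_cast hX3'
  have hTr : (3 : ℝ) ≤ T := by exact_mod_cast hT3
  have hXT : X ≤ T ^ 2 := by
    have := Nat.lt_succ_sqrt X
    rw [hTdef, pow_two]
    exact this.le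
  have hTX : T ^ 2 ≤ 4 * X := by
    have h1 : 1 ≤ Nat.sqrt X := Nat.le_sqrt.2 (by omega)
    have h2 : Nat.sqrt X * Nat.sqrt X ≤ X := Nat.sqrt_le X
    rw [hTdef]
    nlinarith
  set L := LL g T with hL
  have hLpos : 0 < L := by linarith
  rw [Real.rpow_one] at hsm
  have hLL : LL (g * 2) T = L ^ (1 + 1) := by
    rw [hL]
    unfold LL
    rw [pow_mul]
  rw [hLL] at hsm
  have h1 : ∀ h ∈ Ioc e X, (Rp A X h : ℝ) ≤ C₂ * ((T : ℝ) ^ 2 / L ^ (1 + 1)) * SS M K' s z h := by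
    intro h hh
    set u : Fin (1 + 1) → ℕ := fun j => parts (fun _ : Fin 1 => h) j with hu
    have hu0 : u 0 = 0 := by simp [hu, parts_zero]
    have hu1 : u 1 = h := by
      simp only [hu]
      have := parts_succ (fun _ : Fin 1 => h) 0 (by norm_num)
      show parts (fun _ : Fin 1 => h) (0 + 1) = h
      rw [this, parts_zero, zero_add]
    have h2 := hz A hA u
    have h3 : Rp A X h ≤ T + ((Icc T (T ^ 2)).filter (fun n => ∀ j, n + u j ∈ A)).card := by
      unfold Rp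
      have h4 : (Icc 0 X).filter (fun n => n ∈ A ∧ n + h ∈ A) ⊆ range T ∪ (Icc T (T ^ 2)).filter (fun n => ∀ j, n + u j ∈ A) := by
        intro n hn
        rw [mem_filter, mem_Icc] at hn
        rw [mem_union, mem_range, mem_filter, mem_Icc]
        by_cases h5 : n < T
        · exact Or.inl h5
        · right
          refine ⟨⟨by omega, by omega⟩, ?_⟩
          rw [Fin.forall_fin_two, hu0, hu1, add_zero]
          exact hn.2
      refine (card_le_card h4).trans ((card_union_le _ _).trans ?_)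
      rw [card_range]
    have h4 : Coll K (Zf F) s z u ≤ (PP 1).card * SS M K' s z h := by
      refine (coll_le F M hM 1 le_rfl K s z (fun _ => h)).trans ?_
      rw [← nsmul_eq_mul, ← Finset.sum_const]
      apply Finset.sum_le_sum
      intro q hq
      have hq' : parts (fun _ : Fin 1 => h) q.2 - parts (fun _ : Fin 1 => h) q.1 = h := by
        unfold PP at hq
        rw [mem_filter, mem_product, mem_range, mem_range] at hq
        have e1 : q.1 = 0 := by omega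
        have e2 : q.2 = 1 := by omega
        rw [e1, e2]
        have h6 := hu1
        simp only [hu] at h6
        have h7 : parts (fun _ : Fin 1 => h) 0 = 0 := parts_zero _
        have h8 : parts (fun _ : Fin 1 => h) 1 = h := h6
        rw [h7, h8]
        rfl
      rw [hq']
    have h5 : (1 : ℝ) ≤ SS M K' s z h := SS_one_le _ _ _ _ _
    have h6 : (Rp A X h : ℝ) ≤ T + ((Icc T (T ^ 2)).filter (fun n => ∀ j, n + u j ∈ A)).card := by exact_mod_cast h3
    have h7 : C₁ * ((T : ℝ) ^ 2 / L ^ (1 + 1)) * Coll K (Zf F) s z u ≤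
        C₁ * ((T : ℝ) ^ 2 / L ^ (1 + 1)) * ((PP 1).card * SS M K' s z h) := by gcongr
    have h8 : 2 * (T : ℝ) ≤ ((T : ℝ) ^ 2 / L ^ (1 + 1)) * SS M K' s z h := by
      have h9 : 0 ≤ (T : ℝ) ^ 2 / L ^ (1 + 1) := by positivity
      nlinarith
    calc (Rp A X h : ℝ) ≤ T + (C₁ * ((T : ℝ) ^ 2 / L ^ (1 + 1)) * ((PP 1).card * SS M K' s z h) + T) := by linarith
      _ ≤ C₁ * ((T : ℝ) ^ 2 / L ^ (1 + 1)) * ((PP 1).card * SS M K' s z h) + ((T : ℝ) ^ 2 / L ^ (1 + 1)) * SS M K' s z h := by linarith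
      _ = _ := by rw [hC₂]; ring
  have h2 : ∀ h ∈ Ioc e X, (Rp A X h : ℝ) ^ 2 ≤ (C₂ * ((T : ℝ) ^ 2 / L ^ (1 + 1))) ^ 2 * SS M ((1 + K') ^ 2) s z h := by
    intro h hh
    have h3 := h1 h hh
    have h4 : (Rp A X h : ℝ) ^ 2 ≤ (C₂ * ((T : ℝ) ^ 2 / L ^ (1 + 1)) * SS M K' s z h) ^ 2 := by gcongr
    refine h4.trans ?_
    rw [mul_pow]
    apply mul_le_mul_of_nonneg_left (SS_pow M K' s z h 2) (by positivity)
  refine (Finset.sum_le_sum h2).trans ?_
  rw [← Finset.mul_sum]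
  have h3 := hav z e X le_rfl hXe hXT
  have h4 : C * (((X : ℝ) - e) + Real.log T ^ B) ≤ C * (2 * (T : ℝ) ^ 2) := by
    apply mul_le_mul_of_nonneg_left _ hC.le
    have h5 : (X : ℝ) ≤ (T : ℝ) ^ 2 := by exact_mod_cast hXT
    have h6 : (0 : ℝ) ≤ e := Nat.cast_nonneg _
    nlinarith
  have h5 : (C₂ * ((T : ℝ) ^ 2 / L ^ (1 + 1))) ^ 2 * ∑ h ∈ Ioc e X, SS M ((1 + K') ^ 2) s z h ≤
      (C₂ * ((T : ℝ) ^ 2 / L ^ (1 + 1))) ^ 2 * (C * (2 * (T : ℝ) ^ 2)) :=
    mul_le_mul_of_nonneg_left (h3.trans h4) (by positivity)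
  refine h5.trans ?_
  have h6 : (C₂ * ((T : ℝ) ^ 2 / L ^ (1 + 1))) ^ 2 * (C * (2 * (T : ℝ) ^ 2)) = C₂ ^ 2 * (C * 2) * (((T : ℝ) ^ 2) ^ 3 / L ^ 4) := by
    field_simp
    ring
  rw [h6, mul_assoc (C₂ ^ 2 * (C * 2)) 64]
  apply mul_le_mul_of_nonneg_left _ (by positivity)
  have h7 : (T : ℝ) ^ 2 ≤ 4 * X := by exact_mod_cast hTX
  have h8 : Real.log X ^ g ≤ L := by
    rw [hL]
    unfold LL
    have h9 : (X : ℝ) ≤ (T : ℝ) ^ 2 := by exact_mod_cast hXT
    have h10 : 0 ≤ Real.log X := Real.log_nonneg (by linarith)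
    have h11 : Real.log X ≤ Real.log ((T : ℝ) ^ 2) := Real.log_le_log (by linarith) h9
    gcongr
  have hlX : 0 < Real.log X := Real.log_pos (by linarith)
  calc ((T : ℝ) ^ 2) ^ 3 / L ^ 4 ≤ (4 * (X : ℝ)) ^ 3 / (Real.log X ^ g) ^ 4 := by gcongr
    _ = 64 * ((X : ℝ) ^ 3 / Real.log X ^ (4 * g)) := by
        rw [← pow_mul, mul_comm g 4]
        ring

open Classical in
/-- **the additive energy** -/
theorem energy_bd (F : Polynomial ℤ) (hF : NF F) (g : ℕ) (hg : 1 ≤ g) (C₀ : ℝ) (hC₀ : 0 < C₀)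
    (hV : ∀ z : ℕ, 3 ≤ z → PX (fun q => (Zf F q).card) z ≤ C₀ / Real.log z ^ g)
    (δ : ℝ) (hδ : 0 < δ) (M : Polynomial ℤ) (hM0 : M ≠ 0)
    (hM : ∀ p : ℕ, p.Prime → ∀ x h : ℤ, (p : ℤ) ∣ F.eval x → (p : ℤ) ∣ F.eval (x + h) → (p : ℤ) ∣ M.eval h)
    (A : Set ℕ) (hA : RV F δ A) (c : ℝ) (hc : 0 < c)
    (hlow : ∀ᶠ X : ℕ in atTop, c * X / Real.log X ^ g ≤ ((Icc 1 X).filter (· ∈ A)).card) :
    A.Infinite ∧ ∃ C : ℝ, 0 < C ∧ ∀ᶠ N : ℕ in atTop,
      (((((range N ×ˢ range N) ×ˢ (range N ×ˢ range N)).filter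
        (fun p => ((Nat.nth (· ∈ A) p.1.1 : ℕ) : ℤ) + (Nat.nth (· ∈ A) p.1.2 : ℕ) =
          (Nat.nth (· ∈ A) p.2.1 : ℕ) + (Nat.nth (· ∈ A) p.2.2 : ℕ))).card : ℝ)) ≤ C * ((N : ℝ) ^ 3 / Real.log N ^ g) := by
  have hinf : A.Infinite := by
    intro hfin
    have h1 : ∀ᶠ X : ℕ in atTop, Real.log X ^ g ≤ c / (2 * (hfin.toFinset.card + 1)) * X :=
      log_pow_small g _ (by positivity)
    obtain ⟨X, h2, h3, h4⟩ := (hlow.and (h1.and (eventually_ge_atTop 3))).exists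
    have h5 : (3 : ℝ) ≤ X := by exact_mod_cast h4
    have h6 : 0 < Real.log X := Real.log_pos (by linarith)
    have h7 : (((Icc 1 X).filter (· ∈ A)).card : ℝ) ≤ hfin.toFinset.card := by
      apply Nat.cast_le.2
      apply card_le_card
      intro x hx
      rw [Set.Finite.mem_toFinset]
      exact (mem_filter.1 hx).2
    have h8 : (2 : ℝ) * (hfin.toFinset.card + 1) ≤ c * X / Real.log X ^ g := by
      rw [le_div_iff₀ (by positivity)]
      calc (2 : ℝ) * (hfin.toFinset.card + 1) * Real.log X ^ g ≤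
          2 * (hfin.toFinset.card + 1) * (c / (2 * (hfin.toFinset.card + 1)) * X) := by gcongr
        _ = c * X := by field_simp
    have h9 : (0 : ℝ) ≤ hfin.toFinset.card := Nat.cast_nonneg _
    linarith
  refine ⟨hinf, ?_⟩
  have hinf' : (setOf (· ∈ A)).Infinite := hinf
  set a : ℕ → ℕ := Nat.nth (· ∈ A) with ha
  have hmono : StrictMono a := Nat.nth_strictMono hinf'
  have hmem : ∀ k, a k ∈ A := fun k => Nat.nth_mem_of_infinite hinf' k
  have hid : ∀ k, k ≤ a k := hmono.id_le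
  obtain ⟨e, he⟩ := zeros_bd M hM0
  obtain ⟨C, hC, hrp⟩ := rp_bd F hF g hg C₀ hC₀ hV δ hδ M hM0 hM e he
  refine ⟨2 * (e + 1) + 2 * (C * (2 ^ g / c ^ 3)), by positivity, ?_⟩
  have hX : Tendsto (fun N : ℕ => a (N - 1)) atTop atTop := by
    rw [tendsto_atTop]
    intro b
    filter_upwards [eventually_ge_atTop (b + 1)] with N hN
    have := hid (N - 1)
    omega
  filter_upwards [hX.eventually hrp, hX.eventually hlow, eventually_ge_atTop (max 4 (e + 2)),
    log_pow_small g 1 one_pos] with N h1 h2 h3 h4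
  have hN4 : 4 ≤ N := (le_max_left _ _).trans h3
  have hNe : e + 2 ≤ N := (le_max_right _ _).trans h3
  set X := a (N - 1) with hXdef
  have hNr : (4 : ℝ) ≤ N := by exact_mod_cast hN4
  have hXN : N - 1 ≤ X := hid _
  have hXr : (N : ℝ) - 1 ≤ X := by
    have : ((N - 1 : ℕ) : ℝ) ≤ X := by exact_mod_cast hXN
    rwa [Nat.cast_sub (by omega), Nat.cast_one] at this
  have hcnt : ((Icc 0 X).filter (· ∈ A)).card ≤ N := by
    have h5 : (Icc 0 X).filter (· ∈ A) ⊆ (range N).image a := by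
      intro n hn
      rw [mem_filter, mem_Icc] at hn
      rw [mem_image]
      have h6 : a (Nat.count (· ∈ A) n) = n := Nat.nth_count hn.2
      refine ⟨Nat.count (· ∈ A) n, ?_, h6⟩
      rw [mem_range]
      have h7 : a (Nat.count (· ∈ A) n) ≤ a (N - 1) := by rw [h6]; exact hn.1.2
      have := hmono.le_iff_le.1 h7
      omega
    refine (card_le_card h5).trans (card_image_le.trans ?_)
    rw [card_range]
  have hcnt1 : (((Icc 1 X).filter (· ∈ A)).card : ℝ) ≤ N := by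
    have h5 : (Icc 1 X).filter (· ∈ A) ⊆ (Icc 0 X).filter (· ∈ A) :=
      filter_subset_filter _ (Icc_subset_Icc (by norm_num) le_rfl)
    exact_mod_cast (card_le_card h5).trans hcnt
  have h5 := energy_le a hmono A hmem N X (fun k hk => hmono.monotone (by omega))
  have h6 : ((∑ h ∈ Icc 0 X, Rp A X h ^ 2 : ℕ) : ℝ) ≤ (e + 1) * (N : ℝ) ^ 2 + C * ((X : ℝ) ^ 3 / Real.log X ^ (4 * g)) := by
    push_cast
    have h7 : Icc 0 X = Icc 0 e ∪ Ioc e X := by
      ext x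
      rw [mem_union, mem_Icc, mem_Icc, mem_Ioc]
      omega
    rw [h7, Finset.sum_union (by
      rw [disjoint_left]
      intro x hx hx'
      rw [mem_Icc] at hx
      rw [mem_Ioc] at hx'
      omega)]
    apply add_le_add _ (h1 A hA)
    have h8 : ∀ h ∈ Icc 0 e, (Rp A X h : ℝ) ^ 2 ≤ (N : ℝ) ^ 2 := by
      intro h _
      have h9 : Rp A X h ≤ N := by
        refine le_trans ?_ hcnt
        unfold Rp
        apply card_le_card
        intro n hn
        rw [mem_filter] at hn ⊢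
        exact ⟨hn.1, hn.2.1⟩
      have h10 : (Rp A X h : ℝ) ≤ N := by exact_mod_cast h9
      gcongr
    refine (Finset.sum_le_sum h8).trans ?_
    rw [sum_const, Nat.card_Icc, nsmul_eq_mul]
    push_cast
    simp
  have h7 : (X : ℝ) ^ 3 / Real.log X ^ (4 * g) ≤ 2 ^ g / c ^ 3 * ((N : ℝ) ^ 3 / Real.log N ^ g) := by
    have hX3 : (3 : ℝ) ≤ X := by linarith
    have hlX : 0 < Real.log X := Real.log_pos (by linarith)
    have hlN : 0 < Real.log N := Real.log_pos (by linarith)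
    have h8 : Real.log N ≤ 2 * Real.log X := by
      have h9 : Real.log N ≤ Real.log ((X : ℝ) ^ 2) := by
        apply Real.log_le_log (by linarith)
        nlinarith
      rw [Real.log_pow] at h9
      exact_mod_cast h9
    have h9 : (X : ℝ) / Real.log X ^ g ≤ N / c := by
      rw [le_div_iff₀ hc]
      have := h2.trans hcnt1
      calc (X : ℝ) / Real.log X ^ g * c = c * X / Real.log X ^ g := by ring
        _ ≤ N := this
    have h10 : 0 ≤ (X : ℝ) / Real.log X ^ g := by positivity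
    calc (X : ℝ) ^ 3 / Real.log X ^ (4 * g) = ((X : ℝ) / Real.log X ^ g) ^ 3 * (1 / Real.log X ^ g) := by
          rw [div_pow, ← pow_mul, div_mul_div_comm, mul_one, ← pow_add]
          congr 2
          ring
      _ ≤ (N / c) ^ 3 * (2 ^ g / Real.log N ^ g) := by
          apply mul_le_mul _ _ (by positivity) (by positivity)
          · gcongr
          · rw [div_le_div_iff₀ (by positivity) (by positivity), one_mul, ← mul_pow]
            gcongr
      _ = _ := by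
          rw [div_pow]
          ring
  have h8 : (N : ℝ) ^ 2 ≤ (N : ℝ) ^ 3 / Real.log N ^ g := by
    have hlN : 0 < Real.log N := Real.log_pos (by linarith)
    rw [le_div_iff₀ (by positivity)]
    calc (N : ℝ) ^ 2 * Real.log N ^ g ≤ (N : ℝ) ^ 2 * (1 * N) := by gcongr
      _ = (N : ℝ) ^ 3 := by ring
  have h9 : (((((range N ×ˢ range N) ×ˢ (range N ×ˢ range N)).filter
        (fun p => ((a p.1.1 : ℕ) : ℤ) + (a p.1.2 : ℕ) = (a p.2.1 : ℕ) + (a p.2.2 : ℕ))).card : ℝ)) ≤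
      2 * ((∑ h ∈ Icc 0 X, Rp A X h ^ 2 : ℕ) : ℝ) := by
    have h10 := (Nat.cast_le (α := ℝ)).2 h5
    rw [Nat.cast_mul, Nat.cast_two] at h10
    refine le_trans (le_of_eq ?_) h10
    congr 2
  refine h9.trans ?_
  have h10 : 0 ≤ (N : ℝ) ^ 3 / Real.log N ^ g := by
    have hlN : 0 < Real.log N := Real.log_pos (by linarith)
    positivity
  have h11 : C * ((X : ℝ) ^ 3 / Real.log X ^ (4 * g)) ≤ C * (2 ^ g / c ^ 3 * ((N : ℝ) ^ 3 / Real.log N ^ g)) := by gcongr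
  have h12 : ((e : ℝ) + 1) * (N : ℝ) ^ 2 ≤ (e + 1) * ((N : ℝ) ^ 3 / Real.log N ^ g) := by gcongr
  calc 2 * ((∑ h ∈ Icc 0 X, Rp A X h ^ 2 : ℕ) : ℝ) ≤
      2 * ((e + 1) * ((N : ℝ) ^ 3 / Real.log N ^ g) + C * (2 ^ g / c ^ 3 * ((N : ℝ) ^ 3 / Real.log N ^ g))) := by linarith
    _ = _ := by ring

/-- Poissonian pair correlations of the multiples of `α` by the elements of `A` -/
def PPC (A : Set ℕ) (α : ℝ) : Prop := ∀ s : ℝ, 0 < s →
  Tendsto (fun N : ℕ => (1 / (N : ℝ)) * ((((range N) ×ˢ (range N)).filter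
    (fun p => p.1 ≠ p.2 ∧
      |(Nat.nth (· ∈ A) p.1 : ℝ) * α - (Nat.nth (· ∈ A) p.2 : ℝ) * α -
        round ((Nat.nth (· ∈ A) p.1 : ℝ) * α - (Nat.nth (· ∈ A) p.2 : ℝ) * α)| < s / N)).card : ℝ))
    atTop (𝓝 (2 * s))

theorem nd_fract (x y : ℝ) : |Int.fract x - Int.fract y - round (Int.fract x - Int.fract y)| = |x - y - round (x - y)| := by
  have h1 : Int.fract x - Int.fract y = (x - y) - ((⌊x⌋ - ⌊y⌋ : ℤ) : ℝ) := by
    unfold Int.fract
    push_cast
    ring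
  rw [h1, round_sub_intCast]
  push_cast
  congr 1
  ring

open Classical in
theorem ppc (F : Polynomial ℤ) (hF : NF F) (g : ℕ) (hg : 2 ≤ g) (C₀ : ℝ) (hC₀ : 0 < C₀)
    (hV : ∀ z : ℕ, 3 ≤ z → PX (fun q => (Zf F q).card) z ≤ C₀ / Real.log z ^ g)
    (δ : ℝ) (hδ : 0 < δ) (M : Polynomial ℤ) (hM0 : M ≠ 0)
    (hM : ∀ p : ℕ, p.Prime → ∀ x h : ℤ, (p : ℤ) ∣ F.eval x → (p : ℤ) ∣ F.eval (x + h) → (p : ℤ) ∣ M.eval h)
    (A : Set ℕ) (hA : RV F δ A) (c : ℝ) (hc : 0 < c)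
    (hlow : ∀ᶠ X : ℕ in atTop, c * X / Real.log X ^ g ≤ ((Icc 1 X).filter (· ∈ A)).card) :
    ∀ᵐ α : ℝ, PPC A α := by
  obtain ⟨hinf, C, hC, hE⟩ := energy_bd F hF g (by omega) C₀ hC₀ hV δ hδ M hM0 hM A hA c hc hlow
  have hinf' : (setOf (· ∈ A)).Infinite := hinf
  have hmono : StrictMono (Nat.nth (· ∈ A)) := Nat.nth_strictMono hinf'
  have h1 := Pool.Agent.Results.MP_ab562c_nt.MetricPoissonian.result.1 (g : ℝ) (by exact_mod_cast (show 1 < g by omega))
    (fun k => ((Nat.nth (· ∈ A) k : ℕ) : ℤ)) (fun i j hij => by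
      have : Nat.nth (· ∈ A) i = Nat.nth (· ∈ A) j := Nat.cast_injective (R := ℤ) hij
      exact hmono.injective this) (by
      apply Asymptotics.IsBigO.of_bound C
      filter_upwards [hE, eventually_ge_atTop 3] with N hN hN3
      have hNr : (3 : ℝ) ≤ N := by exact_mod_cast hN3
      have hlN : 0 < Real.log N := Real.log_pos (by linarith)
      rw [Real.norm_eq_abs, Real.norm_eq_abs, abs_of_nonneg (Nat.cast_nonneg _), Real.rpow_natCast,
        abs_of_nonneg (by positivity)]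
      refine le_trans (le_of_eq ?_) hN
      congr 2)
  filter_upwards [h1] with α hα s hs
  refine (hα s hs).congr (fun N => ?_)
  congr 2
  apply Finset.card_bij (fun p _ => p)
  · intro p hp
    rw [mem_filter] at hp ⊢
    refine ⟨hp.1, hp.2.1, ?_⟩
    have h2 := hp.2.2
    rw [nd_fract] at h2
    exact_mod_cast h2
  · intro p _ q _ h
    exact h
  · intro p hp
    rw [mem_filter] at hp
    refine ⟨p, ?_, rfl⟩
    rw [mem_filter]
    refine ⟨hp.1, hp.2.1, ?_⟩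
    rw [nd_fract]
    exact_mod_cast hp.2.2

end Pool.Agent.X69.Ric
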