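import Pool.Agent.X69.Ric.Lin
import Pool.Agent.X69.Ric.Ppc

/-!
# Sets of integers with rough values of linear forms: the statements for the results
-/

set_option autoImplicit false

namespace Pool.Agent.X69.Ric

open Filter Topology Finset MeasureTheory Polynomial
open Pool.Agent.Y843.HS
open Pool.Agent.X26.GP (Zf mem_Zf_mod Zf_lt Zf_card_le Zf_card_lt NF PX PX_eq rough_poly length_le)

open Classical in
theorem lin_ppc {g : ℕ} (hg : 2 ≤ g) (a b : Fin g → ℤ) (ha : ∀ i, 0 < a i) (hne : ∀ i j, i ≠ j → a i * b j ≠ a j * b i)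
    (hadm : ∀ p : ℕ, p.Prime → ∃ n : ℤ, ∀ i, ¬ (p : ℤ) ∣ a i * n + b i) (δ : ℝ) (hδ : 0 < δ) (A : Set ℕ)
    (hA : ∀ n ∈ A, ∀ i, ∀ p : ℕ, p.Prime → (p : ℝ) < (n : ℝ) ^ δ → ¬ (p : ℤ) ∣ a i * n + b i) (c : ℝ) (hc : 0 < c)
    (hlow : ∀ᶠ X : ℕ in atTop, c * X / Real.log X ^ g ≤ ((Icc 1 X).filter (· ∈ A)).card) :
    ∀ᵐ α : ℝ, PPC A α := by
  obtain ⟨C₀, hC₀, hV⟩ := lin_up a b ha hne
  refine ppc (LF a b) (lin_NF a b hadm) g hg C₀ hC₀ hV δ hδ (LM a b) (LM_ne_zero a b ha)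
    (fun p hp x h h1 h2 => LM_coll a b p hp x h h1 h2) A ?_ c hc hlow
  intro n hn p hp hpn hdvd
  rw [LF_dvd a b _ p hp] at hdvd
  obtain ⟨i, hi⟩ := hdvd
  exact hA n hn i p hp hpn hi

open Classical in
theorem lin_energy {g : ℕ} (hg : 1 ≤ g) (a b : Fin g → ℤ) (ha : ∀ i, 0 < a i) (hne : ∀ i j, i ≠ j → a i * b j ≠ a j * b i)
    (hadm : ∀ p : ℕ, p.Prime → ∃ n : ℤ, ∀ i, ¬ (p : ℤ) ∣ a i * n + b i) (δ : ℝ) (hδ : 0 < δ) (A : Set ℕ)
    (hA : ∀ n ∈ A, ∀ i, ∀ p : ℕ, p.Prime → (p : ℝ) < (n : ℝ) ^ δ → ¬ (p : ℤ) ∣ a i * n + b i) (c : ℝ) (hc : 0 < c)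
    (hlow : ∀ᶠ X : ℕ in atTop, c * X / Real.log X ^ g ≤ ((Icc 1 X).filter (· ∈ A)).card) :
    A.Infinite ∧ ∃ C : ℝ, 0 < C ∧ ∀ᶠ N : ℕ in atTop,
      (((((range N ×ˢ range N) ×ˢ (range N ×ˢ range N)).filter
        (fun p => ((Nat.nth (· ∈ A) p.1.1 : ℕ) : ℤ) + (Nat.nth (· ∈ A) p.1.2 : ℕ) =
          (Nat.nth (· ∈ A) p.2.1 : ℕ) + (Nat.nth (· ∈ A) p.2.2 : ℕ))).card : ℝ)) ≤ C * ((N : ℝ) ^ 3 / Real.log N ^ g) := by
  obtain ⟨C₀, hC₀, hV⟩ := lin_up a b ha hne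
  refine energy_bd (LF a b) (lin_NF a b hadm) g hg C₀ hC₀ hV δ hδ (LM a b) (LM_ne_zero a b ha)
    (fun p hp x h h1 h2 => LM_coll a b p hp x h h1 h2) A ?_ c hc hlow
  intro n hn p hp hpn hdvd
  rw [LF_dvd a b _ p hp] at hdvd
  obtain ⟨i, hi⟩ := hdvd
  exact hA n hn i p hp hpn hi

/-- all the values `f i n` have at most `r` prime factors, all at least `n ^ (1 / r)` -/
def AS {k : ℕ} (f : Fin k → ℤ[X]) (r : ℕ) : Set ℕ :=
  {n | ∀ i, ArithmeticFunction.cardFactors ((f i).eval (n : ℤ)).natAbs ≤ r ∧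
    ∀ p : ℕ, p.Prime → (p : ℤ) ∣ (f i).eval (n : ℤ) → (n : ℝ) ^ (1 / (r : ℝ)) ≤ p}

open Classical in
/-- there are many almost prime values -/
theorem almost_low {k : ℕ} (f : Fin k → ℤ[X]) (F : ℤ[X]) (hFf : ∀ n : ℤ, ∀ i, (f i).eval n ∣ F.eval n)
    (hF : NF F) (g : ℕ) (C : ℝ)
    (hS : ∀ z : ℕ, 3 ≤ z → ∑ p ∈ (Icc 1 z).filter Nat.Prime, ((Zf F p).card : ℝ) / p ≤
      g * Real.log (Real.log z) + C) :
    ∃ r : ℕ, 1 ≤ r ∧ ∃ c : ℝ, 0 < c ∧ ∀ᶠ X : ℕ in atTop, c * X / Real.log X ^ g ≤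
      ((Icc 1 X).filter (· ∈ AS f r)).card := by
  obtain ⟨κ, hκ, hκ1, c, hc, hlow⟩ := rough_low F hF g C hS
  choose c' hc1 hc' using fun i => eval_bd (f i)
  set d : ℕ := 1 + ∑ i, (f i).natDegree with hd
  obtain ⟨r, hr⟩ := exists_nat_ge ((d : ℝ) / κ + 1)
  have hd0 : (0 : ℝ) ≤ (d : ℝ) / κ := by positivity
  have hr1 : (1 : ℝ) ≤ r := by linarith
  have hr1' : 1 ≤ r := by exact_mod_cast hr1
  have hκr : 1 / (r : ℝ) ≤ κ := by
    rw [div_le_iff₀ (by linarith)]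
    have h1 : (d : ℝ) / κ ≤ r := by linarith
    rw [div_le_iff₀ hκ] at h1
    have h2 : (1 : ℝ) ≤ d := by
      rw [hd]
      push_cast
      have : (0 : ℝ) ≤ ∑ i, ((f i).natDegree : ℝ) := Finset.sum_nonneg (fun _ _ => Nat.cast_nonneg _)
      linarith
    linarith
  refine ⟨r, hr1', c, hc, ?_⟩
  have hbig : ∀ᶠ X : ℕ in atTop, ∀ i, c' i ≤ X := by
    rw [Filter.eventually_all]
    intro i
    exact tendsto_natCast_atTop_atTop.eventually_ge_atTop _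
  have hXκ : ∀ᶠ X : ℕ in atTop, (2 : ℝ) ≤ (X : ℝ) ^ κ :=
    ((tendsto_rpow_atTop hκ).comp tendsto_natCast_atTop_atTop).eventually_ge_atTop _
  filter_upwards [hlow κ hκ le_rfl, hbig, eventually_ge_atTop 2, hXκ] with X h1 h2 h3 h4
  refine h1.trans ?_
  apply Nat.cast_le.2
  apply card_le_card
  intro n hn
  rw [mem_filter, mem_Icc] at hn
  obtain ⟨⟨hn1, hnX⟩, hn2⟩ := hn
  rw [mem_filter, mem_Icc]
  refine ⟨⟨hn1, hnX⟩, ?_⟩
  have hXr : (2 : ℝ) ≤ X := by exact_mod_cast h3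
  have hn1r : (1 : ℝ) ≤ n := by exact_mod_cast hn1
  have hnXr : (n : ℝ) ≤ X := by exact_mod_cast hnX
  intro i
  have hprime : ∀ p : ℕ, p.Prime → (p : ℤ) ∣ (f i).eval (n : ℤ) → (X : ℝ) ^ κ < p := by
    intro p hp hdvd
    by_contra hcon
    push Not at hcon
    exact hn2 p hp hcon (hdvd.trans (hFf _ i))
  have hne : ((f i).eval (n : ℤ)).natAbs ≠ 0 := by
    intro h0
    have h5 := hprime 2 Nat.prime_two (by rw [Int.natAbs_eq_zero.1 h0]; exact dvd_zero _)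
    have : (2 : ℝ) ≤ (X : ℝ) ^ κ := h4
    push_cast at h5
    linarith
  constructor
  · rw [ArithmeticFunction.cardFactors_apply]
    have h5 := length_le h3 hκ (h := d) hne (by
      rw [Nat.cast_natAbs, Int.cast_abs]
      refine (hc' i n hn1).trans ?_
      have h6 : (f i).natDegree + 1 ≤ d := by
        have h7 : (f i).natDegree ≤ ∑ i, (f i).natDegree := Finset.single_le_sum (f := fun i => (f i).natDegree) (fun _ _ => Nat.zero_le _) (mem_univ i)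
        omega
      rw [Real.rpow_natCast]
      calc c' i * (n : ℝ) ^ (f i).natDegree ≤ X * (X : ℝ) ^ (f i).natDegree := by
            have := h2 i
            gcongr
        _ = (X : ℝ) ^ ((f i).natDegree + 1) := by ring
        _ ≤ (X : ℝ) ^ d := pow_le_pow_right₀ (by linarith) h6) (by
      intro q hq hqn
      exact hprime q hq (Int.natCast_dvd.2 hqn))
    have h6 : (((f i).eval (n : ℤ)).natAbs.primeFactorsList.length : ℝ) ≤ r := by linarith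
    exact_mod_cast h6
  · intro p hp hdvd
    have h5 := hprime p hp hdvd
    refine le_trans ?_ h5.le
    calc (n : ℝ) ^ (1 / (r : ℝ)) ≤ (X : ℝ) ^ (1 / (r : ℝ)) := by
          apply Real.rpow_le_rpow (by linarith) hnXr (by positivity)
      _ ≤ (X : ℝ) ^ κ := Real.rpow_le_rpow_of_exponent_le (by linarith) hκr

open Classical in
theorem lin_almost {g : ℕ} (a b : Fin g → ℤ)
    (hadm : ∀ p : ℕ, p.Prime → ∃ n : ℤ, ∀ i, ¬ (p : ℤ) ∣ a i * n + b i) :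
    ∃ r : ℕ, 1 ≤ r ∧ ∃ c : ℝ, 0 < c ∧ ∀ᶠ X : ℕ in atTop, c * X / Real.log X ^ g ≤
      ((Icc 1 X).filter (fun n : ℕ => ∀ i, ArithmeticFunction.cardFactors (a i * (n : ℤ) + b i).natAbs ≤ r ∧
        ∀ p : ℕ, p.Prime → (p : ℤ) ∣ a i * (n : ℤ) + b i → (n : ℝ) ^ (1 / (r : ℝ)) ≤ p)).card := by
  obtain ⟨C₁, hC₁⟩ := lin_sum a b hadm
  obtain ⟨r, hr, c, hc, h⟩ := almost_low (fun i => C (a i) * X + C (b i)) (LF a b) (by
    intro n i
    rw [LF_eval]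
    have : (C (a i) * X + C (b i) : ℤ[X]).eval n = a i * n + b i := by simp
    rw [this]
    exact Finset.dvd_prod_of_mem (fun i => a i * n + b i) (mem_univ i)) (lin_NF a b hadm) g C₁ hC₁
  refine ⟨r, hr, c, hc, h.mono (fun Y hY => hY.trans (le_of_eq ?_))⟩
  congr 2
  apply filter_congr
  intro n _
  have h1 : ∀ i, (C (a i) * X + C (b i) : ℤ[X]).eval (n : ℤ) = a i * n + b i := fun i => by simp
  unfold AS
  rw [Set.mem_setOf_eq]
  simp only [h1]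

end Pool.Agent.X69.Ric
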