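import Pool.Agent.X69.Ric.Main
import Pool.Agent.Helper256.KM.E1

/-!
# Systems of linear forms
-/

set_option autoImplicit false

namespace Pool.Agent.X69.Ric

open Filter Topology Finset MeasureTheory Polynomial
open Pool.Agent.Y843.HS
open Pool.Agent.X26.GP (Zf mem_Zf_mod Zf_lt Zf_card_le Zf_card_lt NF PX PX_eq rough_poly)

theorem exp_le_one_sub (x : ℝ) (h0 : 0 ≤ x) (h1 : x ≤ 1 / 2) : Real.exp (-x - 2 * x ^ 2) ≤ 1 - x := by
  have h2 : 0 < 1 - x := by linarith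
  rw [← Real.le_log_iff_exp_le h2]
  have h3 := Real.one_sub_inv_le_log_of_pos h2
  refine le_trans ?_ h3
  rw [← sub_nonneg]
  have h4 : 1 - (1 - x)⁻¹ - (-x - 2 * x ^ 2) = x ^ 2 * (1 - 2 * x) / (1 - x) := by
    field_simp
    ring
  rw [h4]
  apply div_nonneg _ h2.le
  apply mul_nonneg (sq_nonneg x)
  linarith

/-- lower bound for the density product -/
theorem PX_low (F : ℤ[X]) (hF : NF F) (g : ℕ) (C : ℝ)
    (hS : ∀ z : ℕ, 3 ≤ z → ∑ p ∈ (Icc 1 z).filter Nat.Prime, ((Zf F p).card : ℝ) / p ≤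
      g * Real.log (Real.log z) + C) :
    ∃ c : ℝ, 0 < c ∧ ∀ z : ℕ, 3 ≤ z → c / Real.log z ^ g ≤ PX (fun q => (Zf F q).card) z := by
  classical
  set r := F.natDegree with hr
  set D : ℝ := ∏ p ∈ (Icc 1 (2 * r)).filter Nat.Prime, (1 / (p : ℝ)) with hD
  have hD0 : 0 < D := by
    apply Finset.prod_pos
    intro p hp
    have : (0 : ℝ) < p := by exact_mod_cast (mem_filter.1 hp).2.pos
    positivity
  refine ⟨D * Real.exp (-C - 2 * (r : ℝ) ^ 2), by positivity, ?_⟩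
  intro z hz
  have hz3 : (3 : ℝ) ≤ z := by exact_mod_cast hz
  have hlog : 0 < Real.log z := Real.log_pos (by linarith)
  unfold PX
  rw [← Finset.prod_filter_mul_prod_filter_not ((Icc 1 z).filter Nat.Prime) (fun p => p ≤ 2 * r)]
  have h1 : D ≤ ∏ p ∈ ((Icc 1 z).filter Nat.Prime).filter (fun p => p ≤ 2 * r), (1 - ((Zf F p).card : ℝ) / p) := by
    have h2 : ∏ p ∈ ((Icc 1 z).filter Nat.Prime).filter (fun p => p ≤ 2 * r), (1 / (p : ℝ)) ≤
        ∏ p ∈ ((Icc 1 z).filter Nat.Prime).filter (fun p => p ≤ 2 * r), (1 - ((Zf F p).card : ℝ) / p) := by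
      apply Finset.prod_le_prod
      · intro p _
        positivity
      · intro p hp
        have hpp := (mem_filter.1 (mem_filter.1 hp).1).2
        have hp0 : (0 : ℝ) < p := by exact_mod_cast hpp.pos
        have h3 : ((Zf F p).card : ℝ) + 1 ≤ p := by exact_mod_cast Zf_card_lt hF hpp
        have h6 : (1 - ((Zf F p).card : ℝ) / p) = (p - (Zf F p).card) / p := by
          field_simp
        rw [h6]
        apply div_le_div_of_nonneg_right _ hp0.le
        linarith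
    refine le_trans ?_ h2
    rw [hD]
    have h3 : ((Icc 1 z).filter Nat.Prime).filter (fun p => p ≤ 2 * r) ⊆ (Icc 1 (2 * r)).filter Nat.Prime := by
      intro p hp
      rw [mem_filter, mem_filter, mem_Icc] at hp
      rw [mem_filter, mem_Icc]
      exact ⟨⟨hp.1.1.1, hp.2⟩, hp.1.2⟩
    rw [← Finset.prod_sdiff h3]
    apply mul_le_of_le_one_left
    · exact Finset.prod_nonneg (fun p _ => by positivity)
    · apply Finset.prod_le_one
      · intro p _
        positivity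
      · intro p hp
        have hpp := (mem_filter.1 (mem_sdiff.1 hp).1).2
        have hp0 : (1 : ℝ) ≤ p := by exact_mod_cast hpp.one_lt.le
        rw [div_le_one (by linarith)]
        exact hp0
  have h2 : Real.exp (-C - 2 * (r : ℝ) ^ 2) / Real.log z ^ g ≤
      ∏ p ∈ ((Icc 1 z).filter Nat.Prime).filter (fun p => ¬ p ≤ 2 * r), (1 - ((Zf F p).card : ℝ) / p) := by
    have h3 : ∀ p ∈ ((Icc 1 z).filter Nat.Prime).filter (fun p => ¬ p ≤ 2 * r),
        Real.exp (-(((Zf F p).card : ℝ) / p) - 2 * (r : ℝ) ^ 2 * ((p : ℝ) ^ 2)⁻¹) ≤ 1 - ((Zf F p).card : ℝ) / p := by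
      intro p hp
      have hpp := (mem_filter.1 (mem_filter.1 hp).1).2
      have hp2 := (mem_filter.1 hp).2
      push Not at hp2
      have hp0 : (0 : ℝ) < p := by exact_mod_cast hpp.pos
      have h4 : ((Zf F p).card : ℝ) ≤ r := by exact_mod_cast Zf_card_le hF hpp
      have h5 : 2 * (r : ℝ) ≤ p := by exact_mod_cast hp2.le
      have h6 : ((Zf F p).card : ℝ) / p ≤ 1 / 2 := by
        rw [div_le_div_iff₀ hp0 (by norm_num)]
        linarith
      refine le_trans ?_ (exp_le_one_sub _ (by positivity) h6)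
      apply Real.exp_le_exp.2
      have h7 : (((Zf F p).card : ℝ) / p) ^ 2 ≤ (r : ℝ) ^ 2 * ((p : ℝ) ^ 2)⁻¹ := by
        rw [div_pow, div_eq_mul_inv]
        gcongr
      linarith
    refine le_trans ?_ (Finset.prod_le_prod (fun p _ => (Real.exp_pos _).le) h3)
    rw [← Real.exp_sum, Finset.sum_sub_distrib, Finset.sum_neg_distrib, ← Finset.mul_sum]
    have h4 : ∑ p ∈ ((Icc 1 z).filter Nat.Prime).filter (fun p => ¬ p ≤ 2 * r), ((Zf F p).card : ℝ) / p ≤
        g * Real.log (Real.log z) + C := by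
      refine le_trans (Finset.sum_le_sum_of_subset_of_nonneg (filter_subset _ _) (fun p _ _ => by positivity)) (hS z hz)
    have h5 : ∑ p ∈ ((Icc 1 z).filter Nat.Prime).filter (fun p => ¬ p ≤ 2 * r), ((p : ℝ) ^ 2)⁻¹ ≤ 1 := by
      have h6 : ((Icc 1 z).filter Nat.Prime).filter (fun p => ¬ p ≤ 2 * r) ⊆ Ioc 1 z := by
        intro p hp
        rw [mem_filter, mem_filter, mem_Icc] at hp
        rw [mem_Ioc]
        exact ⟨hp.1.2.one_lt, hp.1.1.2⟩
      refine (Finset.sum_le_sum_of_subset_of_nonneg h6 (fun p _ _ => by positivity)).trans ?_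
      refine (sum_Ioc_inv_sq_le_sub (by norm_num) (by omega)).trans ?_
      have : (0 : ℝ) ≤ ((z : ℕ) : ℝ)⁻¹ := by positivity
      simp
    have h7 : Real.exp (-C - 2 * (r : ℝ) ^ 2) / Real.log z ^ g = Real.exp (-(g * Real.log (Real.log z) + C) - 2 * (r : ℝ) ^ 2) := by
      have h8 : Real.log z ^ g = Real.exp (g * Real.log (Real.log z)) := by
        rw [Real.exp_nat_mul, Real.exp_log hlog]
      rw [h8, ← Real.exp_sub]
      congr 1
      ring
    rw [h7]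
    apply Real.exp_le_exp.2
    have h9 : 0 ≤ 2 * (r : ℝ) ^ 2 := by positivity
    nlinarith
  calc D * Real.exp (-C - 2 * (r : ℝ) ^ 2) / Real.log z ^ g = D * (Real.exp (-C - 2 * (r : ℝ) ^ 2) / Real.log z ^ g) := by ring
    _ ≤ _ := mul_le_mul h1 h2 (by positivity) (Finset.prod_nonneg (fun p hp => dens_nonneg F p (mem_filter.1 (mem_filter.1 hp).1).2))

open Classical in
/-- many rough values -/
theorem rough_low (F : ℤ[X]) (hF : NF F) (g : ℕ) (C : ℝ)
    (hS : ∀ z : ℕ, 3 ≤ z → ∑ p ∈ (Icc 1 z).filter Nat.Prime, ((Zf F p).card : ℝ) / p ≤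
      g * Real.log (Real.log z) + C) :
    ∃ κ₀ : ℝ, 0 < κ₀ ∧ κ₀ ≤ 1 ∧ ∃ c : ℝ, 0 < c ∧ ∀ κ : ℝ, 0 < κ → κ ≤ κ₀ → ∀ᶠ X : ℕ in atTop, c * X / Real.log X ^ g ≤
      (((Icc 1 X).filter (fun n : ℕ => ∀ p : ℕ, p.Prime → (p : ℝ) ≤ (X : ℝ) ^ κ → ¬ (p : ℤ) ∣ F.eval (n : ℤ))).card : ℝ) := by
  obtain ⟨κ₀, h0, h1, h2⟩ := rough_poly F.natDegree
  obtain ⟨c, hc, hlow⟩ := PX_low F hF g C hS
  refine ⟨κ₀, h0, h1, c / 2, by positivity, ?_⟩
  intro κ hκ hκ0
  obtain ⟨X₀, h3⟩ := h2 κ hκ hκ0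
  filter_upwards [eventually_ge_atTop X₀, eventually_ge_atTop 3] with X hX hX3
  have h4 := h3 X 0 hX F le_rfl hF
  have h5 : (Pool.Agent.X26.GP.RV F κ X 0) = (Icc 1 X).filter (fun n : ℕ => ∀ p : ℕ, p.Prime → (p : ℝ) ≤ (X : ℝ) ^ κ → ¬ (p : ℤ) ∣ F.eval (n : ℤ)) := by
    unfold Pool.Agent.X26.GP.RV
    have h6 : Ioc 0 (0 + X) = Icc 1 X := by
      ext v
      rw [mem_Ioc, mem_Icc]
      omega
    rw [h6]
  rw [h5] at h4
  refine le_trans ?_ h4
  have h6 := hlow X hX3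
  have hX0 : (0 : ℝ) ≤ X := Nat.cast_nonneg _
  calc c / 2 * X / Real.log X ^ g = 1 / 2 * (X * (c / Real.log X ^ g)) := by ring
    _ ≤ _ := by gcongr

variable {g : ℕ}

/-- the product of the linear forms -/
noncomputable def LF (a b : Fin g → ℤ) : ℤ[X] := ∏ i, (C (a i) * X + C (b i))

/-- the polynomial of the collisions -/
noncomputable def LM (a b : Fin g → ℤ) : ℤ[X] := ∏ i, ∏ j, (C (a i * a j) * X + C (a i * b j - a j * b i))

theorem LF_eval (a b : Fin g → ℤ) (n : ℤ) : (LF a b).eval n = ∏ i, (a i * n + b i) := by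
  unfold LF
  rw [eval_prod]
  simp

theorem LM_eval (a b : Fin g → ℤ) (n : ℤ) : (LM a b).eval n = ∏ i, ∏ j, (a i * a j * n + (a i * b j - a j * b i)) := by
  unfold LM
  rw [eval_prod]
  apply Finset.prod_congr rfl
  intro i _
  rw [eval_prod]
  simp

theorem LF_dvd (a b : Fin g → ℤ) (n : ℤ) (p : ℕ) (hp : p.Prime) :
    (p : ℤ) ∣ (LF a b).eval n ↔ ∃ i, (p : ℤ) ∣ a i * n + b i := by
  rw [LF_eval, Prime.dvd_finset_prod_iff (Nat.prime_iff_prime_int.1 hp)]
  simp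

theorem lin_ne_zero (u v : ℤ) (hu : u ≠ 0) : (C u * X + C v : ℤ[X]) ≠ 0 := by
  intro h
  have h1 := congrArg (fun f : ℤ[X] => f.coeff 1) h
  simp only [coeff_add, coeff_C_mul, coeff_X_one, coeff_C, coeff_zero, one_ne_zero, if_false, mul_one, add_zero] at h1
  exact hu h1

theorem LM_ne_zero (a b : Fin g → ℤ) (ha : ∀ i, 0 < a i) : LM a b ≠ 0 := by
  unfold LM
  rw [Finset.prod_ne_zero_iff]
  intro i _
  rw [Finset.prod_ne_zero_iff]
  intro j _
  exact lin_ne_zero _ _ (mul_pos (ha i) (ha j)).ne'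

theorem LM_coll (a b : Fin g → ℤ) (p : ℕ) (hp : p.Prime) (x h : ℤ) (h1 : (p : ℤ) ∣ (LF a b).eval x)
    (h2 : (p : ℤ) ∣ (LF a b).eval (x + h)) : (p : ℤ) ∣ (LM a b).eval h := by
  rw [LF_dvd a b _ p hp] at h1 h2
  obtain ⟨i, hi⟩ := h1
  obtain ⟨j, hj⟩ := h2
  rw [LM_eval]
  refine dvd_trans ?_ (Finset.dvd_prod_of_mem _ (mem_univ i))
  refine dvd_trans ?_ (Finset.dvd_prod_of_mem _ (mem_univ j))
  have : a i * a j * h + (a i * b j - a j * b i) = a i * (a j * (x + h) + b j) - a j * (a i * x + b i) := by ring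
  rw [this]
  exact dvd_sub (Dvd.dvd.mul_left hj _) (Dvd.dvd.mul_left hi _)

/-- a root of a linear form -/
theorem lin_root (u v : ℤ) (p : ℕ) (hp : p.Prime) (hu : ¬ (p : ℤ) ∣ u) : ∃ c : ℤ, (p : ℤ) ∣ u * c + v := by
  have h1 : IsCoprime (p : ℤ) u := (Nat.prime_iff_prime_int.1 hp).irreducible.coprime_iff_not_dvd.2 hu
  obtain ⟨s, t, hst⟩ := h1
  refine ⟨-v * t, ⟨s * v, ?_⟩⟩
  linear_combination (-v) * hst

/-- every form has its own root -/
theorem lin_many (a b : Fin g → ℤ) (ha : ∀ i, 0 < a i) (hne : ∀ i j, i ≠ j → a i * b j ≠ a j * b i) :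
    ∃ p₀ : ℕ, ∀ p : ℕ, p₀ ≤ p → p.Prime → g ≤ (Zf (LF a b) p).card := by
  classical
  refine ⟨1 + ∑ i, (a i).natAbs + ∑ i, ∑ j, (a i * b j - a j * b i).natAbs, ?_⟩
  intro p hp hpp
  have hpa : ∀ i, ¬ (p : ℤ) ∣ a i := by
    intro i h
    have h1 := Nat.le_of_dvd (Int.natAbs_pos.2 (ha i).ne') (Int.natCast_dvd.1 h)
    have h2 : (a i).natAbs ≤ ∑ i, (a i).natAbs := Finset.single_le_sum (f := fun i => (a i).natAbs) (fun _ _ => Nat.zero_le _) (mem_univ i)
    omega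
  have hpab : ∀ i j, i ≠ j → ¬ (p : ℤ) ∣ a i * b j - a j * b i := by
    intro i j hij h
    have h0 : a i * b j - a j * b i ≠ 0 := sub_ne_zero.2 (hne i j hij)
    have h1 := Nat.le_of_dvd (Int.natAbs_pos.2 h0) (Int.natCast_dvd.1 h)
    have h2 : (a i * b j - a j * b i).natAbs ≤ ∑ j, (a i * b j - a j * b i).natAbs :=
      Finset.single_le_sum (f := fun j => (a i * b j - a j * b i).natAbs) (fun _ _ => Nat.zero_le _) (mem_univ j)
    have h3 : ∑ j, (a i * b j - a j * b i).natAbs ≤ ∑ i, ∑ j, (a i * b j - a j * b i).natAbs :=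
      Finset.single_le_sum (f := fun i => ∑ j, (a i * b j - a j * b i).natAbs) (fun _ _ => Nat.zero_le _) (mem_univ i)
    omega
  choose c hc using fun i => lin_root (a i) (b i) p hpp (hpa i)
  have hpz : (p : ℤ) ≠ 0 := by exact_mod_cast hpp.ne_zero
  have hpos : (0 : ℤ) < p := by exact_mod_cast hpp.pos
  set d : Fin g → ℕ := fun i => (c i % (p : ℤ)).toNat with hd
  have hdc : ∀ i, ((d i : ℕ) : ℤ) = c i % p := fun i => Int.toNat_of_nonneg (Int.emod_nonneg _ hpz)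
  have hdp : ∀ i, d i < p := by
    intro i
    have := Int.emod_lt_of_pos (c i) hpos
    have := hdc i
    omega
  have hdr : ∀ i, (p : ℤ) ∣ a i * (d i : ℤ) + b i := by
    intro i
    have h1 : a i * (d i : ℤ) + b i = (a i * c i + b i) - a i * (c i - c i % p) := by rw [hdc i]; ring
    rw [h1]
    exact dvd_sub (hc i) (Dvd.dvd.mul_left Int.dvd_self_sub_emod _)
  have h1 : (univ : Finset (Fin g)).card ≤ (Zf (LF a b) p).card := by
    apply card_le_card_of_injOn d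
    · intro i _
      rw [mem_coe]
      unfold Zf
      rw [mem_filter, mem_range, LF_dvd a b _ p hpp]
      exact ⟨hdp i, i, hdr i⟩
    · intro i _ j _ hij
      by_contra hcon
      apply hpab i j hcon
      have h2 := hdr i
      have h3 := hdr j
      rw [← hij] at h3
      have : a i * b j - a j * b i = a i * (a j * (d i : ℤ) + b j) - a j * (a i * (d i : ℤ) + b i) := by ring
      rw [this]
      exact dvd_sub (Dvd.dvd.mul_left h3 _) (Dvd.dvd.mul_left h2 _)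
  rwa [card_univ, Fintype.card_fin] at h1

/-- each form has at most one root -/
theorem lin_few (a b : Fin g → ℤ) (hadm : ∀ p : ℕ, p.Prime → ∃ n : ℤ, ∀ i, ¬ (p : ℤ) ∣ a i * n + b i) (p : ℕ) (hp : p.Prime) :
    (Zf (LF a b) p).card ≤ g := by
  classical
  obtain ⟨n, hn⟩ := hadm p hp
  have h1 : Zf (LF a b) p ⊆ univ.biUnion (fun i : Fin g => (range p).filter (fun c : ℕ => (p : ℤ) ∣ a i * (c : ℤ) + b i)) := by
    intro c hc
    unfold Zf at hc
    rw [mem_filter, LF_dvd a b _ p hp] at hc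
    obtain ⟨hc1, i, hi⟩ := hc
    rw [mem_biUnion]
    exact ⟨i, mem_univ _, mem_filter.2 ⟨hc1, hi⟩⟩
  refine (card_le_card h1).trans (card_biUnion_le.trans ?_)
  have h2 : ∀ i : Fin g, ((range p).filter (fun c : ℕ => (p : ℤ) ∣ a i * (c : ℤ) + b i)).card ≤ 1 := by
    intro i
    rw [card_le_one]
    intro c hc c' hc'
    rw [mem_filter, mem_range] at hc hc'
    by_contra hcon
    have hai : ¬ (p : ℤ) ∣ a i := by
      intro h
      apply hn i
      have : a i * n + b i = (a i * (c : ℤ) + b i) + a i * (n - c) := by ring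
      rw [this]
      exact dvd_add hc.2 (Dvd.dvd.mul_right h _)
    have h3 : (p : ℤ) ∣ a i * ((c : ℤ) - c') := by
      have : a i * ((c : ℤ) - c') = (a i * (c : ℤ) + b i) - (a i * (c' : ℤ) + b i) := by ring
      rw [this]
      exact dvd_sub hc.2 hc'.2
    rcases (Nat.prime_iff_prime_int.1 hp).dvd_or_dvd h3 with h4 | h4
    · exact hai h4
    · apply hcon
      have h5 : (c : ℤ) ≡ c' [ZMOD p] := (Int.modEq_iff_dvd.2 (by rw [← dvd_neg, neg_sub]; exact h4))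
      have h6 : c ≡ c' [MOD p] := (Int.natCast_modEq_iff).1 h5
      have h7 : c % p = c' % p := h6
      rwa [Nat.mod_eq_of_lt hc.1, Nat.mod_eq_of_lt hc'.1] at h7
  refine (Finset.sum_le_sum (fun i _ => h2 i)).trans ?_
  simp

theorem lin_NF (a b : Fin g → ℤ) (hadm : ∀ p : ℕ, p.Prime → ∃ n : ℤ, ∀ i, ¬ (p : ℤ) ∣ a i * n + b i) : NF (LF a b) := by
  intro p hp
  obtain ⟨n, hn⟩ := hadm p hp
  refine ⟨n, ?_⟩
  rw [LF_dvd a b _ p hp]
  push Not
  exact hn

/-- the exceptional differences -/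
theorem lin_exc (hg : 1 ≤ g) (a b : Fin g → ℤ) (ha : ∀ i, 0 < a i) (h : ℕ) (hh : 1 ≤ h) :
    ∃ p₀ : ℕ, ∀ p : ℕ, p₀ ≤ p → p.Prime → ∃ c : ℤ, ¬ (p : ℤ) ∣ (LF a b).eval c ∧ (p : ℤ) ∣ (LF a b).eval (c + h) := by
  classical
  have : Nonempty (Fin g) := ⟨⟨0, by omega⟩⟩
  obtain ⟨i, -, hi⟩ := Finset.exists_max_image (univ : Finset (Fin g)) (fun i => (b i : ℚ) / a i) Finset.univ_nonempty
  have hi' : ∀ j, b j * a i ≤ b i * a j := by
    intro j
    have h1 := hi j (mem_univ _)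
    have h2 : (0 : ℚ) < a j := by exact_mod_cast ha j
    have h3 : (0 : ℚ) < a i := by exact_mod_cast ha i
    rw [div_le_div_iff₀ h2 h3] at h1
    exact_mod_cast h1
  refine ⟨1 + (a i).natAbs + ∑ j, (a i * b j - a j * b i - a i * a j * h).natAbs, ?_⟩
  intro p hp hpp
  have hpa : ¬ (p : ℤ) ∣ a i := by
    intro h'
    have h1 := Nat.le_of_dvd (Int.natAbs_pos.2 (ha i).ne') (Int.natCast_dvd.1 h')
    omega
  obtain ⟨c, hc⟩ := lin_root (a i) (b i) p hpp hpa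
  refine ⟨c - h, ?_, ?_⟩
  · rw [LF_dvd a b _ p hpp]
    rintro ⟨j, hj⟩
    have h1 : (p : ℤ) ∣ a i * b j - a j * b i - a i * a j * h := by
      have : a i * b j - a j * b i - a i * a j * h = a i * (a j * (c - h) + b j) - a j * (a i * c + b i) := by ring
      rw [this]
      exact dvd_sub (Dvd.dvd.mul_left hj _) (Dvd.dvd.mul_left hc _)
    have h2 : a i * b j - a j * b i - a i * a j * h < 0 := by
      have h3 := hi' j
      have h4 : 0 < a i * a j * h := mul_pos (mul_pos (ha i) (ha j)) (by exact_mod_cast hh)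
      nlinarith
    have h3 := Nat.le_of_dvd (Int.natAbs_pos.2 h2.ne) (Int.natCast_dvd.1 h1)
    have h4 : (a i * b j - a j * b i - a i * a j * h).natAbs ≤ ∑ j, (a i * b j - a j * b i - a i * a j * h).natAbs :=
      Finset.single_le_sum (f := fun j => (a i * b j - a j * b i - a i * a j * (h : ℤ)).natAbs) (fun _ _ => Nat.zero_le _) (mem_univ j)
    omega
  · rw [LF_dvd a b _ p hpp]
    refine ⟨i, ?_⟩
    rw [sub_add_cancel]
    exact hc

theorem lin_up (a b : Fin g → ℤ) (ha : ∀ i, 0 < a i) (hne : ∀ i j, i ≠ j → a i * b j ≠ a j * b i) :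
    ∃ C₀ : ℝ, 0 < C₀ ∧ ∀ z : ℕ, 3 ≤ z → PX (fun q => (Zf (LF a b) q).card) z ≤ C₀ / Real.log z ^ g := by
  obtain ⟨p₀, hp₀⟩ := lin_many a b ha hne
  apply PX_prod g (fun _ => X) (fun _ => irreducible_X) (fun _ => by simp) (fun _ => NF_X) (LF a b) p₀
  intro p hp hpp
  rw [Finset.sum_congr rfl (fun i _ => Zf_X p hpp)]
  simpa using hp₀ p hp hpp

theorem lin_sum (a b : Fin g → ℤ) (hadm : ∀ p : ℕ, p.Prime → ∃ n : ℤ, ∀ i, ¬ (p : ℤ) ∣ a i * n + b i) :
    ∃ C : ℝ, ∀ z : ℕ, 3 ≤ z → ∑ p ∈ (Icc 1 z).filter Nat.Prime, ((Zf (LF a b) p).card : ℝ) / p ≤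
      g * Real.log (Real.log z) + C := by
  obtain ⟨C, hC⟩ := Pool.Agent.Helper256.KM.mertens_inv
  refine ⟨g * C, fun z hz => ?_⟩
  have h1 := (abs_le.1 (hC z hz)).2
  have h2 : ∑ p ∈ (Icc 1 z).filter Nat.Prime, ((Zf (LF a b) p).card : ℝ) / p ≤
      ∑ p ∈ (Icc 1 z).filter Nat.Prime, (g : ℝ) * (1 / p) := by
    apply Finset.sum_le_sum
    intro p hp
    have hpp := (mem_filter.1 hp).2
    have h3 : ((Zf (LF a b) p).card : ℝ) ≤ g := by exact_mod_cast lin_few a b hadm p hpp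
    rw [mul_one_div]
    gcongr
  refine h2.trans ?_
  rw [← Finset.mul_sum]
  have hg0 : (0 : ℝ) ≤ g := Nat.cast_nonneg _
  nlinarith

open Classical in
/-- **limit points of normalised gaps for linear forms** -/
theorem lin_main (hg : 1 ≤ g) (a b : Fin g → ℤ) (ha : ∀ i, 0 < a i) (hne : ∀ i j, i ≠ j → a i * b j ≠ a j * b i)
    (hadm : ∀ p : ℕ, p.Prime → ∃ n : ℤ, ∀ i, ¬ (p : ℤ) ∣ a i * n + b i) (δ : ℝ) (hδ : 0 < δ) (A : Set ℕ)
    (hA : ∀ n ∈ A, ∀ i, ∀ p : ℕ, p.Prime → (p : ℝ) < (n : ℝ) ^ δ → ¬ (p : ℤ) ∣ a i * n + b i) (c : ℝ) (hc : 0 < c)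
    (hlow : ∀ᶠ X : ℕ in atTop, c * X / Real.log X ^ g ≤ ((Icc 1 X).filter (· ∈ A)).card)
    (m : ℕ) (hm : 1 ≤ m) :
    0 < volume {t : Fin m → ℝ | MapClusterPt t atTop (fun (k : ℕ) (i : Fin m) => gap A g (k + i))} := by
  obtain ⟨C₀, hC₀, hV⟩ := lin_up a b ha hne
  refine main (LF a b) (lin_NF a b hadm) g hg C₀ hC₀ hV (LM a b) (LM_ne_zero a b ha)
    (fun p hp x h h1 h2 => LM_coll a b p hp x h h1 h2) (fun h hh _ => lin_exc hg a b ha h hh) δ hδ A ?_ c hc hlow m hm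
  intro n hn p hp hpn hdvd
  rw [LF_dvd a b _ p hp] at hdvd
  obtain ⟨i, hi⟩ := hdvd
  exact hA n hn i p hp hpn hi

end Pool.Agent.X69.Ric
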