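import Pool.Agent.X69.Ric.Corr
import Pool.Agent.X69.Ric.Dens

/-!
# Limit points of the normalised gaps between rough values of a polynomial
-/

set_option autoImplicit false

namespace Pool.Agent.X69.Ric

open Filter Topology Finset MeasureTheory Polynomial
open Pool.Agent.Y843.HS
open Pool.Agent.X26.GP (Zf mem_Zf_mod Zf_lt Zf_card_le Zf_card_lt NF PX PX_eq)

theorem NF_X : NF (X : ℤ[X]) := by
  intro q hq
  refine ⟨1, ?_⟩
  rw [eval_X]
  intro h
  have h2 : q ∣ 1 := by exact_mod_cast h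
  exact hq.one_lt.ne' (Nat.dvd_one.1 h2)

theorem Zf_X (p : ℕ) (hp : p.Prime) : (Zf (X : ℤ[X]) p).card = 1 := by
  have h1 : Zf (X : ℤ[X]) p = {0} := by
    ext c
    unfold Zf
    rw [mem_filter, mem_range, mem_singleton, eval_X]
    constructor
    · rintro ⟨h2, h3⟩
      have h4 : p ∣ c := by exact_mod_cast h3
      exact Nat.eq_zero_of_dvd_of_lt h4 h2
    · rintro rfl
      exact ⟨hp.pos, by simp⟩
  rw [h1, card_singleton]

/-- `2 * T ^ 2 * (C / log ^ (g + 1)) + T` is small -/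
theorem small_aux (g : ℕ) (C ε : ℝ) (hC : 0 < C) (hε : 0 < ε) :
    ∀ᶠ T : ℕ in atTop, C * (T : ℝ) ^ 2 / LL (g + 1) T + T ≤ ε * ((T : ℝ) ^ 2 / LL g T) := by
  have h1 : ∀ᶠ T : ℕ in atTop, 2 * C / ε ≤ LL 1 T := (LL_tendsto 1 le_rfl).eventually_ge_atTop _
  filter_upwards [h1, pow_small g 1 (by norm_num) (ε / 2) (by positivity), (LL_tendsto 1 le_rfl).eventually_gt_atTop 0,
    eventually_ge_atTop 3] with T h2 h3 h4 h5
  rw [Real.rpow_one] at h3
  have hL : LL (g + 1) T = LL g T * LL 1 T := by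
    unfold LL
    rw [pow_succ, pow_one]
  have hg : 0 < LL g T := by
    unfold LL at h4 ⊢
    rw [pow_one] at h4
    positivity
  have h6 : C * (T : ℝ) ^ 2 / LL (g + 1) T ≤ ε / 2 * ((T : ℝ) ^ 2 / LL g T) := by
    rw [hL, div_le_iff₀ (by positivity)]
    have h7 : ε / 2 * ((T : ℝ) ^ 2 / LL g T) * (LL g T * LL 1 T) = ε / 2 * LL 1 T * (T : ℝ) ^ 2 := by
      field_simp
    rw [h7]
    have h8 : C ≤ ε / 2 * LL 1 T := by
      rw [div_le_iff₀ hε] at h2
      linarith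
    gcongr
  linarith

open Classical in
theorem small_one (F : ℤ[X]) (hF : NF F) (g : ℕ) (hg : 1 ≤ g) (C₀ : ℝ) (hC₀ : 0 < C₀)
    (hV : ∀ z : ℕ, 3 ≤ z → PX (fun q => (Zf F q).card) z ≤ C₀ / Real.log z ^ g)
    (δ : ℝ) (hδ : 0 < δ) (M : ℤ[X])
    (hM : ∀ p : ℕ, p.Prime → ∀ x h : ℤ, (p : ℤ) ∣ F.eval x → (p : ℤ) ∣ F.eval (x + h) → (p : ℤ) ∣ M.eval h)
    (h : ℕ)
    (hE : M.eval (h : ℤ) = 0 → ∃ p₀ : ℕ, ∀ p : ℕ, p₀ ≤ p → p.Prime →
      ∃ c : ℤ, ¬ (p : ℤ) ∣ F.eval c ∧ (p : ℤ) ∣ F.eval (c + h))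
    (A : Set ℕ) (hA : RV F δ A) (ε : ℝ) (hε : 0 < ε) :
    ∀ᶠ T : ℕ in atTop, (((Icc T (T ^ 2)).filter (fun n => n ∈ A ∧ n + h ∈ A)).card : ℝ) ≤
      ε * ((T : ℝ) ^ 2 / LL g T) := by
  set u : Fin (1 + 1) → ℕ := fun j => parts (fun _ : Fin 1 => h) j with hu
  have hu0 : u 0 = 0 := by simp [hu, parts_zero]
  have hu1 : u 1 = h := by
    simp only [hu]
    have := parts_succ (fun _ : Fin 1 => h) 0 (by norm_num)
    show parts (fun _ : Fin 1 => h) (0 + 1) = h
    rw [this, parts_zero, zero_add]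
  have hset : ∀ T : ℕ, (Icc T (T ^ 2)).filter (fun n => n ∈ A ∧ n + h ∈ A) =
      (Icc T (T ^ 2)).filter (fun n => ∀ j, n + u j ∈ A) := by
    intro T
    apply filter_congr
    intro n _
    rw [Fin.forall_fin_two, hu0, hu1, add_zero]
  by_cases hMh : M.eval (h : ℤ) = 0
  · obtain ⟨p₀, hp₀⟩ := hE hMh
    obtain ⟨s₀, c, hc, hcount⟩ := rough_count F hF δ hδ 1
    set s := max (max s₀ p₀) 1 with hs
    obtain ⟨C, hC, hVs⟩ := VV_bd F hF g C₀ hC₀ hV s
    obtain ⟨C₂, hC₂, hX⟩ := PX_irr (X : ℤ[X]) irreducible_X (by simp)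
    obtain ⟨C₃, hC₃, hXs⟩ := VV_bd X NF_X 1 C₂ hC₂ (by simpa using hX) s
    filter_upwards [hcount s ((le_max_left _ _).trans (le_max_left _ _)),
      small_aux g (2 * (C * C₃ * (2 / c) ^ (g + 1))) ε (by positivity) hε, eventually_ge_atTop 3] with T h1 h2 h3
    obtain ⟨z, hsz, hz3, hlz, hbd⟩ := h1
    rw [hset]
    refine (hbd A hA u).trans (le_trans ?_ h2)
    have hTr : (3 : ℝ) ≤ T := by exact_mod_cast h3
    have hlT : 0 < Real.log T := Real.log_pos (by linarith)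
    have hz3r : (3 : ℝ) ≤ z := by exact_mod_cast hz3
    have hlz0 : 0 < Real.log z := Real.log_pos (by linarith)
    have h4 : ∏ p ∈ Pr s z, (1 - ((Om (Zf F) u p).card : ℝ) / p) ≤ VV (Zf F) s z * VV (Zf X) s z := by
      unfold VV
      rw [← Finset.prod_mul_distrib]
      apply Finset.prod_le_prod
      · intro p hp
        have hpp := (mem_filter.1 hp).2
        have h5 : (0 : ℝ) < p := by exact_mod_cast hpp.pos
        have h6 : ((Om (Zf F) u p).card : ℝ) ≤ p := by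
          have h7 : (Om (Zf F) u p).card ≤ (range p).card := card_le_card (filter_subset _ _)
          rw [card_range] at h7
          exact_mod_cast h7
        have : ((Om (Zf F) u p).card : ℝ) / p ≤ 1 := by rwa [div_le_one h5]
        linarith
      · intro p hp
        have hpp := (mem_filter.1 hp).2
        have hps := (mem_Ioc.1 (mem_filter.1 hp).1).1
        have h5 : (0 : ℝ) < p := by exact_mod_cast hpp.pos
        have h5' : (1 : ℝ) ≤ p := by exact_mod_cast hpp.one_lt.le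
        obtain ⟨c', hc1, hc2⟩ := hp₀ p (by
          have : p₀ ≤ s := (le_max_right _ _).trans (le_max_left _ _)
          omega) hpp
        have h6 : (Zf F p).card + 1 ≤ (Om (Zf F) u p).card := by
          set c := (c' % (p : ℤ)).toNat with hcdef
          have hpz : (p : ℤ) ≠ 0 := by exact_mod_cast hpp.ne_zero
          have hcc : ((c : ℕ) : ℤ) = c' % p := Int.toNat_of_nonneg (Int.emod_nonneg _ hpz)
          have hdvd : (p : ℤ) ∣ c' - ((c : ℕ) : ℤ) := by
            rw [hcc]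
            exact Int.dvd_self_sub_emod
          have hcp : c < p := by
            have := Int.emod_lt_of_pos c' (show (0 : ℤ) < p by exact_mod_cast hpp.pos)
            omega
          have h7 : c ∉ Zf F p := by
            intro h8
            apply hc1
            exact (Pool.Agent.X26.GP.dvd_eval_iff hdvd).2 (mem_filter.1 h8).2
          have h8 : insert c (Zf F p) ⊆ Om (Zf F) u p := by
            intro x hx
            rw [mem_insert] at hx
            unfold Om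
            rw [mem_filter, mem_range]
            rcases hx with rfl | hx
            · refine ⟨hcp, 1, ?_⟩
              rw [mem_Zf_mod hpp.pos, hu1]
              have h9 : (p : ℤ) ∣ (c' + h) - (((c + h : ℕ)) : ℤ) := by
                push_cast
                have : c' + (h : ℤ) - ((c : ℤ) + h) = c' - c := by ring
                rw [this]
                exact hdvd
              exact (Pool.Agent.X26.GP.dvd_eval_iff h9).1 hc2
            · have hxp := Zf_lt F p x hx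
              refine ⟨hxp, 0, ?_⟩
              rw [hu0, add_zero, Nat.mod_eq_of_lt hxp]
              exact hx
          have h9 := card_le_card h8
          rwa [card_insert_of_notMem h7] at h9
        rw [Zf_X p hpp]
        have h7 : (((Zf F p).card : ℝ) + 1) ≤ ((Om (Zf F) u p).card : ℝ) := by exact_mod_cast h6
        have h8 : (((Zf F p).card : ℝ) + 1) / p ≤ ((Om (Zf F) u p).card : ℝ) / p := by gcongr
        have h9 : (1 - ((Zf F p).card : ℝ) / p) * (1 - ((1 : ℕ) : ℝ) / p) =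
            1 - (((Zf F p).card : ℝ) + 1) / p + ((Zf F p).card : ℝ) / p * (1 / p) := by
          push_cast
          field_simp
          ring
        have h10 : 0 ≤ ((Zf F p).card : ℝ) / p * (1 / p) := by positivity
        linarith
    have h5 := hVs z hsz hz3
    have h6 := hXs z hsz hz3
    have hXn : 0 ≤ VV (Zf X) s z := by
      unfold VV
      exact Finset.prod_nonneg (fun q hq => dens_nonneg X q (mem_filter.1 hq).2)
    have h7 : VV (Zf F) s z * VV (Zf X) s z ≤ C * C₃ * (2 / c) ^ (g + 1) / LL (g + 1) T := by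
      calc VV (Zf F) s z * VV (Zf X) s z ≤ (C / Real.log z ^ g) * (C₃ / Real.log z ^ 1) :=
            mul_le_mul h5 h6 hXn (by positivity)
        _ = C * C₃ / Real.log z ^ (g + 1) := by rw [pow_one, pow_succ]; field_simp
        _ ≤ C * C₃ / (c * Real.log T) ^ (g + 1) := by gcongr
        _ = C * C₃ * (2 / c) ^ (g + 1) / LL (g + 1) T := by
          unfold LL
          rw [Real.log_pow]
          push_cast
          rw [mul_pow, mul_pow, div_pow]
          field_simp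
    have h8 : 2 * (T : ℝ) ^ 2 * ∏ p ∈ Pr s z, (1 - ((Om (Zf F) u p).card : ℝ) / p) ≤
        2 * (T : ℝ) ^ 2 * (C * C₃ * (2 / c) ^ (g + 1) / LL (g + 1) T) :=
      mul_le_mul_of_nonneg_left (h4.trans h7) (by positivity)
    refine add_le_add (h8.trans (le_of_eq ?_)) le_rfl
    ring
  · obtain ⟨K, s₂, hpair⟩ := pair_bd F hF g C₀ hC₀ hV δ hδ 1
    set s := max s₂ 1 with hs
    obtain ⟨C₁, hC₁, hev⟩ := hpair s (le_max_left _ _)
    set B : ℝ := Real.exp (((1 + K) ^ (PP 1).card : ℕ) * (Real.log ((M.eval (h : ℤ)).natAbs : ℕ) / Real.log 2 / s)) with hB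
    have hB0 : 0 < B := Real.exp_pos _
    filter_upwards [hev, small_aux g (C₁ * ((PP 1).card * B)) ε (by
      have h1 : (PP 1).Nonempty := ⟨(0, 1), by decide⟩
      have h2 : (0 : ℝ) < (PP 1).card := by exact_mod_cast h1.card_pos
      positivity) hε, (LL_tendsto 1 le_rfl).eventually_ge_atTop 1] with T h1 h2 h3
    obtain ⟨z, hz⟩ := h1
    rw [hset]
    refine (hz A hA u).trans (le_trans ?_ h2)
    have h4 : Coll K (Zf F) s z u ≤ (PP 1).card * B := by
      refine (coll_le F M hM 1 le_rfl K s z (fun _ => h)).trans ?_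
      rw [← nsmul_eq_mul, ← Finset.sum_const]
      apply Finset.sum_le_sum
      intro q hq
      have hq' : parts (fun _ : Fin 1 => h) q.2 - parts (fun _ : Fin 1 => h) q.1 = h := by
        unfold PP at hq
        rw [mem_filter, mem_product, mem_range, mem_range] at hq
        have e1 : q.1 = 0 := by omega
        have e2 : q.2 = 1 := by omega
        rw [e1, e2]
        have h5 := hu0
        have h6 := hu1
        simp only [hu] at h5 h6
        have h7 : parts (fun _ : Fin 1 => h) 0 = 0 := parts_zero _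
        have h8 : parts (fun _ : Fin 1 => h) 1 = h := h6
        rw [h7, h8]
        rfl
      rw [hq']
      have h5 : SS M ((1 + K) ^ (PP 1).card) s z h =
          ∏ p ∈ (Pr s z).filter (fun p => p ∣ (M.eval (h : ℤ)).natAbs), (1 + (((1 + K) ^ (PP 1).card : ℕ) : ℝ) / p) := by
        unfold SS
        congr 1
        apply filter_congr
        intro p _
        exact Int.natCast_dvd
      rw [h5]
      exact large_part _ _ s z (Int.natAbs_ne_zero.2 hMh) (le_max_right _ _) _ le_rfl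
    apply add_le_add _ le_rfl
    have hLg : 1 ≤ LL g T := by
      unfold LL at h3 ⊢
      rw [pow_one] at h3
      exact one_le_pow₀ h3
    have hL1 : LL (g + 1) T ≤ LL g T ^ (1 + 1) := by
      unfold LL at h3 ⊢
      rw [pow_one] at h3
      rw [← pow_mul]
      apply pow_le_pow_right₀ h3
      omega
    have hLp : 0 < LL (g + 1) T := by
      unfold LL at h3 ⊢
      rw [pow_one] at h3
      positivity
    have hcoll : 0 ≤ Coll K (Zf F) s z u := by
      unfold Coll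
      exact Finset.prod_nonneg (fun p _ => by positivity)
    calc C₁ * ((T : ℝ) ^ 2 / LL g T ^ (1 + 1)) * Coll K (Zf F) s z u ≤
        C₁ * ((T : ℝ) ^ 2 / LL (g + 1) T) * ((PP 1).card * B) := by gcongr
      _ = _ := by ring

theorem small_gap (F : ℤ[X]) (hF : NF F) (g : ℕ) (hg : 1 ≤ g) (C₀ : ℝ) (hC₀ : 0 < C₀)
    (hV : ∀ z : ℕ, 3 ≤ z → PX (fun q => (Zf F q).card) z ≤ C₀ / Real.log z ^ g)
    (δ : ℝ) (hδ : 0 < δ) (M : ℤ[X])
    (hM : ∀ p : ℕ, p.Prime → ∀ x h : ℤ, (p : ℤ) ∣ F.eval x → (p : ℤ) ∣ F.eval (x + h) → (p : ℤ) ∣ M.eval h)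
    (hE : ∀ h : ℕ, 1 ≤ h → M.eval (h : ℤ) = 0 → ∃ p₀ : ℕ, ∀ p : ℕ, p₀ ≤ p → p.Prime →
      ∃ c : ℤ, ¬ (p : ℤ) ∣ F.eval c ∧ (p : ℤ) ∣ F.eval (c + h))
    (e : ℕ) (A : Set ℕ) (hA : RV F δ A) : SmallGap A g e := by
  classical
  intro ε hε
  have h1 : ∀ᶠ T : ℕ in atTop, ∀ h ∈ Icc 1 e, (((Icc T (T ^ 2)).filter (fun n => n ∈ A ∧ n + h ∈ A)).card : ℝ) ≤
      ε / (e + 1) * ((T : ℝ) ^ 2 / LL g T) := by
    rw [Filter.eventually_all_finset]
    intro h hh
    exact small_one F hF g hg C₀ hC₀ hV δ hδ M hM h (hE h (mem_Icc.1 hh).1) A hA _ (by positivity)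
  filter_upwards [h1, (LL_tendsto 1 le_rfl).eventually_gt_atTop 0] with T h2 h3
  have h4 : (Icc T (T ^ 2)).filter (fun n => n ∈ A ∧ ∃ h ∈ Icc 1 e, n + h ∈ A) ⊆
      (Icc 1 e).biUnion (fun h => (Icc T (T ^ 2)).filter (fun n => n ∈ A ∧ n + h ∈ A)) := by
    intro n hn
    rw [mem_filter] at hn
    obtain ⟨hn1, hn2, h, hh, hn3⟩ := hn
    rw [mem_biUnion]
    exact ⟨h, hh, mem_filter.2 ⟨hn1, hn2, hn3⟩⟩
  have h5 : (((Icc T (T ^ 2)).filter (fun n => n ∈ A ∧ ∃ h ∈ Icc 1 e, n + h ∈ A)).card : ℝ) ≤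
      ∑ h ∈ Icc 1 e, (((Icc T (T ^ 2)).filter (fun n => n ∈ A ∧ n + h ∈ A)).card : ℝ) := by
    have := (card_le_card h4).trans card_biUnion_le
    exact_mod_cast this
  refine h5.trans ((Finset.sum_le_sum h2).trans ?_)
  rw [sum_const, nsmul_eq_mul, Nat.card_Icc, Nat.add_sub_cancel]
  have hL : 0 < LL g T := by
    unfold LL at h3 ⊢
    rw [pow_one] at h3
    positivity
  have h6 : (e : ℝ) * (ε / (e + 1)) ≤ ε := by
    rw [mul_div_assoc', div_le_iff₀ (by positivity)]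
    nlinarith
  calc (e : ℝ) * (ε / (e + 1) * ((T : ℝ) ^ 2 / LL g T)) = (e : ℝ) * (ε / (e + 1)) * ((T : ℝ) ^ 2 / LL g T) := by ring
    _ ≤ ε * ((T : ℝ) ^ 2 / LL g T) := by gcongr

/-- a nonzero polynomial has only finitely many zeros -/
theorem zeros_bd (M : ℤ[X]) (hM0 : M ≠ 0) : ∃ e : ℕ, ∀ h : ℕ, e < h → M.eval (h : ℤ) ≠ 0 := by
  have h1 : (M.rootSet ℤ).Finite := Polynomial.rootSet_finite M ℤ
  obtain ⟨B, hB⟩ := h1.bddAbove
  refine ⟨B.toNat, fun h hh hcon => ?_⟩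
  have h2 : (h : ℤ) ∈ M.rootSet ℤ := by
    rw [Polynomial.mem_rootSet]
    exact ⟨hM0, by simpa using hcon⟩
  have h3 := hB h2
  omega

open Classical in
/-- **limit points of the normalised gaps** -/
theorem main (F : ℤ[X]) (hF : NF F) (g : ℕ) (hg : 1 ≤ g) (C₀ : ℝ) (hC₀ : 0 < C₀)
    (hV : ∀ z : ℕ, 3 ≤ z → PX (fun q => (Zf F q).card) z ≤ C₀ / Real.log z ^ g)
    (M : ℤ[X]) (hM0 : M ≠ 0)
    (hM : ∀ p : ℕ, p.Prime → ∀ x h : ℤ, (p : ℤ) ∣ F.eval x → (p : ℤ) ∣ F.eval (x + h) → (p : ℤ) ∣ M.eval h)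
    (hE : ∀ h : ℕ, 1 ≤ h → M.eval (h : ℤ) = 0 → ∃ p₀ : ℕ, ∀ p : ℕ, p₀ ≤ p → p.Prime →
      ∃ c : ℤ, ¬ (p : ℤ) ∣ F.eval c ∧ (p : ℤ) ∣ F.eval (c + h))
    (δ : ℝ) (hδ : 0 < δ) (A : Set ℕ) (hA : RV F δ A) (c : ℝ) (hc : 0 < c)
    (hlow : ∀ᶠ X : ℕ in atTop, c * X / Real.log X ^ g ≤ ((Icc 1 X).filter (· ∈ A)).card)
    (m : ℕ) (hm : 1 ≤ m) :
    0 < volume {t : Fin m → ℝ | MapClusterPt t atTop (fun (k : ℕ) (i : Fin m) => gap A g (k + i))} := by
  obtain ⟨e, he⟩ := zeros_bd M hM0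
  obtain ⟨C, hC, hcorr⟩ := corr_bd F hF g hg C₀ hC₀ hV δ hδ M hM0 hM e he m hm
  exact lim_of_corr A g m e hg hm c C hc hC hlow (small_gap F hF g hg C₀ hC₀ hV δ hδ M hM hE e A hA) (hcorr A hA)

end Pool.Agent.X69.Ric
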