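import Mathlib

/-!
# Limit points of a sequence of points whose distribution has a bounded density
-/

set_option autoImplicit false

namespace Pool.Agent.X69.Ric

open Filter MeasureTheory Topology Finset

theorem meas {m : ℕ} (P : ℕ → Fin m → ℝ) (I : ℕ → Finset ℕ) (K C : ℝ) (hK : 0 < K) (hC : 0 < C)
    (hI : ∀ k0, ∀ᶠ Y in atTop, ∀ k ∈ I Y, k0 ≤ k)
    (hne : ∀ᶠ Y in atTop, (I Y).Nonempty)
    (hbig : ∀ᶠ Y in atTop, (((I Y).filter (fun k => ¬ ∀ i, 0 ≤ P k i ∧ P k i < K)).card : ℝ) ≤
      1 / 2 * (I Y).card)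
    (hbox : ∀ α β : Fin m → ℝ, (∀ i, 0 ≤ α i ∧ α i < β i ∧ β i ≤ K) → ∀ᶠ Y in atTop,
      (((I Y).filter (fun k => ∀ i, α i ≤ P k i ∧ P k i ≤ β i)).card : ℝ) ≤
        C * (∏ i, (β i - α i)) * (I Y).card) :
    ENNReal.ofReal (1 / (2 * C)) ≤ volume {t : Fin m → ℝ | MapClusterPt t atTop P} := by
  classical
  set S : Set (Fin m → ℝ) := {t : Fin m → ℝ | MapClusterPt t atTop P} with hS
  have hScl : IsClosed S := isClosed_setOf_clusterPt
  set B : Set (Fin m → ℝ) := Set.Icc 0 (fun _ => K) with hB
  have hBc : IsCompact B := isCompact_Icc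
  have hSB : IsCompact (S ∩ B) := hBc.inter_left hScl
  have main : ∀ N : ℕ, 1 ≤ N → ENNReal.ofReal (1 / (2 * C)) ≤
      volume (Metric.cthickening (K / N) (S ∩ B)) := by
    intro N hN
    have hN0 : (0 : ℝ) < N := by exact_mod_cast hN
    set w : ℝ := K / N with hw
    have hw0 : 0 < w := by positivity
    have hwN : w * N = K := by rw [hw]; field_simp
    set a : (Fin m → Fin N) → Fin m → ℝ := fun j i => (j i : ℝ) * w with ha
    set b : (Fin m → Fin N) → Fin m → ℝ := fun j i => ((j i : ℝ) + 1) * w with hb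
    have hab : ∀ j i, b j i - a j i = w := by intro j i; simp only [ha, hb]; ring
    have ha0 : ∀ j i, 0 ≤ a j i := by intro j i; simp only [ha]; positivity
    have hbK : ∀ j i, b j i ≤ K := by
      intro j i
      have h1 : ((j i : ℕ) : ℝ) + 1 ≤ N := by exact_mod_cast (j i).2
      calc b j i = (((j i : ℕ) : ℝ) + 1) * w := rfl
        _ ≤ N * w := by gcongr
        _ = K := by rw [mul_comm, hwN]
    set G : Finset (Fin m → Fin N) := univ.filter (fun j => (S ∩ Set.Icc (a j) (b j)).Nonempty) with hG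
    have hfin : ∀ j : Fin m → Fin N, ∀ᶠ k in atTop, j ∉ G → P k ∉ Set.Icc (a j) (b j) := by
      intro j
      by_cases hj : j ∈ G
      · exact Filter.Eventually.of_forall (fun k h => absurd hj h)
      · by_contra hcon
        have hf : ∃ᶠ k in atTop, P k ∈ Set.Icc (a j) (b j) := by
          rw [Filter.not_eventually] at hcon
          exact hcon.mono (fun k hk => by
            by_contra h
            exact hk (fun _ => h))
        obtain ⟨x, hx, hx2⟩ := (isCompact_Icc (a := a j) (b := b j)).exists_mapClusterPt_of_frequently hf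
        apply hj
        rw [hG, mem_filter]
        exact ⟨mem_univ _, x, hx2, hx⟩
    obtain ⟨k0, hk0⟩ := eventually_atTop.1 (Filter.eventually_all.2 hfin)
    have hbx : ∀ j : Fin m → Fin N, ∀ᶠ Y in atTop,
        (((I Y).filter (fun k => ∀ i, a j i ≤ P k i ∧ P k i ≤ b j i)).card : ℝ) ≤
        C * w ^ m * (I Y).card := by
      intro j
      have := hbox (a j) (b j) (fun i => ⟨ha0 j i, by have := hab j i; linarith, hbK j i⟩)
      refine this.mono (fun Y hY => ?_)
      rw [Finset.prod_congr rfl (fun i _ => hab j i), prod_const, card_univ, Fintype.card_fin] at hY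
      exact hY
    obtain ⟨Y, hY1, hY2, hY3, hY4⟩ := ((hI k0).and (hne.and (hbig.and (Filter.eventually_all.2 hbx)))).exists
    have hcover : I Y ⊆ (I Y).filter (fun k => ¬ ∀ i, 0 ≤ P k i ∧ P k i < K) ∪
        G.biUnion (fun j => (I Y).filter (fun k => ∀ i, a j i ≤ P k i ∧ P k i ≤ b j i)) := by
      intro k hk
      rw [mem_union]
      by_cases h : ∀ i, 0 ≤ P k i ∧ P k i < K
      · right
        rw [mem_biUnion]
        have hlt : ∀ i, ⌊P k i / w⌋₊ < N := by
          intro i
          rw [Nat.floor_lt (div_nonneg (h i).1 hw0.le), div_lt_iff₀ hw0, mul_comm, hwN]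
          exact (h i).2
        set j : Fin m → Fin N := fun i => ⟨⌊P k i / w⌋₊, hlt i⟩ with hj
        have hj1 : ∀ i, a j i ≤ P k i ∧ P k i ≤ b j i := by
          intro i
          constructor
          · have := Nat.floor_le (div_nonneg (h i).1 hw0.le)
            rw [le_div_iff₀ hw0] at this
            exact this
          · have := Nat.lt_floor_add_one (P k i / w)
            rw [div_lt_iff₀ hw0] at this
            exact this.le
        refine ⟨j, ?_, ?_⟩
        · by_contra hjG
          exact hk0 k (hY1 k hk) j hjG ⟨fun i => (hj1 i).1, fun i => (hj1 i).2⟩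
        · rw [mem_filter]
          exact ⟨hk, hj1⟩
      · left
        rw [mem_filter]
        exact ⟨hk, h⟩
    have hcard : ((I Y).card : ℝ) ≤ 1 / 2 * (I Y).card + G.card * (C * w ^ m * (I Y).card) := by
      have h1 : (I Y).card ≤ ((I Y).filter (fun k => ¬ ∀ i, 0 ≤ P k i ∧ P k i < K)).card +
          ∑ j ∈ G, ((I Y).filter (fun k => ∀ i, a j i ≤ P k i ∧ P k i ≤ b j i)).card :=
        (card_le_card hcover).trans ((card_union_le _ _).trans (Nat.add_le_add_left card_biUnion_le _))
      have h2 : ((I Y).card : ℝ) ≤ (((I Y).filter (fun k => ¬ ∀ i, 0 ≤ P k i ∧ P k i < K)).card : ℝ) +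
          ∑ j ∈ G, (((I Y).filter (fun k => ∀ i, a j i ≤ P k i ∧ P k i ≤ b j i)).card : ℝ) := by
        exact_mod_cast h1
      refine h2.trans (add_le_add hY3 ?_)
      refine (Finset.sum_le_sum (fun j _ => hY4 j)).trans ?_
      rw [sum_const, nsmul_eq_mul]
    have hIpos : (0 : ℝ) < (I Y).card := by exact_mod_cast hY2.card_pos
    have hGw : 1 / (2 * C) ≤ G.card * w ^ m := by
      rw [div_le_iff₀ (by positivity)]
      have h3 : (I Y).card * (1 : ℝ) ≤ (I Y).card * (G.card * w ^ m * (2 * C)) := by nlinarith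
      exact le_of_mul_le_mul_left h3 hIpos
    have hvol : volume (⋃ j ∈ G, Set.pi Set.univ (fun i => Set.Ico (a j i) (b j i))) =
        ENNReal.ofReal (G.card * w ^ m) := by
      rw [measure_biUnion_finset]
      · have h4 : ∀ j ∈ G, volume (Set.pi Set.univ (fun i => Set.Ico (a j i) (b j i))) =
            ENNReal.ofReal (w ^ m) := by
          intro j _
          rw [Real.volume_pi_Ico, Finset.prod_congr rfl (fun i _ => by rw [hab j i]), prod_const,
            card_univ, Fintype.card_fin, ENNReal.ofReal_pow hw0.le]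
        rw [Finset.sum_congr rfl h4, sum_const, nsmul_eq_mul,
          ENNReal.ofReal_mul (Nat.cast_nonneg _), ENNReal.ofReal_natCast]
      · intro j _ j' _ hjj
        rw [Function.onFun, Set.disjoint_left]
        intro x hx hx'
        apply hjj
        funext i
        have h1 := hx i (Set.mem_univ _)
        have h2 := hx' i (Set.mem_univ _)
        have e1 : ((j i : ℕ) : ℝ) * w ≤ x i ∧ x i < (((j i : ℕ) : ℝ) + 1) * w := h1
        have e2 : ((j' i : ℕ) : ℝ) * w ≤ x i ∧ x i < (((j' i : ℕ) : ℝ) + 1) * w := h2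
        have e3 : ((j i : ℕ) : ℝ) < ((j' i : ℕ) : ℝ) + 1 := by
          by_contra hcon
          push Not at hcon
          nlinarith [mul_le_mul_of_nonneg_right hcon hw0.le]
        have e4 : ((j' i : ℕ) : ℝ) < ((j i : ℕ) : ℝ) + 1 := by
          by_contra hcon
          push Not at hcon
          nlinarith [mul_le_mul_of_nonneg_right hcon hw0.le]
        have e5 : (j i : ℕ) < (j' i : ℕ) + 1 := by exact_mod_cast e3
        have e6 : (j' i : ℕ) < (j i : ℕ) + 1 := by exact_mod_cast e4
        exact Fin.ext (by omega)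
      · intro j _
        exact MeasurableSet.univ_pi (fun i => measurableSet_Ico)
    refine (ENNReal.ofReal_le_ofReal hGw).trans ?_
    rw [← hvol]
    apply measure_mono
    intro x hx
    rw [Set.mem_iUnion₂] at hx
    obtain ⟨j, hjG, hxj⟩ := hx
    rw [hG, mem_filter] at hjG
    obtain ⟨y, hyS, hy⟩ := hjG.2
    have hyB : y ∈ B := by
      refine ⟨fun i => (ha0 j i).trans (hy.1 i), fun i => (hy.2 i).trans (hbK j i)⟩
    refine Metric.mem_cthickening_of_dist_le x y w (S ∩ B) ⟨hyS, hyB⟩ ?_
    rw [dist_pi_le_iff hw0.le]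
    intro i
    have h1 : a j i ≤ x i ∧ x i < b j i := hxj i (Set.mem_univ _)
    have h2 : a j i ≤ y i ∧ y i ≤ b j i := ⟨hy.1 i, hy.2 i⟩
    have h3 := hab j i
    rw [Real.dist_eq, abs_le]
    constructor <;> linarith [h1.1, h1.2, h2.1, h2.2]
  have hlim : Tendsto (fun N : ℕ => volume (Metric.cthickening (K / N) (S ∩ B))) atTop
      (𝓝 (volume (S ∩ B))) :=
    (tendsto_measure_cthickening_of_isCompact hSB).comp (tendsto_const_div_atTop_nhds_zero_nat K)
  have h1 : ENNReal.ofReal (1 / (2 * C)) ≤ volume (S ∩ B) :=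
    ge_of_tendsto hlim (eventually_atTop.2 ⟨1, main⟩)
  exact h1.trans (measure_mono Set.inter_subset_left)

end Pool.Agent.X69.Ric
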