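import Pool.Agent.X69.Ric.Meas

/-!
# From correlations to limit points of normalised gaps
-/

set_option autoImplicit false

namespace Pool.Agent.X69.Ric

open Filter MeasureTheory Topology Finset

/-- the partial sums of the gaps -/
def parts {m : ℕ} (h : Fin m → ℕ) (j : ℕ) : ℕ := ∑ i ∈ range j, if hi : i < m then h ⟨i, hi⟩ else 0

theorem parts_zero {m : ℕ} (h : Fin m → ℕ) : parts h 0 = 0 := by simp [parts]

theorem parts_succ {m : ℕ} (h : Fin m → ℕ) (j : ℕ) (hj : j < m) : parts h (j + 1) = parts h j + h ⟨j, hj⟩ := by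
  unfold parts
  rw [sum_range_succ, dif_pos hj]

/-- the box of gaps greater than `e` -/
noncomputable def bx {m : ℕ} (e : ℕ) (l w : Fin m → ℝ) (L : ℝ) : Finset (Fin m → ℕ) :=
  Fintype.piFinset (fun i => Ioc (max e (⌈l i * L⌉₊ - 1)) ⌊(l i + w i) * L⌋₊)

/-- the scale -/
noncomputable def LL (g T : ℕ) : ℝ := Real.log ((T : ℝ) ^ 2) ^ g

open Classical in
/-- the correlations of `A` are bounded, on the average over boxes -/
def CorrBd (A : Set ℕ) (g m e : ℕ) (C : ℝ) : Prop :=
  ∀ l w : Fin m → ℝ, (∀ i, 0 ≤ l i ∧ 0 < w i) → ∀ᶠ T : ℕ in atTop,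
    ∑ h ∈ bx e l w (LL g T), (((Icc T (T ^ 2)).filter (fun n => ∀ j ≤ m, n + parts h j ∈ A)).card : ℝ) ≤
      C * (∏ i, w i) * ((T : ℝ) ^ 2 / LL g T)

open Classical in
/-- few gaps of `A` are at most `e` -/
def SmallGap (A : Set ℕ) (g e : ℕ) : Prop :=
  ∀ ε : ℝ, 0 < ε → ∀ᶠ T : ℕ in atTop,
    (((Icc T (T ^ 2)).filter (fun n => n ∈ A ∧ ∃ h ∈ Icc 1 e, n + h ∈ A)).card : ℝ) ≤
      ε * ((T : ℝ) ^ 2 / LL g T)

/-- the normalised gaps of `A` -/
noncomputable def gap (A : Set ℕ) (g k : ℕ) : ℝ :=
  ((Nat.nth (· ∈ A) (k + 1) : ℝ) - Nat.nth (· ∈ A) k) / Real.log (Nat.nth (· ∈ A) k) ^ g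

theorem LL_tendsto (g : ℕ) (hg : 1 ≤ g) : Tendsto (fun T : ℕ => LL g T) atTop atTop := by
  unfold LL
  have h1 : Tendsto (fun T : ℕ => Real.log ((T : ℝ) ^ 2)) atTop atTop :=
    Real.tendsto_log_atTop.comp ((tendsto_pow_atTop (by norm_num)).comp tendsto_natCast_atTop_atTop)
  exact (tendsto_pow_atTop (by omega)).comp h1

/-- `T ^ a` is small against `T ^ 2 / L` for `a < 2` -/
theorem pow_small (g : ℕ) (a : ℝ) (ha : a < 2) (ε : ℝ) (hε : 0 < ε) :
    ∀ᶠ T : ℕ in atTop, (T : ℝ) ^ a ≤ ε * ((T : ℝ) ^ 2 / LL g T) := by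
  have h1 : (fun x : ℝ => Real.log x ^ g) =o[atTop] fun x => x ^ ((2 - a) : ℝ) :=
    by
      have := isLittleO_log_rpow_rpow_atTop (s := 2 - a) (g : ℝ) (by linarith)
      simpa using this
  have h2 := (h1.comp_tendsto tendsto_natCast_atTop_atTop).bound (c := ε / 2 ^ g) (by positivity)
  filter_upwards [h2, eventually_ge_atTop 3] with T hT hT3
  have hTr : (3 : ℝ) ≤ T := by exact_mod_cast hT3
  have hl : 0 < Real.log T := Real.log_pos (by linarith)
  have hL : LL g T = 2 ^ g * Real.log T ^ g := by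
    unfold LL
    rw [Real.log_pow]
    push_cast
    rw [mul_pow]
  have hLpos : 0 < LL g T := by rw [hL]; positivity
  simp only [Function.comp_apply, Real.norm_eq_abs] at hT
  rw [abs_of_nonneg (by positivity), abs_of_nonneg (by positivity)] at hT
  have h3 : LL g T ≤ ε * (T : ℝ) ^ (2 - a) := by
    rw [hL]
    calc (2 : ℝ) ^ g * Real.log T ^ g ≤ 2 ^ g * (ε / 2 ^ g * (T : ℝ) ^ (2 - a)) := by gcongr
      _ = _ := by field_simp
  have h4 : (T : ℝ) ^ a * (T : ℝ) ^ (2 - a) = (T : ℝ) ^ 2 := by
    rw [← Real.rpow_add (by linarith)]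
    norm_num
  rw [← mul_div_assoc, le_div_iff₀ hLpos]
  calc (T : ℝ) ^ a * LL g T ≤ (T : ℝ) ^ a * (ε * (T : ℝ) ^ (2 - a)) := by gcongr
    _ = ε * ((T : ℝ) ^ a * (T : ℝ) ^ (2 - a)) := by ring
    _ = _ := by rw [h4]

theorem sum_gaps (a : ℕ → ℕ) (ha : StrictMono a) (S : Finset ℕ) (M : ℕ) (hS : ∀ k ∈ S, a (k + 1) ≤ M) :
    ∑ k ∈ S, ((a (k + 1) : ℝ) - a k) ≤ M := by
  rcases S.eq_empty_or_nonempty with h | h
  · rw [h, sum_empty]
    positivity
  · have h1 : S ⊆ range (S.max' h + 1) := by
      intro k hk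
      rw [mem_range]
      have := S.le_max' k hk
      omega
    have h2 : ∑ k ∈ S, ((a (k + 1) : ℝ) - a k) ≤ ∑ k ∈ range (S.max' h + 1), ((a (k + 1) : ℝ) - a k) := by
      apply sum_le_sum_of_subset_of_nonneg h1
      intro k _ _
      have : (a k : ℝ) ≤ a (k + 1) := by exact_mod_cast (ha (Nat.lt_succ_self k)).le
      linarith
    refine h2.trans ?_
    rw [Finset.sum_range_sub (fun k => (a k : ℝ))]
    have h3 : (a (S.max' h + 1) : ℝ) ≤ M := by exact_mod_cast hS _ (S.max'_mem h)
    have h4 : (0 : ℝ) ≤ a 0 := Nat.cast_nonneg _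
    linarith

theorem parts_nth (a : ℕ → ℕ) (ha : StrictMono a) (m k : ℕ) (j : ℕ) (hj : j ≤ m) :
    a k + parts (m := m) (fun i => a (k + i + 1) - a (k + i)) j = a (k + j) := by
  induction j with
  | zero => rw [parts_zero]; rfl
  | succ j ih =>
    rw [parts_succ _ j (by omega), ← add_assoc, ih (by omega)]
    have h1 : a (k + j) ≤ a (k + j + 1) := (ha (Nat.lt_succ_self _)).le
    show a (k + j) + (a (k + j + 1) - a (k + j)) = a (k + (j + 1))
    rw [Nat.add_sub_cancel' h1]
    rfl

open Classical in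
theorem lim_of_corr (A : Set ℕ) (g m e : ℕ) (hg : 1 ≤ g) (hm : 1 ≤ m) (c C : ℝ) (hc : 0 < c) (hC : 0 < C)
    (hlow : ∀ᶠ X : ℕ in atTop, c * X / Real.log X ^ g ≤ ((Icc 1 X).filter (· ∈ A)).card)
    (hsmall : SmallGap A g e) (hcorr : CorrBd A g m e C) :
    0 < volume {t : Fin m → ℝ | MapClusterPt t atTop (fun (k : ℕ) (i : Fin m) => gap A g (k + i))} := by
  have hlowT : ∀ᶠ T : ℕ in atTop, c * ((T : ℝ) ^ 2 / LL g T) ≤ ((Icc 1 (T ^ 2)).filter (· ∈ A)).card := by
    have h1 : Tendsto (fun T : ℕ => T ^ 2) atTop atTop := tendsto_pow_atTop (by norm_num)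
    filter_upwards [h1.eventually hlow] with T hT
    rw [mul_div_assoc] at hT
    unfold LL
    push_cast at hT
    exact hT
  have hcardinf : ∀ M : ℕ, ∃ T : ℕ, M ≤ ((Icc 1 (T ^ 2)).filter (· ∈ A)).card := by
    intro M
    obtain ⟨T, hT1, hT2, hT3⟩ := (hlowT.and ((pow_small g 1 (by norm_num) c hc).and (eventually_ge_atTop M))).exists
    refine ⟨T, ?_⟩
    rw [Real.rpow_one] at hT2
    have : (M : ℝ) ≤ (((Icc 1 (T ^ 2)).filter (· ∈ A)).card : ℝ) := by
      have h3 : (M : ℝ) ≤ T := by exact_mod_cast hT3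
      linarith
    exact_mod_cast this
  have hinf : A.Infinite := by
    intro hfin
    obtain ⟨T, hT⟩ := hcardinf (hfin.toFinset.card + 1)
    have : ((Icc 1 (T ^ 2)).filter (· ∈ A)).card ≤ hfin.toFinset.card := by
      apply card_le_card
      intro x hx
      rw [Set.Finite.mem_toFinset]
      exact (mem_filter.1 hx).2
    omega
  have hinf' : (setOf (· ∈ A)).Infinite := hinf
  set a : ℕ → ℕ := Nat.nth (· ∈ A) with ha
  have hmono : StrictMono a := Nat.nth_strictMono hinf'
  have hmem : ∀ k, a k ∈ A := fun k => Nat.nth_mem_of_infinite hinf' k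
  have hid : ∀ k, k ≤ a k := hmono.id_le
  set I : ℕ → Finset ℕ := fun T => (range (T ^ 2 + 1)).filter (fun k => T ≤ a k ∧ a (k + m) ≤ T ^ 2) with hI
  have hcnt : ∀ T, (((Icc 1 (T ^ 2)).filter (· ∈ A)).card : ℝ) ≤ (I T).card + T + m := by
    intro T
    have h1 : (Icc 1 (T ^ 2)).filter (· ∈ A) ⊆ ((I T).image a ∪ Icc 1 T) ∪
        (range m).image (fun i => a (Nat.count (· ∈ A) (T ^ 2 + 1) - 1 - i)) := by
      intro n hn
      rw [mem_filter, mem_Icc] at hn
      rw [mem_union, mem_union]
      by_cases h2 : T ≤ n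
      · obtain ⟨k, hk⟩ : ∃ k, a k = n := ⟨Nat.count (· ∈ A) n, Nat.nth_count hn.2⟩
        by_cases h3 : a (k + m) ≤ T ^ 2
        · left; left
          rw [mem_image]
          refine ⟨k, ?_, hk⟩
          simp only [hI, mem_filter, mem_range]
          refine ⟨?_, by omega, h3⟩
          have := hid k
          omega
        · right
          rw [mem_image]
          have h4 : k < Nat.count (· ∈ A) (T ^ 2 + 1) := by
            rw [← Nat.nth_lt_nth hinf']
            have h5 : T ^ 2 + 1 ≤ Nat.nth (· ∈ A) (Nat.count (· ∈ A) (T ^ 2 + 1)) := Nat.le_nth_count hinf' _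
            have h6 : Nat.nth (· ∈ A) k = n := hk
            omega
          have h5 : Nat.count (· ∈ A) (T ^ 2 + 1) ≤ k + m := by
            by_contra h6
            push Not at h6
            have h7 : Nat.nth (· ∈ A) (k + m) < T ^ 2 + 1 := Nat.nth_lt_of_lt_count h6
            apply h3
            have : a (k + m) = Nat.nth (· ∈ A) (k + m) := rfl
            omega
          refine ⟨Nat.count (· ∈ A) (T ^ 2 + 1) - 1 - k, ?_, ?_⟩
          · rw [mem_range]
            omega
          · rw [← hk]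
            congr 1
            omega
      · left; right
        rw [mem_Icc]
        omega
    have h2 := card_le_card h1
    have h3 := (card_union_le ((I T).image a ∪ Icc 1 T) ((range m).image (fun i => a (Nat.count (· ∈ A) (T ^ 2 + 1) - 1 - i))))
    have h4 := card_union_le ((I T).image a) (Icc 1 T)
    have h5 : ((I T).image a).card ≤ (I T).card := card_image_le
    have h6 : ((range m).image (fun i => a (Nat.count (· ∈ A) (T ^ 2 + 1) - 1 - i))).card ≤ m := by
      have := card_image_le (s := range m) (f := fun i => a (Nat.count (· ∈ A) (T ^ 2 + 1) - 1 - i))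
      rwa [card_range] at this
    have h7 : (Icc 1 T).card = T := by rw [Nat.card_Icc]; omega
    have h8 : ((Icc 1 (T ^ 2)).filter (· ∈ A)).card ≤ (I T).card + T + m := by omega
    exact_mod_cast h8
  have hIlow : ∀ᶠ T : ℕ in atTop, c / 2 * ((T : ℝ) ^ 2 / LL g T) ≤ (I T).card := by
    filter_upwards [hlowT, pow_small g 1 (by norm_num) (c / 4) (by positivity),
      eventually_ge_atTop m] with T h1 h2 h3
    rw [Real.rpow_one] at h2
    have h4 := hcnt T
    have h5 : (m : ℝ) ≤ T := by exact_mod_cast h3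
    linarith
  have hLpos : ∀ᶠ T : ℕ in atTop, 0 < LL g T := (LL_tendsto g hg).eventually_gt_atTop 0
  have hm0 : (0 : ℝ) < m := by exact_mod_cast hm
  set K : ℝ := 4 * m * 2 ^ g / c with hK
  have hK0 : 0 < K := by positivity
  set C' : ℝ := (2 ^ m * C + 1) * (2 / c) with hC'
  have hC'0 : 0 < C' := by positivity
  have key := meas (fun (k : ℕ) (i : Fin m) => gap A g (k + i)) I K C' hK0 hC'0 ?_ ?_ ?_ ?_
  · refine lt_of_lt_of_le ?_ key
    rw [ENNReal.ofReal_pos]
    positivity
  · intro k0
    filter_upwards [eventually_ge_atTop (a k0)] with T hT k hk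
    simp only [hI, mem_filter, mem_range] at hk
    by_contra hcon
    push Not at hcon
    have := hmono hcon
    omega
  · filter_upwards [hIlow, hLpos, eventually_ge_atTop 1] with T hT hT2 hT3
    rw [← card_pos]
    have hTr : (1 : ℝ) ≤ T := by exact_mod_cast hT3
    have : (0 : ℝ) < (I T).card := lt_of_lt_of_le (by positivity) hT
    exact_mod_cast this
  · filter_upwards [hIlow, hLpos, eventually_ge_atTop 3] with T hT hT2 hT3
    have hTr : (3 : ℝ) ≤ T := by exact_mod_cast hT3
    have hlT : 0 < Real.log T := Real.log_pos (by linarith)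
    have hL : LL g T = 2 ^ g * Real.log T ^ g := by
      unfold LL
      rw [Real.log_pow]
      push_cast
      rw [mul_pow]
    have h1 : (I T).filter (fun k => ¬ ∀ i : Fin m, 0 ≤ gap A g (k + i) ∧ gap A g (k + i) < K) ⊆
        (univ : Finset (Fin m)).biUnion (fun i => (I T).filter (fun k => K ≤ gap A g (k + i))) := by
      intro k hk
      rw [mem_filter] at hk
      obtain ⟨hkI, hk2⟩ := hk
      push Not at hk2
      obtain ⟨i, hi⟩ := hk2
      rw [mem_biUnion]
      refine ⟨i, mem_univ _, ?_⟩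
      rw [mem_filter]
      refine ⟨hkI, hi ?_⟩
      unfold gap
      apply div_nonneg
      · have : ((a (k + i) : ℕ) : ℝ) ≤ a (k + i + 1) := by exact_mod_cast (hmono (Nat.lt_succ_self _)).le
        show 0 ≤ ((a (k + i + 1) : ℕ) : ℝ) - (a (k + i) : ℕ)
        linarith
      · exact pow_nonneg (Real.log_natCast_nonneg _) _
    have h2 : ∀ i : Fin m, (((I T).filter (fun k => K ≤ gap A g (k + i))).card : ℝ) * (K * Real.log T ^ g) ≤ (T : ℝ) ^ 2 := by
      intro i
      have h3 : ∑ k ∈ ((I T).filter (fun k => K ≤ gap A g (k + i))).image (fun k => k + (i : ℕ)), ((a (k + 1) : ℝ) - a k) ≤ ((T ^ 2 : ℕ) : ℝ) := by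
        apply sum_gaps a hmono
        intro k' hk'
        rw [mem_image] at hk'
        obtain ⟨k, hk, rfl⟩ := hk'
        simp only [hI, mem_filter, mem_range] at hk
        refine le_trans ?_ hk.1.2.2
        apply hmono.monotone
        have := i.2
        omega
      rw [sum_image (fun x _ y _ h => by omega)] at h3
      have h4 : ∑ k ∈ (I T).filter (fun k => K ≤ gap A g (k + i)), (K * Real.log T ^ g) ≤
          ∑ k ∈ (I T).filter (fun k => K ≤ gap A g (k + i)), ((a (k + i + 1) : ℝ) - a (k + i)) := by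
        apply Finset.sum_le_sum
        intro k hk
        simp only [hI, mem_filter, mem_range] at hk
        obtain ⟨⟨hk0, hk1, hk2⟩, hk3⟩ := hk
        have h5 : T ≤ a (k + i) := hk1.trans (hmono.monotone (by omega))
        have h5r : (T : ℝ) ≤ a (k + i) := by exact_mod_cast h5
        have h6 : Real.log T ≤ Real.log (a (k + i)) := Real.log_le_log (by linarith) h5r
        unfold gap at hk3
        have h7 : 0 < Real.log (a (k + i)) ^ g := pow_pos (by linarith) _
        have h8 : K ≤ ((a (k + i + 1) : ℝ) - a (k + i)) / Real.log (a (k + i)) ^ g := hk3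
        rw [le_div_iff₀ h7] at h8
        refine le_trans ?_ h8
        gcongr
      rw [sum_const, nsmul_eq_mul] at h4
      push_cast at h3
      linarith
    have h9 : (((I T).filter (fun k => ¬ ∀ i : Fin m, 0 ≤ gap A g (k + i) ∧ gap A g (k + i) < K)).card : ℝ) ≤
        ∑ i : Fin m, (((I T).filter (fun k => K ≤ gap A g (k + i))).card : ℝ) := by
      have := (card_le_card h1).trans card_biUnion_le
      exact_mod_cast this
    refine h9.trans ?_
    have h10 : ∀ i : Fin m, (((I T).filter (fun k => K ≤ gap A g (k + i))).card : ℝ) ≤ (T : ℝ) ^ 2 / (K * Real.log T ^ g) := by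
      intro i
      rw [le_div_iff₀ (by positivity)]
      exact h2 i
    refine (Finset.sum_le_sum (fun i _ => h10 i)).trans ?_
    rw [sum_const, card_univ, Fintype.card_fin, nsmul_eq_mul]
    have h11 : (m : ℝ) * ((T : ℝ) ^ 2 / (K * Real.log T ^ g)) = 1 / 2 * (c / 2 * ((T : ℝ) ^ 2 / LL g T)) := by
      rw [hL, hK]
      field_simp
      ring
    rw [h11]
    linarith
  · intro α β hαβ
    -- choose η
    have hη : ∃ η : ℝ, 0 < η ∧ η < 1 ∧ ∀ i : Fin m, α i * (1 - (1 - η) ^ g) ≤ β i - α i := by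
      have h1 : ∀ i : Fin m, ∀ᶠ η : ℝ in 𝓝[>] 0, α i * (1 - (1 - η) ^ g) ≤ β i - α i := by
        intro i
        have h2 : Tendsto (fun η : ℝ => α i * (1 - (1 - η) ^ g)) (𝓝[>] 0) (𝓝 (α i * (1 - (1 - 0) ^ g))) := by
          apply Tendsto.mono_left _ nhdsWithin_le_nhds
          apply Continuous.tendsto
          fun_prop
        have h3 : α i * (1 - (1 - 0) ^ g) < β i - α i := by
          simp only [sub_zero, one_pow, sub_self, mul_zero]
          linarith [(hαβ i).2.1]
        exact (h2.eventually_lt_const h3).mono (fun _ h => h.le)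
      have h4 : ∀ᶠ η : ℝ in 𝓝[>] 0, η ∈ Set.Ioo (0 : ℝ) 1 := Ioo_mem_nhdsGT (by norm_num)
      obtain ⟨η, hη1, hη2⟩ := ((Filter.eventually_all.2 h1).and h4).exists
      exact ⟨η, hη2.1, hη2.2, hη1⟩
    obtain ⟨η, hη0, hη1, hη2⟩ := hη
    set l : Fin m → ℝ := fun i => α i * (1 - η) ^ g with hl
    set w : Fin m → ℝ := fun i => 2 * (β i - α i) with hw
    have hlw : ∀ i, 0 ≤ l i ∧ 0 < w i := fun i =>
      ⟨mul_nonneg (hαβ i).1 (pow_nonneg (by linarith) _), by simp only [hw]; linarith [(hαβ i).2.1]⟩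
    have hβ : ∀ i, β i ≤ l i + w i := by
      intro i
      simp only [hl, hw]
      have := hη2 i
      nlinarith
    have hprod : 0 < ∏ i, (β i - α i) := Finset.prod_pos (fun i _ => by linarith [(hαβ i).2.1])
    have hwprod : ∏ i, w i = 2 ^ m * ∏ i, (β i - α i) := by
      simp only [hw]
      rw [Finset.prod_mul_distrib, prod_const, card_univ, Fintype.card_fin]
    filter_upwards [hIlow, hLpos, eventually_ge_atTop 3, hcorr l w hlw,
      pow_small g (2 * (1 - η)) (by linarith) (1 / 4 * ∏ i, (β i - α i)) (by positivity),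
      pow_small g 0 (by norm_num) (1 / 4 * ∏ i, (β i - α i)) (by positivity),
      hsmall (1 / (4 * m) * ∏ i, (β i - α i)) (by positivity)] with T hT hT2 hT3 hT4 hT5 hT6 hT7
    have hTr : (3 : ℝ) ≤ T := by exact_mod_cast hT3
    have hT2r : (1 : ℝ) < (T : ℝ) ^ 2 := by nlinarith
    have hlT : 0 < Real.log ((T : ℝ) ^ 2) := Real.log_pos hT2r
    rw [Real.rpow_zero] at hT6
    set SG : Finset ℕ := (Icc T (T ^ 2)).filter (fun n => n ∈ A ∧ ∃ h ∈ Icc 1 e, n + h ∈ A) with hSG
    have h1 : (I T).filter (fun k => ∀ i : Fin m, α i ≤ gap A g (k + i) ∧ gap A g (k + i) ≤ β i) ⊆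
        (range (⌊(T : ℝ) ^ (2 * (1 - η))⌋₊ + 1) ∪
        (univ : Finset (Fin m)).biUnion (fun i => (I T).filter (fun k => a (k + i) ∈ SG))) ∪
        (I T).filter (fun k => (∀ i : Fin m, a (k + i) ∉ SG) ∧ (T : ℝ) ^ (2 * (1 - η)) ≤ a k ∧ ∀ i : Fin m, α i ≤ gap A g (k + i) ∧ gap A g (k + i) ≤ β i) := by
      intro k hk
      rw [mem_filter] at hk
      rw [mem_union, mem_union, mem_filter, mem_range, mem_biUnion]
      by_cases h2 : (T : ℝ) ^ (2 * (1 - η)) ≤ a k
      · by_cases h3 : ∀ i : Fin m, a (k + i) ∉ SG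
        · exact Or.inr ⟨hk.1, h3, h2, hk.2⟩
        · push Not at h3
          obtain ⟨i, hi⟩ := h3
          exact Or.inl (Or.inr ⟨i, mem_univ _, mem_filter.2 ⟨hk.1, hi⟩⟩)
      · left; left
        push Not at h2
        have h3 : (k : ℝ) ≤ a k := by exact_mod_cast hid k
        have h4 : k ≤ ⌊(T : ℝ) ^ (2 * (1 - η))⌋₊ := Nat.le_floor (by linarith)
        omega
    have hsg : ∀ i : Fin m, ((I T).filter (fun k => a (k + i) ∈ SG)).card ≤ SG.card := by
      intro i
      apply card_le_card_of_injOn (fun k => a (k + i))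
      · intro k hk
        rw [mem_coe, mem_filter] at hk
        exact hk.2
      · intro k _ k' _ hkk
        have := hmono.injective hkk
        omega
    have h2 : ((I T).filter (fun k => (∀ i : Fin m, a (k + i) ∉ SG) ∧ (T : ℝ) ^ (2 * (1 - η)) ≤ a k ∧ ∀ i : Fin m, α i ≤ gap A g (k + i) ∧ gap A g (k + i) ≤ β i)).card ≤
        ((bx e l w (LL g T)).sigma (fun h => (Icc T (T ^ 2)).filter (fun n => ∀ j ≤ m, n + parts h j ∈ A))).card := by
      apply card_le_card_of_injOn (fun k => ⟨fun i : Fin m => a (k + i + 1) - a (k + i), a k⟩)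
      · intro k hk
        rw [mem_coe, mem_filter] at hk
        obtain ⟨hkI, hk0, hk1, hk2⟩ := hk
        simp only [hI, mem_filter, mem_range] at hkI
        rw [mem_coe, mem_sigma]
        constructor
        · show (fun i : Fin m => a (k + i + 1) - a (k + i)) ∈ bx e l w (LL g T)
          unfold bx
          rw [Fintype.mem_piFinset]
          intro i
          rw [mem_Ioc]
          have hlt : a (k + i) < a (k + i + 1) := hmono (Nat.lt_succ_self _)
          have hup : a (k + i) ≤ T ^ 2 := by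
            refine le_trans (hmono.monotone ?_) hkI.2.2
            have := i.2
            omega
          have hupr : (a (k + i) : ℝ) ≤ (T : ℝ) ^ 2 := by exact_mod_cast hup
          have hlo : (T : ℝ) ^ (2 * (1 - η)) ≤ a (k + i) := by
            refine hk1.trans ?_
            exact_mod_cast hmono.monotone (by omega : k ≤ k + (i : ℕ))
          have hak0 : (0 : ℝ) < a (k + i) := lt_of_lt_of_le (by positivity) hlo
          have hlog1 : (1 - η) * Real.log ((T : ℝ) ^ 2) ≤ Real.log (a (k + i)) := by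
            rw [Real.log_pow]
            have := Real.log_le_log (by positivity) hlo
            rw [Real.log_rpow (by linarith)] at this
            push_cast
            linarith
          have hlog2 : Real.log (a (k + i)) ≤ Real.log ((T : ℝ) ^ 2) := Real.log_le_log hak0 hupr
          have hlogpos : 0 < Real.log (a (k + i)) := lt_of_lt_of_le (mul_pos (by linarith) hlT) hlog1
          have hcast : ((a (k + i + 1) - a (k + i) : ℕ) : ℝ) = (a (k + i + 1) : ℝ) - a (k + i) := by
            rw [Nat.cast_sub hlt.le]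
          have hgap : gap A g (k + i) * Real.log (a (k + i)) ^ g = (a (k + i + 1) : ℝ) - a (k + i) := by
            unfold gap
            rw [div_mul_cancel₀]
            exact (pow_pos hlogpos g).ne'
          have hbig : e < a (k + i + 1) - a (k + i) := by
            by_contra hcon
            push Not at hcon
            apply hk0 i
            rw [hSG, mem_filter, mem_Icc]
            refine ⟨⟨hkI.2.1.trans (hmono.monotone (by omega)), hup⟩, hmem _, a (k + i + 1) - a (k + i), ?_, ?_⟩
            · rw [mem_Icc]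
              omega
            · rw [Nat.add_sub_cancel' hlt.le]
              exact hmem _
          have hceil : ⌈l i * LL g T⌉₊ - 1 < a (k + i + 1) - a (k + i) ↔ l i * LL g T ≤ ((a (k + i + 1) - a (k + i) : ℕ) : ℝ) := by
            rw [← Nat.ceil_le]
            omega
          rw [and_comm, max_lt_iff, hceil]
          refine ⟨?_, hbig, ?_⟩
          · apply Nat.le_floor
            rw [hcast, ← hgap]
            have h3 := (hk2 i).2
            have h4 : 0 ≤ β i := by have := hαβ i; linarith [this.1, this.2.1]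
            calc gap A g (k + i) * Real.log (a (k + i)) ^ g ≤ β i * LL g T := by
                  unfold LL
                  gcongr
              _ ≤ (l i + w i) * LL g T := by
                  have := hβ i
                  gcongr
          · rw [hcast, ← hgap]
            have h3 := (hk2 i).1
            have h4 : 0 ≤ α i := (hαβ i).1
            calc l i * LL g T = α i * ((1 - η) * Real.log ((T : ℝ) ^ 2)) ^ g := by
                  simp only [hl, LL]
                  rw [mul_pow]
                  ring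
              _ ≤ gap A g (k + i) * Real.log (a (k + i)) ^ g := by
                  have h5 : 0 ≤ (1 - η) * Real.log ((T : ℝ) ^ 2) := mul_nonneg (by linarith) hlT.le
                  have h6 : 0 ≤ gap A g (k + i) := h4.trans h3
                  gcongr
        · show a k ∈ _
          rw [mem_filter, mem_Icc]
          refine ⟨⟨hkI.2.1, (hmono.monotone (by omega)).trans hkI.2.2⟩, ?_⟩
          intro j hj
          rw [parts_nth a hmono m k j hj]
          exact hmem _
      · intro k _ k' _ hkk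
        simp only [Sigma.mk.injEq] at hkk
        have h3 : a k = a k' := eq_of_heq hkk.2
        exact hmono.injective h3
    rw [card_sigma] at h2
    have h3 : (((I T).filter (fun k => ∀ i : Fin m, α i ≤ gap A g (k + i) ∧ gap A g (k + i) ≤ β i)).card : ℝ) ≤
        ((T : ℝ) ^ (2 * (1 - η)) + 1) + m * SG.card + C * (∏ i, w i) * ((T : ℝ) ^ 2 / LL g T) := by
      have h4 := (card_le_card h1).trans (card_union_le _ _)
      have h4' := h4.trans (Nat.add_le_add (card_union_le _ _) h2)
      have h4'' : ((univ : Finset (Fin m)).biUnion (fun i => (I T).filter (fun k => a (k + i) ∈ SG))).card ≤ m * SG.card := by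
        refine card_biUnion_le.trans ((Finset.sum_le_sum (fun i _ => hsg i)).trans ?_)
        rw [sum_const, card_univ, Fintype.card_fin, smul_eq_mul]
      rw [card_range] at h4'
      have h5 : (⌊(T : ℝ) ^ (2 * (1 - η))⌋₊ : ℝ) ≤ (T : ℝ) ^ (2 * (1 - η)) := Nat.floor_le (by positivity)
      have h6 : (((I T).filter (fun k => ∀ i : Fin m, α i ≤ gap A g (k + i) ∧ gap A g (k + i) ≤ β i)).card : ℝ) ≤
          ((⌊(T : ℝ) ^ (2 * (1 - η))⌋₊ : ℝ) + 1) + m * SG.card +
          ∑ h ∈ bx e l w (LL g T), (((Icc T (T ^ 2)).filter (fun n => ∀ j ≤ m, n + parts h j ∈ A)).card : ℝ) := by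
        exact_mod_cast h4'.trans (Nat.add_le_add_right (Nat.add_le_add_left h4'' _) _)
      linarith
    rw [hwprod] at h3
    have h7' : (m : ℝ) * SG.card ≤ 1 / 4 * (∏ i, (β i - α i)) * ((T : ℝ) ^ 2 / LL g T) := by
      calc (m : ℝ) * SG.card ≤ m * (1 / (4 * m) * (∏ i, (β i - α i)) * ((T : ℝ) ^ 2 / LL g T)) := by gcongr
        _ = _ := by field_simp
    have h7 : ((T : ℝ) ^ (2 * (1 - η)) + 1) + m * SG.card + C * (2 ^ m * ∏ i, (β i - α i)) * ((T : ℝ) ^ 2 / LL g T) ≤
        (2 ^ m * C + 1) * (∏ i, (β i - α i)) * ((T : ℝ) ^ 2 / LL g T) := by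
      have hX : 0 ≤ (∏ i, (β i - α i)) * ((T : ℝ) ^ 2 / LL g T) := by positivity
      nlinarith
    refine h3.trans (h7.trans ?_)
    have h8 : (T : ℝ) ^ 2 / LL g T ≤ 2 / c * (I T).card := by
      rw [div_mul_eq_mul_div, le_div_iff₀ hc]
      linarith
    calc (2 ^ m * C + 1) * (∏ i, (β i - α i)) * ((T : ℝ) ^ 2 / LL g T) ≤
        (2 ^ m * C + 1) * (∏ i, (β i - α i)) * (2 / c * (I T).card) :=
          mul_le_mul_of_nonneg_left h8 (by positivity)
      _ = _ := by rw [hC']; ring

end Pool.Agent.X69.Ric
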