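import Pool.Agent.X69.Ric.Inst

/-!
# Packaged statements for systems of linear forms
-/

set_option autoImplicit false

namespace Pool.Agent.X69.Ric

open Filter Topology Finset MeasureTheory

theorem ncard_eq (A : Set ℕ) (X : ℕ) [DecidablePred (· ∈ A)] :
    (A ∩ Set.Icc 1 X).ncard = ((Icc 1 X).filter (· ∈ A)).card := by
  rw [← Set.ncard_coe_finset]
  congr 1
  ext x
  simp only [Set.mem_inter_iff, Set.mem_Icc, coe_filter, mem_Icc, Set.mem_setOf_eq]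
  tauto

/-- `A` has at least `c X / (log X) ^ g` elements up to `X` -/
def Many (g : ℕ) (A : Set ℕ) : Prop :=
  ∃ c : ℝ, 0 < c ∧ ∀ᶠ X : ℕ in atTop, c * X / Real.log X ^ g ≤ ((A ∩ Set.Icc 1 X).ncard : ℝ)

open Classical in
theorem many_iff (g : ℕ) (A : Set ℕ) : Many g A ↔ ∃ c : ℝ, 0 < c ∧ ∀ᶠ X : ℕ in atTop,
    c * X / Real.log X ^ g ≤ ((Icc 1 X).filter (· ∈ A)).card := by
  unfold Many
  simp only [ncard_eq]

/-- the vectors of consecutive normalised gaps -/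
noncomputable def gapv (g : ℕ) (A : Set ℕ) (m k : ℕ) : Fin m → ℝ := fun i =>
  ((Nat.nth (· ∈ A) (k + i + 1) : ℝ) - Nat.nth (· ∈ A) (k + i)) / Real.log (Nat.nth (· ∈ A) (k + i)) ^ g

theorem adm_large {g : ℕ} (a b : Fin g → ℤ) (p : ℕ) (hp : p.Prime) (hpg : g < p) (h : ∀ i, ¬ ((p : ℤ) ∣ a i ∧ (p : ℤ) ∣ b i)) :
    ∃ n : ℤ, ∀ i, ¬ (p : ℤ) ∣ a i * n + b i := by
  classical
  by_contra hcon
  push Not at hcon
  have h1 : (univ : Finset (Fin g)).biUnion (fun i => (range p).filter (fun c : ℕ => (p : ℤ) ∣ a i * (c : ℤ) + b i)) = range p := by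
    ext c
    rw [mem_biUnion, mem_range]
    constructor
    · rintro ⟨i, -, hi⟩
      exact mem_range.1 (mem_filter.1 hi).1
    · intro hc
      obtain ⟨i, hi⟩ := hcon c
      exact ⟨i, mem_univ _, mem_filter.2 ⟨mem_range.2 hc, hi⟩⟩
  have h2 : ∀ i : Fin g, ((range p).filter (fun c : ℕ => (p : ℤ) ∣ a i * (c : ℤ) + b i)).card ≤ 1 := by
    intro i
    rw [card_le_one]
    intro c hc c' hc'
    rw [mem_filter, mem_range] at hc hc'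
    by_contra hne
    have h3 : (p : ℤ) ∣ a i * ((c : ℤ) - c') := by
      have : a i * ((c : ℤ) - c') = (a i * (c : ℤ) + b i) - (a i * (c' : ℤ) + b i) := by ring
      rw [this]
      exact dvd_sub hc.2 hc'.2
    rcases (Nat.prime_iff_prime_int.1 hp).dvd_or_dvd h3 with h4 | h4
    · apply h i
      refine ⟨h4, ?_⟩
      have : b i = (a i * (c : ℤ) + b i) - a i * c := by ring
      rw [this]
      exact dvd_sub hc.2 (Dvd.dvd.mul_right h4 _)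
    · apply hne
      have h5 : (c : ℤ) ≡ c' [ZMOD p] := (Int.modEq_iff_dvd.2 (by rw [← dvd_neg, neg_sub]; exact h4))
      have h6 : c ≡ c' [MOD p] := (Int.natCast_modEq_iff).1 h5
      have h7 : c % p = c' % p := h6
      rwa [Nat.mod_eq_of_lt hc.1, Nat.mod_eq_of_lt hc'.1] at h7
  have h3 := card_biUnion_le (s := (univ : Finset (Fin g))) (t := fun i => (range p).filter (fun c : ℕ => (p : ℤ) ∣ a i * (c : ℤ) + b i))
  rw [h1, card_range] at h3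
  have h4 := h3.trans (Finset.sum_le_sum (fun i _ => h2 i))
  simp at h4
  omega

section

variable {g : ℕ} (a b : Fin g → ℤ) (f : ℕ → Fin g → ℕ)

theorem f_dvd (hf : ∀ n : ℕ, 1 ≤ n → ∀ i, ((f n i : ℕ) : ℤ) = a i * n + b i) (A : Set ℕ) (δ : ℝ) (hδ : 0 < δ)
    (hA : ∀ n ∈ A, ∀ i, ∀ p : ℕ, p.Prime → p ∣ f n i → (n : ℝ) ^ δ ≤ p) :
    ∀ n ∈ A, ∀ i, ∀ p : ℕ, p.Prime → (p : ℝ) < (n : ℝ) ^ δ → ¬ (p : ℤ) ∣ a i * n + b i := by
  intro n hn i p hp hpn hdvd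
  rcases Nat.eq_zero_or_pos n with h | h
  · rw [h, Nat.cast_zero, Real.zero_rpow hδ.ne'] at hpn
    have : (0 : ℝ) ≤ p := Nat.cast_nonneg _
    linarith
  · rw [← hf n h i] at hdvd
    have := hA n hn i p hp (Int.natCast_dvd_natCast.1 hdvd)
    linarith

/-- the almost prime set -/
def BS (r : ℕ) : Set ℕ :=
  {n | 1 ≤ n ∧ ∀ i, ArithmeticFunction.cardFactors (f n i) ≤ r ∧ ∀ p : ℕ, p.Prime → p ∣ f n i → (n : ℝ) ^ (1 / (r : ℝ)) ≤ p}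

theorem bs_many (hf : ∀ n : ℕ, 1 ≤ n → ∀ i, ((f n i : ℕ) : ℤ) = a i * n + b i)
    (hadm : ∀ p : ℕ, p.Prime → ∃ n : ℤ, ∀ i, ¬ (p : ℤ) ∣ a i * n + b i) :
    ∃ r : ℕ, 1 ≤ r ∧ Many g (BS f r) := by
  classical
  obtain ⟨r, hr, c, hc, h⟩ := lin_almost a b hadm
  refine ⟨r, hr, ?_⟩
  rw [many_iff]
  refine ⟨c, hc, h.mono (fun X hX => hX.trans ?_)⟩
  apply Nat.cast_le.2
  apply card_le_card
  intro n hn
  rw [mem_filter, mem_Icc] at hn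
  rw [mem_filter, mem_Icc]
  refine ⟨hn.1, hn.1.1, fun i => ?_⟩
  obtain ⟨h1, h2⟩ := hn.2 i
  rw [← hf n hn.1.1 i] at h1 h2
  rw [Int.natAbs_natCast] at h1
  exact ⟨h1, fun p hp hdvd => h2 p hp (Int.natCast_dvd_natCast.2 hdvd)⟩

/-- the package for the gaps -/
theorem pack_gaps (hg : 1 ≤ g) (ha : ∀ i, 0 < a i) (hne : ∀ i j, i ≠ j → a i * b j ≠ a j * b i)
    (hadm : ∀ p : ℕ, p.Prime → ∃ n : ℤ, ∀ i, ¬ (p : ℤ) ∣ a i * n + b i)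
    (hf : ∀ n : ℕ, 1 ≤ n → ∀ i, ((f n i : ℕ) : ℤ) = a i * n + b i) :
    (∀ A : Set ℕ, ∀ δ : ℝ, 0 < δ → (∀ n ∈ A, ∀ i, ∀ p : ℕ, p.Prime → p ∣ f n i → (n : ℝ) ^ δ ≤ p) → Many g A →
      ∀ m : ℕ, 1 ≤ m → 0 < volume {t : Fin m → ℝ | MapClusterPt t atTop (gapv g A m)}) ∧
    ∃ r : ℕ, 1 ≤ r ∧ Many g (BS f r) ∧
      ∀ m : ℕ, 1 ≤ m → 0 < volume {t : Fin m → ℝ | MapClusterPt t atTop (gapv g (BS f r) m)} := by
  have h1 : ∀ A : Set ℕ, ∀ δ : ℝ, 0 < δ → (∀ n ∈ A, ∀ i, ∀ p : ℕ, p.Prime → p ∣ f n i → (n : ℝ) ^ δ ≤ p) → Many g A →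
      ∀ m : ℕ, 1 ≤ m → 0 < volume {t : Fin m → ℝ | MapClusterPt t atTop (gapv g A m)} := by
    intro A δ hδ hA hM m hm
    rw [many_iff] at hM
    obtain ⟨c, hc, hlow⟩ := hM
    exact lin_main hg a b ha hne hadm δ hδ A (f_dvd a b f hf A δ hδ hA) c hc hlow m hm
  refine ⟨h1, ?_⟩
  obtain ⟨r, hr, hM⟩ := bs_many a b f hf hadm
  have hr0 : (0 : ℝ) < 1 / r := by
    have : (0 : ℝ) < r := by exact_mod_cast hr
    positivity
  exact ⟨r, hr, hM, h1 _ _ hr0 (fun n hn i p hp hd => (hn.2 i).2 p hp hd) hM⟩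

/-- the number of the quadruples of indices below `N` with equal sums -/
noncomputable def energyN (A : Set ℕ) (N : ℕ) : ℕ :=
  (((range N ×ˢ range N) ×ˢ (range N ×ˢ range N)).filter
    (fun p => Nat.nth (· ∈ A) p.1.1 + Nat.nth (· ∈ A) p.1.2 =
      Nat.nth (· ∈ A) p.2.1 + Nat.nth (· ∈ A) p.2.2)).card

/-- the package for the pair correlations -/
theorem pack_ppc (hg : 2 ≤ g) (ha : ∀ i, 0 < a i) (hne : ∀ i j, i ≠ j → a i * b j ≠ a j * b i)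
    (hadm : ∀ p : ℕ, p.Prime → ∃ n : ℤ, ∀ i, ¬ (p : ℤ) ∣ a i * n + b i)
    (hf : ∀ n : ℕ, 1 ≤ n → ∀ i, ((f n i : ℕ) : ℤ) = a i * n + b i) :
    (∀ A : Set ℕ, ∀ δ : ℝ, 0 < δ → (∀ n ∈ A, ∀ i, ∀ p : ℕ, p.Prime → p ∣ f n i → (n : ℝ) ^ δ ≤ p) → Many g A →
      (∃ C : ℝ, 0 < C ∧ ∀ᶠ N : ℕ in atTop, (energyN A N : ℝ) ≤ C * ((N : ℝ) ^ 3 / Real.log N ^ g)) ∧
      ∀ᵐ α : ℝ, PPC A α) ∧
    ∃ r : ℕ, 1 ≤ r ∧ Many g (BS f r) ∧ ∀ᵐ α : ℝ, PPC (BS f r) α := by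
  classical
  have h1 : ∀ A : Set ℕ, ∀ δ : ℝ, 0 < δ → (∀ n ∈ A, ∀ i, ∀ p : ℕ, p.Prime → p ∣ f n i → (n : ℝ) ^ δ ≤ p) → Many g A →
      (∃ C : ℝ, 0 < C ∧ ∀ᶠ N : ℕ in atTop, (energyN A N : ℝ) ≤ C * ((N : ℝ) ^ 3 / Real.log N ^ g)) ∧
      ∀ᵐ α : ℝ, PPC A α := by
    intro A δ hδ hA hM
    rw [many_iff] at hM
    obtain ⟨c, hc, hlow⟩ := hM
    refine ⟨?_, lin_ppc hg a b ha hne hadm δ hδ A (f_dvd a b f hf A δ hδ hA) c hc hlow⟩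
    obtain ⟨-, C, hC, h⟩ := lin_energy (by omega) a b ha hne hadm δ hδ A (f_dvd a b f hf A δ hδ hA) c hc hlow
    refine ⟨C, hC, h.mono (fun N hN => ?_)⟩
    refine le_trans (le_of_eq ?_) hN
    unfold energyN
    congr 2
    apply filter_congr
    intro p _
    exact_mod_cast Iff.rfl
  refine ⟨h1, ?_⟩
  obtain ⟨r, hr, hM⟩ := bs_many a b f hf hadm
  have hr0 : (0 : ℝ) < 1 / r := by
    have : (0 : ℝ) < r := by exact_mod_cast hr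
    positivity
  exact ⟨r, hr, hM, (h1 _ _ hr0 (fun n hn i p hp hd => (hn.2 i).2 p hp hd) hM).2⟩

end

end Pool.Agent.X69.Ric
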