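import Pool.Agent.X69.Ric.PackR
import Pool.Agent.X69.Ric.Pack
import Pool.Agent.TH977.PW.Final

/-!
# The irreducible polynomials: the statements for the results
-/

set_option autoImplicit false

namespace Pool.Agent.X69.Ric

open Filter Topology Finset MeasureTheory
open Pool.Agent.Y843.HS
open Pool.Agent.X26.GP (Zf mem_Zf_mod Zf_lt Zf_card_le Zf_card_lt NF PX PX_eq)

theorem mem_filt {α : Type} (P : α → Prop) (inst : DecidablePred P) (S : Finset α) (x : α) :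
    x ∈ @Finset.filter α P inst S ↔ x ∈ S ∧ P x := @Finset.mem_filter α P inst S x

theorem irr_right (f : Polynomial ℤ) (hf : Irreducible f) (hd : 0 < f.natDegree)
    (hadm : ∀ p : ℕ, p.Prime → ∃ n : ℤ, ¬ (p : ℤ) ∣ f.eval n)
    (δ θ c : ℝ) (hδ : 0 < δ) (hθ : 0 < θ) (hc : 0 < c) (m : ℕ) (hm : 1 ≤ m) :
    ∃ K : ℝ, 0 < K ∧ ∃ κ : ℝ, 0 < κ ∧ ∀ᶠ X : ℕ in atTop, ∀ Z Y : ℕ, (X : ℝ) ^ θ ≤ Y →
      ∀ A : Set ℕ, A ⊆ Set.Ioc Z (Z + Y) → (∀ n ∈ A, ∀ p : ℕ, p.Prime → (p : ℤ) ∣ f.eval (n : ℤ) → (X : ℝ) ^ δ ≤ p) →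
      c * Y / Real.log X ≤ (A.ncard : ℝ) →
      κ * Real.log X ^ m ≤ (({h : Fin m → ℕ | (∀ i, 0 < h i ∧ (h i : ℝ) ≤ K * Real.log X) ∧
        κ * Y / Real.log X ^ (m + 1) ≤ (({n | n ∈ A ∧ NG A h n}.ncard : ℕ) : ℝ)}.ncard : ℕ) : ℝ) := by
  obtain ⟨C₀, hC₀, hV⟩ := PX_irr f hf hd
  obtain ⟨R, hR0, hR⟩ := coll_poly f hf hd
  obtain ⟨K, hK, κ, hκ, h⟩ := right_pack f hadm 1 le_rfl C₀ hC₀ (by simpa using hV) δ hδ θ hθ R
    (by
      intro h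
      apply hR0 1 one_ne_zero
      rw [h]
      simp)
    (fun p _ x h h1 h2 => hR p x h h1 h2) 0 (fun h hh => hR0 h (by exact_mod_cast hh.ne'))
    (by
      intro θ' _ ε hε
      filter_upwards [(LL_tendsto 1 le_rfl).eventually_gt_atTop 0] with T hT Y H _ A _
      refine (Nat.cast_nonpos.2 ?_).trans (by positivity)
      apply Finset.card_eq_zero.2
      apply Finset.eq_empty_of_forall_notMem
      intro n hn
      obtain ⟨_, _, d, hd, _⟩ := (mem_filt _ _ _ _).1 hn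
      rw [mem_Icc] at hd
      omega) m hm c hc
  refine ⟨K, hK, κ, hκ, ?_⟩
  filter_upwards [h] with X hX Z Y hXY A hA hRT hlow
  have h1 := hX Z Y hXY A hA (by
    intro n hn p hp hlt hdvd
    exact absurd (hRT n hn p hp hdvd) (not_le.2 hlt)) (by simpa using hlow)
  simpa using h1

theorem irr_gaps (f : Polynomial ℤ) (hf : Irreducible f) (hd : 0 < f.natDegree)
    (hadm : ∀ p : ℕ, p.Prime → ∃ n : ℤ, ¬ (p : ℤ) ∣ f.eval n) (A : Set ℕ) (δ : ℝ) (hδ : 0 < δ)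
    (hA : ∀ n ∈ A, ∀ p : ℕ, p.Prime → (p : ℤ) ∣ f.eval (n : ℤ) → (n : ℝ) ^ δ ≤ p) (hM : Many 1 A)
    (m : ℕ) (hm : 1 ≤ m) : 0 < volume {t : Fin m → ℝ | MapClusterPt t atTop (gapv 1 A m)} := by
  classical
  obtain ⟨C₀, hC₀, hV⟩ := PX_irr f hf hd
  obtain ⟨R, hR0, hR⟩ := coll_poly f hf hd
  obtain ⟨c, hc, hlow⟩ := (many_iff 1 A).1 hM
  exact main f hadm 1 le_rfl C₀ hC₀ (by simpa using hV) R (by
      intro h
      apply hR0 1 one_ne_zero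
      rw [h]
      simp) (fun p _ x h h1 h2 => hR p x h h1 h2) (fun h hh h0 => absurd h0 (hR0 h (by exact_mod_cast (by omega : h ≠ 0))))
      δ hδ A (by
        intro n hn p hp hlt hdvd
        exact absurd (hA n hn p hp hdvd) (not_le.2 hlt)) c hc hlow m hm

theorem irr_almost (f : Polynomial ℤ) (hf : Irreducible f) (hd : 0 < f.natDegree) (hl : 0 < f.leadingCoeff)
    (hadm : ∀ p : ℕ, p.Prime → ∃ n : ℤ, ¬ (p : ℤ) ∣ f.eval n) (θ : ℝ) (hθ : 0 < θ) (hθ1 : θ ≤ 1) :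
    ∃ r₀ : ℕ, 2 ≤ r₀ ∧ ∀ r : ℕ, r₀ ≤ r → ∃ κ : ℝ, 0 < κ ∧ ∀ᶠ X : ℕ in atTop, ∀ Y : ℕ, (X : ℝ) ^ θ ≤ Y → Y ≤ X →
      κ * Y / Real.log X ≤ ((({n : ℕ | n ∈ Set.Ioc X (X + Y) ∧ ArithmeticFunction.cardFactors (f.eval (n : ℤ)).natAbs ≤ r ∧
        ∀ p : ℕ, p.Prime → (p : ℤ) ∣ f.eval (n : ℤ) → (n : ℝ) ^ (1 / (r : ℝ)) < p}).ncard : ℕ) : ℝ) := by
  classical
  have hadm' : ∀ p : ℕ, p.Prime → ∃ n : ℕ, ¬ (p : ℤ) ∣ f.eval (n : ℤ) := by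
    intro p hp
    obtain ⟨n, hn⟩ := hadm p hp
    have hpz : (p : ℤ) ≠ 0 := by exact_mod_cast hp.ne_zero
    refine ⟨(n % (p : ℤ)).toNat, ?_⟩
    have h1 : (((n % (p : ℤ)).toNat : ℕ) : ℤ) = n % p := Int.toNat_of_nonneg (Int.emod_nonneg _ hpz)
    intro h2
    apply hn
    refine (Pool.Agent.X26.GP.dvd_eval_iff ?_).2 h2
    rw [h1]
    exact Int.dvd_self_sub_emod
  obtain ⟨r₀, hr₀, h⟩ := Pool.Agent.TH977.PW.final (ι := Unit) (fun _ => f)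
    ⟨fun _ => hf, fun _ => hd, fun _ => hl, Function.injective_of_subsingleton _, fun p hp => by
      obtain ⟨n, hn⟩ := hadm' p hp
      exact ⟨n, fun _ => hn⟩⟩
    (fun r => {n | Pool.Agent.TH977.PW.Rough (fun _ : Unit => f) r n})
    (fun r => {n | ArithmeticFunction.cardFactors (f.eval (n : ℤ)).natAbs ≤ r ∧
        ∀ p : ℕ, p.Prime → (p : ℤ) ∣ f.eval (n : ℤ) → (n : ℝ) ^ (1 / (r : ℝ)) < p}) 1 (by simp)
    (fun r n _ h => h) (fun r n _ h1 h2 => ⟨by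
      rw [ArithmeticFunction.cardFactors_apply]
      exact h2 (), fun p hp hdvd => h1 () p hp hdvd⟩) θ hθ hθ1
  refine ⟨r₀, hr₀, fun r hr => ?_⟩
  obtain ⟨κ, hκ, h1⟩ := (h r hr).1
  refine ⟨κ, hκ, ?_⟩
  filter_upwards [h1] with X hX Y hXY hYX
  have h2 := hX Y hXY hYX
  rw [pow_one] at h2
  refine h2.trans (le_of_eq ?_)
  unfold Pool.Agent.TH977.PW.N
  rw [← Set.ncard_coe_finset]
  congr 2
  ext n
  constructor
  · intro h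
    have h3 := (mem_filt _ _ _ _).1 (Finset.mem_coe.1 h)
    exact ⟨mem_Ioc.1 h3.1, h3.2⟩
  · intro h
    exact Finset.mem_coe.2 ((mem_filt _ _ _ _).2 ⟨mem_Ioc.2 h.1, h.2⟩)

end Pool.Agent.X69.Ric
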