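import Pool.Agent.X69.Ric.PackV

/-!
# Packaged statements for prime arguments
-/

set_option autoImplicit false

namespace Pool.Agent.X69.Ric

open Filter Topology Finset Polynomial MeasureTheory
open Pool.Agent.W123.RU.Poly (Sys)

variable {g : ℕ}

/-- the conditions on a system of polynomials `F` with the values `v`, to be used at prime arguments -/
structure PSys (F : Fin g → ℤ[X]) (v : ℕ → Fin g → ℕ) : Prop where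
  irr : ∀ i, Irreducible (F i)
  deg : ∀ i, 0 < (F i).natDegree
  lead : ∀ i, 0 < (F i).leadingCoeff
  inj : Function.Injective F
  neX : ∀ i, F i ≠ X
  adm : ∀ p : ℕ, p.Prime → ∃ m : ℕ, ¬ p ∣ m ∧ ∀ i, ¬ (p : ℤ) ∣ (F i).eval (m : ℤ)
  val : ∀ n : ℕ, 1 ≤ n → ∀ i, (F i).eval (n : ℤ) = (v n i : ℤ)

variable {F : Fin g → ℤ[X]} {v : ℕ → Fin g → ℕ}

theorem PSys.sys (H : PSys F v) : Sys (cX F) := cX_sys F H.irr H.deg H.lead H.inj H.neX H.adm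

theorem PSys.cond (H : PSys F v) {n q : ℕ} {y : ℝ} (hn : 1 ≤ n) (h : (q ∣ n ∨ ∃ i, q ∣ v n i) → y ≤ q) :
    ∀ i, (q : ℤ) ∣ (cX F i).eval (n : ℤ) → y ≤ q := by
  intro i
  refine Fin.cases ?_ (fun i => ?_) i
  · intro hd
    have h1 : (q : ℤ) ∣ (X : ℤ[X]).eval (n : ℤ) := hd
    rw [eval_X] at h1
    exact h (Or.inl (Int.natCast_dvd_natCast.1 h1))
  · intro hd
    have h1 : (q : ℤ) ∣ (F i).eval (n : ℤ) := hd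
    rw [H.val n hn i] at h1
    exact h (Or.inr ⟨i, Int.natCast_dvd_natCast.1 h1⟩)


theorem PSys.condA (H : PSys F v) (A : Set ℕ) (δ : ℝ) (hδ : 0 < δ)
    (hA : ∀ n ∈ A, ∀ q : ℕ, q.Prime → (q ∣ n ∨ ∃ i, q ∣ v n i) → (n : ℝ) ^ δ ≤ q) :
    ∀ n ∈ A, ∀ i, ∀ p : ℕ, p.Prime → (p : ℤ) ∣ (cX F i).eval (n : ℤ) → (n : ℝ) ^ δ ≤ p := by
  intro n hn i p hp hd
  rcases Nat.eq_zero_or_pos n with h0 | h1
  · rw [h0, Nat.cast_zero, Real.zero_rpow hδ.ne']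
    positivity
  · exact H.cond h1 (fun h => hA n hn p hp h) i hd

theorem PSys.ppc (H : PSys F v) (hg : 1 ≤ g) (A : Set ℕ) (δ : ℝ) (hδ : 0 < δ)
    (hA : ∀ n ∈ A, ∀ q : ℕ, q.Prime → (q ∣ n ∨ ∃ i, q ∣ v n i) → (n : ℝ) ^ δ ≤ q) (hM : Many (g + 1) A) :
    (∃ C : ℝ, 0 < C ∧ ∀ᶠ N : ℕ in atTop, (energyN A N : ℝ) ≤ C * ((N : ℝ) ^ 3 / Real.log N ^ (g + 1))) ∧
      ∀ᵐ α : ℝ, PPC A α :=
  sys_ppc (cX F) (by omega) H.sys A δ hδ (H.condA A δ hδ hA) hM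

theorem PSys.gaps (H : PSys F v) (A : Set ℕ) (δ : ℝ) (hδ : 0 < δ)
    (hA : ∀ n ∈ A, ∀ q : ℕ, q.Prime → (q ∣ n ∨ ∃ i, q ∣ v n i) → (n : ℝ) ^ δ ≤ q) (hM : Many (g + 1) A)
    (m : ℕ) (hm : 1 ≤ m) : 0 < volume {t : Fin m → ℝ | MapClusterPt t atTop (gapv (g + 1) A m)} :=
  sys_gaps (cX F) (by omega) H.sys A δ hδ (H.condA A δ hδ hA) hM m hm

theorem PSys.frq (H : PSys F v) (δ θ c : ℝ) (hδ : 0 < δ) (hθ : 0 < θ) (hc : 0 < c) (m : ℕ) (hm : 1 ≤ m) :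
    ∃ K : ℝ, 0 < K ∧ ∃ κ : ℝ, 0 < κ ∧ ∀ᶠ X : ℕ in atTop, ∀ Z Y : ℕ, (X : ℝ) ^ θ ≤ Y →
      ∀ A : Set ℕ,
      (∀ n ∈ A, n ∈ Set.Ioc Z (Z + Y) → ∀ q : ℕ, q.Prime → (q ∣ n ∨ ∃ i, q ∣ v n i) → (X : ℝ) ^ δ ≤ q) →
      c * Y / Real.log X ^ (g + 1) ≤ ((A ∩ Set.Ioc Z (Z + Y)).ncard : ℝ) →
      κ * Real.log X ^ ((g + 1) * m) ≤ (Pool.Agent.X69.Ric.frq (g + 1) A X Z Y m K κ : ℝ) := by
  obtain ⟨K, hK, κ, hκ, h⟩ := sys_frq (cX F) (by omega) H.sys δ θ c hδ hθ hc m hm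
  refine ⟨K, hK, κ, hκ, ?_⟩
  filter_upwards [h] with X hX Z Y hXY A hA hlow
  refine hX Z Y hXY A (fun n hn hnI i q hq hd => ?_) hlow
  have h1 : 1 ≤ n := by have := hnI.1; omega
  exact H.cond h1 (fun h => hA n hn hnI q hq h) i hd

theorem PSys.frqAl (H : PSys F v) (m : ℕ) (hm : 1 ≤ m) :
    ∃ r₀ : ℕ, 2 ≤ r₀ ∧ ∀ r : ℕ, r₀ ≤ r → ∃ K : ℝ, 0 < K ∧ ∃ κ : ℝ, 0 < κ ∧ ∀ᶠ X : ℕ in atTop,
      κ * Real.log X ^ ((g + 1) * m) ≤ (Pool.Agent.X69.Ric.frq (g + 1) (AVp v r) X X X m K κ : ℝ) :=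
  v_prime F v H.irr H.deg H.lead H.inj H.neX H.adm H.val m hm

theorem PSys.many (H : PSys F v) : ∃ r₀ : ℕ, 2 ≤ r₀ ∧ ∀ r : ℕ, r₀ ≤ r → Many (g + 1) (AVp v r) :=
  v_prime_many F v H.irr H.deg H.lead H.inj H.neX H.adm H.val

theorem AVp_rough (r : ℕ) (hr : 2 ≤ r) : ∀ p ∈ AVp v r, ∀ q : ℕ, q.Prime → (q ∣ p ∨ ∃ i, q ∣ v p i) →
    (p : ℝ) ^ (1 / (r : ℝ)) ≤ q := by
  rintro p ⟨hp, h2⟩ q hq (h | ⟨i, h⟩)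
  · exact (Pool.Agent.TH977.PW.rpow_lt_dvd r p q hr hp hq h).le
  · exact ((h2 i).2 q hq h).le

/-- energy and pair correlations, unconditional part -/
theorem PSys.ppcAl (H : PSys F v) (hg : 1 ≤ g) : ∃ r₀ : ℕ, 2 ≤ r₀ ∧ ∀ r : ℕ, r₀ ≤ r → Many (g + 1) (AVp v r) ∧
    (∃ C : ℝ, 0 < C ∧ ∀ᶠ N : ℕ in atTop, (energyN (AVp v r) N : ℝ) ≤ C * ((N : ℝ) ^ 3 / Real.log N ^ (g + 1))) ∧
      ∀ᵐ α : ℝ, PPC (AVp v r) α := by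
  obtain ⟨r₀, hr₀, h⟩ := H.many
  refine ⟨r₀, hr₀, fun r hr => ⟨h r hr, ?_⟩⟩
  have hr0 : (0 : ℝ) < 1 / r := by
    have : (0 : ℝ) < r := by exact_mod_cast (by omega : 0 < r)
    positivity
  exact H.ppc hg (AVp v r) (1 / r) hr0 (AVp_rough r (hr₀.trans hr)) (h r hr)

theorem PSys.gapsAl (H : PSys F v) : ∃ r₀ : ℕ, 2 ≤ r₀ ∧ ∀ r : ℕ, r₀ ≤ r → Many (g + 1) (AVp v r) ∧
    ∀ m : ℕ, 1 ≤ m → 0 < volume {t : Fin m → ℝ | MapClusterPt t atTop (gapv (g + 1) (AVp v r) m)} := by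
  obtain ⟨r₀, hr₀, h⟩ := H.many
  refine ⟨r₀, hr₀, fun r hr => ⟨h r hr, fun m hm => ?_⟩⟩
  have hr0 : (0 : ℝ) < 1 / r := by
    have : (0 : ℝ) < r := by exact_mod_cast (by omega : 0 < r)
    positivity
  exact H.gaps (AVp v r) (1 / r) hr0 (AVp_rough r (hr₀.trans hr)) (h r hr) m hm

end Pool.Agent.X69.Ric
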