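import Pool.Agent.X69.Ric.Right
import Pool.Agent.X69.Ric.CollPoly
import Pool.Agent.X69.Ric.Main

/-!
# The vectors of gaps in short intervals: the statements for the results
-/

set_option autoImplicit false

namespace Pool.Agent.X69.Ric

open Filter Topology Finset
open Pool.Agent.Y843.HS
open Pool.Agent.X26.GP (Zf mem_Zf_mod Zf_lt Zf_card_le Zf_card_lt NF PX PX_eq)

theorem parts_eq {m : ℕ} (h : Fin m → ℕ) (j : ℕ) : parts h j = ∑ i ∈ (univ : Finset (Fin m)).filter (fun i : Fin m => (i : ℕ) < j), h i := by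
  induction j with
  | zero => simp [parts_zero]
  | succ j ih =>
    by_cases hj : j < m
    · rw [parts_succ h j hj, ih]
      have h1 : (univ.filter (fun i : Fin m => (i : ℕ) < j + 1)) = insert ⟨j, hj⟩ (univ.filter (fun i : Fin m => (i : ℕ) < j)) := by
        ext i
        rw [mem_insert, mem_filter, mem_filter]
        constructor
        · rintro ⟨h1, h2⟩
          rcases Nat.lt_succ_iff_lt_or_eq.1 h2 with h3 | h3
          · exact Or.inr ⟨h1, h3⟩
          · exact Or.inl (Fin.ext h3)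
        · rintro (h1 | ⟨h1, h2⟩)
          · rw [h1]
            exact ⟨mem_univ _, Nat.lt_succ_self _⟩
          · exact ⟨h1, by omega⟩
      rw [h1, sum_insert (by simp)]
      ring
    · have h1 : parts h (j + 1) = parts h j := by
        unfold parts
        rw [sum_range_succ, dif_neg hj, add_zero]
      rw [h1, ih]
      congr 1
      ext i
      rw [mem_filter, mem_filter]
      have := i.2
      constructor
      · rintro ⟨h1, h2⟩
        exact ⟨h1, by omega⟩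
      · rintro ⟨h1, h2⟩
        exact ⟨h1, by omega⟩

theorem parts_all {m : ℕ} (h : Fin m → ℕ) : parts h m = ∑ i, h i := by
  rw [parts_eq]
  congr 1
  ext i
  simp

/-- `h` is the vector of the `m` gaps of `A` that follow `n` -/
def NG (A : Set ℕ) {m : ℕ} (h : Fin m → ℕ) (n : ℕ) : Prop :=
  (∀ i, 0 < h i) ∧ ∀ x, (x ∈ A ∧ n ≤ x ∧ x ≤ n + ∑ i, h i) ↔ ∃ j : ℕ, j ≤ m ∧ x = n + ∑ i ∈ (univ : Finset (Fin m)).filter (fun i : Fin m => (i : ℕ) < j), h i

theorem NG_iff {A : Set ℕ} {m : ℕ} {h : Fin m → ℕ} (hh : ∀ i, 0 < h i) (n : ℕ) : NG A h n ↔ GapAt A h n := by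
  unfold NG GapAt
  rw [← parts_all]
  simp only [← parts_eq]
  exact ⟨fun h1 => h1.2, fun h1 => ⟨hh, h1⟩⟩

/-- **the gap vectors of the right frequency** -/
theorem right_pack (F : Polynomial ℤ) (hF : NF F) (g : ℕ) (hg : 1 ≤ g) (C₀ : ℝ) (hC₀ : 0 < C₀)
    (hV : ∀ z : ℕ, 3 ≤ z → PX (fun q => (Zf F q).card) z ≤ C₀ / Real.log z ^ g)
    (δ : ℝ) (hδ : 0 < δ) (θ : ℝ) (hθ : 0 < θ) (M : Polynomial ℤ) (hM0 : M ≠ 0)
    (hM : ∀ p : ℕ, p.Prime → ∀ x h : ℤ, (p : ℤ) ∣ F.eval x → (p : ℤ) ∣ F.eval (x + h) → (p : ℤ) ∣ M.eval h)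
    (e : ℕ) (he : ∀ h : ℕ, e < h → M.eval (h : ℤ) ≠ 0)
    (hsm : ∀ θ' : ℝ, 0 < θ' → ∀ ε : ℝ, 0 < ε → ∀ᶠ T : ℕ in atTop, ∀ Y H : ℕ, (T : ℝ) ^ (2 * θ') ≤ H → ∀ A : Set ℕ, RT F δ T A →
      (((@Finset.filter ℕ (fun n => n ∈ A ∧ ∃ d ∈ Icc 1 e, n + d ∈ A) (Classical.decPred _) (Ioc Y (Y + H)))).card : ℝ) ≤ ε * (H / LL g T))
    (m : ℕ) (hm : 1 ≤ m) (c : ℝ) (hc : 0 < c) :
    ∃ K : ℝ, 0 < K ∧ ∃ κ : ℝ, 0 < κ ∧ ∀ᶠ X : ℕ in atTop, ∀ Z Y : ℕ, (X : ℝ) ^ θ ≤ Y →
      ∀ A : Set ℕ, A ⊆ Set.Ioc Z (Z + Y) → RT F δ X A → c * Y / Real.log X ^ g ≤ (A.ncard : ℝ) →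
      κ * Real.log X ^ (g * m) ≤ (({h : Fin m → ℕ | (∀ i, 0 < h i ∧ (h i : ℝ) ≤ K * Real.log X ^ g) ∧
        κ * Y / Real.log X ^ (g * (m + 1)) ≤ (({n | n ∈ A ∧ NG A h n}.ncard : ℕ) : ℝ)}.ncard : ℕ) : ℝ) := by
  classical
  obtain ⟨W, hW, κ, hκ, hev⟩ := right F hF g hg C₀ hC₀ hV δ hδ (θ / 2) (by positivity) M hM0 hM e he (by
    intro ε hε
    filter_upwards [hsm (θ / 2) (by positivity) ε hε] with T hT Y H hH A hA
    refine le_trans (le_of_eq ?_) (hT Y H hH A hA)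
    congr!) m hm (c * 2 ^ g) (by positivity)
  refine ⟨W * 2 ^ g, by positivity, κ / (2 ^ g) ^ (m + 1), by positivity, ?_⟩
  filter_upwards [hev, eventually_ge_atTop 3] with X hX hX3
  intro Z Y hXY A hA hRT hlow
  have hXr : (3 : ℝ) ≤ X := by exact_mod_cast hX3
  have hlX : 0 < Real.log X := Real.log_pos (by linarith)
  have hL : LL g X = 2 ^ g * Real.log X ^ g := by
    unfold LL
    rw [Real.log_pow]
    push_cast
    rw [mul_pow]
  have hLpos : 0 < LL g X := by rw [hL]; positivity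
  have hAcard : A.ncard = ((Ioc Z (Z + Y)).filter (· ∈ A)).card := by
    rw [← Set.ncard_coe_finset]
    congr 1
    ext n
    rw [mem_coe, mem_filter, mem_Ioc]
    exact ⟨fun h => ⟨hA h, h⟩, fun h => h.2⟩
  have h1 := hX Z Y (by
    have : 2 * (θ / 2) = θ := by ring
    rw [this]
    exact hXY) A (fun n hn => hA hn) hRT (by
    rw [← hAcard]
    refine le_trans (le_of_eq ?_) hlow
    rw [hL]
    field_simp)
  set S : Set (Fin m → ℕ) := {h : Fin m → ℕ | (∀ i, 0 < h i ∧ (h i : ℝ) ≤ W * 2 ^ g * Real.log X ^ g) ∧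
        κ / (2 ^ g) ^ (m + 1) * Y / Real.log X ^ (g * (m + 1)) ≤ (({n | n ∈ A ∧ NG A h n}.ncard : ℕ) : ℝ)} with hS
  have hSfin : S.Finite := by
    apply Set.Finite.subset (Fintype.piFinset (fun _ : Fin m => Finset.range (⌊W * 2 ^ g * Real.log X ^ g⌋₊ + 1))).finite_toSet
    intro h hh
    rw [mem_coe, Fintype.mem_piFinset]
    intro i
    rw [mem_range]
    have := Nat.le_floor (hh.1 i).2
    omega
  have hsub : (((bx (m := m) e (fun _ => 0) (fun _ => W) (LL g X)).filter (fun h =>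
        κ * (Y / LL g X ^ (m + 1)) ≤ (((Ioc Z (Z + Y)).filter (fun n => n ∈ A ∧ GapAt A h n)).card : ℝ))) : Set (Fin m → ℕ)) ⊆ S := by
    intro h hh
    rw [mem_coe, mem_filter] at hh
    obtain ⟨hh1, hh2⟩ := hh
    unfold bx at hh1
    rw [Fintype.mem_piFinset] at hh1
    have hpos : ∀ i, 0 < h i := fun i => by
      have := (mem_Ioc.1 (hh1 i)).1
      omega
    refine ⟨fun i => ⟨hpos i, ?_⟩, ?_⟩
    · have h2 := (mem_Ioc.1 (hh1 i)).2
      have h3 := (Nat.le_floor_iff (by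
        simp only [zero_add]
        positivity)).1 h2
      rw [hL, zero_add] at h3
      linarith
    · have h2 : ({n | n ∈ A ∧ NG A h n} : Set ℕ).ncard = ((Ioc Z (Z + Y)).filter (fun n => n ∈ A ∧ GapAt A h n)).card := by
        rw [← Set.ncard_coe_finset]
        congr 1
        ext n
        rw [mem_coe, mem_filter, mem_Ioc, Set.mem_ofPred_eq, NG_iff hpos]
        exact ⟨fun h => ⟨hA h.1, h⟩, fun h => h.2⟩
      rw [h2]
      refine le_trans (le_of_eq ?_) hh2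
      rw [hL, mul_pow, ← pow_mul (Real.log X), ← pow_mul]
      field_simp
  have h2 := Set.ncard_le_ncard hsub hSfin
  rw [Set.ncard_coe_finset] at h2
  have h3 : κ / (2 ^ g) ^ (m + 1) * Real.log X ^ (g * m) ≤ κ * LL g X ^ m := by
    rw [hL, mul_pow, ← pow_mul (Real.log X)]
    have h4 : (1 : ℝ) ≤ (2 ^ g) ^ (m + 1) := one_le_pow₀ (one_le_pow₀ (by norm_num))
    have h5 : (1 : ℝ) ≤ (2 ^ g) ^ m := one_le_pow₀ (one_le_pow₀ (by norm_num))
    calc κ / (2 ^ g) ^ (m + 1) * Real.log X ^ (g * m) ≤ κ * Real.log X ^ (g * m) := by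
          apply mul_le_mul_of_nonneg_right _ (by positivity)
          exact div_le_self hκ.le h4
      _ ≤ κ * ((2 ^ g) ^ m * Real.log X ^ (g * m)) := by
          apply mul_le_mul_of_nonneg_left _ hκ.le
          exact le_mul_of_one_le_left (by positivity) h5
  refine h3.trans (h1.trans ?_)
  exact_mod_cast h2

end Pool.Agent.X69.Ric
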