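import Pool.Agent.X69.Ric.SysA

/-!
# Packaged statements for systems of polynomials
-/

set_option autoImplicit false

namespace Pool.Agent.X69.Ric

open Filter Topology Finset Polynomial MeasureTheory
open Pool.Agent.W123.RU.Poly (Sys)

/-- the number of the elements of `A` in `(Z, Z + Y]` after which `h` is the vector of the next `m` gaps -/
noncomputable def fq (A : Set ℕ) (Z Y : ℕ) {m : ℕ} (h : Fin m → ℕ) : ℕ :=
  {n | n ∈ A ∧ n ∈ Set.Ioc Z (Z + Y) ∧ NG A h n}.ncard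

/-- the number of the frequent vectors -/
noncomputable def frq (g : ℕ) (A : Set ℕ) (X Z Y m : ℕ) (K κ : ℝ) : ℕ :=
  {h : Fin m → ℕ | (∀ i, 0 < h i ∧ (h i : ℝ) ≤ K * Real.log X ^ g) ∧
    κ * Y / Real.log X ^ (g * (m + 1)) ≤ (fq A Z Y h : ℝ)}.ncard

theorem NG_end {A : Set ℕ} {m : ℕ} {h : Fin m → ℕ} {n : ℕ} (hn : NG A h n) : n + ∑ i, h i ∈ A := by
  refine ((hn.2 _).2 ⟨m, le_rfl, ?_⟩).1
  congr 1
  refine Finset.sum_congr ?_ (fun _ _ => rfl)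
  ext i
  simp

theorem NG_inter {A : Set ℕ} {Z Y m : ℕ} {h : Fin m → ℕ} {n : ℕ} (hnA : n ∈ Set.Ioc Z (Z + Y))
    (hn : NG (A ∩ Set.Ioc Z (Z + Y)) h n) : NG A h n := by
  have hend := NG_end hn
  refine ⟨hn.1, fun x => ?_⟩
  rw [← hn.2 x]
  constructor
  · rintro ⟨h1, h2, h3⟩
    exact ⟨⟨h1, lt_of_lt_of_le hnA.1 h2, h3.trans hend.2.2⟩, h2, h3⟩
  · rintro ⟨h1, h2, h3⟩
    exact ⟨h1.1, h2, h3⟩

theorem frq_inter (g : ℕ) (A : Set ℕ) (X Z Y m : ℕ) (K κ : ℝ) :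
    ({h : Fin m → ℕ | (∀ i, 0 < h i ∧ (h i : ℝ) ≤ K * Real.log X ^ g) ∧
        κ * Y / Real.log X ^ (g * (m + 1)) ≤ (({n | n ∈ A ∩ Set.Ioc Z (Z + Y) ∧ NG (A ∩ Set.Ioc Z (Z + Y)) h n}.ncard : ℕ) : ℝ)}.ncard : ℕ) ≤
      frq g A X Z Y m K κ := by
  unfold frq
  apply Set.ncard_le_ncard
  · intro h hh
    refine ⟨hh.1, hh.2.trans ?_⟩
    unfold fq
    apply Nat.cast_le.2
    apply Set.ncard_le_ncard
    · intro n hn
      exact ⟨hn.1.1, hn.1.2, NG_inter hn.1.2 hn.2⟩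
    · exact (Set.finite_Ioc Z (Z + Y)).subset (fun n hn => hn.2.1)
  · refine (Set.Finite.pi' (fun _ : Fin m => Set.finite_Icc 0 ⌊K * Real.log X ^ g⌋₊)).subset ?_
    intro h hh i
    exact ⟨Nat.zero_le _, Nat.le_floor (hh.1 i).2⟩

variable {g : ℕ} (f : Fin g → ℤ[X])

/-- dense sets of rough values in short intervals -/
theorem sys_frq (hg : 1 ≤ g) (hf : Sys f) (δ θ c : ℝ) (hδ : 0 < δ) (hθ : 0 < θ) (hc : 0 < c) (m : ℕ) (hm : 1 ≤ m) :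
    ∃ K : ℝ, 0 < K ∧ ∃ κ : ℝ, 0 < κ ∧ ∀ᶠ X : ℕ in atTop, ∀ Z Y : ℕ, (X : ℝ) ^ θ ≤ Y →
      ∀ A : Set ℕ,
      (∀ n ∈ A, n ∈ Set.Ioc Z (Z + Y) → ∀ i, ∀ p : ℕ, p.Prime → (p : ℤ) ∣ (f i).eval (n : ℤ) → (X : ℝ) ^ δ ≤ p) →
      c * Y / Real.log X ^ g ≤ ((A ∩ Set.Ioc Z (Z + Y)).ncard : ℝ) →
      κ * Real.log X ^ (g * m) ≤ (frq g A X Z Y m K κ : ℝ) := by
  obtain ⟨K, hK, κ, hκ, h⟩ := sys_right f hg hf δ θ c hδ hθ hc m hm
  refine ⟨K, hK, κ, hκ, ?_⟩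
  filter_upwards [h] with X hX Z Y hXY A hA hlow
  have h1 := hX Z Y hXY (A ∩ Set.Ioc Z (Z + Y)) Set.inter_subset_right (fun n hn => hA n hn.1 hn.2) hlow
  refine h1.trans ?_
  exact_mod_cast frq_inter g A X Z Y m K κ

/-- almost prime values in short intervals -/
theorem sys_short (hg : 1 ≤ g) (hf : Sys f) (θ : ℝ) (hθ : 0 < θ) (hθ1 : θ ≤ 1) (m : ℕ) (hm : 1 ≤ m) :
    ∃ r₀ : ℕ, 2 ≤ r₀ ∧ ∀ r : ℕ, r₀ ≤ r → ∃ K : ℝ, 0 < K ∧ ∃ κ : ℝ, 0 < κ ∧ ∀ᶠ X : ℕ in atTop, ∀ Y : ℕ,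
      (X : ℝ) ^ θ ≤ Y → Y ≤ X → κ * Real.log X ^ (g * m) ≤ (frq g (AA f r) X X Y m K κ : ℝ) := by
  have : NeZero g := ⟨by omega⟩
  obtain ⟨r₀, hr₀, h⟩ := sys_almost_short f hf θ hθ hθ1
  refine ⟨r₀, hr₀, fun r hr => ?_⟩
  obtain ⟨c, hc, h1⟩ := h r hr
  have hr0 : (0 : ℝ) < 1 / r := by
    have : (0 : ℝ) < r := by exact_mod_cast (by omega : 0 < r)
    positivity
  obtain ⟨K, hK, κ, hκ, h2⟩ := sys_frq f hg hf (1 / r) θ c hr0 hθ hc m hm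
  refine ⟨K, hK, κ, hκ, ?_⟩
  filter_upwards [h1, h2] with X hX1 hX2 Y hXY hYX
  refine hX2 X Y hXY (AA f r) ?_ ?_
  · intro n hn hnI i p hp hd
    refine le_trans ?_ ((hn i).2 p hp hd).le
    apply Real.rpow_le_rpow (Nat.cast_nonneg _) _ hr0.le
    exact_mod_cast hnI.1.le
  · rw [Set.inter_comm]
    exact hX1 Y hXY hYX

/-- primes with almost prime values, dyadic intervals -/
theorem prime_frq (hirr : ∀ i, Irreducible (f i)) (hdeg : ∀ i, 0 < (f i).natDegree)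
    (hlead : ∀ i, 0 < (f i).leadingCoeff) (hinj : Function.Injective f) (hX : ∀ i, f i ≠ X)
    (hadm : ∀ p : ℕ, p.Prime → ∃ m : ℕ, ¬ p ∣ m ∧ ∀ i, ¬ (p : ℤ) ∣ (f i).eval (m : ℤ)) (m : ℕ) (hm : 1 ≤ m) :
    ∃ r₀ : ℕ, 2 ≤ r₀ ∧ ∀ r : ℕ, r₀ ≤ r → ∃ K : ℝ, 0 < K ∧ ∃ κ : ℝ, 0 < κ ∧ ∀ᶠ X : ℕ in atTop,
      κ * Real.log X ^ ((g + 1) * m) ≤ (frq (g + 1) (AP f r) X X X m K κ : ℝ) := by
  classical
  obtain ⟨r₀, hr₀, h⟩ := Pool.Agent.TH977.PW.final_prime f hirr hdeg hlead hinj hX hadm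
    (fun r => {n | Pool.Agent.TH977.PW.RoughX f r n}) (fun r => AP f r) (g + 1) (by simp)
    (fun r n _ h => h) (fun r n _ hp h1 h2 => ⟨hp, fun i => ⟨by
      rw [ArithmeticFunction.cardFactors_apply]
      exact h2 i, fun p hp hdvd => h1 i p hp hdvd⟩⟩) 1 one_pos le_rfl
  refine ⟨r₀, hr₀, fun r hr => ?_⟩
  obtain ⟨c, hc, h1⟩ := (h r hr).1
  have hr0 : (0 : ℝ) < 1 / r := by
    have : (0 : ℝ) < r := by exact_mod_cast (by omega : 0 < r)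
    positivity
  have hr1 : 1 / (r : ℝ) ≤ 1 := by
    have : (1 : ℝ) ≤ r := by exact_mod_cast (by omega : 1 ≤ r)
    rw [div_le_one (by linarith)]
    exact this
  obtain ⟨K, hK, κ, hκ, h2⟩ := sys_frq (cX f) (by omega) (cX_sys f hirr hdeg hlead hinj hX hadm) (1 / r) 1 c hr0 one_pos hc m hm
  refine ⟨K, hK, κ, hκ, ?_⟩
  filter_upwards [h1, h2, eventually_ge_atTop 1] with X hX1 hX2 hX3
  refine hX2 X X (by simp) (AP f r) ?_ ?_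
  · intro n hn hnI i p hp hd
    have hXr : (1 : ℝ) ≤ X := by exact_mod_cast hX3
    have hXn : (X : ℝ) ≤ n := by exact_mod_cast hnI.1.le
    revert hd
    refine Fin.cases ?_ (fun i => ?_) i
    · intro hd
      have h3 : (p : ℤ) ∣ (Polynomial.X : ℤ[X]).eval (n : ℤ) := hd
      rw [eval_X] at h3
      have h4 := (Nat.prime_dvd_prime_iff_eq hp hn.1).1 (Int.natCast_dvd_natCast.1 h3)
      rw [h4]
      calc (X : ℝ) ^ (1 / (r : ℝ)) ≤ (X : ℝ) ^ (1 : ℝ) := Real.rpow_le_rpow_of_exponent_le hXr hr1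
        _ = X := Real.rpow_one _
        _ ≤ n := hXn
    · intro hd
      have h3 : (p : ℤ) ∣ (f i).eval (n : ℤ) := hd
      refine le_trans ?_ ((hn.2 i).2 p hp h3).le
      exact Real.rpow_le_rpow (Nat.cast_nonneg _) hXn hr0.le
  · refine hX1.trans (le_of_eq ?_)
    unfold Pool.Agent.TH977.PW.N
    rw [← Set.ncard_coe_finset]
    congr 2
    ext n
    constructor
    · intro h
      have h3 := (mem_filt _ _ _ _).1 (Finset.mem_coe.1 h)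
      have h4 := mem_Ioc.1 h3.1
      exact ⟨h3.2, h4.1, by omega⟩
    · intro h
      have h4 := h.2
      exact Finset.mem_coe.2 ((mem_filt _ _ _ _).2 ⟨mem_Ioc.2 ⟨h4.1, by have := h4.2; omega⟩, h.1⟩)

end Pool.Agent.X69.Ric
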