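import Pool.Agent.X69.Ric.PackS
import Pool.Agent.TH977.PW.Inst

/-!
# Packaged statements for systems given by vectors of natural numbers
-/

set_option autoImplicit false

namespace Pool.Agent.X69.Ric

open Filter Topology Finset Polynomial MeasureTheory
open Pool.Agent.W123.RU.Poly (Sys)

variable {g : ℕ}

/-- all the entries have at most `r` prime factors, all larger than `n ^ (1 / r)` -/
def AV (v : ℕ → Fin g → ℕ) (r : ℕ) : Set ℕ :=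
  {n | ∀ i, ArithmeticFunction.cardFactors (v n i) ≤ r ∧
    ∀ p : ℕ, p.Prime → p ∣ v n i → (n : ℝ) ^ (1 / (r : ℝ)) < p}

/-- the primes among them -/
def AVp (v : ℕ → Fin g → ℕ) (r : ℕ) : Set ℕ := {n | n.Prime ∧ n ∈ AV v r}

variable (F : Fin g → ℤ[X]) (v : ℕ → Fin g → ℕ)

theorem AA_iff (hv : ∀ n : ℕ, 1 ≤ n → ∀ i, (F i).eval (n : ℤ) = (v n i : ℤ)) (r n : ℕ) (hn : 1 ≤ n) :
    n ∈ AA F r ↔ n ∈ AV v r := by
  unfold AA AV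
  simp only [Set.mem_ofPred_eq]
  refine forall_congr' fun i => ?_
  rw [hv n hn i, Int.natAbs_natCast]
  simp only [Int.natCast_dvd_natCast]

theorem frq_congr (k : ℕ) (A B : Set ℕ) (hAB : ∀ n, 1 ≤ n → (n ∈ A ↔ n ∈ B)) (X Z Y m : ℕ) (K κ : ℝ) :
    frq k A X Z Y m K κ = frq k B X Z Y m K κ := by
  unfold frq
  congr 1
  ext h
  simp only [Set.mem_ofPred_eq]
  have e : fq A Z Y h = fq B Z Y h := by
    unfold fq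
    congr 1
    ext n
    simp only [Set.mem_ofPred_eq]
    constructor
    · rintro ⟨h1, h2, h3⟩
      have hn : 1 ≤ n := by have := h2.1; omega
      refine ⟨(hAB n hn).1 h1, h2, h3.1, fun x => ?_⟩
      rw [← h3.2 x]
      constructor
      · rintro ⟨h4, h5, h6⟩
        exact ⟨(hAB x (by omega)).2 h4, h5, h6⟩
      · rintro ⟨h4, h5, h6⟩
        exact ⟨(hAB x (by omega)).1 h4, h5, h6⟩
    · rintro ⟨h1, h2, h3⟩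
      have hn : 1 ≤ n := by have := h2.1; omega
      refine ⟨(hAB n hn).2 h1, h2, h3.1, fun x => ?_⟩
      rw [← h3.2 x]
      constructor
      · rintro ⟨h4, h5, h6⟩
        exact ⟨(hAB x (by omega)).1 h4, h5, h6⟩
      · rintro ⟨h4, h5, h6⟩
        exact ⟨(hAB x (by omega)).2 h4, h5, h6⟩
  rw [e]

/-- dense sets of rough values -/
theorem v_frq (hg : 1 ≤ g) (hF : Sys F) (hv : ∀ n : ℕ, 1 ≤ n → ∀ i, (F i).eval (n : ℤ) = (v n i : ℤ))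
    (δ θ c : ℝ) (hδ : 0 < δ) (hθ : 0 < θ) (hc : 0 < c) (m : ℕ) (hm : 1 ≤ m) :
    ∃ K : ℝ, 0 < K ∧ ∃ κ : ℝ, 0 < κ ∧ ∀ᶠ X : ℕ in atTop, ∀ Z Y : ℕ, (X : ℝ) ^ θ ≤ Y →
      ∀ A : Set ℕ,
      (∀ n ∈ A, n ∈ Set.Ioc Z (Z + Y) → ∀ i, ∀ p : ℕ, p.Prime → p ∣ v n i → (X : ℝ) ^ δ ≤ p) →
      c * Y / Real.log X ^ g ≤ ((A ∩ Set.Ioc Z (Z + Y)).ncard : ℝ) →
      κ * Real.log X ^ (g * m) ≤ (frq g A X Z Y m K κ : ℝ) := by
  obtain ⟨K, hK, κ, hκ, h⟩ := sys_frq F hg hF δ θ c hδ hθ hc m hm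
  refine ⟨K, hK, κ, hκ, ?_⟩
  filter_upwards [h] with X hX Z Y hXY A hA hlow
  refine hX Z Y hXY A ?_ hlow
  intro n hn hnI i p hp hd
  have hn1 : 1 ≤ n := by have := hnI.1; omega
  rw [hv n hn1 i] at hd
  exact hA n hn hnI i p hp (Int.natCast_dvd_natCast.1 hd)

/-- almost primes in short intervals -/
theorem v_short (hg : 1 ≤ g) (hF : Sys F) (hv : ∀ n : ℕ, 1 ≤ n → ∀ i, (F i).eval (n : ℤ) = (v n i : ℤ))
    (θ : ℝ) (hθ : 0 < θ) (hθ1 : θ ≤ 1) (m : ℕ) (hm : 1 ≤ m) :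
    ∃ r₀ : ℕ, 2 ≤ r₀ ∧ ∀ r : ℕ, r₀ ≤ r → ∃ K : ℝ, 0 < K ∧ ∃ κ : ℝ, 0 < κ ∧ ∀ᶠ X : ℕ in atTop, ∀ Y : ℕ,
      (X : ℝ) ^ θ ≤ Y → Y ≤ X → κ * Real.log X ^ (g * m) ≤ (frq g (AV v r) X X Y m K κ : ℝ) := by
  obtain ⟨r₀, hr₀, h⟩ := sys_short F hg hF θ hθ hθ1 m hm
  refine ⟨r₀, hr₀, fun r hr => ?_⟩
  obtain ⟨K, hK, κ, hκ, h1⟩ := h r hr
  refine ⟨K, hK, κ, hκ, h1.mono (fun X hX Y hXY hYX => (hX Y hXY hYX).trans (le_of_eq ?_))⟩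
  rw [frq_congr g _ _ (fun n hn => AA_iff F v hv r n hn)]

/-- prime arguments, dyadic intervals -/
theorem v_prime (hirr : ∀ i, Irreducible (F i)) (hdeg : ∀ i, 0 < (F i).natDegree)
    (hlead : ∀ i, 0 < (F i).leadingCoeff) (hinj : Function.Injective F) (hX : ∀ i, F i ≠ X)
    (hadm : ∀ p : ℕ, p.Prime → ∃ m : ℕ, ¬ p ∣ m ∧ ∀ i, ¬ (p : ℤ) ∣ (F i).eval (m : ℤ))
    (hv : ∀ n : ℕ, 1 ≤ n → ∀ i, (F i).eval (n : ℤ) = (v n i : ℤ)) (m : ℕ) (hm : 1 ≤ m) :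
    ∃ r₀ : ℕ, 2 ≤ r₀ ∧ ∀ r : ℕ, r₀ ≤ r → ∃ K : ℝ, 0 < K ∧ ∃ κ : ℝ, 0 < κ ∧ ∀ᶠ X : ℕ in atTop,
      κ * Real.log X ^ ((g + 1) * m) ≤ (frq (g + 1) (AVp v r) X X X m K κ : ℝ) := by
  obtain ⟨r₀, hr₀, h⟩ := prime_frq F hirr hdeg hlead hinj hX hadm m hm
  refine ⟨r₀, hr₀, fun r hr => ?_⟩
  obtain ⟨K, hK, κ, hκ, h1⟩ := h r hr
  refine ⟨K, hK, κ, hκ, h1.mono (fun X hX => hX.trans (le_of_eq ?_))⟩
  rw [frq_congr (g + 1) _ (AVp v r) (fun n hn => by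
    unfold AP AVp
    simp only [Set.mem_ofPred_eq, AA_iff F v hv r n hn])]

/-- the limit points and the pair correlations, with the primes with almost prime values as example -/
theorem v_prime_many (hirr : ∀ i, Irreducible (F i)) (hdeg : ∀ i, 0 < (F i).natDegree)
    (hlead : ∀ i, 0 < (F i).leadingCoeff) (hinj : Function.Injective F) (hX : ∀ i, F i ≠ X)
    (hadm : ∀ p : ℕ, p.Prime → ∃ m : ℕ, ¬ p ∣ m ∧ ∀ i, ¬ (p : ℤ) ∣ (F i).eval (m : ℤ))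
    (hv : ∀ n : ℕ, 1 ≤ n → ∀ i, (F i).eval (n : ℤ) = (v n i : ℤ)) :
    ∃ r₀ : ℕ, 2 ≤ r₀ ∧ ∀ r : ℕ, r₀ ≤ r → Many (g + 1) (AVp v r) := by
  obtain ⟨r₀, hr₀, h⟩ := sys_prime F hirr hdeg hlead hinj hX hadm
  refine ⟨r₀, hr₀, fun r hr => ?_⟩
  have e : ∀ n : ℕ, 1 ≤ n → (n ∈ AP F r ↔ n ∈ AVp v r) := by
    intro n hn
    unfold AP AVp
    simp only [Set.mem_ofPred_eq, AA_iff F v hv r n hn]
  obtain ⟨c, hc, h1⟩ := h r hr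
  refine ⟨c, hc, h1.mono (fun X hX => hX.trans (le_of_eq ?_))⟩
  congr 2
  ext n
  constructor
  · rintro ⟨h2, h3⟩
    exact ⟨(e n h3.1).1 h2, h3⟩
  · rintro ⟨h2, h3⟩
    exact ⟨(e n h3.1).2 h2, h3⟩

end Pool.Agent.X69.Ric
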