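import Pool.Agent.X69.Ric.Nth
import Pool.Agent.X69.Ric.Avg
import Pool.Agent.Y151.HS.FLC
import Pool.Agent.Y79.HS.Loc
import Pool.Agent.Y843.HS.CorA
import Pool.Agent.Y843.HS.PartA
import Pool.Agent.H474R2.PG.MertensF

/-!
# Correlations of rough values
-/

set_option autoImplicit false

namespace Pool.Agent.X69.Ric

open Filter Topology Finset
open Pool.Agent.Y843.HS
open Pool.Agent.X26.GP (Zf mem_Zf_mod Zf_lt Zf_card_le Zf_card_lt NF PX PX_eq)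

/-- the values `F n`, `n ∈ A`, have no prime factors less than `n ^ δ` -/
def RV (F : Polynomial ℤ) (δ : ℝ) (A : Set ℕ) : Prop :=
  ∀ n ∈ A, ∀ p : ℕ, p.Prime → (p : ℝ) < (n : ℝ) ^ δ → ¬ (p : ℤ) ∣ F.eval (n : ℤ)

theorem lev (x : ℝ) (hx : 4 ≤ x) : ∃ J : ℕ, ((2 : ℝ) ^ 2 ^ J) ≤ x ∧ x < ((2 : ℝ) ^ 2 ^ J) ^ 2 := by
  set q := ⌊x⌋₊ with hq
  have hq4 : 4 ≤ q := Nat.le_floor (by exact_mod_cast hx)
  set k := Nat.log 2 q with hk
  have hk1 : 1 ≤ k := by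
    rw [hk]
    apply Nat.log_pos (by norm_num)
    omega
  have h1 : 2 ^ k ≤ q := Nat.pow_log_le_self 2 (by omega)
  have h2 : q < 2 ^ (k + 1) := Nat.lt_pow_succ_log_self (by norm_num) q
  have h3 : 2 ^ Nat.log 2 k ≤ k := Nat.pow_log_le_self 2 (by omega)
  have h4 : k < 2 ^ (Nat.log 2 k + 1) := Nat.lt_pow_succ_log_self (by norm_num) k
  refine ⟨Nat.log 2 k, ?_, ?_⟩
  · have h5 : 2 ^ 2 ^ Nat.log 2 k ≤ q := (Nat.pow_le_pow_right (by norm_num) h3).trans h1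
    have h6 : ((2 ^ 2 ^ Nat.log 2 k : ℕ) : ℝ) ≤ q := by exact_mod_cast h5
    push_cast at h6
    exact h6.trans (Nat.floor_le (by linarith))
  · have h5 : x < q + 1 := Nat.lt_floor_add_one x
    have h6 : q + 1 ≤ (2 ^ 2 ^ Nat.log 2 k) ^ 2 := by
      rw [← pow_mul, ← pow_succ]
      refine le_trans ?_ (Nat.pow_le_pow_right (by norm_num) h4)
      exact h2
    have h7 : ((q + 1 : ℕ) : ℝ) ≤ (((2 ^ 2 ^ Nat.log 2 k) ^ 2 : ℕ) : ℝ) := by exact_mod_cast h6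
    push_cast at h7
    linarith

theorem card_le_filter {α : Type} (B S : Finset α) (P : α → Prop) (inst : DecidablePred P)
    (h : ∀ x ∈ B, x ∈ S ∧ P x) : B.card ≤ (@Finset.filter α P inst S).card := by
  apply card_le_card
  intro x hx
  exact (@Finset.mem_filter α P inst S x).2 (h x hx)

theorem sieve_up (κ : ℕ) : ∃ s₀ E : ℕ, ∀ s J : ℕ, s₀ ≤ s → ∀ Om : ℕ → Finset ℕ, Sv κ s (2 ^ 2 ^ J) Om →
    ∀ X : ℕ, ∀ B : Finset ℕ, (∀ x ∈ B, (0 < x ∧ x ≤ X) ∧ ∀ p ∈ Pr s (2 ^ 2 ^ J), x % p ∉ Om p) →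
      (B.card : ℝ) ≤
      2 * X * ∏ p ∈ Pr s (2 ^ 2 ^ J), (1 - ((Om p).card : ℝ) / p) + ((2 : ℝ) ^ 2 ^ J) ^ E := by
  classical
  obtain ⟨C, hC1, hC⟩ := Pool.Agent.Y151.HS.flc
  refine ⟨C * (κ + 1), C * (C * (κ + 1)), ?_⟩
  intro s J hs Om hOm X B hB
  have h1 := hC κ (C * (κ + 1)) s J le_rfl hs Om hOm 1 0 0 X le_rfl
    (fun p hp h => by
      have := (mem_filter.1 hp).2
      exact this.one_lt.ne' (Nat.dvd_one.1 h))
  have h4 := (abs_le.1 h1).2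
  rw [sub_le_iff_le_add, Nat.cast_one, div_one] at h4
  replace h4 : (B.card : ℝ) ≤ (1 / 2) ^ (C * (κ + 1)) * ((X : ℝ) * ∏ p ∈ Pr s (2 ^ 2 ^ J), (1 - ((Om p).card : ℝ) / p)) +
      (2 ^ 2 ^ J) ^ (C * (C * (κ + 1))) + (X : ℝ) * ∏ p ∈ Pr s (2 ^ 2 ^ J), (1 - ((Om p).card : ℝ) / p) := by
    refine le_trans (Nat.cast_le.2 (card_le_filter B _ _ _ ?_)) h4
    intro x hx
    obtain ⟨⟨h5, h6⟩, h7⟩ := hB x hx
    exact ⟨mem_Ioc.2 ⟨h5, by rw [zero_add]; exact h6⟩, by rw [Nat.mod_one, Nat.mod_one], h7⟩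
  have h3 : 0 ≤ ∏ p ∈ Pr s (2 ^ 2 ^ J), (1 - ((Om p).card : ℝ) / p) := by
    apply Finset.prod_nonneg
    intro p hp
    have h4 := mem_filter.1 hp
    have h5 : (0 : ℝ) < p := by exact_mod_cast h4.2.pos
    have h6 : ((Om p).card : ℝ) ≤ p := by
      have h7 : (Om p).card ≤ (range p).card := card_le_card (fun c hc => mem_range.2 ((hOm p hp).2 c hc))
      rw [card_range] at h7
      exact_mod_cast h7
    have : ((Om p).card : ℝ) / p ≤ 1 := by rwa [div_le_one h5]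
    linarith
  have h5 : (1 / 2 : ℝ) ^ (C * (κ + 1)) ≤ 1 := pow_le_one₀ (by norm_num) (by norm_num)
  have h6 : 0 ≤ (X : ℝ) * ∏ p ∈ Pr s (2 ^ 2 ^ J), (1 - ((Om p).card : ℝ) / p) := by positivity
  nlinarith

theorem Sv_Zf (F : Polynomial ℤ) (hF : NF F) (s z : ℕ) : Sv F.natDegree s z (Zf F) := by
  intro p hp
  exact ⟨Zf_card_le hF (mem_filter.1 hp).2, Zf_lt F p⟩

open Classical in
/-- the basic sieve bound for the correlations -/
theorem rough_count (F : Polynomial ℤ) (hF : NF F) (δ : ℝ) (hδ : 0 < δ) (m : ℕ) :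
    ∃ s₀ : ℕ, ∃ c : ℝ, 0 < c ∧ ∀ s : ℕ, s₀ ≤ s → ∀ᶠ T : ℕ in atTop, ∃ z : ℕ, s ≤ z ∧ 3 ≤ z ∧
      c * Real.log T ≤ Real.log z ∧ ∀ A : Set ℕ, RV F δ A → ∀ u : Fin (m + 1) → ℕ,
      (((Icc T (T ^ 2)).filter (fun n => ∀ j, n + u j ∈ A)).card : ℝ) ≤
        2 * (T : ℝ) ^ 2 * ∏ p ∈ Pr s z, (1 - ((Om (Zf F) u p).card : ℝ) / p) + T := by
  obtain ⟨s₀, E, hE⟩ := sieve_up ((m + 1) * F.natDegree)
  set δ' : ℝ := min (δ / 2) (1 / (E + 1)) with hδ'
  have hδ'0 : 0 < δ' := lt_min (by linarith) (by positivity)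
  refine ⟨s₀, δ' / 2, by linarith, ?_⟩
  intro s hs
  have ev : Tendsto (fun T : ℕ => (T : ℝ) ^ δ') atTop atTop :=
    (tendsto_rpow_atTop hδ'0).comp tendsto_natCast_atTop_atTop
  filter_upwards [ev.eventually_ge_atTop (((max s 4 : ℕ) : ℝ) ^ 2), eventually_ge_atTop 3] with T hT hT3
  have hTr : (3 : ℝ) ≤ T := by exact_mod_cast hT3
  have hmax4 : (4 : ℝ) ≤ ((max s 4 : ℕ) : ℝ) := by exact_mod_cast le_max_right s 4
  obtain ⟨J, hJ1, hJ2⟩ := lev ((T : ℝ) ^ δ') (by nlinarith)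
  have hzs : max s 4 ≤ 2 ^ 2 ^ J := by
    by_contra hcon
    push Not at hcon
    have h1 : ((2 ^ 2 ^ J : ℕ) : ℝ) < ((max s 4 : ℕ) : ℝ) := by exact_mod_cast hcon
    push_cast at h1 hT
    have h2 : (0 : ℝ) < (2 : ℝ) ^ 2 ^ J := by positivity
    nlinarith
  refine ⟨2 ^ 2 ^ J, (le_max_left _ _).trans hzs, by have := (le_max_right s 4).trans hzs; omega, ?_, ?_⟩
  · have h1 : Real.log ((T : ℝ) ^ δ') ≤ Real.log (((2 : ℝ) ^ 2 ^ J) ^ 2) := Real.log_le_log (by positivity) hJ2.le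
    rw [Real.log_rpow (by linarith), Real.log_pow] at h1
    push_cast at h1 ⊢
    linarith
  · intro A hA u
    have h1 := hE s J hs (Om (Zf F) u) (Sv_Om (Sv_Zf F hF s _) u) (T ^ 2)
      ((Icc T (T ^ 2)).filter (fun n => ∀ j, n + u j ∈ A)) (by
      intro n hn
      rw [mem_filter, mem_Icc] at hn
      refine ⟨⟨by omega, hn.1.2⟩, ?_⟩
      intro p hp hcon
      have hpp := (mem_filter.1 hp).2
      have hple := (mem_Ioc.1 (mem_filter.1 hp).1).2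
      rw [mem_Om_iff (Zf F) u hpp.pos] at hcon
      obtain ⟨i, hi⟩ := hcon
      rw [mem_Zf_mod hpp.pos] at hi
      refine hA _ (hn.2 i) p hpp ?_ hi
      have h3 : (p : ℝ) ≤ (T : ℝ) ^ δ' := by
        have : (p : ℝ) ≤ ((2 ^ 2 ^ J : ℕ) : ℝ) := by exact_mod_cast hple
        push_cast at this
        linarith
      have h4 : (T : ℝ) ^ δ' < (T : ℝ) ^ δ := by
        apply Real.rpow_lt_rpow_of_exponent_lt (by linarith)
        have := min_le_left (δ / 2) (1 / ((E : ℝ) + 1))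
        rw [← hδ'] at this
        linarith
      have h5 : (T : ℝ) ^ δ ≤ ((n + u i : ℕ) : ℝ) ^ δ := by
        apply Real.rpow_le_rpow (by linarith) _ hδ.le
        exact_mod_cast (show T ≤ n + u i by omega)
      linarith)
    have h4 : ((2 : ℝ) ^ 2 ^ J) ^ E ≤ T := by
      calc ((2 : ℝ) ^ 2 ^ J) ^ E ≤ ((T : ℝ) ^ δ') ^ E := by gcongr
        _ = (T : ℝ) ^ (δ' * E) := by rw [← Real.rpow_natCast, ← Real.rpow_mul (by linarith)]
        _ ≤ (T : ℝ) ^ (1 : ℝ) := by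
            apply Real.rpow_le_rpow_of_exponent_le (by linarith)
            have h5 : δ' ≤ 1 / (E + 1) := min_le_right _ _
            have h6 : (0 : ℝ) ≤ E := Nat.cast_nonneg _
            calc δ' * E ≤ 1 / (E + 1) * E := by gcongr
              _ ≤ 1 := by
                rw [one_div, inv_mul_le_iff₀ (by positivity)]
                linarith
        _ = T := Real.rpow_one _
    push_cast at h1
    linarith

/-- the density product between `s` and `z` -/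
theorem VV_bd (F : Polynomial ℤ) (hF : NF F) (g : ℕ) (C₀ : ℝ) (hC₀ : 0 < C₀)
    (hV : ∀ z : ℕ, 3 ≤ z → PX (fun q => (Zf F q).card) z ≤ C₀ / Real.log z ^ g) (s : ℕ) :
    ∃ C : ℝ, 0 < C ∧ ∀ z : ℕ, s ≤ z → 3 ≤ z → VV (Zf F) s z ≤ C / Real.log z ^ g := by
  have hpos : 0 < VV (Zf F) 0 s := by
    unfold VV
    apply Finset.prod_pos
    intro p hp
    have hpp := (mem_filter.1 hp).2
    have h1 : ((Zf F p).card : ℝ) < p := by exact_mod_cast Zf_card_lt hF hpp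
    have h2 : (0 : ℝ) < p := by exact_mod_cast hpp.pos
    have : ((Zf F p).card : ℝ) / p < 1 := by rwa [div_lt_one h2]
    linarith
  refine ⟨C₀ / VV (Zf F) 0 s, by positivity, ?_⟩
  intro z hsz hz3
  have h1 := VV_split (Zf F) (Nat.zero_le s) hsz
  have h2 := hV z hz3
  rw [← PX_eq (Zf F) _ (fun _ _ => rfl), ← h1] at h2
  have hz3r : (3 : ℝ) ≤ z := by exact_mod_cast hz3
  have hl : 0 < Real.log z := Real.log_pos (by linarith)
  rw [div_div, le_div_iff₀ (by positivity)]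
  rw [le_div_iff₀ (by positivity)] at h2
  linarith

open Classical in
theorem pair_bd (F : Polynomial ℤ) (hF : NF F) (g : ℕ) (C₀ : ℝ) (hC₀ : 0 < C₀)
    (hV : ∀ z : ℕ, 3 ≤ z → PX (fun q => (Zf F q).card) z ≤ C₀ / Real.log z ^ g)
    (δ : ℝ) (hδ : 0 < δ) (m : ℕ) :
    ∃ K s₂ : ℕ, ∀ s : ℕ, s₂ ≤ s → ∃ C₁ : ℝ, 0 < C₁ ∧ ∀ᶠ T : ℕ in atTop, ∃ z : ℕ,
      ∀ A : Set ℕ, RV F δ A → ∀ u : Fin (m + 1) → ℕ,
      (((Icc T (T ^ 2)).filter (fun n => ∀ j, n + u j ∈ A)).card : ℝ) ≤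
        C₁ * ((T : ℝ) ^ 2 / LL g T ^ (m + 1)) * Coll K (Zf F) s z u + T := by
  obtain ⟨s₀, c, hc, hcount⟩ := rough_count F hF δ hδ m
  obtain ⟨K, hK⟩ := Pool.Agent.Y79.HS.loc F.natDegree (m + 1)
  obtain ⟨s₁, hs₁⟩ := hK 1 one_pos
  refine ⟨K, max s₀ s₁, ?_⟩
  intro s hs
  obtain ⟨C, hC, hVs⟩ := VV_bd F hF g C₀ hC₀ hV s
  refine ⟨2 * (C * (2 / c) ^ g) ^ (m + 1), by positivity, ?_⟩
  filter_upwards [hcount s ((le_max_left _ _).trans hs), eventually_ge_atTop 3] with T hT hT3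
  obtain ⟨z, hsz, hz3, hlz, hbd⟩ := hT
  refine ⟨z, ?_⟩
  intro A hA u
  refine (hbd A hA u).trans ?_
  have hTr : (3 : ℝ) ≤ T := by exact_mod_cast hT3
  have hlT : 0 < Real.log T := Real.log_pos (by linarith)
  have hz3r : (3 : ℝ) ≤ z := by exact_mod_cast hz3
  have hlz0 : 0 < Real.log z := Real.log_pos (by linarith)
  have h1 := (hs₁ s z ((le_max_right _ _).trans hs) (Zf F) (Sv_Zf F hF s z) u).2
  have hcoll : 0 ≤ Coll K (Zf F) s z u := by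
    unfold Coll
    exact Finset.prod_nonneg (fun p _ => by positivity)
  have hVn : 0 ≤ VV (Zf F) s z := by
    unfold VV
    apply Finset.prod_nonneg
    intro p hp
    have hpp := (mem_filter.1 hp).2
    have h1 : ((Zf F p).card : ℝ) < p := by exact_mod_cast Zf_card_lt hF hpp
    have h2 : (0 : ℝ) < p := by exact_mod_cast hpp.pos
    have : ((Zf F p).card : ℝ) / p < 1 := by rwa [div_lt_one h2]
    linarith
  have h2 : VV (Zf F) s z ≤ (C * (2 / c) ^ g) / LL g T := by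
    refine (hVs z hsz hz3).trans ?_
    have hL : LL g T = 2 ^ g * Real.log T ^ g := by
      unfold LL
      rw [Real.log_pow]
      push_cast
      rw [mul_pow]
    rw [hL, div_le_div_iff₀ (by positivity) (by positivity)]
    have h3 : (c * Real.log T) ^ g ≤ Real.log z ^ g := by gcongr
    rw [mul_pow] at h3
    have h4 : (2 / c) ^ g * c ^ g = 2 ^ g := by
      rw [← mul_pow]
      congr 1
      field_simp
    calc C * (2 ^ g * Real.log T ^ g) = C * (2 / c) ^ g * (c ^ g * Real.log T ^ g) := by rw [← h4]; ring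
      _ ≤ C * (2 / c) ^ g * Real.log z ^ g := by gcongr
  have h3 : VV (Zf F) s z ^ (m + 1) ≤ ((C * (2 / c) ^ g) / LL g T) ^ (m + 1) := by gcongr
  have h4 : 2 * (T : ℝ) ^ 2 * ∏ p ∈ Pr s z, (1 - ((Om (Zf F) u p).card : ℝ) / p) ≤
      2 * (T : ℝ) ^ 2 * (((C * (2 / c) ^ g) / LL g T) ^ (m + 1) * Coll K (Zf F) s z u) := by
    apply mul_le_mul_of_nonneg_left _ (by positivity)
    exact h1.trans (mul_le_mul_of_nonneg_right h3 hcoll)
  refine add_le_add (h4.trans (le_of_eq ?_)) le_rfl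
  rw [div_pow]
  ring

end Pool.Agent.X69.Ric
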