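import Pool.Agent.X26.MC.Poly
import Pool.Agent.W123.RU.PolyV
import Pool.Agent.X69.Ric.PackP

/-!
# Patterns in sets of integers at which the values of a system of polynomials have no small prime factors
-/

set_option autoImplicit false

namespace Pool.Agent.X69.Ric

open Filter Topology Finset Polynomial
open Pool.Agent.W123.RU.Poly (Sys V_bounds)
open Pool.Agent.X26.GP (Zf NF mem_Zf_mod Zf_card_le OK_Zf om PX PX_eq Bx bn ct)
open Pool.Agent.Y843.HS (VV Pr Pr_mem)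
open Pool.Agent.H373R2.T7 (nuB pz mem_pz)
open Pool.Agent.W123.RP (Vq)
open Pool.Agent.W123.RU.Poly (Q)
open Pool.Agent.Y843.AC (OK Av)

variable {g : ℕ}

/-- all the `n + ∑ g_i d_i`, `|g_i| ≤ K`, are in `S` (as in `Pool.Agent.X26.TY.Typ`) -/
def Cen {m : ℕ} (K : ℕ) (S : Finset ℕ) (n : ℕ) (d : Fin m → ℕ) : Prop :=
  ∀ g : Fin m → ℤ, (∀ i, |g i| ≤ K) → ∃ s ∈ S, (s : ℤ) = n + ∑ i, g i * (d i : ℤ)

theorem cen_of {m K : ℕ} {S S' : Finset ℕ} (hS : S' ⊆ S) {n : ℕ} {d : Fin m → ℕ}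
    (h : ∀ f : Fin m → ℕ, (∀ i, f i < 2 * K + 1) → n + ∑ i, f i * d i ∈ S') :
    n + ∑ i, K * d i ∈ S' ∧ Cen K S (n + ∑ i, K * d i) d := by
  refine ⟨h (fun _ => K) (fun i => by omega), fun g hg => ?_⟩
  refine ⟨n + ∑ i, ((K : ℤ) + g i).toNat * d i, hS (h (fun i => ((K : ℤ) + g i).toNat) ?_), ?_⟩
  · intro i
    have h1 := abs_le.1 (hg i)
    show ((K : ℤ) + g i).toNat < 2 * K + 1
    omega
  · push_cast
    rw [add_assoc, ← sum_add_distrib]
    congr 1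
    apply sum_congr rfl
    intro i _
    have h1 := abs_le.1 (hg i)
    rw [Int.toNat_of_nonneg (by omega)]
    ring

/-- (as in `Pool.Agent.X26.AN.SysTK`) -/
theorem VV_eq_Vq {k : ℕ} (F : Fin k → ℤ[X]) (x : ℕ) : VV (Zf (∏ i, F i)) 0 x = Vq (Q F) x := by
  classical
  unfold VV Vq
  have h1 : Pr 0 x = pz x := by
    ext p
    rw [Pr_mem, mem_pz]
    constructor
    · rintro ⟨⟨_, h1⟩, h2⟩
      exact ⟨h1, h2⟩
    · rintro ⟨h1, h2⟩
      exact ⟨⟨h2.pos, h1⟩, h2⟩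
  rw [h1]
  apply prod_congr rfl
  intro p hp
  have hpp := (mem_pz.1 hp).2
  have h2 : (Zf (∏ i, F i) p).card = nuB (Q F) p := by
    unfold Zf nuB
    congr 1
    ext u
    rw [mem_filter, mem_filter]
    unfold Q
    rw [Polynomial.eval_prod, (Nat.prime_iff_prime_int.1 hpp).dvd_finsetProd_iff]
    simp
  rw [h2]

theorem NF_sys (F : Fin g → ℤ[X]) (hF : Sys F) : NF (∏ i, F i) := by
  intro q hq
  obtain ⟨n, hn⟩ := hF.adm q hq
  refine ⟨n, ?_⟩
  rw [Polynomial.eval_prod, (Nat.prime_iff_prime_int.1 hq).dvd_finsetProd_iff]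
  rintro ⟨i, _, h⟩
  exact hn i h

/-- the logarithm of `⌊X ^ κ⌋` -/
theorem log_floor {κ : ℝ} (hκ : 0 < κ) (hκ1 : κ ≤ 1) : ∀ᶠ X : ℕ in atTop, 3 ≤ ⌊(X : ℝ) ^ κ⌋₊ ∧
    κ / 2 * Real.log X ≤ Real.log (⌊(X : ℝ) ^ κ⌋₊ : ℝ) ∧ Real.log (⌊(X : ℝ) ^ κ⌋₊ : ℝ) ≤ Real.log X := by
  have t1 : Tendsto (fun X : ℕ => (X : ℝ) ^ κ) atTop atTop :=
    (tendsto_rpow_atTop hκ).comp tendsto_natCast_atTop_atTop
  have t2 : Tendsto (fun X : ℕ => (X : ℝ) ^ (κ / 2)) atTop atTop :=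
    (tendsto_rpow_atTop (by linarith)).comp tendsto_natCast_atTop_atTop
  filter_upwards [t1.eventually_ge_atTop 4, t2.eventually_ge_atTop 2, eventually_ge_atTop 3] with X h1 h2 h3
  have hX : (1 : ℝ) ≤ X := by exact_mod_cast (by omega : 1 ≤ X)
  have hX0 : (0 : ℝ) < X := by linarith
  have hfl : (X : ℝ) ^ κ < (⌊(X : ℝ) ^ κ⌋₊ : ℝ) + 1 := Nat.lt_floor_add_one _
  refine ⟨Nat.le_floor (by push_cast; linarith), ?_, ?_⟩
  · have e : (X : ℝ) ^ κ = (X : ℝ) ^ (κ / 2) * (X : ℝ) ^ (κ / 2) := by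
      rw [← Real.rpow_add hX0]; congr 1; ring
    have h4 : (X : ℝ) ^ (κ / 2) ≤ (⌊(X : ℝ) ^ κ⌋₊ : ℝ) := by nlinarith
    calc κ / 2 * Real.log X = Real.log ((X : ℝ) ^ (κ / 2)) := by rw [Real.log_rpow hX0]
      _ ≤ _ := Real.log_le_log (by positivity) h4
  · apply Real.log_le_log
    · have : (3 : ℝ) ≤ (⌊(X : ℝ) ^ κ⌋₊ : ℝ) := by exact_mod_cast Nat.le_floor (by push_cast; linarith)
      linarith
    · calc (⌊(X : ℝ) ^ κ⌋₊ : ℝ) ≤ (X : ℝ) ^ κ := Nat.floor_le (by positivity)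
        _ ≤ (X : ℝ) ^ (1 : ℝ) := Real.rpow_le_rpow_of_exponent_le hX hκ1
        _ = X := Real.rpow_one _

/-- bounds for the product over the primes up to `X ^ κ` -/
theorem V_floor (F : Fin g → ℤ[X]) (hF : Sys F) {κ : ℝ} (hκ : 0 < κ) (hκ1 : κ ≤ 1) :
    ∃ v C : ℝ, 0 < v ∧ 0 < C ∧ ∀ᶠ X : ℕ in atTop,
      v / Real.log X ^ g ≤ VV (Zf (∏ i, F i)) 0 ⌊(X : ℝ) ^ κ⌋₊ ∧
      VV (Zf (∏ i, F i)) 0 ⌊(X : ℝ) ^ κ⌋₊ ≤ C / Real.log X ^ g := by
  obtain ⟨v, Cv, hv, hCv, h⟩ := V_bounds F hF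
  refine ⟨v, Cv * (2 / κ) ^ g, hv, by positivity, ?_⟩
  filter_upwards [log_floor hκ hκ1, eventually_ge_atTop 3] with X hX h3
  obtain ⟨h1, h2, h4⟩ := hX
  have hlX : 0 < Real.log X := Real.log_pos (by exact_mod_cast (by omega : 1 < X))
  have hl : 0 < Real.log (⌊(X : ℝ) ^ κ⌋₊ : ℝ) := lt_of_lt_of_le (by positivity) h2
  have h5 := h _ h1
  rw [Fintype.card_fin] at h5
  rw [VV_eq_Vq]
  refine ⟨le_trans ?_ h5.1, h5.2.trans ?_⟩
  · exact div_le_div_of_nonneg_left hv.le (by positivity) (pow_le_pow_left₀ hl.le h4 g)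
  · rw [div_le_div_iff₀ (by positivity) (by positivity)]
    have h6 : Real.log X ≤ 2 / κ * Real.log (⌊(X : ℝ) ^ κ⌋₊ : ℝ) := by
      rw [div_mul_eq_mul_div, le_div_iff₀ hκ]
      linarith
    calc Cv * Real.log X ^ g ≤ Cv * (2 / κ * Real.log (⌊(X : ℝ) ^ κ⌋₊ : ℝ)) ^ g := by
          apply mul_le_mul_of_nonneg_left _ hCv.le
          exact pow_le_pow_left₀ hlX.le h6 g
      _ = Cv * (2 / κ) ^ g * Real.log (⌊(X : ℝ) ^ κ⌋₊ : ℝ) ^ g := by rw [mul_pow]; ring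

theorem big_X (g : ℕ) (A : ℝ) : ∀ᶠ X : ℕ in atTop, A * Real.log X ^ g ≤ X := by
  have h1 : (fun x : ℝ => Real.log x ^ (g : ℝ)) =o[atTop] fun x : ℝ => x ^ (1 : ℝ) :=
    isLittleO_log_rpow_rpow_atTop (g : ℝ) one_pos
  have h2 : ∀ᶠ x : ℝ in atTop, A * Real.log x ^ g ≤ x := by
    filter_upwards [h1.bound (c := 1 / (|A| + 1)) (by positivity), eventually_gt_atTop (1 : ℝ)] with x hx hx1
    have hl : 0 < Real.log x := Real.log_pos hx1
    rw [Real.rpow_natCast, Real.rpow_one, Real.norm_eq_abs, Real.norm_eq_abs,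
      abs_of_pos (show 0 < Real.log x ^ g by positivity), abs_of_pos (show 0 < x by linarith)] at hx
    have hA : A ≤ |A| + 1 := by
      have := le_abs_self A
      linarith
    calc A * Real.log x ^ g ≤ (|A| + 1) * Real.log x ^ g := mul_le_mul_of_nonneg_right hA (by positivity)
      _ ≤ (|A| + 1) * (1 / (|A| + 1) * x) := mul_le_mul_of_nonneg_left hx (by positivity)
      _ = x := by field_simp
  exact tendsto_natCast_atTop_atTop.eventually h2

open Classical in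
/-- **Typical elements.** All but few elements of an arbitrary set of integers, at which the values of the
polynomials have no small prime factors, are centres of many patterns in the set. -/
theorem sys_typ (F : Fin g → ℤ[X]) (hF : Sys F) (m K : ℕ) (hK : 1 ≤ K) (κ ε : ℝ) (hκ : 0 < κ) (hκ1 : κ ≤ 1)
    (hε : 0 < ε) : ∃ c : ℝ, 0 < c ∧ ∃ B : ℕ, ∀ᶠ X : ℕ in atTop, ∀ A D : ℕ, Real.log X ^ B ≤ D → D ≤ X →
    ∀ S : Finset ℕ, S ⊆ Ioc A (A + X) →
    (∀ n ∈ S, ∀ i, ∀ q : ℕ, q.Prime → (q : ℝ) ≤ (X : ℝ) ^ κ → ¬ (q : ℤ) ∣ (F i).eval (n : ℤ)) →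
    ((S.filter (fun n => (((Fintype.piFinset (fun _ : Fin m => Icc 1 D)).filter (fun d => Cen K S n d)).card : ℝ) <
      c * ((D : ℝ) ^ m / Real.log X ^ (g * ((2 * K + 1) ^ m - 1))))).card : ℝ) ≤ ε * X / Real.log X ^ g := by
  obtain ⟨v, C, hv, hC, hV⟩ := V_floor F hF hκ hκ1
  obtain ⟨c₁, hc₁, B, X₁, h1⟩ := Pool.Agent.X26.GP.cntB_all m (∏ i, F i).natDegree (2 * K + 1) κ (ε / C)
    (by omega) hκ (by positivity)
  obtain ⟨b, hb⟩ : ∃ b : ℕ, b = (2 * K + 1) ^ m := ⟨_, rfl⟩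
  have hb1 : 1 ≤ b := by rw [hb]; exact Nat.one_le_pow _ _ (by omega)
  have hNF := NF_sys F hF
  refine ⟨c₁ ^ 2 * v ^ b / (4 * ε), by positivity, B, ?_⟩
  filter_upwards [hV, big_X g (1 / ε), eventually_ge_atTop X₁, eventually_ge_atTop 3] with X hVX hXb hX1 hX3
  intro A D hBD hDX S hS hSZ
  obtain ⟨hV1, hV2⟩ := hVX
  have hlX : 0 < Real.log X := Real.log_pos (by exact_mod_cast (by omega : 1 < X))
  have hX0 : (0 : ℝ) < X := by exact_mod_cast (by omega : 0 < X)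
  have hL : 0 < Real.log X ^ g := by positivity
  have hD0 : (0 : ℝ) < D := by
    have h4 : (0 : ℝ) < Real.log X ^ B := by positivity
    linarith
  rw [← hb]
  by_contra hcon
  rw [not_le] at hcon
  obtain ⟨c, hc⟩ : ∃ c : ℝ, c = c₁ ^ 2 * v ^ b / (4 * ε) := ⟨_, rfl⟩
  rw [← hc] at hcon
  obtain ⟨Q, hQ⟩ : ∃ Q : Finset ℕ, Q = S.filter (fun n =>
    (((Fintype.piFinset (fun _ : Fin m => Icc 1 D)).filter (fun d => Cen K S n d)).card : ℝ) <
      c * ((D : ℝ) ^ m / Real.log X ^ (g * (b - 1)))) := ⟨_, rfl⟩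
  rw [← hQ] at hcon
  obtain ⟨S', hS'Q, hS'c⟩ := exists_subset_card_eq (s := Q) (n := ⌈ε * X / Real.log X ^ g⌉₊)
    (Nat.ceil_le.2 hcon.le)
  have hS'S : S' ⊆ S := hS'Q.trans (by rw [hQ]; exact filter_subset _ _)
  have hc1 : ε * X / Real.log X ^ g ≤ (S'.card : ℝ) := by
    rw [hS'c]
    exact Nat.le_ceil _
  have hpos : 0 ≤ ε * X / Real.log X ^ g := by positivity
  have hc2 : (S'.card : ℝ) ≤ 2 * (ε * X / Real.log X ^ g) := by
    rw [hS'c]
    have h4 := (Nat.ceil_lt_add_one hpos).le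
    have h5 : 1 ≤ ε * X / Real.log X ^ g := by
      rw [le_div_iff₀ hL, one_mul]
      rw [div_mul_eq_mul_div, one_mul, div_le_iff₀ hε] at hXb
      linarith
    linarith
  have hdens : ε / C * X * VV (Zf (∏ i, F i)) 0 ⌊(X : ℝ) ^ κ⌋₊ ≤ (S'.card : ℝ) := by
    refine le_trans ?_ hc1
    calc ε / C * X * VV (Zf (∏ i, F i)) 0 ⌊(X : ℝ) ^ κ⌋₊ ≤ ε / C * X * (C / Real.log X ^ g) :=
          mul_le_mul_of_nonneg_left hV2 (by positivity)
      _ = ε * X / Real.log X ^ g := by field_simp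
  have hfil := h1 X A D hX1 hBD hDX (Zf (∏ i, F i)) (OK_Zf hNF le_rfl κ X) S' (hS'S.trans hS) (by
    intro n hn q hq hqX hz
    rw [mem_Zf_mod hq.pos, Polynomial.eval_prod, (Nat.prime_iff_prime_int.1 hq).dvd_finsetProd_iff] at hz
    obtain ⟨i, _, hi⟩ := hz
    exact hSZ n (hS'S hn) i q hq hqX hi) hdens
  obtain ⟨G, hG⟩ : ∃ G : Finset (Fin m → ℕ), G = (Fintype.piFinset (fun _ : Fin m => Icc 1 D)).filter
      (fun d => ∀ F' : Finset (Bx m (2 * K + 1)), (∃ p ∈ F', ∀ i, (p i : ℕ) = 0) →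
      c₁ * X * VV (Zf (∏ i, F i)) 0 ⌊(X : ℝ) ^ κ⌋₊ ^ F'.card ≤ (ct S' F' d : ℝ)) := ⟨_, rfl⟩
  have hfil' : c₁ * (D : ℝ) ^ m ≤ (G.card : ℝ) := by
    rw [hG]
    convert hfil
  have hGsub : G ⊆ Fintype.piFinset (fun _ : Fin m => Icc 1 D) := by rw [hG]; exact filter_subset _ _
  -- the lower bound for every good vector
  have low : ∀ d ∈ G, c₁ * v ^ b * (X / Real.log X ^ (g * b)) ≤ ((S'.filter (fun n => Cen K S n d)).card : ℝ) := by
    intro d hd
    rw [hG, mem_filter] at hd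
    have k1 := hd.2 univ ⟨fun _ => ⟨0, by omega⟩, mem_univ _, fun _ => rfl⟩
    rw [card_univ, Fintype.card_fun, Fintype.card_fin, Fintype.card_fin, ← hb] at k1
    have k2 : v ^ b / Real.log X ^ (g * b) ≤ VV (Zf (∏ i, F i)) 0 ⌊(X : ℝ) ^ κ⌋₊ ^ b := by
      rw [pow_mul, ← div_pow]
      exact pow_le_pow_left₀ (by positivity) hV1 b
    calc c₁ * v ^ b * (X / Real.log X ^ (g * b)) = c₁ * X * (v ^ b / Real.log X ^ (g * b)) := by ring
      _ ≤ c₁ * X * VV (Zf (∏ i, F i)) 0 ⌊(X : ℝ) ^ κ⌋₊ ^ b := mul_le_mul_of_nonneg_left k2 (by positivity)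
      _ ≤ _ := k1
      _ ≤ _ := by
          apply Nat.cast_le.2
          unfold ct
          apply card_le_card_of_injOn (fun n => n + ∑ i, K * d i)
          · intro n hn
            have hn' := (mem_filter.1 (mem_coe.1 hn)).2
            obtain ⟨q1, q2⟩ := cen_of hS'S (K := K) (n := n) (d := d) (by
              intro f hf
              have := hn' (fun i => ⟨f i, hf i⟩) (mem_univ _)
              unfold bn at this
              exact this)
            exact mem_coe.2 (mem_filter.2 ⟨q1, q2⟩)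
          · intro a _ b' _ hab
            exact Nat.add_right_cancel hab
  have sum1 : c₁ * (D : ℝ) ^ m * (c₁ * v ^ b * (X / Real.log X ^ (g * b))) ≤
      ∑ d ∈ G, ((S'.filter (fun n => Cen K S n d)).card : ℝ) := by
    calc c₁ * (D : ℝ) ^ m * (c₁ * v ^ b * (X / Real.log X ^ (g * b)))
        ≤ (G.card : ℝ) * (c₁ * v ^ b * (X / Real.log X ^ (g * b))) :=
          mul_le_mul_of_nonneg_right hfil' (by positivity)
      _ = ∑ d ∈ G, c₁ * v ^ b * (X / Real.log X ^ (g * b)) := by rw [sum_const, nsmul_eq_mul]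
      _ ≤ _ := sum_le_sum low
  have sum2 : ∑ d ∈ G, ((S'.filter (fun n => Cen K S n d)).card : ℝ) ≤
      ∑ n ∈ S', (((Fintype.piFinset (fun _ : Fin m => Icc 1 D)).filter (fun d => Cen K S n d)).card : ℝ) := by
    calc ∑ d ∈ G, ((S'.filter (fun n => Cen K S n d)).card : ℝ)
        ≤ ∑ d ∈ Fintype.piFinset (fun _ : Fin m => Icc 1 D), ((S'.filter (fun n => Cen K S n d)).card : ℝ) :=
          sum_le_sum_of_subset_of_nonneg hGsub (fun _ _ _ => Nat.cast_nonneg _)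
      _ = ∑ d ∈ Fintype.piFinset (fun _ : Fin m => Icc 1 D), ∑ n ∈ S', (if Cen K S n d then (1 : ℝ) else 0) := by
          apply sum_congr rfl
          intro d _
          rw [card_filter]
          push_cast
          rfl
      _ = ∑ n ∈ S', ∑ d ∈ Fintype.piFinset (fun _ : Fin m => Icc 1 D), (if Cen K S n d then (1 : ℝ) else 0) :=
          sum_comm
      _ = _ := by
          apply sum_congr rfl
          intro n _
          rw [card_filter]
          push_cast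
          rfl
  have sum3 : ∑ n ∈ S', (((Fintype.piFinset (fun _ : Fin m => Icc 1 D)).filter (fun d => Cen K S n d)).card : ℝ) ≤
      (S'.card : ℝ) * (c * ((D : ℝ) ^ m / Real.log X ^ (g * (b - 1)))) := by
    rw [← nsmul_eq_mul]
    apply sum_le_card_nsmul
    intro n hn
    have h4 := hS'Q hn
    rw [hQ, mem_filter] at h4
    exact h4.2.le
  have hcpos : 0 < c := by rw [hc]; positivity
  have sum4 : (S'.card : ℝ) * (c * ((D : ℝ) ^ m / Real.log X ^ (g * (b - 1)))) ≤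
      2 * (ε * X / Real.log X ^ g) * (c * ((D : ℝ) ^ m / Real.log X ^ (g * (b - 1)))) :=
    mul_le_mul_of_nonneg_right hc2 (by positivity)
  have e4 : Real.log X ^ g * Real.log X ^ (g * (b - 1)) = Real.log X ^ (g * b) := by
    rw [← pow_add]
    congr 1
    obtain ⟨t, rfl⟩ := Nat.exists_eq_add_of_le' hb1
    rw [Nat.add_sub_cancel]
    ring
  have e5 : 2 * (ε * X / Real.log X ^ g) * (c * ((D : ℝ) ^ m / Real.log X ^ (g * (b - 1)))) =
      1 / 2 * (c₁ * (D : ℝ) ^ m * (c₁ * v ^ b * (X / Real.log X ^ (g * b)))) := by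
    rw [hc, ← e4]
    field_simp
    ring
  have hfin : 0 < c₁ * (D : ℝ) ^ m * (c₁ * v ^ b * (X / Real.log X ^ (g * b))) := by positivity
  linarith

end Pool.Agent.X69.Ric
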