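import Pool.Agent.X69.Ric.PackV

/-!
# The primes `p` with `p ^ 2 - 2` almost prime
-/

set_option autoImplicit false

namespace Pool.Agent.X69.Ric.Quad

open Filter Topology Finset Polynomial MeasureTheory
open Pool.Agent.W123.RU.Poly (Sys)
open Pool.Agent.X69.Ric

/-- the polynomial `x ^ 2 - 2` -/
noncomputable def q2 : Fin 1 → ℤ[X] := fun _ => Pool.Agent.TH464.PW.quad 1 0 (-2)

theorem q2_eval (n : ℤ) (i : Fin 1) : (q2 i).eval n = n ^ 2 - 2 := by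
  unfold q2
  rw [Pool.Agent.TH464.PW.quad_eval]
  ring

theorem not_sq : ¬ IsSquare ((0 : ℤ) ^ 2 - 4 * 1 * (-2)) := by
  rintro ⟨r, hr⟩
  have h1 : r * r = 8 := by linarith
  have h2 : r ≤ 2 := by nlinarith
  have h3 : -2 ≤ r := by nlinarith
  interval_cases r <;> omega

theorem irr : ∀ i, Irreducible (q2 i) := fun _ => Pool.Agent.TH464.PW.quad_irr 1 0 (-2) one_ne_zero
  (fun p hp h => hp.one_lt.ne' (Nat.dvd_one.1 (by exact_mod_cast h.1))) not_sq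

theorem deg : ∀ i, 0 < (q2 i).natDegree := fun _ => by
  unfold q2
  rw [Pool.Agent.TH464.PW.quad_deg _ _ _ one_ne_zero]
  norm_num

theorem lead : ∀ i, 0 < (q2 i).leadingCoeff := fun _ => by
  unfold q2
  rw [Pool.Agent.TH464.PW.quad_lead _ _ _ one_ne_zero]
  norm_num

theorem inj : Function.Injective q2 := fun _ _ _ => Subsingleton.elim _ _

theorem neX : ∀ i, q2 i ≠ X := fun _ h => by
  have h1 := Pool.Agent.TH464.PW.quad_deg 1 0 (-2) one_ne_zero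
  unfold q2 at h
  rw [h, natDegree_X] at h1
  omega

theorem adm : ∀ p : ℕ, p.Prime → ∃ m : ℕ, ¬ p ∣ m ∧ ∀ i, ¬ (p : ℤ) ∣ (q2 i).eval (m : ℤ) := by
  intro p hp
  refine ⟨1, fun h => hp.one_lt.ne' (Nat.dvd_one.1 h), fun i => ?_⟩
  rw [q2_eval]
  intro h
  have h1 : (p : ℤ) ∣ 1 := by
    have : ((1 : ℕ) : ℤ) ^ 2 - 2 = -1 := by norm_num
    rw [this] at h
    exact (dvd_neg.1 h)
  exact hp.one_lt.ne' (Nat.dvd_one.1 (by exact_mod_cast h1))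

theorem sys : Sys (cX q2) := cX_sys q2 irr deg lead inj neX adm

/-- the primes `p` such that `p ^ 2 - 2` has at most `r` prime factors, all larger than `p ^ (1 / r)` -/
def Al (r : ℕ) : Set ℕ :=
  {p | p.Prime ∧ ArithmeticFunction.cardFactors (p ^ 2 - 2) ≤ r ∧
    ∀ q : ℕ, q.Prime → q ∣ p ^ 2 - 2 → (p : ℝ) ^ (1 / (r : ℝ)) < q}

theorem cast_eq {p : ℕ} (hp : p.Prime) : (p : ℤ) ^ 2 - 2 = ((p ^ 2 - 2 : ℕ) : ℤ) := by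
  have h2 := hp.two_le
  have h3 : 2 ≤ p ^ 2 := by nlinarith
  push_cast [Nat.cast_sub h3]
  ring

theorem AP_eq (r : ℕ) : AP q2 r = Al r := by
  ext p
  unfold AP AA Al
  simp only [Set.mem_ofPred_eq]
  constructor
  · rintro ⟨hp, h⟩
    obtain ⟨h1, h2⟩ := h 0
    rw [q2_eval, cast_eq hp, Int.natAbs_natCast] at h1
    refine ⟨hp, h1, fun q hq hd => h2 q hq ?_⟩
    rw [q2_eval, cast_eq hp]
    exact Int.natCast_dvd_natCast.2 hd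
  · rintro ⟨hp, h1, h2⟩
    refine ⟨hp, fun i => ?_⟩
    rw [q2_eval, cast_eq hp, Int.natAbs_natCast]
    exact ⟨h1, fun q hq hd => h2 q hq (Int.natCast_dvd_natCast.1 hd)⟩

theorem cond {n q : ℕ} {y : ℝ} (h : q ∣ n ∨ (q : ℤ) ∣ (n : ℤ) ^ 2 - 2 → y ≤ q) :
    ∀ i, (q : ℤ) ∣ (cX q2 i).eval (n : ℤ) → y ≤ q := by
  intro i
  refine Fin.cases ?_ (fun i => ?_) i
  · intro hd
    have h1 : (q : ℤ) ∣ (X : ℤ[X]).eval (n : ℤ) := hd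
    rw [eval_X] at h1
    exact h (Or.inl (Int.natCast_dvd_natCast.1 h1))
  · intro hd
    have h1 : (q : ℤ) ∣ (q2 i).eval (n : ℤ) := hd
    rw [q2_eval] at h1
    exact h (Or.inr h1)

theorem al_rough (r : ℕ) (hr : 2 ≤ r) : ∀ p ∈ Al r, ∀ q : ℕ, q.Prime → (q ∣ p ∨ (q : ℤ) ∣ (p : ℤ) ^ 2 - 2) →
    (p : ℝ) ^ (1 / (r : ℝ)) ≤ q := by
  rintro p ⟨hp, h1, h2⟩ q hq (h | h)
  · exact (Pool.Agent.TH977.PW.rpow_lt_dvd r p q hr hp hq h).le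
  · rw [cast_eq hp] at h
    exact (h2 q hq (Int.natCast_dvd_natCast.1 h)).le

theorem ppc2 (A : Set ℕ) (δ : ℝ) (hδ : 0 < δ)
    (hA : ∀ n ∈ A, ∀ q : ℕ, q.Prime → (q ∣ n ∨ (q : ℤ) ∣ (n : ℤ) ^ 2 - 2) → (n : ℝ) ^ δ ≤ q) (hM : Many 2 A) :
    (∃ C : ℝ, 0 < C ∧ ∀ᶠ N : ℕ in atTop, (energyN A N : ℝ) ≤ C * ((N : ℝ) ^ 3 / Real.log N ^ 2)) ∧
      ∀ᵐ α : ℝ, PPC A α :=
  sys_ppc (cX q2) le_rfl sys A δ hδ (fun n hn i q hq hd => cond (hA n hn q hq) i hd) hM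

theorem gaps2 (A : Set ℕ) (δ : ℝ) (hδ : 0 < δ)
    (hA : ∀ n ∈ A, ∀ q : ℕ, q.Prime → (q ∣ n ∨ (q : ℤ) ∣ (n : ℤ) ^ 2 - 2) → (n : ℝ) ^ δ ≤ q) (hM : Many 2 A)
    (m : ℕ) (hm : 1 ≤ m) : 0 < volume {t : Fin m → ℝ | MapClusterPt t atTop (gapv 2 A m)} :=
  sys_gaps (cX q2) (by omega) sys A δ hδ (fun n hn i q hq hd => cond (hA n hn q hq) i hd) hM m hm

theorem many2 : ∃ r₀ : ℕ, 2 ≤ r₀ ∧ ∀ r : ℕ, r₀ ≤ r → Many 2 (Al r) := by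
  obtain ⟨r₀, hr₀, h⟩ := sys_prime q2 irr deg lead inj neX adm
  exact ⟨r₀, hr₀, fun r hr => by
    have := h r hr
    rwa [AP_eq] at this⟩

theorem frq2 (δ θ c : ℝ) (hδ : 0 < δ) (hθ : 0 < θ) (hc : 0 < c) (m : ℕ) (hm : 1 ≤ m) :
    ∃ K : ℝ, 0 < K ∧ ∃ κ : ℝ, 0 < κ ∧ ∀ᶠ X : ℕ in atTop, ∀ Z Y : ℕ, (X : ℝ) ^ θ ≤ Y →
      ∀ A : Set ℕ,
      (∀ n ∈ A, n ∈ Set.Ioc Z (Z + Y) → ∀ q : ℕ, q.Prime → (q ∣ n ∨ (q : ℤ) ∣ (n : ℤ) ^ 2 - 2) → (X : ℝ) ^ δ ≤ q) →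
      c * Y / Real.log X ^ 2 ≤ ((A ∩ Set.Ioc Z (Z + Y)).ncard : ℝ) →
      κ * Real.log X ^ (2 * m) ≤ (frq 2 A X Z Y m K κ : ℝ) := by
  obtain ⟨K, hK, κ, hκ, h⟩ := sys_frq (cX q2) (by omega) sys δ θ c hδ hθ hc m hm
  refine ⟨K, hK, κ, hκ, ?_⟩
  filter_upwards [h] with X hX Z Y hXY A hA hlow
  exact hX Z Y hXY A (fun n hn hnI i q hq hd => cond (hA n hn hnI q hq) i hd) hlow

theorem frqAl (m : ℕ) (hm : 1 ≤ m) : ∃ r₀ : ℕ, 2 ≤ r₀ ∧ ∀ r : ℕ, r₀ ≤ r → ∃ K : ℝ, 0 < K ∧ ∃ κ : ℝ, 0 < κ ∧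
    ∀ᶠ X : ℕ in atTop, κ * Real.log X ^ (2 * m) ≤ (frq 2 (Al r) X X X m K κ : ℝ) := by
  obtain ⟨r₀, hr₀, h⟩ := prime_frq q2 irr deg lead inj neX adm m hm
  refine ⟨r₀, hr₀, fun r hr => ?_⟩
  obtain ⟨K, hK, κ, hκ, h1⟩ := h r hr
  rw [AP_eq] at h1
  exact ⟨K, hK, κ, hκ, h1⟩

end Pool.Agent.X69.Ric.Quad
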