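import Pool.Agent.X69.Ric.Shrt
import Pool.Agent.X69.Ric.First

/-!
# Many vectors of consecutive gaps, each the right number of times
-/

set_option autoImplicit false

namespace Pool.Agent.X69.Ric

open Filter Topology Finset
open Pool.Agent.Y843.HS
open Pool.Agent.X26.GP (Zf mem_Zf_mod Zf_lt Zf_card_le Zf_card_lt NF PX PX_eq)

theorem GapAt.mem {A : Set ℕ} {m : ℕ} {h : Fin m → ℕ} {n : ℕ} (hg : GapAt A h n) (j : ℕ) (hj : j ≤ m) :
    n + parts h j ∈ A := ((hg (n + parts h j)).2 ⟨j, hj, rfl⟩).1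

open Classical in
/-- **many gap vectors of the right frequency in short intervals** -/
theorem right (F : Polynomial ℤ) (hF : NF F) (g : ℕ) (hg : 1 ≤ g) (C₀ : ℝ) (hC₀ : 0 < C₀)
    (hV : ∀ z : ℕ, 3 ≤ z → PX (fun q => (Zf F q).card) z ≤ C₀ / Real.log z ^ g)
    (δ : ℝ) (hδ : 0 < δ) (θ : ℝ) (hθ : 0 < θ) (M : Polynomial ℤ) (hM0 : M ≠ 0)
    (hM : ∀ p : ℕ, p.Prime → ∀ x h : ℤ, (p : ℤ) ∣ F.eval x → (p : ℤ) ∣ F.eval (x + h) → (p : ℤ) ∣ M.eval h)
    (e : ℕ) (he : ∀ h : ℕ, e < h → M.eval (h : ℤ) ≠ 0)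
    (hsm : ∀ ε : ℝ, 0 < ε → ∀ᶠ T : ℕ in atTop, ∀ Y H : ℕ, (T : ℝ) ^ (2 * θ) ≤ H → ∀ A : Set ℕ, RT F δ T A →
      (((Ioc Y (Y + H)).filter (fun n => n ∈ A ∧ ∃ d ∈ Icc 1 e, n + d ∈ A)).card : ℝ) ≤ ε * (H / LL g T))
    (m : ℕ) (hm : 1 ≤ m) (c : ℝ) (hc : 0 < c) :
    ∃ W : ℝ, 0 < W ∧ ∃ κ : ℝ, 0 < κ ∧ ∀ᶠ T : ℕ in atTop, ∀ Y H : ℕ, (T : ℝ) ^ (2 * θ) ≤ H →
      ∀ A : Set ℕ, (∀ n ∈ A, Y < n ∧ n ≤ Y + H) → RT F δ T A →
      c * (H / LL g T) ≤ ((Ioc Y (Y + H)).filter (· ∈ A)).card →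
      κ * LL g T ^ m ≤ (((bx (m := m) e (fun _ => 0) (fun _ => W) (LL g T)).filter (fun h =>
        κ * (H / LL g T ^ (m + 1)) ≤ (((Ioc Y (Y + H)).filter (fun n => n ∈ A ∧ GapAt A h n)).card : ℝ))).card : ℝ) := by
  have hm0 : (0 : ℝ) < m := by exact_mod_cast hm
  set W : ℝ := 8 * m / c with hW
  have hW0 : 0 < W := by positivity
  obtain ⟨C, hC, h2⟩ := corr2 F hF g hg C₀ hC₀ hV δ hδ θ hθ M hM0 hM e he m hm W hW0
  set κ : ℝ := min (c / (4 * (2 * W) ^ m)) (c ^ 2 / (16 * C)) with hκ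
  have hκ0 : 0 < κ := lt_min (by positivity) (by positivity)
  have hκ1 : κ ≤ c / (4 * (2 * W) ^ m) := min_le_left _ _
  have hκ2 : κ ≤ c ^ 2 / (16 * C) := min_le_right _ _
  refine ⟨W, hW0, κ, hκ0, ?_⟩
  filter_upwards [h2, (LL_tendsto g hg).eventually_ge_atTop 1, hsm (c / (8 * m)) (by positivity),
    LL_small g 1 (2 * θ) (by positivity) (8 * m / c) (by positivity)] with T h3 h4 h5 h6
  obtain ⟨hbx, h7⟩ := h3
  intro Y H hH A hA hRT hlow
  set L := LL g T with hL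
  have hLpos : 0 < L := by linarith
  set r : (Fin m → ℕ) → ℝ := fun h => (((Ioc Y (Y + H)).filter (fun n => n ∈ A ∧ GapAt A h n)).card : ℝ) with hr
  have hr0 : ∀ h, 0 ≤ r h := fun h => Nat.cast_nonneg _
  set B := bx (m := m) e (fun _ => 0) (fun _ => W) L with hB
  -- second moment
  have hsec : ∑ h ∈ B, r h ^ 2 ≤ C * ((H : ℝ) ^ 2 / L ^ (m + 2)) := by
    refine le_trans (Finset.sum_le_sum ?_) (h7 Y H hH A hRT)
    intro h _
    have h8 : r h ≤ (((Ioc Y (Y + H)).filter (fun n => ∀ j ≤ m, n + parts h j ∈ A)).card : ℝ) := by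
      apply Nat.cast_le.2
      apply card_le_card
      intro n hn
      rw [mem_filter] at hn ⊢
      exact ⟨hn.1, fun j hj => hn.2.2.mem j hj⟩
    have := hr0 h
    gcongr
  -- first moment
  have hfirst : c / 2 * (H / L) ≤ ∑ h ∈ B, r h := by
    have h8 := first_mom A Y H m e (W * L) (by positivity) hA
    have h9 : (((Ioc Y (Y + H)).filter (fun n => n ∈ A ∧ ∃ h : Fin m → ℕ, (∀ i, e < h i ∧ (h i : ℝ) ≤ W * L) ∧ GapAt A h n)).card : ℝ) ≤
        ∑ h ∈ B, r h := by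
      have h10 : (Ioc Y (Y + H)).filter (fun n => n ∈ A ∧ ∃ h : Fin m → ℕ, (∀ i, e < h i ∧ (h i : ℝ) ≤ W * L) ∧ GapAt A h n) ⊆
          B.biUnion (fun h => (Ioc Y (Y + H)).filter (fun n => n ∈ A ∧ GapAt A h n)) := by
        intro n hn
        rw [mem_filter] at hn
        obtain ⟨hn1, hn2, h, hh, hg⟩ := hn
        rw [mem_biUnion]
        refine ⟨h, ?_, mem_filter.2 ⟨hn1, hn2, hg⟩⟩
        rw [hB]
        unfold bx
        rw [Fintype.mem_piFinset]
        intro i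
        rw [mem_Ioc]
        refine ⟨?_, ?_⟩
        · simp only [zero_mul, Nat.ceil_zero]
          have := (hh i).1
          omega
        · apply Nat.le_floor
          have := (hh i).2
          simpa using this
      have := (card_le_card h10).trans card_biUnion_le
      refine (Nat.cast_le.2 this).trans (le_of_eq ?_)
      rw [Nat.cast_sum]
    have h10 := h5 Y H hH A hRT
    have h11 : (m : ℝ) ≤ c / 8 * (H / L) := by
      rw [pow_one] at h6
      have h12 : 8 * m / c * L ≤ H := h6.trans hH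
      rw [mul_div_assoc', le_div_iff₀ hLpos]
      have h13 : c / 8 * (8 * m / c * L) ≤ c / 8 * H := by gcongr
      have h14 : c / 8 * (8 * m / c * L) = m * L := by field_simp
      linarith
    have h12 : (m : ℝ) * (H / (W * L)) = c / 8 * (H / L) := by
      rw [hW]
      field_simp
    have h13 : (m : ℝ) * (((Ioc Y (Y + H)).filter (fun n => n ∈ A ∧ ∃ d ∈ Icc 1 e, n + d ∈ A)).card : ℝ) ≤ c / 8 * (H / L) := by
      calc (m : ℝ) * (((Ioc Y (Y + H)).filter (fun n => n ∈ A ∧ ∃ d ∈ Icc 1 e, n + d ∈ A)).card : ℝ) ≤ m * (c / (8 * m) * (H / L)) := by gcongr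
        _ = c / 8 * (H / L) := by field_simp
    have h14 : 0 ≤ c / 8 * (H / L) := by positivity
    linarith
  -- the good vectors
  set G := B.filter (fun h => κ * (H / L ^ (m + 1)) ≤ r h) with hG
  have hsplit : ∑ h ∈ B, r h ≤ ∑ h ∈ G, r h + c / 4 * (H / L) := by
    rw [← Finset.sum_filter_add_sum_filter_not B (fun h => κ * (H / L ^ (m + 1)) ≤ r h)]
    apply add_le_add le_rfl
    have h8 : ∑ h ∈ B.filter (fun h => ¬ κ * (H / L ^ (m + 1)) ≤ r h), r h ≤ B.card * (κ * (H / L ^ (m + 1))) := by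
      rw [← nsmul_eq_mul]
      refine (Finset.sum_le_card_nsmul _ _ (κ * (H / L ^ (m + 1))) ?_).trans ?_
      · intro h hh
        have := (mem_filter.1 hh).2
        push Not at this
        exact this.le
      · rw [nsmul_eq_mul, nsmul_eq_mul]
        have : ((B.filter (fun h => ¬ κ * (H / L ^ (m + 1)) ≤ r h)).card : ℝ) ≤ B.card := by
          exact_mod_cast card_filter_le _ _
        gcongr
    refine h8.trans ?_
    calc (B.card : ℝ) * (κ * (H / L ^ (m + 1))) ≤ ((2 * W) ^ m * L ^ m) * (c / (4 * (2 * W) ^ m) * (H / L ^ (m + 1))) := by gcongr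
      _ = c / 4 * (H / L) := by
        rw [pow_succ]
        field_simp
  have hGsum : c / 4 * (H / L) ≤ ∑ h ∈ G, r h := by
    have : c / 2 * ((H : ℝ) / L) = c / 4 * (H / L) + c / 4 * (H / L) := by ring
    linarith
  have hcs : (∑ h ∈ G, r h) ^ 2 ≤ G.card * ∑ h ∈ G, r h ^ 2 := sq_sum_le_card_mul_sum_sq
  have hG2 : ∑ h ∈ G, r h ^ 2 ≤ C * ((H : ℝ) ^ 2 / L ^ (m + 2)) :=
    (Finset.sum_le_sum_of_subset_of_nonneg (filter_subset _ _) (fun _ _ _ => sq_nonneg _)).trans hsec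
  have hHpos : 0 < (H : ℝ) := by
    have : (0 : ℝ) ≤ (T : ℝ) ^ (2 * θ) := by positivity
    rcases eq_or_lt_of_le (this.trans hH) with h0 | h0
    · exfalso
      rw [pow_one] at h6
      have h8 : 0 < 8 * m / c * L := by positivity
      linarith
    · exact h0
  have hfin : (c / 4 * (H / L)) ^ 2 ≤ G.card * (C * ((H : ℝ) ^ 2 / L ^ (m + 2))) := by
    have h8 : (c / 4 * (H / L)) ^ 2 ≤ (∑ h ∈ G, r h) ^ 2 := by gcongr
    refine h8.trans (hcs.trans ?_)
    gcongr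
  have hfin2 : c ^ 2 / (16 * C) * L ^ m ≤ G.card := by
    have h9 : (c / 4 * (H / L)) ^ 2 = (c ^ 2 / (16 * C) * L ^ m) * (C * ((H : ℝ) ^ 2 / L ^ (m + 2))) := by
      rw [pow_add]
      field_simp
      ring
    rw [h9] at hfin
    exact le_of_mul_le_mul_right hfin (by positivity)
  calc κ * L ^ m ≤ c ^ 2 / (16 * C) * L ^ m := by gcongr
    _ ≤ _ := hfin2

end Pool.Agent.X69.Ric
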