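import Pool.Agent.X69.Ric.Corr

/-!
# Correlations of rough values in short intervals
-/

set_option autoImplicit false

namespace Pool.Agent.X69.Ric

open Filter Topology Finset
open Pool.Agent.Y843.HS
open Pool.Agent.X26.GP (Zf mem_Zf_mod Zf_lt Zf_card_le Zf_card_lt NF PX PX_eq)

/-- the values `F n`, `n ∈ A`, have no prime factors less than `T ^ δ` -/
def RT (F : Polynomial ℤ) (δ : ℝ) (T : ℕ) (A : Set ℕ) : Prop :=
  ∀ n ∈ A, ∀ p : ℕ, p.Prime → (p : ℝ) < (T : ℝ) ^ δ → ¬ (p : ℤ) ∣ F.eval (n : ℤ)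

theorem sieve_up' (κ : ℕ) : ∃ s₀ E : ℕ, ∀ s J : ℕ, s₀ ≤ s → ∀ Om : ℕ → Finset ℕ, Sv κ s (2 ^ 2 ^ J) Om →
    ∀ Y X : ℕ, ∀ B : Finset ℕ, (∀ x ∈ B, (Y < x ∧ x ≤ Y + X) ∧ ∀ p ∈ Pr s (2 ^ 2 ^ J), x % p ∉ Om p) →
      (B.card : ℝ) ≤
      2 * X * ∏ p ∈ Pr s (2 ^ 2 ^ J), (1 - ((Om p).card : ℝ) / p) + ((2 : ℝ) ^ 2 ^ J) ^ E := by
  classical
  obtain ⟨C, hC1, hC⟩ := Pool.Agent.Y151.HS.flc
  refine ⟨C * (κ + 1), C * (C * (κ + 1)), ?_⟩
  intro s J hs Om hOm Y X B hB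
  have h1 := hC κ (C * (κ + 1)) s J le_rfl hs Om hOm 1 0 Y X le_rfl
    (fun p hp h => by
      have := (mem_filter.1 hp).2
      exact this.one_lt.ne' (Nat.dvd_one.1 h))
  have h4 := (abs_le.1 h1).2
  rw [sub_le_iff_le_add, Nat.cast_one, div_one] at h4
  replace h4 : (B.card : ℝ) ≤ (1 / 2) ^ (C * (κ + 1)) * ((X : ℝ) * ∏ p ∈ Pr s (2 ^ 2 ^ J), (1 - ((Om p).card : ℝ) / p)) +
      (2 ^ 2 ^ J) ^ (C * (C * (κ + 1))) + (X : ℝ) * ∏ p ∈ Pr s (2 ^ 2 ^ J), (1 - ((Om p).card : ℝ) / p) := by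
    refine le_trans (Nat.cast_le.2 (card_le_filter B _ _ _ ?_)) h4
    intro x hx
    obtain ⟨⟨h5, h6⟩, h7⟩ := hB x hx
    exact ⟨mem_Ioc.2 ⟨h5, h6⟩, by rw [Nat.mod_one, Nat.mod_one], h7⟩
  have h3 : 0 ≤ ∏ p ∈ Pr s (2 ^ 2 ^ J), (1 - ((Om p).card : ℝ) / p) := by
    apply Finset.prod_nonneg
    intro p hp
    have h4 := mem_filter.1 hp
    have h5 : (0 : ℝ) < p := by exact_mod_cast h4.2.pos
    have h6 : ((Om p).card : ℝ) ≤ p := by
      have h7 : (Om p).card ≤ (range p).card := card_le_card (fun c hc => mem_range.2 ((hOm p hp).2 c hc))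
      rw [card_range] at h7
      exact_mod_cast h7
    have : ((Om p).card : ℝ) / p ≤ 1 := by rwa [div_le_one h5]
    linarith
  have h5 : (1 / 2 : ℝ) ^ (C * (κ + 1)) ≤ 1 := pow_le_one₀ (by norm_num) (by norm_num)
  have h6 : 0 ≤ (X : ℝ) * ∏ p ∈ Pr s (2 ^ 2 ^ J), (1 - ((Om p).card : ℝ) / p) := by positivity
  nlinarith

open Classical in
/-- the basic sieve bound for the correlations in an interval -/
theorem rough_count' (F : Polynomial ℤ) (hF : NF F) (δ : ℝ) (hδ : 0 < δ) (θ : ℝ) (hθ : 0 < θ) (m : ℕ) :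
    ∃ s₀ : ℕ, ∃ c : ℝ, 0 < c ∧ ∀ s : ℕ, s₀ ≤ s → ∀ᶠ T : ℕ in atTop, ∃ z : ℕ, s ≤ z ∧ 3 ≤ z ∧
      c * Real.log T ≤ Real.log z ∧ ∀ Y H : ℕ, ∀ A : Set ℕ, RT F δ T A → ∀ u : Fin (m + 1) → ℕ,
      (((Ioc Y (Y + H)).filter (fun n => ∀ j, n + u j ∈ A)).card : ℝ) ≤
        2 * H * ∏ p ∈ Pr s z, (1 - ((Om (Zf F) u p).card : ℝ) / p) + (T : ℝ) ^ θ := by
  obtain ⟨s₀, E, hE⟩ := sieve_up' ((m + 1) * F.natDegree)
  set δ' : ℝ := min (δ / 2) (θ / (E + 1)) with hδ'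
  have hδ'0 : 0 < δ' := lt_min (by linarith) (by positivity)
  refine ⟨s₀, δ' / 2, by linarith, ?_⟩
  intro s hs
  have ev : Tendsto (fun T : ℕ => (T : ℝ) ^ δ') atTop atTop :=
    (tendsto_rpow_atTop hδ'0).comp tendsto_natCast_atTop_atTop
  filter_upwards [ev.eventually_ge_atTop (((max s 4 : ℕ) : ℝ) ^ 2), eventually_ge_atTop 3] with T hT hT3
  have hTr : (3 : ℝ) ≤ T := by exact_mod_cast hT3
  have hmax4 : (4 : ℝ) ≤ ((max s 4 : ℕ) : ℝ) := by exact_mod_cast le_max_right s 4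
  obtain ⟨J, hJ1, hJ2⟩ := lev ((T : ℝ) ^ δ') (by nlinarith)
  have hzs : max s 4 ≤ 2 ^ 2 ^ J := by
    by_contra hcon
    push Not at hcon
    have h1 : ((2 ^ 2 ^ J : ℕ) : ℝ) < ((max s 4 : ℕ) : ℝ) := by exact_mod_cast hcon
    push_cast at h1 hT
    have h2 : (0 : ℝ) < (2 : ℝ) ^ 2 ^ J := by positivity
    nlinarith
  refine ⟨2 ^ 2 ^ J, (le_max_left _ _).trans hzs, by have := (le_max_right s 4).trans hzs; omega, ?_, ?_⟩
  · have h1 : Real.log ((T : ℝ) ^ δ') ≤ Real.log (((2 : ℝ) ^ 2 ^ J) ^ 2) := Real.log_le_log (by positivity) hJ2.le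
    rw [Real.log_rpow (by linarith), Real.log_pow] at h1
    push_cast at h1 ⊢
    linarith
  · intro Y H A hA u
    have h1 := hE s J hs (Om (Zf F) u) (Sv_Om (Sv_Zf F hF s _) u) Y H
      ((Ioc Y (Y + H)).filter (fun n => ∀ j, n + u j ∈ A)) (by
      intro n hn
      rw [mem_filter, mem_Ioc] at hn
      refine ⟨hn.1, ?_⟩
      intro p hp hcon
      have hpp := (mem_filter.1 hp).2
      have hple := (mem_Ioc.1 (mem_filter.1 hp).1).2
      rw [mem_Om_iff (Zf F) u hpp.pos] at hcon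
      obtain ⟨i, hi⟩ := hcon
      rw [mem_Zf_mod hpp.pos] at hi
      refine hA _ (hn.2 i) p hpp ?_ hi
      have h3 : (p : ℝ) ≤ (T : ℝ) ^ δ' := by
        have : (p : ℝ) ≤ ((2 ^ 2 ^ J : ℕ) : ℝ) := by exact_mod_cast hple
        push_cast at this
        linarith
      have h4 : (T : ℝ) ^ δ' < (T : ℝ) ^ δ := by
        apply Real.rpow_lt_rpow_of_exponent_lt (by linarith)
        have := min_le_left (δ / 2) (θ / ((E : ℝ) + 1))
        rw [← hδ'] at this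
        linarith
      linarith)
    have h4 : ((2 : ℝ) ^ 2 ^ J) ^ E ≤ (T : ℝ) ^ θ := by
      calc ((2 : ℝ) ^ 2 ^ J) ^ E ≤ ((T : ℝ) ^ δ') ^ E := by gcongr
        _ = (T : ℝ) ^ (δ' * E) := by rw [← Real.rpow_natCast, ← Real.rpow_mul (by linarith)]
        _ ≤ (T : ℝ) ^ θ := by
            apply Real.rpow_le_rpow_of_exponent_le (by linarith)
            have h5 : δ' ≤ θ / (E + 1) := min_le_right _ _
            have h6 : (0 : ℝ) ≤ E := Nat.cast_nonneg _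
            calc δ' * E ≤ θ / (E + 1) * E := by gcongr
              _ ≤ θ := by
                rw [div_mul_eq_mul_div, div_le_iff₀ (by positivity)]
                nlinarith
    linarith

open Classical in
theorem pair_bd' (F : Polynomial ℤ) (hF : NF F) (g : ℕ) (C₀ : ℝ) (hC₀ : 0 < C₀)
    (hV : ∀ z : ℕ, 3 ≤ z → PX (fun q => (Zf F q).card) z ≤ C₀ / Real.log z ^ g)
    (δ : ℝ) (hδ : 0 < δ) (θ : ℝ) (hθ : 0 < θ) (m : ℕ) :
    ∃ K s₂ : ℕ, ∀ s : ℕ, s₂ ≤ s → ∃ C₁ : ℝ, 0 < C₁ ∧ ∀ᶠ T : ℕ in atTop, ∃ z : ℕ,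
      ∀ Y H : ℕ, ∀ A : Set ℕ, RT F δ T A → ∀ u : Fin (m + 1) → ℕ,
      (((Ioc Y (Y + H)).filter (fun n => ∀ j, n + u j ∈ A)).card : ℝ) ≤
        C₁ * ((H : ℝ) / LL g T ^ (m + 1)) * Coll K (Zf F) s z u + (T : ℝ) ^ θ := by
  obtain ⟨s₀, c, hc, hcount⟩ := rough_count' F hF δ hδ θ hθ m
  obtain ⟨K, hK⟩ := Pool.Agent.Y79.HS.loc F.natDegree (m + 1)
  obtain ⟨s₁, hs₁⟩ := hK 1 one_pos
  refine ⟨K, max s₀ s₁, ?_⟩
  intro s hs
  obtain ⟨C, hC, hVs⟩ := VV_bd F hF g C₀ hC₀ hV s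
  refine ⟨2 * (C * (2 / c) ^ g) ^ (m + 1), by positivity, ?_⟩
  filter_upwards [hcount s ((le_max_left _ _).trans hs), eventually_ge_atTop 3] with T hT hT3
  obtain ⟨z, hsz, hz3, hlz, hbd⟩ := hT
  refine ⟨z, ?_⟩
  intro Y H A hA u
  refine (hbd Y H A hA u).trans ?_
  have hTr : (3 : ℝ) ≤ T := by exact_mod_cast hT3
  have hlT : 0 < Real.log T := Real.log_pos (by linarith)
  have hz3r : (3 : ℝ) ≤ z := by exact_mod_cast hz3
  have hlz0 : 0 < Real.log z := Real.log_pos (by linarith)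
  have h1 := (hs₁ s z ((le_max_right _ _).trans hs) (Zf F) (Sv_Zf F hF s z) u).2
  have hcoll : 0 ≤ Coll K (Zf F) s z u := by
    unfold Coll
    exact Finset.prod_nonneg (fun p _ => by positivity)
  have hVn : 0 ≤ VV (Zf F) s z := by
    unfold VV
    apply Finset.prod_nonneg
    intro p hp
    have hpp := (mem_filter.1 hp).2
    have h1 : ((Zf F p).card : ℝ) < p := by exact_mod_cast Zf_card_lt hF hpp
    have h2 : (0 : ℝ) < p := by exact_mod_cast hpp.pos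
    have : ((Zf F p).card : ℝ) / p < 1 := by rwa [div_lt_one h2]
    linarith
  have h2 : VV (Zf F) s z ≤ (C * (2 / c) ^ g) / LL g T := by
    refine (hVs z hsz hz3).trans ?_
    have hL : LL g T = 2 ^ g * Real.log T ^ g := by
      unfold LL
      rw [Real.log_pow]
      push_cast
      rw [mul_pow]
    rw [hL, div_le_div_iff₀ (by positivity) (by positivity)]
    have h3 : (c * Real.log T) ^ g ≤ Real.log z ^ g := by gcongr
    rw [mul_pow] at h3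
    have h4 : (2 / c) ^ g * c ^ g = 2 ^ g := by
      rw [← mul_pow]
      congr 1
      field_simp
    calc C * (2 ^ g * Real.log T ^ g) = C * (2 / c) ^ g * (c ^ g * Real.log T ^ g) := by rw [← h4]; ring
      _ ≤ C * (2 / c) ^ g * Real.log z ^ g := by gcongr
  have h3 : VV (Zf F) s z ^ (m + 1) ≤ ((C * (2 / c) ^ g) / LL g T) ^ (m + 1) := by gcongr
  have h4 : 2 * (H : ℝ) * ∏ p ∈ Pr s z, (1 - ((Om (Zf F) u p).card : ℝ) / p) ≤
      2 * (H : ℝ) * (((C * (2 / c) ^ g) / LL g T) ^ (m + 1) * Coll K (Zf F) s z u) := by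
    apply mul_le_mul_of_nonneg_left _ (by positivity)
    exact h1.trans (mul_le_mul_of_nonneg_right h3 hcoll)
  refine add_le_add (h4.trans (le_of_eq ?_)) le_rfl
  rw [div_pow]
  ring

/-- powers of `T` and of the scale -/
theorem LL_small (g k : ℕ) (a : ℝ) (ha : 0 < a) (C : ℝ) (hC : 0 < C) : ∀ᶠ T : ℕ in atTop, C * LL g T ^ k ≤ (T : ℝ) ^ a := by
  have h1 : (fun x : ℝ => Real.log x ^ (g * k)) =o[atTop] fun x => x ^ a := by
    have := isLittleO_log_rpow_rpow_atTop (s := a) ((g * k : ℕ) : ℝ) ha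
    simp only [Real.rpow_natCast] at this
    exact this
  have h2 := (h1.comp_tendsto tendsto_natCast_atTop_atTop).bound (c := 1 / (C * 2 ^ (g * k))) (by positivity)
  filter_upwards [h2, eventually_ge_atTop 3] with T h3 h4
  have hTr : (3 : ℝ) ≤ T := by exact_mod_cast h4
  have hlT : 0 < Real.log T := Real.log_pos (by linarith)
  simp only [Function.comp_apply, Real.norm_eq_abs] at h3
  rw [abs_of_nonneg (by positivity), abs_of_nonneg (by positivity)] at h3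
  have h5 : LL g T ^ k = 2 ^ (g * k) * Real.log T ^ (g * k) := by
    unfold LL
    rw [← pow_mul, Real.log_pow]
    push_cast
    rw [mul_pow]
  rw [h5]
  calc C * (2 ^ (g * k) * Real.log T ^ (g * k)) = (C * 2 ^ (g * k)) * Real.log T ^ (g * k) := by ring
    _ ≤ (C * 2 ^ (g * k)) * (1 / (C * 2 ^ (g * k)) * (T : ℝ) ^ a) := by gcongr
    _ = (T : ℝ) ^ a := by field_simp

open Classical in
/-- the second moment of the correlations over a box -/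
theorem corr2 (F : Polynomial ℤ) (hF : NF F) (g : ℕ) (hg : 1 ≤ g) (C₀ : ℝ) (hC₀ : 0 < C₀)
    (hV : ∀ z : ℕ, 3 ≤ z → PX (fun q => (Zf F q).card) z ≤ C₀ / Real.log z ^ g)
    (δ : ℝ) (hδ : 0 < δ) (θ : ℝ) (hθ : 0 < θ) (M : Polynomial ℤ) (hM0 : M ≠ 0)
    (hM : ∀ p : ℕ, p.Prime → ∀ x h : ℤ, (p : ℤ) ∣ F.eval x → (p : ℤ) ∣ F.eval (x + h) → (p : ℤ) ∣ M.eval h)
    (e : ℕ) (he : ∀ h : ℕ, e < h → M.eval (h : ℤ) ≠ 0) (m : ℕ) (hm : 1 ≤ m) (W : ℝ) (hW : 0 < W) :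
    ∃ C : ℝ, 0 < C ∧ ∀ᶠ T : ℕ in atTop,
      ((bx (m := m) e (fun _ => 0) (fun _ => W) (LL g T)).card : ℝ) ≤ (2 * W) ^ m * LL g T ^ m ∧
      ∀ Y H : ℕ, (T : ℝ) ^ (2 * θ) ≤ H → ∀ A : Set ℕ, RT F δ T A →
      ∑ h ∈ bx (m := m) e (fun _ => 0) (fun _ => W) (LL g T),
        (((Ioc Y (Y + H)).filter (fun n => ∀ j ≤ m, n + parts h j ∈ A)).card : ℝ) ^ 2 ≤
        C * ((H : ℝ) ^ 2 / LL g T ^ (m + 2)) := by
  obtain ⟨K, s₂, hpair⟩ := pair_bd' F hF g C₀ hC₀ hV δ hδ θ hθ m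
  set K₁ : ℕ := (1 + K) ^ (PP m).card with hK₁
  obtain ⟨s₁, C, hC, hbox⟩ := box_avg M hM0 ((1 + K₁) ^ 2) e g hg he
  obtain ⟨C₁, hC₁, hev⟩ := hpair (max s₁ s₂) (le_max_right _ _)
  have hlw : ∀ i : Fin m, 0 ≤ (fun _ => 0 : Fin m → ℝ) i ∧ 0 < (fun _ => W : Fin m → ℝ) i := fun i => ⟨le_rfl, hW⟩
  refine ⟨2 * C₁ ^ 2 * (PP m).card ^ 2 * C * (2 * W) ^ m + 1, by positivity, ?_⟩
  filter_upwards [hev, hbox (max s₁ s₂) (le_max_left _ _) m _ _ hlw, (LL_tendsto g hg).eventually_ge_atTop 1,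
    LL_small g (2 * m + 2) (2 * θ) (by positivity) (2 * (2 * W) ^ m) (by positivity), eventually_ge_atTop 1] with T h1 h2 h3 h4 hT1
  obtain ⟨z, hz⟩ := h1
  obtain ⟨h5, h6⟩ := h2
  set L := LL g T with hL
  have hLpos : 0 < L := by linarith
  set P : ℝ := ((PP m).card : ℝ) with hP
  have h5' : ((bx (m := m) e (fun _ => 0) (fun _ => W) L).card : ℝ) ≤ (2 * W) ^ m * L ^ m := by
    refine h5.trans (le_of_eq ?_)
    rw [prod_const, card_univ, Fintype.card_fin, mul_pow]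
  refine ⟨h5', ?_⟩
  intro Y H hH A hA
  have hT0 : (0 : ℝ) < T := by exact_mod_cast hT1
  have h7 : ∀ h ∈ bx (m := m) e (fun _ => 0) (fun _ => W) L,
      (((Ioc Y (Y + H)).filter (fun n => ∀ j ≤ m, n + parts h j ∈ A)).card : ℝ) ^ 2 ≤
      2 * (C₁ * ((H : ℝ) / L ^ (m + 1))) ^ 2 * (P * ∑ q ∈ PP m, SS M ((1 + K₁) ^ 2) (max s₁ s₂) z (parts h q.2 - parts h q.1)) +
        2 * (T : ℝ) ^ (2 * θ) := by
    intro h _
    have h8 := hz Y H A hA (fun j : Fin (m + 1) => parts h j)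
    have h9 : (Ioc Y (Y + H)).filter (fun n => ∀ j ≤ m, n + parts h j ∈ A) =
        (Ioc Y (Y + H)).filter (fun n => ∀ j : Fin (m + 1), n + parts h j ∈ A) := by
      apply filter_congr
      intro n _
      constructor
      · intro h10 j
        exact h10 j (by have := j.2; omega)
      · intro h10 j hj
        exact h10 ⟨j, by omega⟩
    rw [h9]
    set S := ∑ q ∈ PP m, SS M K₁ (max s₁ s₂) z (parts h q.2 - parts h q.1) with hS
    have h10 : (((Ioc Y (Y + H)).filter (fun n => ∀ j : Fin (m + 1), n + parts h j ∈ A)).card : ℝ) ≤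
        C₁ * ((H : ℝ) / L ^ (m + 1)) * S + (T : ℝ) ^ θ := by
      refine h8.trans (add_le_add ?_ le_rfl)
      apply mul_le_mul_of_nonneg_left (coll_le F M hM m hm K _ z h)
      positivity
    have h11 : S ^ 2 ≤ P * ∑ q ∈ PP m, SS M ((1 + K₁) ^ 2) (max s₁ s₂) z (parts h q.2 - parts h q.1) := by
      refine (sq_sum_le_card_mul_sum_sq).trans ?_
      apply mul_le_mul_of_nonneg_left _ (Nat.cast_nonneg _)
      apply Finset.sum_le_sum
      intro q _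
      exact SS_pow M K₁ _ z _ 2
    have h12 : (T : ℝ) ^ (2 * θ) = ((T : ℝ) ^ θ) ^ 2 := by
      rw [← Real.rpow_natCast, ← Real.rpow_mul hT0.le]
      congr 1
      push_cast
      ring
    rw [h12]
    have h13 : (0 : ℝ) ≤ (((Ioc Y (Y + H)).filter (fun n => ∀ j : Fin (m + 1), n + parts h j ∈ A)).card : ℝ) := Nat.cast_nonneg _
    have h14 : (((Ioc Y (Y + H)).filter (fun n => ∀ j : Fin (m + 1), n + parts h j ∈ A)).card : ℝ) ^ 2 ≤
        (C₁ * ((H : ℝ) / L ^ (m + 1)) * S + (T : ℝ) ^ θ) ^ 2 := by gcongr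
    have h15 : (C₁ * ((H : ℝ) / L ^ (m + 1)) * S + (T : ℝ) ^ θ) ^ 2 ≤
        2 * (C₁ * ((H : ℝ) / L ^ (m + 1))) ^ 2 * S ^ 2 + 2 * ((T : ℝ) ^ θ) ^ 2 := by
      nlinarith [sq_nonneg (C₁ * ((H : ℝ) / L ^ (m + 1)) * S - (T : ℝ) ^ θ)]
    have h16 : 2 * (C₁ * ((H : ℝ) / L ^ (m + 1))) ^ 2 * S ^ 2 ≤ 2 * (C₁ * ((H : ℝ) / L ^ (m + 1))) ^ 2 *
        (P * ∑ q ∈ PP m, SS M ((1 + K₁) ^ 2) (max s₁ s₂) z (parts h q.2 - parts h q.1)) :=
      mul_le_mul_of_nonneg_left h11 (by positivity)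
    linarith
  refine (Finset.sum_le_sum h7).trans ?_
  rw [Finset.sum_add_distrib, ← Finset.mul_sum, ← Finset.mul_sum, Finset.sum_comm, sum_const, nsmul_eq_mul]
  have h8 : ∑ q ∈ PP m, ∑ h ∈ bx (m := m) e (fun _ => 0) (fun _ => W) L,
      SS M ((1 + K₁) ^ 2) (max s₁ s₂) z (parts h q.2 - parts h q.1) ≤
      P * (C * ((2 * W) ^ m * L ^ m)) := by
    refine (Finset.sum_le_sum (fun q hq => h6 z q hq)).trans ?_
    rw [sum_const, nsmul_eq_mul]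
    gcongr
  have hB : ((bx (m := m) e (fun _ => 0) (fun _ => W) L).card : ℝ) * (2 * (T : ℝ) ^ (2 * θ)) ≤ (H : ℝ) ^ 2 / L ^ (m + 2) := by
    rw [le_div_iff₀ (by positivity)]
    have hTH : 0 < (T : ℝ) ^ (2 * θ) := by positivity
    calc ((bx (m := m) e (fun _ => 0) (fun _ => W) L).card : ℝ) * (2 * (T : ℝ) ^ (2 * θ)) * L ^ (m + 2) ≤
        ((2 * W) ^ m * L ^ m) * (2 * (T : ℝ) ^ (2 * θ)) * L ^ (m + 2) := by gcongr
      _ = (2 * (2 * W) ^ m * L ^ (2 * m + 2)) * (T : ℝ) ^ (2 * θ) := by ring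
      _ ≤ (T : ℝ) ^ (2 * θ) * (T : ℝ) ^ (2 * θ) := by gcongr
      _ ≤ H * H := by gcongr
      _ = (H : ℝ) ^ 2 := by ring
  calc 2 * (C₁ * ((H : ℝ) / L ^ (m + 1))) ^ 2 * (P * ∑ q ∈ PP m, ∑ h ∈ bx (m := m) e (fun _ => 0) (fun _ => W) L,
      SS M ((1 + K₁) ^ 2) (max s₁ s₂) z (parts h q.2 - parts h q.1)) +
        ((bx (m := m) e (fun _ => 0) (fun _ => W) L).card : ℝ) * (2 * (T : ℝ) ^ (2 * θ))
      ≤ 2 * (C₁ * ((H : ℝ) / L ^ (m + 1))) ^ 2 * (P * (P * (C * ((2 * W) ^ m * L ^ m)))) + (H : ℝ) ^ 2 / L ^ (m + 2) := by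
        gcongr
    _ = (2 * C₁ ^ 2 * P ^ 2 * C * (2 * W) ^ m + 1) * ((H : ℝ) ^ 2 / L ^ (m + 2)) := by
        rw [show m + 2 = m + 1 + 1 from rfl, pow_succ L (m + 1), pow_succ L m]
        field_simp

end Pool.Agent.X69.Ric
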