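import Pool.Agent.X69.Ric.PackI

/-!
# Small gaps in intervals
-/

set_option autoImplicit false

namespace Pool.Agent.X69.Ric

open Filter Topology Finset Polynomial MeasureTheory
open Pool.Agent.Y843.HS
open Pool.Agent.X26.GP (Zf mem_Zf_mod Zf_lt Zf_card_le Zf_card_lt NF PX PX_eq)

/-- the residues `c` modulo `p` with `F c` or `F (c + h)` divisible by `p` -/
def UU (F : ℤ[X]) (h p : ℕ) : Finset ℕ :=
  (range p).filter (fun c => (p : ℤ) ∣ F.eval (c : ℤ) ∨ (p : ℤ) ∣ F.eval ((c : ℤ) + h))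

/-- the difference `h` costs an additional factor `log` -/
def Exc (F : ℤ[X]) (h : ℕ) : Prop :=
  ∃ G : ℤ[X], NF G ∧ (∃ C₂ : ℝ, 0 < C₂ ∧ ∀ z : ℕ, 3 ≤ z → PX (fun q => (Zf G q).card) z ≤ C₂ / Real.log z) ∧
    ∃ p₀ : ℕ, ∀ p : ℕ, p₀ ≤ p → p.Prime → (Zf F p).card + (Zf G p).card ≤ (UU F h p).card

theorem small_aux' (g : ℕ) (θ : ℝ) (hθ : 0 < θ) (C ε : ℝ) (hC : 0 < C) (hε : 0 < ε) :
    ∀ᶠ T : ℕ in atTop, ∀ H : ℕ, (T : ℝ) ^ (2 * θ) ≤ H → C * (H : ℝ) / LL (g + 1) T + (T : ℝ) ^ θ ≤ ε * ((H : ℝ) / LL g T) := by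
  have h1 : ∀ᶠ T : ℕ in atTop, 2 * C / ε ≤ LL 1 T := (LL_tendsto 1 le_rfl).eventually_ge_atTop _
  filter_upwards [h1, LL_small g 1 θ hθ (2 / ε) (by positivity), (LL_tendsto 1 le_rfl).eventually_gt_atTop 0,
    eventually_ge_atTop 3] with T h2 h3 h4 h5 H hH
  rw [pow_one] at h3
  have hL : LL (g + 1) T = LL g T * LL 1 T := by
    unfold LL
    rw [pow_succ, pow_one]
  have hg : 0 < LL g T := by
    unfold LL at h4 ⊢
    rw [pow_one] at h4
    positivity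
  have hT0 : (0 : ℝ) < T := by exact_mod_cast (by omega : 0 < T)
  have hTθ : 0 < (T : ℝ) ^ θ := by positivity
  have h6 : C * (H : ℝ) / LL (g + 1) T ≤ ε / 2 * ((H : ℝ) / LL g T) := by
    rw [hL, div_le_iff₀ (by positivity)]
    have h7 : ε / 2 * ((H : ℝ) / LL g T) * (LL g T * LL 1 T) = ε / 2 * LL 1 T * H := by
      field_simp
    rw [h7]
    have h8 : C ≤ ε / 2 * LL 1 T := by
      rw [div_le_iff₀ hε] at h2
      linarith
    gcongr
  have h9 : (T : ℝ) ^ θ ≤ ε / 2 * ((H : ℝ) / LL g T) := by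
    rw [mul_div_assoc', le_div_iff₀ hg]
    have h10 : (T : ℝ) ^ (2 * θ) = (T : ℝ) ^ θ * (T : ℝ) ^ θ := by
      rw [two_mul, Real.rpow_add hT0]
    have h11 : ε / 2 * (2 / ε * LL g T) ≤ ε / 2 * (T : ℝ) ^ θ := by gcongr
    have h12 : ε / 2 * (2 / ε * LL g T) = LL g T := by field_simp
    rw [h12] at h11
    calc (T : ℝ) ^ θ * LL g T ≤ (T : ℝ) ^ θ * (ε / 2 * (T : ℝ) ^ θ) := by gcongr
      _ = ε / 2 * (T : ℝ) ^ (2 * θ) := by rw [h10]; ring
      _ ≤ ε / 2 * H := by gcongr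
  have h13 : ε * ((H : ℝ) / LL g T) = ε / 2 * ((H : ℝ) / LL g T) + ε / 2 * ((H : ℝ) / LL g T) := by ring
  linarith

open Classical in
theorem small_one' (F : ℤ[X]) (hF : NF F) (g : ℕ) (hg : 1 ≤ g) (C₀ : ℝ) (hC₀ : 0 < C₀)
    (hV : ∀ z : ℕ, 3 ≤ z → PX (fun q => (Zf F q).card) z ≤ C₀ / Real.log z ^ g)
    (δ : ℝ) (hδ : 0 < δ) (θ : ℝ) (hθ : 0 < θ) (M : ℤ[X])
    (hM : ∀ p : ℕ, p.Prime → ∀ x h : ℤ, (p : ℤ) ∣ F.eval x → (p : ℤ) ∣ F.eval (x + h) → (p : ℤ) ∣ M.eval h)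
    (h : ℕ) (hE : M.eval (h : ℤ) = 0 → Exc F h) (ε : ℝ) (hε : 0 < ε) :
    ∀ᶠ T : ℕ in atTop, ∀ Y H : ℕ, (T : ℝ) ^ (2 * θ) ≤ H → ∀ A : Set ℕ, RT F δ T A →
      (((Ioc Y (Y + H)).filter (fun n => n ∈ A ∧ n + h ∈ A)).card : ℝ) ≤ ε * ((H : ℝ) / LL g T) := by
  set u : Fin (1 + 1) → ℕ := fun j => parts (fun _ : Fin 1 => h) j with hu
  have hu0 : u 0 = 0 := by simp [hu, parts_zero]
  have hu1 : u 1 = h := by
    simp only [hu]
    have := parts_succ (fun _ : Fin 1 => h) 0 (by norm_num)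
    show parts (fun _ : Fin 1 => h) (0 + 1) = h
    rw [this, parts_zero, zero_add]
  have hset : ∀ Y H : ℕ, ∀ A : Set ℕ, (Ioc Y (Y + H)).filter (fun n => n ∈ A ∧ n + h ∈ A) =
      (Ioc Y (Y + H)).filter (fun n => ∀ j, n + u j ∈ A) := by
    intro Y H A
    apply filter_congr
    intro n _
    rw [Fin.forall_fin_two, hu0, hu1, add_zero]
  by_cases hMh : M.eval (h : ℤ) = 0
  · obtain ⟨G, hG, ⟨C₂, hC₂, hX⟩, p₀, hp₀⟩ := hE hMh
    obtain ⟨s₀, c, hc, hcount⟩ := rough_count' F hF δ hδ θ hθ 1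
    set s := max (max s₀ p₀) 1 with hs
    obtain ⟨C, hC, hVs⟩ := VV_bd F hF g C₀ hC₀ hV s
    obtain ⟨C₃, hC₃, hXs⟩ := VV_bd G hG 1 C₂ hC₂ (by simpa using hX) s
    filter_upwards [hcount s ((le_max_left _ _).trans (le_max_left _ _)),
      small_aux' g θ hθ (2 * (C * C₃ * (2 / c) ^ (g + 1))) ε (by positivity) hε, eventually_ge_atTop 3] with T h1 h2 h3
    obtain ⟨z, hsz, hz3, hlz, hbd⟩ := h1
    intro Y H hH A hA
    rw [hset]
    refine (hbd Y H A hA u).trans (le_trans ?_ (h2 H hH))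
    have hTr : (3 : ℝ) ≤ T := by exact_mod_cast h3
    have hlT : 0 < Real.log T := Real.log_pos (by linarith)
    have hz3r : (3 : ℝ) ≤ z := by exact_mod_cast hz3
    have hlz0 : 0 < Real.log z := Real.log_pos (by linarith)
    have h4 : ∏ p ∈ Pr s z, (1 - ((Om (Zf F) u p).card : ℝ) / p) ≤ VV (Zf F) s z * VV (Zf G) s z := by
      unfold VV
      rw [← Finset.prod_mul_distrib]
      apply Finset.prod_le_prod
      · intro p hp
        have hpp := (mem_filter.1 hp).2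
        have h5 : (0 : ℝ) < p := by exact_mod_cast hpp.pos
        have h6 : ((Om (Zf F) u p).card : ℝ) ≤ p := by
          have h7 : (Om (Zf F) u p).card ≤ (range p).card := card_le_card (filter_subset _ _)
          rw [card_range] at h7
          exact_mod_cast h7
        have : ((Om (Zf F) u p).card : ℝ) / p ≤ 1 := by rwa [div_le_one h5]
        linarith
      · intro p hp
        have hpp := (mem_filter.1 hp).2
        have hps := (mem_Ioc.1 (mem_filter.1 hp).1).1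
        have h5 : (0 : ℝ) < p := by exact_mod_cast hpp.pos
        have h5' : (1 : ℝ) ≤ p := by exact_mod_cast hpp.one_lt.le
        have h6 := hp₀ p (by
          have : p₀ ≤ s := (le_max_right _ _).trans (le_max_left _ _)
          omega) hpp
        have h7 : (UU F h p).card ≤ (Om (Zf F) u p).card := by
          apply card_le_card
          intro x hx
          unfold UU at hx
          rw [mem_filter, mem_range] at hx
          unfold Om
          rw [mem_filter, mem_range]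
          refine ⟨hx.1, ?_⟩
          rcases hx.2 with h8 | h8
          · refine ⟨0, ?_⟩
            rw [hu0, add_zero, mem_Zf_mod hpp.pos]
            exact h8
          · refine ⟨1, ?_⟩
            rw [mem_Zf_mod hpp.pos, hu1]
            push_cast
            exact h8
        have h7' : (((Zf F p).card : ℝ) + ((Zf G p).card : ℝ)) ≤ ((Om (Zf F) u p).card : ℝ) := by exact_mod_cast h6.trans h7
        have h8 : (((Zf F p).card : ℝ) + ((Zf G p).card : ℝ)) / p ≤ ((Om (Zf F) u p).card : ℝ) / p := by gcongr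
        have h9 : (1 - ((Zf F p).card : ℝ) / p) * (1 - ((Zf G p).card : ℝ) / p) =
            1 - (((Zf F p).card : ℝ) + ((Zf G p).card : ℝ)) / p + ((Zf F p).card : ℝ) / p * (((Zf G p).card : ℝ) / p) := by
          field_simp
          ring
        have h10 : 0 ≤ ((Zf F p).card : ℝ) / p * (((Zf G p).card : ℝ) / p) := by positivity
        linarith
    have h5 := hVs z hsz hz3
    have h6 := hXs z hsz hz3
    have hXn : 0 ≤ VV (Zf G) s z := by
      unfold VV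
      exact Finset.prod_nonneg (fun q hq => dens_nonneg G q (mem_filter.1 hq).2)
    have h7 : VV (Zf F) s z * VV (Zf G) s z ≤ C * C₃ * (2 / c) ^ (g + 1) / LL (g + 1) T := by
      calc VV (Zf F) s z * VV (Zf G) s z ≤ (C / Real.log z ^ g) * (C₃ / Real.log z ^ 1) :=
            mul_le_mul h5 h6 hXn (by positivity)
        _ = C * C₃ / Real.log z ^ (g + 1) := by rw [pow_one, pow_succ]; field_simp
        _ ≤ C * C₃ / (c * Real.log T) ^ (g + 1) := by gcongr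
        _ = C * C₃ * (2 / c) ^ (g + 1) / LL (g + 1) T := by
          unfold LL
          rw [Real.log_pow]
          push_cast
          rw [mul_pow, mul_pow, div_pow]
          field_simp
    have h8 : 2 * (H : ℝ) * ∏ p ∈ Pr s z, (1 - ((Om (Zf F) u p).card : ℝ) / p) ≤
        2 * (H : ℝ) * (C * C₃ * (2 / c) ^ (g + 1) / LL (g + 1) T) :=
      mul_le_mul_of_nonneg_left (h4.trans h7) (by positivity)
    refine add_le_add (h8.trans (le_of_eq ?_)) le_rfl
    ring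
  · obtain ⟨K, s₂, hpair⟩ := pair_bd' F hF g C₀ hC₀ hV δ hδ θ hθ 1
    set s := max s₂ 1 with hs
    obtain ⟨C₁, hC₁, hev⟩ := hpair s (le_max_left _ _)
    set B : ℝ := Real.exp (((1 + K) ^ (PP 1).card : ℕ) * (Real.log ((M.eval (h : ℤ)).natAbs : ℕ) / Real.log 2 / s)) with hB
    have hB0 : 0 < B := Real.exp_pos _
    filter_upwards [hev, small_aux' g θ hθ (C₁ * ((PP 1).card * B)) ε (by
      have h1 : (PP 1).Nonempty := ⟨(0, 1), by decide⟩
      have h2 : (0 : ℝ) < (PP 1).card := by exact_mod_cast h1.card_pos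
      positivity) hε, (LL_tendsto 1 le_rfl).eventually_ge_atTop 1] with T h1 h2 h3
    obtain ⟨z, hz⟩ := h1
    intro Y H hH A hA
    rw [hset]
    refine (hz Y H A hA u).trans (le_trans ?_ (h2 H hH))
    have h4 : Coll K (Zf F) s z u ≤ (PP 1).card * B := by
      refine (coll_le F M hM 1 le_rfl K s z (fun _ => h)).trans ?_
      rw [← nsmul_eq_mul, ← Finset.sum_const]
      apply Finset.sum_le_sum
      intro q hq
      have hq' : parts (fun _ : Fin 1 => h) q.2 - parts (fun _ : Fin 1 => h) q.1 = h := by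
        unfold PP at hq
        rw [mem_filter, mem_product, mem_range, mem_range] at hq
        have e1 : q.1 = 0 := by omega
        have e2 : q.2 = 1 := by omega
        rw [e1, e2]
        have h5 := hu0
        have h6 := hu1
        simp only [hu] at h5 h6
        have h7 : parts (fun _ : Fin 1 => h) 0 = 0 := parts_zero _
        have h8 : parts (fun _ : Fin 1 => h) 1 = h := h6
        rw [h7, h8]
        rfl
      rw [hq']
      have h5 : SS M ((1 + K) ^ (PP 1).card) s z h =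
          ∏ p ∈ (Pr s z).filter (fun p => p ∣ (M.eval (h : ℤ)).natAbs), (1 + (((1 + K) ^ (PP 1).card : ℕ) : ℝ) / p) := by
        unfold SS
        congr 1
        apply filter_congr
        intro p _
        exact Int.natCast_dvd
      rw [h5]
      exact large_part _ _ s z (Int.natAbs_ne_zero.2 hMh) (le_max_right _ _) _ le_rfl
    apply add_le_add _ le_rfl
    have hLg : 1 ≤ LL g T := by
      unfold LL at h3 ⊢
      rw [pow_one] at h3
      exact one_le_pow₀ h3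
    have hL1 : LL (g + 1) T ≤ LL g T ^ (1 + 1) := by
      unfold LL at h3 ⊢
      rw [pow_one] at h3
      rw [← pow_mul]
      apply pow_le_pow_right₀ h3
      omega
    have hLp : 0 < LL (g + 1) T := by
      unfold LL at h3 ⊢
      rw [pow_one] at h3
      positivity
    have hcoll : 0 ≤ Coll K (Zf F) s z u := by
      unfold Coll
      exact Finset.prod_nonneg (fun p _ => by positivity)
    calc C₁ * ((H : ℝ) / LL g T ^ (1 + 1)) * Coll K (Zf F) s z u ≤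
        C₁ * ((H : ℝ) / LL (g + 1) T) * ((PP 1).card * B) := by gcongr
      _ = _ := by ring

/-- **small gaps are rare in intervals** -/
theorem small_int (F : ℤ[X]) (hF : NF F) (g : ℕ) (hg : 1 ≤ g) (C₀ : ℝ) (hC₀ : 0 < C₀)
    (hV : ∀ z : ℕ, 3 ≤ z → PX (fun q => (Zf F q).card) z ≤ C₀ / Real.log z ^ g)
    (δ : ℝ) (hδ : 0 < δ) (M : ℤ[X])
    (hM : ∀ p : ℕ, p.Prime → ∀ x h : ℤ, (p : ℤ) ∣ F.eval x → (p : ℤ) ∣ F.eval (x + h) → (p : ℤ) ∣ M.eval h)
    (hE : ∀ h : ℕ, 1 ≤ h → M.eval (h : ℤ) = 0 → Exc F h) (e : ℕ) :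
    ∀ θ' : ℝ, 0 < θ' → ∀ ε : ℝ, 0 < ε → ∀ᶠ T : ℕ in atTop, ∀ Y H : ℕ, (T : ℝ) ^ (2 * θ') ≤ H → ∀ A : Set ℕ, RT F δ T A →
      (((@Finset.filter ℕ (fun n => n ∈ A ∧ ∃ d ∈ Icc 1 e, n + d ∈ A) (Classical.decPred _) (Ioc Y (Y + H)))).card : ℝ) ≤ ε * (H / LL g T) := by
  classical
  intro θ hθ ε hε
  have h1 : ∀ᶠ T : ℕ in atTop, ∀ h ∈ Icc 1 e, ∀ Y H : ℕ, (T : ℝ) ^ (2 * θ) ≤ H → ∀ A : Set ℕ, RT F δ T A →
      (((Ioc Y (Y + H)).filter (fun n => n ∈ A ∧ n + h ∈ A)).card : ℝ) ≤ ε / (e + 1) * ((H : ℝ) / LL g T) := by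
    rw [Filter.eventually_all_finset]
    intro h hh
    exact small_one' F hF g hg C₀ hC₀ hV δ hδ θ hθ M hM h (hE h (mem_Icc.1 hh).1) _ (by positivity)
  filter_upwards [h1, (LL_tendsto 1 le_rfl).eventually_gt_atTop 0] with T h2 h3 Y H hH A hA
  have h4 : (@Finset.filter ℕ (fun n => n ∈ A ∧ ∃ d ∈ Icc 1 e, n + d ∈ A) (Classical.decPred _) (Ioc Y (Y + H))) ⊆
      (Icc 1 e).biUnion (fun h => (Ioc Y (Y + H)).filter (fun n => n ∈ A ∧ n + h ∈ A)) := by
    intro n hn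
    obtain ⟨hn1, hn2, h, hh, hn3⟩ := (mem_filt _ _ _ _).1 hn
    rw [mem_biUnion]
    exact ⟨h, hh, mem_filter.2 ⟨hn1, hn2, hn3⟩⟩
  have h5 : (((@Finset.filter ℕ (fun n => n ∈ A ∧ ∃ d ∈ Icc 1 e, n + d ∈ A) (Classical.decPred _) (Ioc Y (Y + H)))).card : ℝ) ≤
      ∑ h ∈ Icc 1 e, (((Ioc Y (Y + H)).filter (fun n => n ∈ A ∧ n + h ∈ A)).card : ℝ) := by
    have := (card_le_card h4).trans card_biUnion_le
    exact_mod_cast this
  refine h5.trans ((Finset.sum_le_sum (fun h hh => h2 h hh Y H hH A hA)).trans ?_)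
  rw [sum_const, nsmul_eq_mul, Nat.card_Icc, Nat.add_sub_cancel]
  have hL : 0 < LL g T := by
    unfold LL at h3 ⊢
    rw [pow_one] at h3
    positivity
  have h6 : (e : ℝ) * (ε / (e + 1)) ≤ ε := by
    rw [mul_div_assoc', div_le_iff₀ (by positivity)]
    nlinarith
  calc (e : ℝ) * (ε / (e + 1) * ((H : ℝ) / LL g T)) = (e : ℝ) * (ε / (e + 1)) * ((H : ℝ) / LL g T) := by ring
    _ ≤ ε * ((H : ℝ) / LL g T) := by gcongr

open Classical in
/-- **limit points of the normalised gaps**, general exceptional differences -/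
theorem main' (F : ℤ[X]) (hF : NF F) (g : ℕ) (hg : 1 ≤ g) (C₀ : ℝ) (hC₀ : 0 < C₀)
    (hV : ∀ z : ℕ, 3 ≤ z → PX (fun q => (Zf F q).card) z ≤ C₀ / Real.log z ^ g)
    (M : ℤ[X]) (hM0 : M ≠ 0)
    (hM : ∀ p : ℕ, p.Prime → ∀ x h : ℤ, (p : ℤ) ∣ F.eval x → (p : ℤ) ∣ F.eval (x + h) → (p : ℤ) ∣ M.eval h)
    (hE : ∀ h : ℕ, 1 ≤ h → M.eval (h : ℤ) = 0 → Exc F h)
    (δ : ℝ) (hδ : 0 < δ) (A : Set ℕ) (hA : RV F δ A) (c : ℝ) (hc : 0 < c)
    (hlow : ∀ᶠ X : ℕ in atTop, c * X / Real.log X ^ g ≤ ((Icc 1 X).filter (· ∈ A)).card)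
    (m : ℕ) (hm : 1 ≤ m) :
    0 < volume {t : Fin m → ℝ | MapClusterPt t atTop (fun (k : ℕ) (i : Fin m) => gap A g (k + i))} := by
  obtain ⟨e, he⟩ := zeros_bd M hM0
  obtain ⟨C, hC, hcorr⟩ := corr_bd F hF g hg C₀ hC₀ hV δ hδ M hM0 hM e he m hm
  refine lim_of_corr A g m e hg hm c C hc hC hlow ?_ (hcorr A hA)
  intro ε hε
  filter_upwards [small_int F hF g hg C₀ hC₀ hV δ hδ M hM hE e (1 / 4) (by norm_num) (ε / 2) (by positivity),
    eventually_ge_atTop 3, (LL_tendsto 1 le_rfl).eventually_gt_atTop 0] with T h1 h2 h3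
  have hL : 0 < LL g T := by
    unfold LL at h3 ⊢
    rw [pow_one] at h3
    positivity
  have hTr : (3 : ℝ) ≤ T := by exact_mod_cast h2
  have hT2 : T ≤ T ^ 2 := by nlinarith
  set A' : Set ℕ := {n | n ∈ A ∧ T ≤ n} with hA'
  have hRT : RT F δ T A' := by
    intro n hn p hp hlt
    refine hA n hn.1 p hp (lt_of_lt_of_le hlt ?_)
    apply Real.rpow_le_rpow (by positivity) _ hδ.le
    exact_mod_cast hn.2
  have h4 := h1 (T - 1) (T ^ 2 - (T - 1)) (by
    have h5 : ((T ^ 2 - (T - 1) : ℕ) : ℝ) = (T : ℝ) ^ 2 - ((T : ℝ) - 1) := by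
      rw [Nat.cast_sub (by omega), Nat.cast_sub (by omega)]
      push_cast
      ring
    rw [h5]
    have h6 : (T : ℝ) ^ (2 * (1 / 4) : ℝ) ≤ (T : ℝ) ^ (1 : ℝ) :=
      Real.rpow_le_rpow_of_exponent_le (by linarith) (by norm_num)
    rw [Real.rpow_one] at h6
    nlinarith) A' hRT
  have h5 : (Icc T (T ^ 2)).filter (fun n => n ∈ A ∧ ∃ h ∈ Icc 1 e, n + h ∈ A) ⊆
      (@Finset.filter ℕ (fun n => n ∈ A' ∧ ∃ d ∈ Icc 1 e, n + d ∈ A') (Classical.decPred _) (Ioc (T - 1) ((T - 1) + (T ^ 2 - (T - 1))))) := by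
    intro n hn
    rw [mem_filter, mem_Icc] at hn
    obtain ⟨⟨hn1, hn2⟩, hn3, h, hh, hn4⟩ := hn
    refine (mem_filt _ _ _ _).2 ⟨mem_Ioc.2 ⟨by omega, by omega⟩, ⟨hn3, hn1⟩, h, hh, hn4, ?_⟩
    omega
  refine (Nat.cast_le.2 (card_le_card h5)).trans (h4.trans ?_)
  have h6 : ((T ^ 2 - (T - 1) : ℕ) : ℝ) ≤ (T : ℝ) ^ 2 := by
    have : T ^ 2 - (T - 1) ≤ T ^ 2 := Nat.sub_le _ _
    exact_mod_cast this
  calc ε / 2 * (((T ^ 2 - (T - 1) : ℕ) : ℝ) / LL g T) ≤ ε / 2 * ((T : ℝ) ^ 2 / LL g T) := by gcongr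
    _ ≤ ε * ((T : ℝ) ^ 2 / LL g T) := by
      apply mul_le_mul_of_nonneg_right _ (by positivity)
      linarith

end Pool.Agent.X69.Ric
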