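import Pool.Agent.X69.Ric.Small
import Pool.Agent.W123.RU.Poly

/-!
# Systems of irreducible polynomials
-/

set_option autoImplicit false

namespace Pool.Agent.X69.Ric

open Filter Topology Finset Polynomial MeasureTheory
open Pool.Agent.Y843.HS
open Pool.Agent.W123.RU.Poly (Sys)
open Pool.Agent.X26.GP (Zf mem_Zf_mod Zf_lt Zf_card_le Zf_card_lt NF PX PX_eq)

variable {g : ℕ} (f : Fin g → ℤ[X])

/-- the product of the system -/
noncomputable def SF (f : Fin g → ℤ[X]) : ℤ[X] := ∏ i, f i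

theorem SF_dvd (n : ℤ) (p : ℕ) (hp : p.Prime) : (p : ℤ) ∣ (SF f).eval n ↔ ∃ i, (p : ℤ) ∣ (f i).eval n := by
  unfold SF
  rw [eval_prod, Prime.dvd_finset_prod_iff (Nat.prime_iff_prime_int.1 hp)]
  simp

theorem sys_NF (hf : Sys f) : NF (SF f) := by
  intro p hp
  obtain ⟨m, hm⟩ := hf.adm p hp
  refine ⟨m, ?_⟩
  rw [SF_dvd f _ p hp]
  push Not
  exact hm

theorem sys_NFi (hf : Sys f) (i : Fin g) : NF (f i) := by
  intro p hp
  obtain ⟨m, hm⟩ := hf.adm p hp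
  exact ⟨m, hm i⟩

theorem sys_up (hf : Sys f) :
    ∃ C₀ : ℝ, 0 < C₀ ∧ ∀ z : ℕ, 3 ≤ z → PX (fun q => (Zf (SF f) q).card) z ≤ C₀ / Real.log z ^ g := by
  classical
  obtain ⟨p₁, hp₁⟩ := Pool.Agent.W123.RU.Poly.exists_p1 f hf
  apply PX_prod g f hf.irr hf.deg (sys_NFi f hf) (SF f) (p₁ + 1)
  intro p hp hpp
  have hd : ∀ i j : Fin g, i ≠ j → Disjoint (Zf (f i) p) (Zf (f j) p) := by
    intro i j hij
    rw [disjoint_left]
    intro x hx hx'
    unfold Zf at hx hx'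
    exact hp₁ p hpp (by omega) i j hij x (mem_filter.1 hx).2 (mem_filter.1 hx').2
  rw [← Finset.card_biUnion (fun i _ j _ hij => hd i j hij)]
  apply card_le_card
  intro x hx
  rw [mem_biUnion] at hx
  obtain ⟨i, -, hi⟩ := hx
  unfold Zf at hi ⊢
  rw [mem_filter] at hi ⊢
  exact ⟨hi.1, (SF_dvd f _ p hpp).2 ⟨i, hi.2⟩⟩

/-- the collision polynomial of the system -/
theorem sys_coll (hf : Sys f) : ∃ M : ℤ[X], M ≠ 0 ∧
    ∀ p : ℕ, p.Prime → ∀ x h : ℤ, (p : ℤ) ∣ (SF f).eval x → (p : ℤ) ∣ (SF f).eval (x + h) → (p : ℤ) ∣ M.eval h := by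
  obtain ⟨R, hR0, hR⟩ := Pool.Agent.W123.RU.Poly.exists_R f hf
  refine ⟨R, hR0, ?_⟩
  intro p hp x h h1 h2
  rw [SF_dvd f _ p hp] at h1 h2
  obtain ⟨i, hi⟩ := h1
  obtain ⟨j, hj⟩ := h2
  exact hR h x p i j hi hj

/-- some translate is new -/
theorem sys_new (hg : 1 ≤ g) (hf : Sys f) (h : ℕ) (hh : 1 ≤ h) : ∃ i, ∀ j, f j ≠ (f i).comp (X + C (h : ℤ)) := by
  by_contra hcon
  push Not at hcon
  set i₀ : Fin g := ⟨0, by omega⟩ with hi₀
  have h1 : ∀ k : ℕ, ∃ j, f j = (f i₀).comp (X + C ((k * h : ℕ) : ℤ)) := by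
    intro k
    induction k with
    | zero => exact ⟨i₀, by simp⟩
    | succ k ih =>
      obtain ⟨j, hj⟩ := ih
      obtain ⟨l, hl⟩ := hcon j
      refine ⟨l, ?_⟩
      rw [hl, hj, comp_assoc]
      congr 1
      simp only [add_comp, X_comp, C_comp]
      rw [add_assoc, ← C_add]
      congr 2
      push_cast
      ring
  set P : ℝ[X] := (f i₀).map (Int.castRingHom ℝ) with hP
  have hinj : Function.Injective (Int.castRingHom ℝ) := RingHom.injective_int _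
  have hdeg : 0 < P.degree := by
    rw [← natDegree_pos_iff_degree_pos, hP, natDegree_map_eq_of_injective hinj]
    exact hf.deg i₀
  have hlead : 0 ≤ P.leadingCoeff := by
    rw [hP, leadingCoeff_map_of_injective hinj]
    have := hf.lead i₀
    simp only [eq_intCast]
    exact_mod_cast this.le
  have htend := P.tendsto_atTop_of_leadingCoeff_nonneg hdeg hlead
  have h2 : Tendsto (fun k : ℕ => ((k * h : ℕ) : ℝ)) atTop atTop := by
    apply tendsto_natCast_atTop_atTop.comp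
    exact tendsto_id.atTop_mul_const' (by omega)
  have h3 := (htend.comp h2).eventually_gt_atTop (∑ j, |(((f j).eval 0 : ℤ) : ℝ)|)
  obtain ⟨k, hk⟩ := h3.exists
  obtain ⟨j, hj⟩ := h1 k
  have h4 : P.eval ((k * h : ℕ) : ℝ) = (((f j).eval 0 : ℤ) : ℝ) := by
    rw [hj, eval_comp]
    simp only [eval_add, eval_X, eval_C, zero_add]
    rw [hP, eval_map]
    have := Polynomial.eval₂_at_apply (p := f i₀) (Int.castRingHom ℝ) (((k * h : ℕ) : ℤ))
    simp only [eq_intCast, Int.cast_natCast] at this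
    exact this
  have h5 : |(((f j).eval 0 : ℤ) : ℝ)| ≤ ∑ j, |(((f j).eval 0 : ℤ) : ℝ)| :=
    Finset.single_le_sum (f := fun j => |(((f j).eval 0 : ℤ) : ℝ)|) (fun _ _ => abs_nonneg _) (mem_univ j)
  have h6 := le_abs_self (((f j).eval 0 : ℤ) : ℝ)
  simp only [Function.comp_apply] at hk
  rw [h4] at hk
  linarith

theorem sys_exc (hg : 1 ≤ g) (hf : Sys f) (h : ℕ) (hh : 1 ≤ h) : Exc (SF f) h := by
  classical
  obtain ⟨i, hi⟩ := sys_new f hg hf h hh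
  have hcirr := Pool.Agent.W149.CS.comp_irred (f i) (hf.irr i) (h : ℤ)
  have hcdeg : 0 < ((f i).comp (X + C (h : ℤ))).natDegree := by
    rw [Pool.Agent.W149.CS.comp_natDegree]
    exact hf.deg i
  refine ⟨(f i).comp (X + C (h : ℤ)), ?_, PX_irr _ hcirr hcdeg, ?_⟩
  · intro p hp
    obtain ⟨m, hm⟩ := hf.adm p hp
    refine ⟨(m : ℤ) - h, ?_⟩
    rw [eval_comp]
    simp only [eval_add, eval_X, eval_C, sub_add_cancel]
    exact hm i
  · choose R hR1 hR2 using fun j : Fin g => Pool.Agent.W123.RU.Poly.ncolR (f j) (f i) (hf.irr j) (hf.irr i) (hf.deg j) (hf.deg i)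
      (hf.lead j) (hf.lead i)
    refine ⟨1 + ∑ j, ((R j).eval (h : ℤ)).natAbs, ?_⟩
    intro p hp hpp
    have hdis : Disjoint (Zf (SF f) p) (Zf ((f i).comp (X + C (h : ℤ))) p) := by
      rw [disjoint_left]
      intro x hx hx'
      unfold Zf at hx hx'
      rw [mem_filter, SF_dvd f _ p hpp] at hx
      rw [mem_filter, eval_comp] at hx'
      simp only [eval_add, eval_X, eval_C] at hx'
      obtain ⟨-, j, hj⟩ := hx
      have h1 := hR2 j h x p hj hx'.2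
      have h2 := hR1 j h (hi j)
      have h3 := Int.natAbs_le_of_dvd_ne_zero h1 h2
      rw [Int.natAbs_natCast] at h3
      have h4 : ((R j).eval (h : ℤ)).natAbs ≤ ∑ j, ((R j).eval (h : ℤ)).natAbs :=
        Finset.single_le_sum (f := fun j => ((R j).eval (h : ℤ)).natAbs) (fun _ _ => Nat.zero_le _) (mem_univ j)
      omega
    rw [← card_union_of_disjoint hdis]
    apply card_le_card
    intro x hx
    rw [mem_union] at hx
    unfold UU
    unfold Zf at hx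
    rw [mem_filter]
    rcases hx with hx | hx
    · rw [mem_filter] at hx
      exact ⟨hx.1, Or.inl hx.2⟩
    · rw [mem_filter, eval_comp] at hx
      simp only [eval_add, eval_X, eval_C] at hx
      refine ⟨hx.1, Or.inr ?_⟩
      rw [SF_dvd f _ p hpp]
      exact ⟨i, hx.2⟩

/-- **limit points** for systems -/
theorem sys_gaps (hg : 1 ≤ g) (hf : Sys f) (A : Set ℕ) (δ : ℝ) (hδ : 0 < δ)
    (hA : ∀ n ∈ A, ∀ i, ∀ p : ℕ, p.Prime → (p : ℤ) ∣ (f i).eval (n : ℤ) → (n : ℝ) ^ δ ≤ p) (hM : Many g A)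
    (m : ℕ) (hm : 1 ≤ m) : 0 < volume {t : Fin m → ℝ | MapClusterPt t atTop (gapv g A m)} := by
  classical
  obtain ⟨C₀, hC₀, hV⟩ := sys_up f hf
  obtain ⟨M, hM0, hMc⟩ := sys_coll f hf
  obtain ⟨c, hc, hlow⟩ := (many_iff g A).1 hM
  exact main' (SF f) (sys_NF f hf) g hg C₀ hC₀ hV M hM0 hMc (fun h hh _ => sys_exc f hg hf h hh) δ hδ A (by
    intro n hn p hp hlt hdvd
    obtain ⟨i, hi⟩ := (SF_dvd f _ p hp).1 hdvd
    exact absurd (hA n hn i p hp hi) (not_le.2 hlt)) c hc hlow m hm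

/-- **energy and pair correlations** for systems -/
theorem sys_ppc (hg : 2 ≤ g) (hf : Sys f) (A : Set ℕ) (δ : ℝ) (hδ : 0 < δ)
    (hA : ∀ n ∈ A, ∀ i, ∀ p : ℕ, p.Prime → (p : ℤ) ∣ (f i).eval (n : ℤ) → (n : ℝ) ^ δ ≤ p) (hM : Many g A) :
    (∃ C : ℝ, 0 < C ∧ ∀ᶠ N : ℕ in atTop, (energyN A N : ℝ) ≤ C * ((N : ℝ) ^ 3 / Real.log N ^ g)) ∧
      ∀ᵐ α : ℝ, PPC A α := by
  classical
  obtain ⟨C₀, hC₀, hV⟩ := sys_up f hf
  obtain ⟨M, hM0, hMc⟩ := sys_coll f hf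
  obtain ⟨c, hc, hlow⟩ := (many_iff g A).1 hM
  have hRV : RV (SF f) δ A := by
    intro n hn p hp hlt hdvd
    obtain ⟨i, hi⟩ := (SF_dvd f _ p hp).1 hdvd
    exact absurd (hA n hn i p hp hi) (not_le.2 hlt)
  refine ⟨?_, ppc (SF f) (sys_NF f hf) g hg C₀ hC₀ hV δ hδ M hM0 hMc A hRV c hc hlow⟩
  obtain ⟨-, C, hC, h⟩ := energy_bd (SF f) (sys_NF f hf) g (by omega) C₀ hC₀ hV δ hδ M hM0 hMc A hRV c hc hlow
  refine ⟨C, hC, h.mono (fun N hN => ?_)⟩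
  refine le_trans (le_of_eq ?_) hN
  unfold energyN
  congr 2
  apply filter_congr
  intro p _
  exact_mod_cast Iff.rfl

/-- **gap vectors of the right frequency in short intervals** for systems -/
theorem sys_right (hg : 1 ≤ g) (hf : Sys f) (δ θ c : ℝ) (hδ : 0 < δ) (hθ : 0 < θ) (hc : 0 < c) (m : ℕ) (hm : 1 ≤ m) :
    ∃ K : ℝ, 0 < K ∧ ∃ κ : ℝ, 0 < κ ∧ ∀ᶠ X : ℕ in atTop, ∀ Z Y : ℕ, (X : ℝ) ^ θ ≤ Y →
      ∀ A : Set ℕ, A ⊆ Set.Ioc Z (Z + Y) →
      (∀ n ∈ A, ∀ i, ∀ p : ℕ, p.Prime → (p : ℤ) ∣ (f i).eval (n : ℤ) → (X : ℝ) ^ δ ≤ p) →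
      c * Y / Real.log X ^ g ≤ (A.ncard : ℝ) →
      κ * Real.log X ^ (g * m) ≤ (({h : Fin m → ℕ | (∀ i, 0 < h i ∧ (h i : ℝ) ≤ K * Real.log X ^ g) ∧
        κ * Y / Real.log X ^ (g * (m + 1)) ≤ (({n | n ∈ A ∧ NG A h n}.ncard : ℕ) : ℝ)}.ncard : ℕ) : ℝ) := by
  obtain ⟨C₀, hC₀, hV⟩ := sys_up f hf
  obtain ⟨M, hM0, hMc⟩ := sys_coll f hf
  obtain ⟨e, he⟩ := zeros_bd M hM0
  obtain ⟨K, hK, κ, hκ, h⟩ := right_pack (SF f) (sys_NF f hf) g hg C₀ hC₀ hV δ hδ θ hθ M hM0 hMc e he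
    (small_int (SF f) (sys_NF f hf) g hg C₀ hC₀ hV δ hδ M hMc (fun h hh _ => sys_exc f hg hf h hh) e) m hm c hc
  refine ⟨K, hK, κ, hκ, ?_⟩
  filter_upwards [h] with X hX Z Y hXY A hA hRT hlow
  exact hX Z Y hXY A hA (by
    intro n hn p hp hlt hdvd
    obtain ⟨i, hi⟩ := (SF_dvd f _ p hp).1 hdvd
    exact absurd (hRT n hn i p hp hi) (not_le.2 hlt)) hlow

end Pool.Agent.X69.Ric
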