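import Pool.Agent.X69.Ric.Sys

/-!
# Almost prime values of systems of polynomials, at integers and at primes
-/

set_option autoImplicit false

namespace Pool.Agent.X69.Ric

open Filter Topology Finset Polynomial MeasureTheory
open Pool.Agent.W123.RU.Poly (Sys)

variable {g : ℕ} (f : Fin g → ℤ[X])

/-- the almost prime set of the system -/
def AA (r : ℕ) : Set ℕ :=
  {n | ∀ i, ArithmeticFunction.cardFactors ((f i).eval (n : ℤ)).natAbs ≤ r ∧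
    ∀ p : ℕ, p.Prime → (p : ℤ) ∣ (f i).eval (n : ℤ) → (n : ℝ) ^ (1 / (r : ℝ)) < p}

/-- the primes at which the values are almost primes -/
def AP (r : ℕ) : Set ℕ := {n | n.Prime ∧ n ∈ AA f r}

theorem many_dyadic (A : Set ℕ) (k : ℕ) (κ : ℝ) (hκ : 0 < κ)
    (h : ∀ᶠ X : ℕ in atTop, κ * X / Real.log X ^ k ≤ Pool.Agent.TH977.PW.N A X (2 * X)) : Many k A := by
  classical
  rw [many_iff]
  refine ⟨κ / 4, by positivity, ?_⟩
  have ht : Tendsto (fun X : ℕ => X / 2) atTop atTop := Nat.tendsto_div_const_atTop (by norm_num)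
  filter_upwards [ht.eventually h, eventually_ge_atTop 8] with X hX h8
  have hXr : (8 : ℝ) ≤ X := by exact_mod_cast h8
  have h1 : (X : ℝ) / 4 ≤ ((X / 2 : ℕ) : ℝ) := by
    have : X ≤ 4 * (X / 2) := by omega
    have h2 : (X : ℝ) ≤ 4 * ((X / 2 : ℕ) : ℝ) := by exact_mod_cast this
    linarith
  have hX2 : (2 : ℝ) ≤ ((X / 2 : ℕ) : ℝ) := by linarith
  have hl1 : 0 < Real.log ((X / 2 : ℕ) : ℝ) := Real.log_pos (by linarith)
  have hl2 : Real.log ((X / 2 : ℕ) : ℝ) ≤ Real.log X := by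
    apply Real.log_le_log (by linarith)
    exact_mod_cast Nat.div_le_self X 2
  have h3 : κ / 4 * X / Real.log X ^ k ≤ κ * ((X / 2 : ℕ) : ℝ) / Real.log ((X / 2 : ℕ) : ℝ) ^ k := by
    have h4 : κ / 4 * X ≤ κ * ((X / 2 : ℕ) : ℝ) := by
      calc κ / 4 * X = κ * (X / 4) := by ring
        _ ≤ _ := by gcongr
    gcongr
  refine h3.trans (hX.trans ?_)
  unfold Pool.Agent.TH977.PW.N
  apply Nat.cast_le.2
  apply card_le_card
  intro n hn
  obtain ⟨h5, h6⟩ := (mem_filt _ _ _ _).1 hn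
  rw [mem_Ioc] at h5
  exact mem_filter.2 ⟨mem_Icc.2 ⟨by omega, by omega⟩, h6⟩

theorem sys_almost_short [NeZero g] (hf : Sys f) (θ : ℝ) (hθ : 0 < θ) (hθ1 : θ ≤ 1) :
    ∃ r₀ : ℕ, 2 ≤ r₀ ∧ ∀ r : ℕ, r₀ ≤ r → ∃ κ : ℝ, 0 < κ ∧ ∀ᶠ X : ℕ in atTop, ∀ Y : ℕ, (X : ℝ) ^ θ ≤ Y → Y ≤ X →
      κ * Y / Real.log X ^ g ≤ (((Set.Ioc X (X + Y) ∩ AA f r).ncard : ℕ) : ℝ) := by
  classical
  obtain ⟨r₀, hr₀, h⟩ := Pool.Agent.TH977.PW.final f hf
    (fun r => {n | Pool.Agent.TH977.PW.Rough f r n}) (fun r => AA f r) g (by simp)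
    (fun r n _ h => h) (fun r n _ h1 h2 i => ⟨by
      rw [ArithmeticFunction.cardFactors_apply]
      exact h2 i, fun p hp hdvd => h1 i p hp hdvd⟩) θ hθ hθ1
  refine ⟨r₀, hr₀, fun r hr => ?_⟩
  obtain ⟨κ, hκ, h1⟩ := (h r hr).1
  refine ⟨κ, hκ, ?_⟩
  filter_upwards [h1] with X hX Y hXY hYX
  refine (hX Y hXY hYX).trans (le_of_eq ?_)
  unfold Pool.Agent.TH977.PW.N
  rw [← Set.ncard_coe_finset]
  congr 2
  ext n
  constructor
  · intro h
    have h3 := (mem_filt _ _ _ _).1 (Finset.mem_coe.1 h)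
    exact ⟨mem_Ioc.1 h3.1, h3.2⟩
  · intro h
    exact Finset.mem_coe.2 ((mem_filt _ _ _ _).2 ⟨mem_Ioc.2 h.1, h.2⟩)

theorem sys_almost [NeZero g] (hf : Sys f) : ∃ r₀ : ℕ, 2 ≤ r₀ ∧ ∀ r : ℕ, r₀ ≤ r → Many g (AA f r) := by
  classical
  obtain ⟨r₀, hr₀, h⟩ := Pool.Agent.TH977.PW.final f hf
    (fun r => {n | Pool.Agent.TH977.PW.Rough f r n}) (fun r => AA f r) g (by simp)
    (fun r n _ h => h) (fun r n _ h1 h2 i => ⟨by
      rw [ArithmeticFunction.cardFactors_apply]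
      exact h2 i, fun p hp hdvd => h1 i p hp hdvd⟩) 1 one_pos le_rfl
  refine ⟨r₀, hr₀, fun r hr => ?_⟩
  obtain ⟨κ, hκ, h1⟩ := (h r hr).1
  apply many_dyadic _ _ κ hκ
  filter_upwards [h1] with X hX
  have := hX X (by simp) le_rfl
  rwa [← two_mul] at this

/-- **prime arguments** -/
theorem sys_prime (hirr : ∀ i, Irreducible (f i)) (hdeg : ∀ i, 0 < (f i).natDegree)
    (hlead : ∀ i, 0 < (f i).leadingCoeff) (hinj : Function.Injective f) (hX : ∀ i, f i ≠ X)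
    (hadm : ∀ p : ℕ, p.Prime → ∃ m : ℕ, ¬ p ∣ m ∧ ∀ i, ¬ (p : ℤ) ∣ (f i).eval (m : ℤ)) :
    ∃ r₀ : ℕ, 2 ≤ r₀ ∧ ∀ r : ℕ, r₀ ≤ r → Many (g + 1) (AP f r) := by
  classical
  obtain ⟨r₀, hr₀, h⟩ := Pool.Agent.TH977.PW.final_prime f hirr hdeg hlead hinj hX hadm
    (fun r => {n | Pool.Agent.TH977.PW.RoughX f r n}) (fun r => AP f r) (g + 1) (by simp)
    (fun r n _ h => h) (fun r n _ hp h1 h2 => ⟨hp, fun i => ⟨by
      rw [ArithmeticFunction.cardFactors_apply]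
      exact h2 i, fun p hp hdvd => h1 i p hp hdvd⟩⟩) 1 one_pos le_rfl
  refine ⟨r₀, hr₀, fun r hr => ?_⟩
  obtain ⟨κ, hκ, h1⟩ := (h r hr).1
  exact many_dyadic _ _ κ hκ h1

/-- the system with the identity in front -/
noncomputable def cX (f : Fin g → ℤ[X]) : Fin (g + 1) → ℤ[X] := Fin.cons X f

theorem cX_sys (hirr : ∀ i, Irreducible (f i)) (hdeg : ∀ i, 0 < (f i).natDegree)
    (hlead : ∀ i, 0 < (f i).leadingCoeff) (hinj : Function.Injective f) (hX : ∀ i, f i ≠ X)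
    (hadm : ∀ p : ℕ, p.Prime → ∃ m : ℕ, ¬ p ∣ m ∧ ∀ i, ¬ (p : ℤ) ∣ (f i).eval (m : ℤ)) : Sys (cX f) := by
  refine ⟨?_, ?_, ?_, ?_, ?_⟩
  · intro i
    refine Fin.cases ?_ (fun i => ?_) i
    · exact irreducible_X
    · exact hirr i
  · intro i
    refine Fin.cases ?_ (fun i => ?_) i
    · show 0 < (X : ℤ[X]).natDegree
      simp
    · exact hdeg i
  · intro i
    refine Fin.cases ?_ (fun i => ?_) i
    · show 0 < (X : ℤ[X]).leadingCoeff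
      simp
    · exact hlead i
  · unfold cX
    rw [Fin.cons_injective_iff]
    exact ⟨fun ⟨i, hi⟩ => hX i hi, hinj⟩
  · intro p hp
    obtain ⟨m, h1, h2⟩ := hadm p hp
    refine ⟨m, fun i => ?_⟩
    refine Fin.cases ?_ (fun i => ?_) i
    · show ¬ (p : ℤ) ∣ (X : ℤ[X]).eval (m : ℤ)
      rw [eval_X]
      exact_mod_cast h1
    · exact h2 i

end Pool.Agent.X69.Ric
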